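import Pool.Agent.Lib.MP_fe1391_co.Tame.Stmts2

/-!
# Tame arrangements: from arrays to the definitions of the problem
-/

set_option autoImplicit false

namespace Pool.Agent.Lib.MP_fe1391_co.Tame.Assemble

open MvPolynomial

universe u

/-- The space of logarithmic `p`-derivations that are homogeneous of degree `k`. -/
noncomputable def MDeg (K : Type u) [Field K] {ℓ : ℕ} (A : Finset (Submodule K (Fin ℓ → K)))
    (p k : ℕ) : Submodule K
      (AlternatingMap K (MvPolynomial (Fin ℓ) K) (MvPolynomial (Fin ℓ) K) (Fin p)) :=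
  Submodule.span K
    {θ : AlternatingMap K (MvPolynomial (Fin ℓ) K) (MvPolynomial (Fin ℓ) K) (Fin p) |
      (∀ (v : Fin p → MvPolynomial (Fin ℓ) K) (j : Fin p) (u w : MvPolynomial (Fin ℓ) K),
          θ (Function.update v j (u * w)) =
            u * θ (Function.update v j w) + w * θ (Function.update v j u)) ∧
      (∀ H ∈ A, ∀ a : Module.Dual K (Fin ℓ → K), LinearMap.ker a = H →
          ∀ (v : Fin p → MvPolynomial (Fin ℓ) K) (j : Fin p),
            v j = (∑ i : Fin ℓ, MvPolynomial.C (a (Pi.single i 1)) * MvPolynomial.X i) →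
            (∑ i : Fin ℓ, MvPolynomial.C (a (Pi.single i 1)) * MvPolynomial.X i) ∣ θ v) ∧
      (∀ w : Fin p → Fin ℓ, (θ (fun j => MvPolynomial.X (w j))).IsHomogeneous k)}

/-- the module of logarithmic derivations -/
noncomputable def LDer (K : Type u) [Field K] {ℓ : ℕ} (A : Finset (Submodule K (Fin ℓ → K))) :
    Submodule (MvPolynomial (Fin ℓ) K)
      (Derivation K (MvPolynomial (Fin ℓ) K) (MvPolynomial (Fin ℓ) K)) :=
  Submodule.span (MvPolynomial (Fin ℓ) K)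
    {θ : Derivation K (MvPolynomial (Fin ℓ) K) (MvPolynomial (Fin ℓ) K) |
      ∀ H ∈ A, ∀ a : Module.Dual K (Fin ℓ → K), LinearMap.ker a = H →
        (∑ i : Fin ℓ, MvPolynomial.C (a (Pi.single i 1)) * MvPolynomial.X i) ∣
          θ (∑ i : Fin ℓ, MvPolynomial.C (a (Pi.single i 1)) * MvPolynomial.X i)}

/-- `Ψ(A; x, -1)` -/
noncomputable def Psi (K : Type u) [Field K] {ℓ : ℕ} (A : Finset (Submodule K (Fin ℓ → K))) :
    PowerSeries ℤ :=
  ∑ p ∈ Finset.range (ℓ + 1),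
    PowerSeries.mk (fun k : ℕ => ((Module.finrank K (MDeg K A p k) : ℕ) : ℤ)) *
      (-PowerSeries.X) ^ p

theorem assemble (hMain : stMain.{u}) (hAuto : stAuto.{u}) (hFwd : stFwd.{u}) (hPal : stPal)
    (hTr : stTrans2.{u}) (K : Type u) [Field K] (ℓ : ℕ) (A : Finset (Submodule K (Fin ℓ → K)))
    (hA : ∀ H ∈ A, ∃ a : Module.Dual K (Fin ℓ → K), a ≠ 0 ∧ LinearMap.ker a = H)
    (htame : ∀ p, 3 ≤ p → p < ℓ → CategoryTheory.HasProjectiveDimensionLE
      (ModuleCat.of (MvPolynomial (Fin ℓ) K) (MDer K A p)) (ℓ - p)) :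
    List.TFAE [Module.Free (MvPolynomial (Fin ℓ) K) (LDer K A),
      ∃ f : Polynomial ℤ, f ≠ 0 ∧ f.reverse = f ∧ (f : PowerSeries ℤ) = Psi K A,
      ∃ d : Fin ℓ → ℕ, Psi K A = ∏ i, ∑ j ∈ Finset.range (d i + 1), PowerSeries.X ^ j] := by
  obtain ⟨B, hB, h1, h2, h3⟩ := hTr K ℓ A hA
  have hPsi : Psi K A = ∑ p ∈ Finset.range (ℓ + 1),
      (PowerSeries.mk fun k : ℕ => ((Module.finrank K
        (Hm grS (fun _ : (Fin p → Fin ℓ) => 0) (k : ℤ) ⊓
        (LogA (S K ℓ) B p).restrictScalars K : Submodule K ((Fin p → Fin ℓ) → S K ℓ)) : ℕ) : ℤ)) *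
        (-PowerSeries.X) ^ p := by
    unfold Psi
    refine Finset.sum_congr rfl fun p _ => ?_
    congr 2
    funext k
    rw [← h2 p k]
    rfl
  rw [hPsi]
  have hfree : Module.Free (MvPolynomial (Fin ℓ) K) (LDer K A) ↔
      Module.Free (S K ℓ) (LogA (S K ℓ) B 1) := h3.symm
  rw [hfree]
  have tame : ∀ p ≤ ℓ, CategoryTheory.HasProjectiveDimensionLE
      (ModuleCat.of (S K ℓ) (LogA (S K ℓ) B p)) (ℓ - p) := by
    intro p hp
    by_cases hc : p ≤ 2 ∨ p = ℓ
    · exact hAuto K ℓ B hB p hp hc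
    · push Not at hc
      have h4 := htame p (by omega) (by omega)
      obtain ⟨e⟩ := h1 p
      exact ModuleCat.hasProjectiveDimensionLE_of_linearEquiv
        (M := ModuleCat.of (MvPolynomial (Fin ℓ) K) (MDer K A p))
        (N := ModuleCat.of (S K ℓ) (LogA (S K ℓ) B p)) e _
  tfae_have 1 → 3 := fun h => hFwd K ℓ B hB h
  tfae_have 3 → 2 := by
    rintro ⟨d, hd⟩
    obtain ⟨f, hf0, hf1, hf2⟩ := hPal ℓ d
    exact ⟨f, hf0, hf1, by rw [hf2, hd]⟩
  tfae_have 2 → 1 := by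
    rintro ⟨f, hf0, hf1, hf2⟩
    exact hMain K ℓ B hB tame f hf0 hf1 hf2
  tfae_finish

end Pool.Agent.Lib.MP_fe1391_co.Tame.Assemble
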