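import Pool.Agent.Lib.MP_fe1391_co.Tame.Stmts

/-!
# Tame arrangements: further statements (automatic part of tameness, free arrangements)
-/

set_option autoImplicit false

namespace Pool.Agent.Lib.MP_fe1391_co.Tame

open MvPolynomial

universe u

/-! ### S. The automatic part of tameness -/

/-- S1 (Hilbert's syzygy theorem). -/
def stSyzygy : Prop :=
  ∀ (K : Type u) [Field K] (ℓ : ℕ) (M : Type u) [AddCommGroup M] [Module (S K ℓ) M],
    CategoryTheory.HasProjectiveDimensionLE (ModuleCat.of (S K ℓ) M) ℓ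

/-- S2 (tameness is automatic for `p ≤ 2` and for `p = ℓ`). -/
def stAuto : Prop :=
  ∀ (K : Type u) [Field K] (ℓ : ℕ) (B : Finset (Fin ℓ → K)), Norm B → ∀ p ≤ ℓ,
    (p ≤ 2 ∨ p = ℓ) → CategoryTheory.HasProjectiveDimensionLE
      (ModuleCat.of (S K ℓ) (LogA (S K ℓ) B p)) (ℓ - p)

/-! ### T. Free arrangements -/

/-- homogeneous logarithmic vector fields whose coefficient determinant is a nonzero multiple of
the defining polynomial -/
structure IsSaito {K : Type u} [Field K] {ℓ : ℕ} (B : Finset (Fin ℓ → K)) (d : Fin ℓ → ℕ)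
    (θ : Matrix (Fin ℓ) (Fin ℓ) (S K ℓ)) : Prop where
  hom : ∀ i j, (θ i j).IsHomogeneous (d i)
  log : ∀ i, ∀ b ∈ B, lin b ∣ ∑ j, C (b j) * θ i j
  det : ∃ c : K, c ≠ 0 ∧ θ.det = C c * Qof B

/-- T1 (Saito: a free arrangement has a homogeneous basis with determinant `c Q`). -/
def stSaito : Prop :=
  ∀ (K : Type u) [Field K] (ℓ : ℕ) (B : Finset (Fin ℓ → K)), Norm B →
    Module.Free (S K ℓ) (LogA (S K ℓ) B 1) → ∃ (d : Fin ℓ → ℕ) (θ : Matrix (Fin ℓ) (Fin ℓ) (S K ℓ)),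
      IsSaito B d θ

/-- the `p × p` minor of `θ` with rows `I 0, ..., I (p-1)` and columns `w 0, ..., w (p-1)` -/
noncomputable def minor {K : Type u} [Field K] {ℓ : ℕ} (θ : Matrix (Fin ℓ) (Fin ℓ) (S K ℓ)) {p : ℕ}
    (I : Fin p ↪o Fin ℓ) (w : Fin p → Fin ℓ) : S K ℓ :=
  (θ.submatrix I w).det

/-- T2 (the minors form a basis of `D^p`). -/
def stMinors : Prop :=
  ∀ (K : Type u) [Field K] (ℓ : ℕ) (B : Finset (Fin ℓ → K)), Norm B →
    ∀ (d : Fin ℓ → ℕ) (θ : Matrix (Fin ℓ) (Fin ℓ) (S K ℓ)), IsSaito B d θ → ∀ p : ℕ,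
    (∀ I : Fin p ↪o Fin ℓ, minor θ I ∈ LogA (S K ℓ) B p) ∧
    LinearIndependent (S K ℓ) (fun I : Fin p ↪o Fin ℓ => minor θ I) ∧
    ∀ a ∈ LogA (S K ℓ) B p, ∃ f : (Fin p ↪o Fin ℓ) → S K ℓ, a = ∑ I, f I • minor θ I

/-- T3 (Hilbert series of `D^p` from the minors). -/
def stHilbP : Prop :=
  ∀ (K : Type u) [Field K] (ℓ : ℕ) (B : Finset (Fin ℓ → K)), Norm B →
    ∀ (d : Fin ℓ → ℕ) (θ : Matrix (Fin ℓ) (Fin ℓ) (S K ℓ)), IsSaito B d θ → ∀ p : ℕ,
    (PowerSeries.mk fun k : ℕ => ((Module.finrank K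
        (Hm grS (fun _ : (Fin p → Fin ℓ) => 0) (k : ℤ) ⊓
        (LogA (S K ℓ) B p).restrictScalars K : Submodule K ((Fin p → Fin ℓ) → S K ℓ)) : ℕ) : ℤ)) *
        (1 - PowerSeries.X) ^ ℓ =
      ∑ I ∈ Finset.powersetCard p (Finset.univ : Finset (Fin ℓ)), PowerSeries.X ^ (∑ i ∈ I, d i)

/-- T4 (free arrangements have the product form). -/
def stFwd : Prop :=
  ∀ (K : Type u) [Field K] (ℓ : ℕ) (B : Finset (Fin ℓ → K)), Norm B →
    Module.Free (S K ℓ) (LogA (S K ℓ) B 1) → ∃ d : Fin ℓ → ℕ,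
    ∑ p ∈ Finset.range (ℓ + 1),
      (PowerSeries.mk fun k : ℕ => ((Module.finrank K
        (Hm grS (fun _ : (Fin p → Fin ℓ) => 0) (k : ℤ) ⊓
        (LogA (S K ℓ) B p).restrictScalars K : Submodule K ((Fin p → Fin ℓ) → S K ℓ)) : ℕ) : ℤ)) *
        (-PowerSeries.X) ^ p =
      ∏ i, ∑ j ∈ Finset.range (d i + 1), (PowerSeries.X : PowerSeries ℤ) ^ j

/-- T5 (product form implies palindromic). -/
def stPal : Prop :=
  ∀ (ℓ : ℕ) (d : Fin ℓ → ℕ), ∃ f : Polynomial ℤ, f ≠ 0 ∧ f.reverse = f ∧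
    (f : PowerSeries ℤ) = ∏ i, ∑ j ∈ Finset.range (d i + 1), (PowerSeries.X : PowerSeries ℤ) ^ j

/-- H2' (`stTrans` with an equivalence in the last clause). -/
def stTrans2 : Prop :=
  ∀ (K : Type u) [Field K] (ℓ : ℕ) (A : Finset (Submodule K (Fin ℓ → K))),
    (∀ H ∈ A, ∃ a : Module.Dual K (Fin ℓ → K), a ≠ 0 ∧ LinearMap.ker a = H) →
    ∃ B : Finset (Fin ℓ → K), Norm B ∧
      (∀ p, Nonempty (MDer K A p ≃ₗ[MvPolynomial (Fin ℓ) K] LogA (S K ℓ) B p)) ∧
      (∀ p (k : ℕ), Module.finrank K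
          (Submodule.span K
            {θ : AlternatingMap K (MvPolynomial (Fin ℓ) K) (MvPolynomial (Fin ℓ) K) (Fin p) |
              (∀ (v : Fin p → MvPolynomial (Fin ℓ) K) (j : Fin p)
                  (u w : MvPolynomial (Fin ℓ) K),
                  θ (Function.update v j (u * w)) =
                    u * θ (Function.update v j w) + w * θ (Function.update v j u)) ∧
              (∀ H ∈ A, ∀ a : Module.Dual K (Fin ℓ → K), LinearMap.ker a = H →
                  ∀ (v : Fin p → MvPolynomial (Fin ℓ) K) (j : Fin p),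
                    v j = (∑ i : Fin ℓ, MvPolynomial.C (a (Pi.single i 1)) * MvPolynomial.X i) →
                    (∑ i : Fin ℓ, MvPolynomial.C (a (Pi.single i 1)) * MvPolynomial.X i) ∣
                      θ v) ∧
              (∀ w : Fin p → Fin ℓ,
                  (θ (fun j => MvPolynomial.X (w j))).IsHomogeneous k)}) =
        Module.finrank K (Hm grS (fun _ : (Fin p → Fin ℓ) => 0) (k : ℤ) ⊓
          (LogA (S K ℓ) B p).restrictScalars K : Submodule K ((Fin p → Fin ℓ) → S K ℓ))) ∧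
      (Module.Free (S K ℓ) (LogA (S K ℓ) B 1) ↔
        Module.Free (MvPolynomial (Fin ℓ) K)
          (Submodule.span (MvPolynomial (Fin ℓ) K)
            {θ : Derivation K (MvPolynomial (Fin ℓ) K) (MvPolynomial (Fin ℓ) K) |
              ∀ H ∈ A, ∀ a : Module.Dual K (Fin ℓ → K), LinearMap.ker a = H →
                (∑ i : Fin ℓ, MvPolynomial.C (a (Pi.single i 1)) * MvPolynomial.X i) ∣
                  θ (∑ i : Fin ℓ, MvPolynomial.C (a (Pi.single i 1)) * MvPolynomial.X i)}))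

end Pool.Agent.Lib.MP_fe1391_co.Tame
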