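import Mathlib
import Pool.Agent.Lib.MP_fe1391_co.Tame.Stmts2

/-!
# H2: translation of the definitions of the problem
-/

set_option autoImplicit false

namespace Pool.Agent.Lib.MP_fe1391_co.Tame.Trans

open MvPolynomial

universe u

variable {K : Type u} [Field K] {ℓ : ℕ}

/-! ### linear forms and normal vectors -/

theorem lin_smul (c : K) (b : Fin ℓ → K) : lin (c • b) = C c * lin b := by
  unfold lin
  rw [Finset.mul_sum]
  refine Finset.sum_congr rfl fun i _ => ?_
  rw [Pi.smul_apply, smul_eq_mul, C_mul, mul_assoc]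

theorem lin_smul_dvd {c : K} (hc : c ≠ 0) {b : Fin ℓ → K} {f : S K ℓ} (h : lin b ∣ f) :
    lin (c • b) ∣ f := by
  rw [lin_smul]
  have h1 : IsUnit (C c : S K ℓ) := (isUnit_iff_ne_zero.2 hc).map C
  exact h1.mul_left_dvd.2 h

/-- the coefficient vector of a linear form -/
def vec (a : Module.Dual K (Fin ℓ → K)) : Fin ℓ → K := fun i => a (Pi.single i 1)

theorem vec_smul (c : K) (a : Module.Dual K (Fin ℓ → K)) : vec (c • a) = c • vec a := rfl

theorem vec_inj {a b : Module.Dual K (Fin ℓ → K)} (h : vec a = vec b) : a = b := by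
  apply LinearMap.pi_ext'
  intro i
  apply LinearMap.ext_ring
  exact congrFun h i

theorem smul_of_ker {a b : Module.Dual K (Fin ℓ → K)} (hb : b ≠ 0)
    (h : LinearMap.ker a = LinearMap.ker b) : ∃ c : K, c ≠ 0 ∧ a = c • b := by
  obtain ⟨x, hx⟩ : ∃ x, b x ≠ 0 := by
    by_contra hcon
    push Not at hcon
    exact hb (LinearMap.ext hcon)
  have hax : a x ≠ 0 := by
    intro h0
    have : x ∈ LinearMap.ker a := h0
    rw [h] at this
    exact hx this
  refine ⟨a x / b x, div_ne_zero hax hx, ?_⟩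
  apply LinearMap.ext
  intro y
  have h1 : y - (b y / b x) • x ∈ LinearMap.ker b := by
    rw [LinearMap.mem_ker, map_sub, map_smul, smul_eq_mul, div_mul_cancel₀ _ hx, sub_self]
  rw [← h, LinearMap.mem_ker, map_sub, map_smul, smul_eq_mul, sub_eq_zero] at h1
  rw [h1, LinearMap.smul_apply, smul_eq_mul]
  field_simp

/-- normal vectors of an arrangement -/
theorem exists_normals (A : Finset (Submodule K (Fin ℓ → K)))
    (hA : ∀ H ∈ A, ∃ a : Module.Dual K (Fin ℓ → K), a ≠ 0 ∧ LinearMap.ker a = H) :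
    ∃ B : Finset (Fin ℓ → K), Norm B ∧ ∀ P : (Fin ℓ → K) → Prop,
      (∀ (c : K) (b : Fin ℓ → K), c ≠ 0 → P b → P (c • b)) →
      ((∀ H ∈ A, ∀ a : Module.Dual K (Fin ℓ → K), LinearMap.ker a = H → P (vec a)) ↔
        ∀ b ∈ B, P b) := by
  classical
  choose f hf0 hf using hA
  refine ⟨A.attach.image fun H => vec (f H.1 H.2), ⟨?_, ?_⟩, ?_⟩
  · intro b hb
    obtain ⟨H, _, rfl⟩ := Finset.mem_image.1 hb
    intro h
    exact hf0 H.1 H.2 (vec_inj (h.trans rfl))
  · intro a ha b hb hab c hc
    obtain ⟨H, _, rfl⟩ := Finset.mem_image.1 ha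
    obtain ⟨H', _, rfl⟩ := Finset.mem_image.1 hb
    have h1 : f H'.1 H'.2 = c • f H.1 H.2 := vec_inj hc
    have hc0 : c ≠ 0 := by
      rintro rfl
      rw [zero_smul] at h1
      exact hf0 _ _ h1
    apply hab
    have h2 : H.1 = H'.1 := by
      rw [← hf H.1 H.2, ← hf H'.1 H'.2, h1, LinearMap.ker_smul _ _ hc0]
    have h3 : H = H' := Subtype.ext h2
    rw [h3]
  · intro P hP
    constructor
    · intro h b hb
      obtain ⟨H, _, rfl⟩ := Finset.mem_image.1 hb
      exact h H.1 H.2 _ (hf _ _)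
    · intro h H hH a ha
      obtain ⟨c, hc, hac⟩ := smul_of_ker (hf0 H hH) (ha.trans (hf H hH).symm)
      rw [hac, vec_smul]
      exact hP _ _ hc (h _ (Finset.mem_image.2 ⟨⟨H, hH⟩, Finset.mem_attach _ _, rfl⟩))

/-! ### derivations -/

theorem der_formula (D : Derivation K (S K ℓ) (S K ℓ)) (f : S K ℓ) :
    D f = ∑ i, pderiv i f * D (X i) := by
  induction f using MvPolynomial.induction_on with
  | C a =>
    rw [← algebraMap_eq, Derivation.map_algebraMap]
    refine (Finset.sum_eq_zero fun i _ => ?_).symm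
    rw [Derivation.map_algebraMap, zero_mul]
  | add p q hp hq =>
    simp only [map_add, add_mul, Finset.sum_add_distrib, hp, hq]
  | mul_X p j hp =>
    rw [Derivation.leibniz, hp]
    simp only [Derivation.leibniz, smul_eq_mul, add_mul, Finset.sum_add_distrib, Finset.mul_sum]
    congr 1
    · rw [Finset.sum_eq_single j]
      · rw [pderiv_X_self, mul_one]
      · intro i _ hij
        rw [pderiv_X_of_ne hij.symm, mul_zero, zero_mul]
      · intro h
        exact absurd (Finset.mem_univ j) h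
    · exact Finset.sum_congr rfl fun i _ => (mul_assoc _ _ _).symm

theorem der_lin (D : Derivation K (S K ℓ) (S K ℓ)) (b : Fin ℓ → K) :
    D (lin b) = ∑ i, C (b i) * D (X i) := by
  unfold lin
  rw [map_sum]
  refine Finset.sum_congr rfl fun i _ => ?_
  rw [← smul_eq_C_mul, Derivation.map_smul, smul_eq_C_mul]

/-! ### alternating multiderivations -/

/-- Leibniz rule in each argument -/
def Leib {p : ℕ} (θ : AlternatingMap K (S K ℓ) (S K ℓ) (Fin p)) : Prop :=
  ∀ (v : Fin p → S K ℓ) (j : Fin p) (u w : S K ℓ),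
    θ (Function.update v j (u * w)) = u * θ (Function.update v j w) + w * θ (Function.update v j u)

/-- the logarithmic condition at one normal vector -/
def LogAt {p : ℕ} (θ : AlternatingMap K (S K ℓ) (S K ℓ) (Fin p)) (b : Fin ℓ → K) : Prop :=
  ∀ (v : Fin p → S K ℓ) (j : Fin p), v j = lin b → lin b ∣ θ v

theorem Leib.add {p : ℕ} {θ θ' : AlternatingMap K (S K ℓ) (S K ℓ) (Fin p)} (h : Leib θ)
    (h' : Leib θ') : Leib (θ + θ') := by
  intro v j u w
  simp only [AlternatingMap.add_apply, h v j u w, h' v j u w]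
  ring

theorem Leib.sub {p : ℕ} {θ θ' : AlternatingMap K (S K ℓ) (S K ℓ) (Fin p)} (h : Leib θ)
    (h' : Leib θ') : Leib (θ - θ') := by
  intro v j u w
  simp only [AlternatingMap.sub_apply, h v j u w, h' v j u w]
  ring

theorem Leib.zero {p : ℕ} : Leib (0 : AlternatingMap K (S K ℓ) (S K ℓ) (Fin p)) := by
  intro v j u w
  simp

theorem Leib.smul {p : ℕ} {θ : AlternatingMap K (S K ℓ) (S K ℓ) (Fin p)} (h : Leib θ)
    (c : S K ℓ) : Leib (c • θ) := by
  intro v j u w
  simp only [AlternatingMap.smul_apply, h v j u w, smul_eq_mul]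
  ring

theorem Leib.ksmul {p : ℕ} {θ : AlternatingMap K (S K ℓ) (S K ℓ) (Fin p)} (h : Leib θ)
    (c : K) : Leib (c • θ) := by
  intro v j u w
  simp only [AlternatingMap.smul_apply, h v j u w, smul_add, mul_smul_comm]

theorem map_lin {p : ℕ} (θ : AlternatingMap K (S K ℓ) (S K ℓ) (Fin p)) (v : Fin p → S K ℓ)
    (j : Fin p) (b : Fin ℓ → K) : θ (Function.update v j (lin b)) =
      ∑ i, C (b i) * θ (Function.update v j (X i)) := by
  have h : ∀ u : S K ℓ, θ (Function.update v j u) = θ.toMultilinearMap.toLinearMap v j u :=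
    fun u => rfl
  unfold lin
  rw [h, map_sum]
  refine Finset.sum_congr rfl fun i _ => ?_
  rw [← smul_eq_C_mul, map_smul, ← h, smul_eq_C_mul]

theorem map_C_mul {p : ℕ} (θ : AlternatingMap K (S K ℓ) (S K ℓ) (Fin p)) (v : Fin p → S K ℓ)
    (j : Fin p) (c : K) (f : S K ℓ) : θ (Function.update v j (C c * f)) =
      C c * θ (Function.update v j f) := by
  rw [← smul_eq_C_mul, ← smul_eq_C_mul]
  exact θ.map_update_smul v j c f

theorem LogAt.scale {p : ℕ} {θ : AlternatingMap K (S K ℓ) (S K ℓ) (Fin p)} (c : K)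
    (b : Fin ℓ → K) (hc : c ≠ 0) (h : LogAt θ b) : LogAt θ (c • b) := by
  intro v j hv
  apply lin_smul_dvd hc
  have h1 : v = Function.update v j (C c * lin b) := by
    rw [← lin_smul, ← hv, Function.update_eq_self]
  rw [h1, map_C_mul]
  exact Dvd.dvd.mul_left (h _ j (Function.update_self _ _ _)) _

/-- the derivation obtained by freezing all arguments but one -/
noncomputable def der {p : ℕ} {θ : AlternatingMap K (S K ℓ) (S K ℓ) (Fin p)} (h : Leib θ)
    (v : Fin p → S K ℓ) (j : Fin p) : Derivation K (S K ℓ) (S K ℓ) :=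
  Derivation.mk' (θ.toMultilinearMap.toLinearMap v j) fun u w => by
    simp only [MultilinearMap.toLinearMap_apply, smul_eq_mul]
    exact h v j u w

theorem der_apply {p : ℕ} {θ : AlternatingMap K (S K ℓ) (S K ℓ) (Fin p)} (h : Leib θ)
    (v : Fin p → S K ℓ) (j : Fin p) (u : S K ℓ) : der h v j u = θ (Function.update v j u) := rfl

/-- a multiderivation is determined by its values on the variables; more generally, all values
with a fixed argument `g` at the place `j₀` lie in an ideal if those with variables elsewhere do -/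
theorem leib_ideal {p : ℕ} {θ : AlternatingMap K (S K ℓ) (S K ℓ) (Fin p)} (hθ : Leib θ)
    (I : Ideal (S K ℓ)) (J : Set (Fin p)) (g : Fin p → S K ℓ)
    (h : ∀ v : Fin p → S K ℓ, (∀ j ∈ J, v j = g j) → (∀ j ∉ J, ∃ i, v j = X i) → θ v ∈ I)
    (v : Fin p → S K ℓ) (hv : ∀ j ∈ J, v j = g j) : θ v ∈ I := by
  have key : ∀ m : ℕ, m ≤ p → ∀ v : Fin p → S K ℓ, (∀ j ∈ J, v j = g j) →
      (∀ j : Fin p, m ≤ (j : ℕ) → j ∉ J → ∃ i, v j = X i) → θ v ∈ I := by
    intro m
    induction m with
    | zero =>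
      intro _ v hv hv'
      exact h v hv fun j hj => hv' j (Nat.zero_le _) hj
    | succ m ih =>
      intro hm v hv hv'
      let j : Fin p := ⟨m, by omega⟩
      by_cases hj : j ∈ J
      · refine ih (by omega) v hv fun j' hj' hJ => ?_
        have hne : j' ≠ j := fun e => hJ (e ▸ hj)
        have : (j' : ℕ) ≠ m := fun h => hne (Fin.ext h)
        exact hv' j' (by omega) hJ
      · have h2 := der_apply hθ v j (v j)
        rw [Function.update_eq_self, der_formula] at h2
        rw [← h2]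
        refine Ideal.sum_mem _ fun i _ => Ideal.mul_mem_left _ _ ?_
        rw [der_apply]
        refine ih (by omega) _ (fun j' hj' => ?_) fun j' hj' hJ => ?_
        · have hne : j' ≠ j := fun e => hj (e ▸ hj')
          rw [Function.update_of_ne hne]
          exact hv j' hj'
        · by_cases hjj : j' = j
          · exact ⟨i, by rw [hjj, Function.update_self]⟩
          · rw [Function.update_of_ne hjj]
            have : (j' : ℕ) ≠ m := fun h => hjj (Fin.ext h)
            exact hv' j' (by omega) hJ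
  exact key p le_rfl v hv fun j hj => absurd j.2 (not_lt.2 hj)

theorem leib_zero {p : ℕ} {θ : AlternatingMap K (S K ℓ) (S K ℓ) (Fin p)} (hθ : Leib θ)
    (h : ∀ w : Fin p → Fin ℓ, θ (fun j => X (w j)) = 0) : θ = 0 := by
  refine AlternatingMap.ext fun v => ?_
  rw [AlternatingMap.zero_apply]
  have := leib_ideal hθ ⊥ ∅ 0 (fun v _ hv => ?_) v (by simp)
  · exact this
  · choose w hw using fun j => hv j (Set.notMem_empty j)
    have e : v = fun j => X (w j) := funext hw
    rw [e, h w]
    exact Ideal.zero_mem _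

/-! ### the array of a multiderivation -/

/-- the array of values on the variables -/
noncomputable def phi (p : ℕ) : AlternatingMap K (S K ℓ) (S K ℓ) (Fin p) →ₗ[S K ℓ]
    ((Fin p → Fin ℓ) → S K ℓ) where
  toFun θ w := θ (fun j => X (w j))
  map_add' _ _ := rfl
  map_smul' _ _ := rfl

theorem phi_apply {p : ℕ} (θ : AlternatingMap K (S K ℓ) (S K ℓ) (Fin p)) (w : Fin p → Fin ℓ) :
    phi p θ w = θ (fun j => X (w j)) := rfl

/-- the array of values on the variables, as a `K`-linear map -/
noncomputable def phiK (p : ℕ) : AlternatingMap K (S K ℓ) (S K ℓ) (Fin p) →ₗ[K]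
    ((Fin p → Fin ℓ) → S K ℓ) where
  toFun θ := phi p θ
  map_add' _ _ := rfl
  map_smul' _ _ := rfl

theorem X_update {p : ℕ} (w : Fin p → Fin ℓ) (j : Fin p) (i : Fin ℓ) :
    (fun k => (X (Function.update w j i k) : S K ℓ)) =
      Function.update (fun k => X (w k)) j (X i) := by
  funext k
  by_cases hk : k = j
  · subst hk
    rw [Function.update_self, Function.update_self]
  · rw [Function.update_of_ne hk, Function.update_of_ne hk]

theorem isAlt_phi {p : ℕ} (θ : AlternatingMap K (S K ℓ) (S K ℓ) (Fin p)) : IsAlt (phi p θ) := by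
  refine ⟨fun w hw => ?_, fun w i j hij => ?_⟩
  · rw [phi_apply]
    apply AlternatingMap.map_eq_zero_of_not_injective
    intro h
    apply hw
    intro i j hij
    apply h
    simp only [hij]
  · rw [phi_apply, phi_apply]
    exact θ.map_swap (fun k => X (w k)) hij

theorem phi_lin {p : ℕ} (θ : AlternatingMap K (S K ℓ) (S K ℓ) (Fin p)) (w : Fin p → Fin ℓ)
    (j : Fin p) (b : Fin ℓ → K) : ∑ i, C (b i) * phi p θ (Function.update w j i) =
      θ (Function.update (fun k => X (w k)) j (lin b)) := by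
  rw [map_lin]
  refine Finset.sum_congr rfl fun i _ => ?_
  rw [phi_apply, X_update]

theorem logAt_iff {p : ℕ} {θ : AlternatingMap K (S K ℓ) (S K ℓ) (Fin p)} (hθ : Leib θ)
    (b : Fin ℓ → K) : LogAt θ b ↔ ∀ (w : Fin p → Fin ℓ) (j : Fin p),
      lin b ∣ ∑ i, C (b i) * phi p θ (Function.update w j i) := by
  constructor
  · intro h w j
    rw [phi_lin]
    exact h _ j (Function.update_self _ _ _)
  · intro h v j hv
    rw [← Ideal.mem_span_singleton]
    refine leib_ideal hθ _ {j} (fun _ => lin b) (fun v' hv' hX => ?_) v (fun j' hj' => ?_)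
    · have h1 : v' j = lin b := hv' j rfl
      by_cases hℓ : Nonempty (Fin ℓ)
      · have h2 : ∀ k, ∃ i : Fin ℓ, k ≠ j → v' k = X i := by
          intro k
          by_cases hk : k = j
          · exact ⟨hℓ.some, fun hk' => absurd hk hk'⟩
          · obtain ⟨i, hi⟩ := hX k hk
            exact ⟨i, fun _ => hi⟩
        choose w hw using h2
        have e : v' = Function.update (fun k => X (w k)) j (lin b) := by
          funext k
          by_cases hk : k = j
          · rw [hk, Function.update_self, h1]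
          · rw [Function.update_of_ne hk, hw k hk]
        rw [e, ← phi_lin]
        exact Ideal.mem_span_singleton.2 (h w j)
      · haveI : IsEmpty (Fin ℓ) := not_nonempty_iff.1 hℓ
        have h0 : (lin b : S K ℓ) = 0 := by
          unfold lin
          rw [Finset.univ_eq_empty, Finset.sum_empty]
        rw [θ.map_coord_zero j (h1.trans h0)]
        exact Ideal.zero_mem _
    · rw [Set.mem_singleton_iff.1 hj']
      exact hv

/-! ### the multiderivation of an array -/

theorem prod_update {p : ℕ} [DecidableEq (Fin p)] (g : Fin p → S K ℓ → S K ℓ)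
    (m : Fin p → S K ℓ) (i : Fin p) (z : S K ℓ) :
    ∏ j, g j (Function.update m i z j) = g i z * ∏ j ∈ Finset.univ.erase i, g j (m j) := by
  rw [← Finset.mul_prod_erase _ _ (Finset.mem_univ i), Function.update_self]
  congr 1
  refine Finset.prod_congr rfl fun j hj => ?_
  rw [Function.update_of_ne (Finset.ne_of_mem_erase hj)]

/-- the multiderivation with a given array of values -/
noncomputable def psi {p : ℕ} (a : (Fin p → Fin ℓ) → S K ℓ) (ha : IsAlt a) :
    AlternatingMap K (S K ℓ) (S K ℓ) (Fin p) where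
  toFun v := ∑ w : Fin p → Fin ℓ, (∏ j, pderiv (w j) (v j)) * a w
  map_update_add' := by
    intro _ m i x y
    rw [← Finset.sum_add_distrib]
    refine Finset.sum_congr rfl fun w _ => ?_
    rw [prod_update (fun j => pderiv (w j)), prod_update (fun j => pderiv (w j)),
      prod_update (fun j => pderiv (w j)), map_add]
    ring
  map_update_smul' := by
    intro _ m i c x
    rw [Finset.smul_sum]
    refine Finset.sum_congr rfl fun w _ => ?_
    rw [prod_update (fun j => pderiv (w j)), prod_update (fun j => pderiv (w j)),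
      Derivation.map_smul, smul_mul_assoc, smul_mul_assoc]
  map_eq_zero_of_eq' := by
    intro v i j h hij
    have hv : ∀ k, v (Equiv.swap i j k) = v k := by
      intro k
      rw [Equiv.swap_apply_def]
      split_ifs with h1 h2
      · rw [h1, h]
      · rw [h2, h]
      · rfl
    have hp : ∀ w : Fin p → Fin ℓ, ∏ k, pderiv ((w ∘ Equiv.swap i j) k) (v k) =
        ∏ k, pderiv (w k) (v k) := by
      intro w
      rw [← Equiv.prod_comp (Equiv.swap i j) (fun k => pderiv (w k) (v k))]
      refine Finset.prod_congr rfl fun k _ => ?_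
      rw [hv k, Function.comp_apply]
    refine Finset.sum_involution (fun w _ => w ∘ Equiv.swap i j) (fun w _ => ?_)
      (fun w _ hw he => ?_) (fun w _ => Finset.mem_univ _) (fun w _ => ?_)
    · rw [hp, ha.sw w i j hij]
      ring
    · apply hw
      have h1 : w i = w j := by
        have := congrFun he i
        rw [Function.comp_apply, Equiv.swap_apply_left] at this
        exact this.symm
      rw [ha.nz w fun hinj => hij (hinj h1), mul_zero]
    · funext k
      simp only [Function.comp_apply, Equiv.swap_apply_self]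

theorem psi_apply {p : ℕ} (a : (Fin p → Fin ℓ) → S K ℓ) (ha : IsAlt a) (v : Fin p → S K ℓ) :
    psi a ha v = ∑ w : Fin p → Fin ℓ, (∏ j, pderiv (w j) (v j)) * a w := rfl

theorem leib_psi {p : ℕ} (a : (Fin p → Fin ℓ) → S K ℓ) (ha : IsAlt a) : Leib (psi a ha) := by
  intro v j u w
  rw [psi_apply, psi_apply, psi_apply, Finset.mul_sum, Finset.mul_sum, ← Finset.sum_add_distrib]
  refine Finset.sum_congr rfl fun w' _ => ?_
  rw [prod_update (fun j => pderiv (w' j)), prod_update (fun j => pderiv (w' j)),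
    prod_update (fun j => pderiv (w' j)), Derivation.leibniz, smul_eq_mul, smul_eq_mul]
  ring

theorem phi_psi {p : ℕ} (a : (Fin p → Fin ℓ) → S K ℓ) (ha : IsAlt a) : phi p (psi a ha) = a := by
  funext w
  rw [phi_apply, psi_apply, Finset.sum_eq_single w]
  · rw [Finset.prod_eq_one fun j _ => pderiv_X_self (w j), one_mul]
  · intro w' _ hne
    obtain ⟨j, hj⟩ := Function.ne_iff.1 hne
    rw [Finset.prod_eq_zero (Finset.mem_univ j) (pderiv_X_of_ne hj.symm), zero_mul]
  · intro h
    exact absurd (Finset.mem_univ w) h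

theorem mem_logA {B : Finset (Fin ℓ → K)} {p : ℕ} {a : (Fin p → Fin ℓ) → S K ℓ} :
    a ∈ LogA (S K ℓ) B p ↔ IsAlt a ∧ ∀ b ∈ B, ∀ (w : Fin p → Fin ℓ) (j : Fin p),
      lin b ∣ ∑ i, C (b i) * a (Function.update w j i) := Iff.rfl

theorem phi_mem {B : Finset (Fin ℓ → K)} {p : ℕ} {θ : AlternatingMap K (S K ℓ) (S K ℓ) (Fin p)}
    (h1 : Leib θ) (h2 : ∀ b ∈ B, LogAt θ b) : phi p θ ∈ LogA (S K ℓ) B p :=
  mem_logA.2 ⟨isAlt_phi θ, fun b hb => (logAt_iff h1 b).1 (h2 b hb)⟩

theorem psi_log {B : Finset (Fin ℓ → K)} {p : ℕ} {a : (Fin p → Fin ℓ) → S K ℓ}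
    (h : a ∈ LogA (S K ℓ) B p) (b : Fin ℓ → K) (hb : b ∈ B) : LogAt (psi a (mem_logA.1 h).1) b := by
  rw [logAt_iff (leib_psi _ _), phi_psi]
  exact (mem_logA.1 h).2 b hb

theorem phi_inj {p : ℕ} {θ θ' : AlternatingMap K (S K ℓ) (S K ℓ) (Fin p)} (h : Leib θ)
    (h' : Leib θ') (he : phi p θ = phi p θ') : θ = θ' := by
  rw [← sub_eq_zero]
  apply leib_zero (h.sub h')
  intro w
  have := congrFun he w
  rw [phi_apply, phi_apply] at this
  rw [AlternatingMap.sub_apply, this, sub_self]

/-- a linear map that maps a set, closed under the operations, bijectively onto a submodule -/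
theorem exists_equiv {A M N : Type*} [CommRing A] [AddCommGroup M] [Module A M] [AddCommGroup N]
    [Module A N] (f : M →ₗ[A] N) (s : Set M) (T : Submodule A N) (h0 : (0 : M) ∈ s)
    (hadd : ∀ x ∈ s, ∀ y ∈ s, x + y ∈ s) (hsmul : ∀ (c : A), ∀ x ∈ s, c • x ∈ s)
    (hT : ∀ x ∈ s, f x ∈ T) (hinj : ∀ x ∈ s, ∀ y ∈ s, f x = f y → x = y)
    (hsurj : ∀ t ∈ T, ∃ x ∈ s, f x = t) : Nonempty (Submodule.span A s ≃ₗ[A] T) := by
  have hs : ∀ x, x ∈ Submodule.span A s ↔ x ∈ s := by
    intro x
    let W : Submodule A M := {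
      carrier := s
      add_mem' := fun {x y} hx hy => hadd x hx y hy
      zero_mem' := h0
      smul_mem' := fun c x hx => hsmul c x hx }
    have : Submodule.span A s = W := Submodule.span_eq W
    rw [this]
    rfl
  refine ⟨LinearEquiv.ofBijective ((f.domRestrict (Submodule.span A s)).codRestrict T
    fun x => hT _ ((hs _).1 x.2)) ⟨?_, ?_⟩⟩
  · intro x y hxy
    have h1 : f x.1 = f y.1 := congrArg Subtype.val hxy
    exact Subtype.ext (hinj _ ((hs _).1 x.2) _ ((hs _).1 y.2) h1)
  · intro t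
    obtain ⟨x, hx, hxt⟩ := hsurj t.1 t.2
    exact ⟨⟨x, (hs x).2 hx⟩, Subtype.ext hxt⟩

theorem mem_Hm {p : ℕ} {k : ℕ} {a : (Fin p → Fin ℓ) → S K ℓ} :
    a ∈ Hm grS (fun _ : (Fin p → Fin ℓ) => 0) (k : ℤ) ↔ ∀ w, (a w).IsHomogeneous k := by
  have : grS (K := K) (ℓ := ℓ) ((k : ℤ) - 0) = homogeneousSubmodule (Fin ℓ) K k := by
    unfold grS
    rw [sub_zero, if_pos (Int.natCast_nonneg k), Int.toNat_natCast]
  constructor
  · intro h w
    have h1 : a w ∈ grS (K := K) (ℓ := ℓ) ((k : ℤ) - 0) := h w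
    rw [this] at h1
    exact h1
  · intro h w
    change a w ∈ grS (K := K) (ℓ := ℓ) ((k : ℤ) - 0)
    rw [this]
    exact h w

/-- the array of a derivation -/
noncomputable def del : Derivation K (S K ℓ) (S K ℓ) →ₗ[S K ℓ] ((Fin 1 → Fin ℓ) → S K ℓ) where
  toFun θ w := θ (X (w 0))
  map_add' _ _ := rfl
  map_smul' _ _ := rfl

theorem del_apply (θ : Derivation K (S K ℓ) (S K ℓ)) (w : Fin 1 → Fin ℓ) :
    del θ w = θ (X (w 0)) := rfl

theorem thm2 : stTrans2.{u} := by
  intro K _ ℓ A hA
  obtain ⟨B, hB, hP⟩ := exists_normals A hA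
  have hlog : ∀ {p : ℕ} (θ : AlternatingMap K (S K ℓ) (S K ℓ) (Fin p)),
      (∀ H ∈ A, ∀ a : Module.Dual K (Fin ℓ → K), LinearMap.ker a = H →
        ∀ (v : Fin p → MvPolynomial (Fin ℓ) K) (j : Fin p),
          v j = (∑ i : Fin ℓ, MvPolynomial.C (a (Pi.single i 1)) * MvPolynomial.X i) →
          (∑ i : Fin ℓ, MvPolynomial.C (a (Pi.single i 1)) * MvPolynomial.X i) ∣ θ v) ↔
      ∀ b ∈ B, LogAt θ b := fun θ =>
    hP (fun b => LogAt θ b) (fun c b hc h => h.scale c b hc)
  refine ⟨B, hB, fun p => ?_, fun p k => ?_, ?_⟩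
  · refine exists_equiv (phi p) _ _ ?_ ?_ ?_ ?_ ?_ ?_
    · exact ⟨Leib.zero, (hlog _).2 fun b _ v j _ => dvd_zero _⟩
    · rintro x ⟨hx1, hx2⟩ y ⟨hy1, hy2⟩
      exact ⟨Leib.add hx1 hy1, (hlog _).2 fun b hb v j hv =>
        dvd_add ((hlog x).1 hx2 b hb v j hv) ((hlog y).1 hy2 b hb v j hv)⟩
    · rintro c x ⟨hx1, hx2⟩
      exact ⟨Leib.smul hx1 c, (hlog _).2 fun b hb v j hv =>
        Dvd.dvd.mul_left ((hlog x).1 hx2 b hb v j hv) c⟩
    · rintro x ⟨hx1, hx2⟩
      exact phi_mem hx1 ((hlog x).1 hx2)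
    · rintro x ⟨hx1, _⟩ y ⟨hy1, _⟩ he
      exact phi_inj hx1 hy1 he
    · intro t ht
      exact ⟨psi t (mem_logA.1 ht).1, ⟨leib_psi _ _, (hlog _).2 fun b hb => psi_log ht b hb⟩,
        phi_psi _ _⟩
  · refine Nonempty.elim (exists_equiv (phiK (K := K) (ℓ := ℓ) p)
      {θ : AlternatingMap K (MvPolynomial (Fin ℓ) K) (MvPolynomial (Fin ℓ) K) (Fin p) |
              (∀ (v : Fin p → MvPolynomial (Fin ℓ) K) (j : Fin p)
                  (u w : MvPolynomial (Fin ℓ) K),
                  θ (Function.update v j (u * w)) =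
                    u * θ (Function.update v j w) + w * θ (Function.update v j u)) ∧
              (∀ H ∈ A, ∀ a : Module.Dual K (Fin ℓ → K), LinearMap.ker a = H →
                  ∀ (v : Fin p → MvPolynomial (Fin ℓ) K) (j : Fin p),
                    v j = (∑ i : Fin ℓ, MvPolynomial.C (a (Pi.single i 1)) * MvPolynomial.X i) →
                    (∑ i : Fin ℓ, MvPolynomial.C (a (Pi.single i 1)) * MvPolynomial.X i) ∣
                      θ v) ∧
              (∀ w : Fin p → Fin ℓ,
                  (θ (fun j => MvPolynomial.X (w j))).IsHomogeneous k)}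
      (Hm grS (fun _ : (Fin p → Fin ℓ) => 0) (k : ℤ) ⊓
          (LogA (S K ℓ) B p).restrictScalars K) ?_ ?_ ?_ ?_ ?_ ?_)
      fun e => LinearEquiv.finrank_eq e
    · exact ⟨Leib.zero, (hlog _).2 fun b _ v j _ => dvd_zero _, fun w => isHomogeneous_zero _ _ _⟩
    · rintro x ⟨hx1, hx2, hx3⟩ y ⟨hy1, hy2, hy3⟩
      exact ⟨Leib.add hx1 hy1, (hlog _).2 fun b hb v j hv =>
        dvd_add ((hlog x).1 hx2 b hb v j hv) ((hlog y).1 hy2 b hb v j hv),
        fun w => (hx3 w).add (hy3 w)⟩
    · rintro c x ⟨hx1, hx2, hx3⟩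
      refine ⟨Leib.ksmul hx1 c, (hlog _).2 fun b hb v j hv => ?_, fun w => ?_⟩
      · rw [AlternatingMap.smul_apply, smul_eq_C_mul]
        exact Dvd.dvd.mul_left ((hlog x).1 hx2 b hb v j hv) _
      · rw [AlternatingMap.smul_apply, smul_eq_C_mul]
        exact (hx3 w).C_mul c
    · rintro x ⟨hx1, hx2, hx3⟩
      exact ⟨mem_Hm.2 hx3, phi_mem hx1 ((hlog x).1 hx2)⟩
    · rintro x ⟨hx1, _⟩ y ⟨hy1, _⟩ he
      exact phi_inj hx1 hy1 he
    · rintro t ⟨ht1, ht⟩
      have ht' : t ∈ LogA (S K ℓ) B p := ht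
      refine ⟨psi t (mem_logA.1 ht').1, ⟨leib_psi _ _, (hlog _).2 fun b hb => psi_log ht' b hb,
        fun w => ?_⟩, phi_psi _ _⟩
      have h1 := mem_Hm.1 ht1 w
      rw [← phi_psi t (mem_logA.1 ht').1] at h1
      exact h1
  · have hlog' : ∀ θ : Derivation K (S K ℓ) (S K ℓ),
        (∀ H ∈ A, ∀ a : Module.Dual K (Fin ℓ → K), LinearMap.ker a = H →
          (∑ i : Fin ℓ, MvPolynomial.C (a (Pi.single i 1)) * MvPolynomial.X i) ∣
            θ (∑ i : Fin ℓ, MvPolynomial.C (a (Pi.single i 1)) * MvPolynomial.X i)) ↔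
        ∀ b ∈ B, lin b ∣ θ (lin b) := fun θ =>
      hP (fun b => lin b ∣ θ (lin b)) (fun c b hc h => by
        have h1 : θ (lin (c • b)) = C c * θ (lin b) := by
          rw [lin_smul, ← smul_eq_C_mul, Derivation.map_smul, smul_eq_C_mul]
        rw [h1]
        exact lin_smul_dvd hc (Dvd.dvd.mul_left h _))
    have hdel : ∀ (θ : Derivation K (S K ℓ) (S K ℓ)) (b : Fin ℓ → K) (w : Fin 1 → Fin ℓ)
        (j : Fin 1), ∑ i, C (b i) * del θ (Function.update w j i) = θ (lin b) := by
      intro θ b w j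
      rw [der_lin]
      refine Finset.sum_congr rfl fun i _ => ?_
      rw [del_apply, Subsingleton.elim j 0, Function.update_self]
    refine Nonempty.elim (exists_equiv (del (K := K) (ℓ := ℓ))
      {θ : Derivation K (MvPolynomial (Fin ℓ) K) (MvPolynomial (Fin ℓ) K) |
              ∀ H ∈ A, ∀ a : Module.Dual K (Fin ℓ → K), LinearMap.ker a = H →
                (∑ i : Fin ℓ, MvPolynomial.C (a (Pi.single i 1)) * MvPolynomial.X i) ∣
                  θ (∑ i : Fin ℓ, MvPolynomial.C (a (Pi.single i 1)) * MvPolynomial.X i)}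
      (LogA (S K ℓ) B 1) ?_ ?_ ?_ ?_ ?_ ?_)
      fun e => ⟨fun h => Module.Free.of_equiv e.symm, fun h => Module.Free.of_equiv e⟩
    · exact (hlog' _).2 fun b _ => dvd_zero _
    · intro x hx y hy
      exact (hlog' _).2 fun b hb => dvd_add ((hlog' x).1 hx b hb) ((hlog' y).1 hy b hb)
    · intro c x hx
      exact (hlog' _).2 fun b hb => Dvd.dvd.mul_left ((hlog' x).1 hx b hb) c
    · intro x hx
      refine mem_logA.2 ⟨⟨fun w hw => ?_, fun w i j hij => ?_⟩, fun b hb w j => ?_⟩
      · exact absurd (Function.injective_of_subsingleton w) hw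
      · exact absurd (Subsingleton.elim i j) hij
      · rw [hdel]
        exact (hlog' x).1 hx b hb
    · intro x _ y _ he
      apply derivation_ext
      intro i
      exact congrFun he (fun _ => i)
    · intro t ht
      refine ⟨mkDerivation K fun i => t fun _ => i, ?_, ?_⟩
      · refine (hlog' _).2 fun b hb => ?_
        by_cases hℓ : Nonempty (Fin ℓ)
        · have h1 := (mem_logA.1 ht).2 b hb (fun _ => hℓ.some) 0
          rw [der_lin]
          have h2 : ∀ i : Fin ℓ, (mkDerivation K fun i => t fun _ => i) (X i) =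
              t (Function.update (fun _ => hℓ.some) 0 i) := by
            intro i
            rw [mkDerivation_X]
            congr 1
            funext k
            rw [Subsingleton.elim k 0, Function.update_self]
          simp only [h2]
          exact h1
        · haveI : IsEmpty (Fin ℓ) := not_nonempty_iff.1 hℓ
          rw [der_lin, Finset.univ_eq_empty, Finset.sum_empty]
          exact dvd_zero _
      · funext w
        rw [del_apply, mkDerivation_X]
        congr 1
        funext k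
        rw [Subsingleton.elim k 0]

theorem thm : stTrans.{u} := by
  intro K _ ℓ A hA
  obtain ⟨B, hB, h1, h2, h3⟩ := thm2 K ℓ A hA
  exact ⟨B, hB, h1, h2, h3.1⟩

end Pool.Agent.Lib.MP_fe1391_co.Tame.Trans
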