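import Pool.Agent.Lib.MP_fe1391_co.Tame.Stmts

/-!
# E5: the module of logarithmic forms over `S` is graded
-/

set_option autoImplicit false

namespace Pool.Agent.Lib.MP_fe1391_co.Tame.GrLog

open MvPolynomial

universe u

theorem lin_hom {K : Type u} [Field K] {ℓ : ℕ} (b : Fin ℓ → K) : (lin b).IsHomogeneous 1 := by
  rw [lin]
  refine IsHomogeneous.sum _ _ _ fun i _ => ?_
  have := (isHomogeneous_C (Fin ℓ) (b i)).mul (isHomogeneous_X K i)
  rwa [zero_add] at this

theorem dvd_comp {K : Type u} [Field K] {ℓ : ℕ} (b : Fin ℓ → K) (f : S K ℓ) (n : ℕ)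
    (h : lin b ∣ f) : lin b ∣ homogeneousComponent n f := by
  obtain ⟨g, rfl⟩ := h
  conv_rhs => rw [← sum_homogeneousComponent g, Finset.mul_sum, map_sum]
  refine Finset.dvd_sum fun j _ => ?_
  have h1 : (lin b * homogeneousComponent j g).IsHomogeneous (1 + j) :=
    (lin_hom b).mul (homogeneousComponent_isHomogeneous j g)
  rw [homogeneousComponent_of_mem h1]
  split_ifs
  · exact dvd_mul_right _ _
  · exact dvd_zero _

/-- E5 -/
theorem thm : stGrLog.{u} := by
  intro K _ ℓ B p v hv
  obtain ⟨D, hD⟩ : ∃ D : ℕ, ∀ w, (v w).totalDegree < D := by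
    refine ⟨(Finset.univ.sup fun w => (v w).totalDegree) + 1, fun w => ?_⟩
    exact Nat.lt_succ_of_le (Finset.le_sup (f := fun w => (v w).totalDegree) (Finset.mem_univ w))
  refine ⟨(Finset.range D).map Nat.castEmbedding,
    fun m w => homogeneousComponent m.toNat (v w), ?_, ?_⟩
  · intro m hm
    rw [Finset.mem_map] at hm
    obtain ⟨n, -, rfl⟩ := hm
    have hn : (Nat.castEmbedding n : ℤ).toNat = n := by simp
    beta_reduce
    rw [hn]
    refine ⟨⟨⟨fun w hw => ?_, fun w i j hij => ?_⟩, fun b hb w j => ?_⟩, fun w => ?_⟩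
    · show homogeneousComponent n (v w) = 0
      rw [hv.1.nz w hw, map_zero]
    · show homogeneousComponent n (v (w ∘ Equiv.swap i j)) = - homogeneousComponent n (v w)
      rw [hv.1.sw w i j hij, map_neg]
    · have h1 := dvd_comp b _ n (hv.2 b hb w j)
      rw [map_sum] at h1
      have h2 : ∀ i : Fin ℓ, homogeneousComponent n
          (algebraMap (S K ℓ) (S K ℓ) (C (b i)) * v (Function.update w j i)) =
          algebraMap (S K ℓ) (S K ℓ) (C (b i)) *
            homogeneousComponent n (v (Function.update w j i)) := by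
        intro i
        exact homogeneousComponent_C_mul _ _ _
      simp only [h2] at h1
      exact h1
    · show homogeneousComponent n (v w) ∈ grS ((Nat.castEmbedding n : ℤ) - 0)
      rw [grS, if_pos (by simp)]
      have h3 : ((Nat.castEmbedding n : ℤ) - 0).toNat = n := by simp
      rw [h3]
      exact homogeneousComponent_mem n (v w)
  · funext w
    rw [Finset.sum_apply, Finset.sum_map]
    have hn : ∀ n : ℕ, (Nat.castEmbedding n : ℤ).toNat = n := fun n => by simp
    simp only [hn]
    conv_lhs => rw [← sum_homogeneousComponent (v w)]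
    refine Finset.sum_subset ?_ ?_
    · exact Finset.range_mono (hD w)
    · intro n _ hn'
      rw [Finset.mem_range, not_lt] at hn'
      exact homogeneousComponent_eq_zero n (v w) hn'

end Pool.Agent.Lib.MP_fe1391_co.Tame.GrLog
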