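import Pool.Agent.Lib.MP_fe1391_co.Tame.Stmts

/-!
# C1-C4: the gradings of `S` and `R`
-/

set_option autoImplicit false

namespace Pool.Agent.Lib.MP_fe1391_co.Tame.Grad

open MvPolynomial

universe u

variable {K : Type u} [Field K] {ℓ : ℕ}

/-! ### The polynomial ring -/

theorem grS_of_nonneg {m : ℤ} (hm : 0 ≤ m) :
    (grS m : Submodule K (S K ℓ)) = homogeneousSubmodule (Fin ℓ) K m.toNat := by
  rw [grS, if_pos hm]

theorem grS_of_neg {m : ℤ} (hm : m < 0) : (grS m : Submodule K (S K ℓ)) = ⊥ := by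
  rw [grS, if_neg (not_le.2 hm)]

theorem grS_nat (k : ℕ) :
    (grS (k : ℤ) : Submodule K (S K ℓ)) = homogeneousSubmodule (Fin ℓ) K k := by
  rw [grS_of_nonneg (by positivity), Int.toNat_natCast]

/-- the projections of `S` -/
noncomputable def pS (m : ℤ) : S K ℓ →ₗ[K] S K ℓ :=
  if 0 ≤ m then homogeneousComponent m.toNat else 0

theorem pS_of_nonneg {m : ℤ} (hm : 0 ≤ m) :
    (pS m : S K ℓ →ₗ[K] S K ℓ) = homogeneousComponent m.toNat := by
  rw [pS, if_pos hm]

theorem pS_of_neg {m : ℤ} (hm : m < 0) : (pS m : S K ℓ →ₗ[K] S K ℓ) = 0 := by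
  rw [pS, if_neg (not_le.2 hm)]

theorem pS_mem (m : ℤ) (a : S K ℓ) : pS m a ∈ grS (K := K) (ℓ := ℓ) m := by
  rcases lt_or_ge m 0 with hm | hm
  · rw [pS_of_neg hm]; exact Submodule.zero_mem _
  · rw [pS_of_nonneg hm, grS_of_nonneg hm, mem_homogeneousSubmodule]
    exact homogeneousComponent_isHomogeneous _ _

theorem pS_of_mem {m : ℤ} {a : S K ℓ} (ha : a ∈ grS (K := K) (ℓ := ℓ) m) (n : ℤ) :
    pS n a = if n = m then a else 0 := by
  rcases lt_or_ge m 0 with hm | hm
  · rw [grS_of_neg hm, Submodule.mem_bot] at ha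
    rw [ha, map_zero, ite_self]
  · rw [grS_of_nonneg hm] at ha
    rcases lt_or_ge n 0 with hn | hn
    · rw [pS_of_neg hn, if_neg (by omega), LinearMap.zero_apply]
    · rw [pS_of_nonneg hn, homogeneousComponent_of_mem ha]
      by_cases h : n = m
      · rw [if_pos h, if_pos (by rw [h])]
      · rw [if_neg h, if_neg (by omega)]

theorem pS_sum (a : S K ℓ) : ∃ s : Finset ℤ, a = ∑ m ∈ s, pS m a ∧ ∀ m, m ∉ s → pS m a = 0 := by
  classical
  refine ⟨(Finset.range (a.totalDegree + 1)).image (fun n : ℕ => (n : ℤ)), ?_, ?_⟩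
  · rw [Finset.sum_image (fun x _ y _ h => by exact_mod_cast h)]
    conv_lhs => rw [← sum_homogeneousComponent a]
    refine Finset.sum_congr rfl fun n _ => ?_
    rw [pS_of_nonneg (by positivity), Int.toNat_natCast]
  · intro m hm
    rcases lt_or_ge m 0 with h | h
    · rw [pS_of_neg h, LinearMap.zero_apply]
    · rw [pS_of_nonneg h]
      apply homogeneousComponent_eq_zero
      by_contra hc
      apply hm
      rw [Finset.mem_image]
      refine ⟨m.toNat, ?_, Int.toNat_of_nonneg h⟩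
      rw [Finset.mem_range]
      omega

theorem thmS : stGrS.{u} := by
  intro K _ ℓ
  refine ⟨?_, ?_, ?_, ?_, ?_⟩
  · rw [grS_of_nonneg le_rfl, mem_homogeneousSubmodule]
    exact isHomogeneous_one _ _
  · intro m n a b ha hb
    rcases lt_or_ge m 0 with hm | hm
    · rw [grS_of_neg hm, Submodule.mem_bot] at ha
      rw [ha, zero_mul]; exact Submodule.zero_mem _
    rcases lt_or_ge n 0 with hn | hn
    · rw [grS_of_neg hn, Submodule.mem_bot] at hb
      rw [hb, mul_zero]; exact Submodule.zero_mem _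
    rw [grS_of_nonneg hm, mem_homogeneousSubmodule] at ha
    rw [grS_of_nonneg hn, mem_homogeneousSubmodule] at hb
    rw [grS_of_nonneg (by omega), mem_homogeneousSubmodule, Int.toNat_add hm hn]
    exact ha.mul hb
  · intro m
    rcases lt_or_ge m 0 with hm | hm
    · rw [grS_of_neg hm]; infer_instance
    · rw [grS_of_nonneg hm]
      exact Module.Finite.iff_fg.2 (homogeneousSubmodule_fg _ _ _)
  · intro m hm
    exact grS_of_neg hm
  · refine ⟨pS, pS_mem, fun m a ha => ?_, fun m n a ha hn => ?_, pS_sum⟩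
    · rw [pS_of_mem ha, if_pos rfl]
    · rw [pS_of_mem ha, if_neg hn]

/-! ### The Hilbert series of `S` -/

theorem finrank_homog (n k : ℕ) :
    Module.finrank K (homogeneousSubmodule (Fin n) K k) = (n + k - 1).choose k := by
  have h1 : homogeneousSubmodule (Fin n) K k =
      restrictSupport K {d : Fin n →₀ ℕ | d.degree = k} :=
    homogeneousSubmodule_eq_finsupp_supported (Fin n) K k
  rw [h1, Module.finrank_eq_nat_card_basis
    (basisRestrictSupport K {d : Fin n →₀ ℕ | d.degree = k})]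
  have h2 : {d : Fin n →₀ ℕ | d.degree = k} =
      ((Finset.univ : Finset (Fin n)).finsuppAntidiag k : Set (Fin n →₀ ℕ)) := by
    ext d
    simp [Finset.mem_finsuppAntidiag, Finsupp.degree_eq_sum]
  rw [h2, Nat.card_coe_set_eq, Set.ncard_coe_finset, Finset.card_finsuppAntidiag_nat_eq_choose,
    Finset.card_univ, Fintype.card_fin]

theorem thmHS : stHS.{u} := by
  intro K _ ℓ
  have h : (PowerSeries.mk fun k : ℕ =>
      ((Module.finrank K (grS (K := K) (ℓ := ℓ) (k : ℤ)) : ℕ) : ℤ)) =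
      PowerSeries.mk fun k : ℕ => (((ℓ + k - 1).choose k : ℕ) : ℤ) := by
    congr 1
    funext k
    rw [grS_nat, finrank_homog]
  rw [h]
  cases ℓ with
  | zero =>
    rw [pow_zero, mul_one]
    ext k
    rw [PowerSeries.coeff_mk, PowerSeries.coeff_one]
    cases k with
    | zero => simp
    | succ k =>
      rw [if_neg (Nat.succ_ne_zero k)]
      have : (0 + (k + 1) - 1).choose (k + 1) = 0 := Nat.choose_eq_zero_of_lt (by omega)
      rw [this, Nat.cast_zero]
  | succ n =>
    have h2 : (PowerSeries.mk fun k : ℕ => (((n + 1 + k - 1).choose k : ℕ) : ℤ)) =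
        PowerSeries.mk fun k : ℕ => (((n + k).choose n : ℕ) : ℤ) := by
      congr 1
      funext k
      have : n + 1 + k - 1 = n + k := by omega
      rw [this, Nat.choose_symm_add]
    rw [h2]
    exact PowerSeries.mk_add_choose_mul_one_sub_pow_eq_one ℤ n

/-! ### The ring `R` -/

variable {B : Finset (Fin ℓ → K)}

omit [Field K] in
theorem wt_zero : wt (B := B) (K := K) (0 : Tau B →₀ ℕ) = 0 := by
  simp [wt]

omit [Field K] in
theorem wt_add (μ ν : Tau B →₀ ℕ) : wt (μ + ν) = wt μ + wt ν := by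
  simp only [wt, Finsupp.add_apply, Nat.cast_add, mul_add, Finset.sum_add_distrib]
  ring

omit [Field K] in
theorem le_wt (μ : Tau B →₀ ℕ) (t : Tau B) : (μ t : ℤ) ≤ wt μ := by
  have h1 : ∀ b : B, (0 : ℤ) ≤ 2 * (μ (Sum.inl b) : ℤ) := fun b => by positivity
  have h2 : ∀ i : Fin ℓ, (0 : ℤ) ≤ (μ (Sum.inr i) : ℤ) := fun i => by positivity
  have h3 := Finset.sum_nonneg fun (b : B) (_ : b ∈ Finset.univ) => h1 b
  have h4 := Finset.sum_nonneg fun (i : Fin ℓ) (_ : i ∈ Finset.univ) => h2 i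
  rcases t with b | i
  · have h5 := Finset.single_le_sum (fun (b : B) (_ : b ∈ Finset.univ) => h1 b)
      (Finset.mem_univ b)
    have h6 : (μ (Sum.inl b) : ℤ) ≤ 2 * (μ (Sum.inl b) : ℤ) := by
      have : (0 : ℤ) ≤ (μ (Sum.inl b) : ℤ) := by positivity
      linarith
    unfold wt
    linarith
  · have h5 := Finset.single_le_sum (fun (i : Fin ℓ) (_ : i ∈ Finset.univ) => h2 i)
      (Finset.mem_univ i)
    unfold wt
    linarith

omit [Field K] in
theorem wt_nonneg (μ : Tau B →₀ ℕ) : 0 ≤ wt μ := by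
  unfold wt
  positivity

omit [Field K] in
theorem eq_zero_of_wt {μ : Tau B →₀ ℕ} (h : wt μ ≤ 0) : μ = 0 := by
  ext t
  have := le_wt μ t
  simp only [Finsupp.coe_zero, Pi.zero_apply]
  omega

omit [Field K] in
theorem finite_wt (m : ℤ) : {μ : Tau B →₀ ℕ | wt μ ≤ m}.Finite := by
  have h0 : (Set.pi Set.univ (fun _ : Tau B => Set.Iic m.toNat)).Finite :=
    Set.Finite.pi fun _ => Set.finite_Iic _
  apply (h0.preimage (f := fun μ : Tau B →₀ ℕ => (μ : Tau B → ℕ))
    DFunLike.coe_injective.injOn).subset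
  intro μ hμ
  rw [Set.mem_preimage, Set.mem_univ_pi]
  intro t
  rw [Set.mem_Iic]
  have h1 := le_wt μ t
  have h2 : wt μ ≤ m := hμ
  omega

theorem mem_grR {m : ℤ} {f : R B} :
    f ∈ grR B m ↔ ∀ μ, coeff μ f ∈ grS (K := K) (ℓ := ℓ) (m - wt μ) := Iff.rfl

open Classical in
/-- the projections of `R` -/
noncomputable def pRf (m : ℤ) (f : R B) : R B :=
  ∑ μ ∈ f.support, monomial μ (pS (m - wt μ) (coeff μ f))

theorem coeff_pRf (m : ℤ) (f : R B) (ν : Tau B →₀ ℕ) :
    coeff ν (pRf m f) = pS (m - wt ν) (coeff ν f) := by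
  classical
  rw [pRf, coeff_sum]
  simp only [coeff_monomial]
  rw [Finset.sum_ite_eq' f.support ν]
  split_ifs with h
  · rfl
  · rw [notMem_support_iff.1 h, map_zero]

/-- the projections of `R` -/
noncomputable def pR (m : ℤ) : R B →ₗ[K] R B where
  toFun := pRf m
  map_add' f g := by
    ext1 ν
    rw [coeff_add, coeff_pRf, coeff_pRf, coeff_pRf, coeff_add, map_add]
  map_smul' c f := by
    ext1 ν
    rw [RingHom.id_apply, coeff_smul, coeff_pRf, coeff_pRf, coeff_smul, map_smul]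

theorem coeff_pR (m : ℤ) (f : R B) (ν : Tau B →₀ ℕ) :
    coeff ν (pR m f) = pS (m - wt ν) (coeff ν f) := coeff_pRf m f ν

theorem pR_sum (f : R B) : ∃ s : Finset ℤ, f = ∑ m ∈ s, pR m f ∧ ∀ m, m ∉ s → pR m f = 0 := by
  classical
  choose s hs1 hs2 using fun a : S K ℓ => pS_sum a
  set t : Finset ℤ := f.support.biUnion fun μ => (s (coeff μ f)).image fun n => n + wt μ with ht
  have key : ∀ (ν : Tau B →₀ ℕ) (m : ℤ), m ∉ t → pS (m - wt ν) (coeff ν f) = 0 := by
    intro ν m hm
    by_cases h : ν ∈ f.support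
    · apply hs2
      intro hc
      apply hm
      rw [ht, Finset.mem_biUnion]
      refine ⟨ν, h, ?_⟩
      rw [Finset.mem_image]
      exact ⟨m - wt ν, hc, by ring⟩
    · rw [notMem_support_iff.1 h, map_zero]
  refine ⟨t, ?_, fun m hm => ?_⟩
  · ext1 ν
    rw [coeff_sum]
    simp only [coeff_pR]
    have h1 : ∑ m ∈ t, pS (m - wt ν) (coeff ν f) =
        ∑ n ∈ t.image (fun m => m - wt ν), pS n (coeff ν f) := by
      rw [Finset.sum_image (fun x _ y _ h => by simpa using h)]
    rw [h1]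
    have h2 : ∀ n, n ∉ t.image (fun m => m - wt ν) → pS n (coeff ν f) = 0 := by
      intro n hn
      have h3 : n + wt ν ∉ t := fun hc => hn (Finset.mem_image.2 ⟨n + wt ν, hc, by ring⟩)
      have h4 := key ν _ h3
      rwa [add_sub_cancel_right] at h4
    conv_lhs => rw [hs1 (coeff ν f)]
    exact (Finset.sum_subset (Finset.subset_union_left (s₂ := t.image (fun m => m - wt ν)))
      (fun n _ hn => hs2 _ n hn)).trans (Finset.sum_subset
      (Finset.subset_union_right (s₁ := s (coeff ν f))) (fun n _ hn => h2 n hn)).symm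
  · ext1 ν
    rw [coeff_pR, key ν m hm, coeff_zero]

theorem thmR : stGrR.{u} := by
  classical
  intro K _ ℓ B
  have hS := thmS K ℓ
  refine ⟨?_, ?_, ?_, ?_, ?_⟩
  · intro μ
    rw [coeff_one]
    split_ifs with h
    · rw [← h, wt_zero, sub_zero]; exact hS.one
    · exact Submodule.zero_mem _
  · intro m n a b ha hb μ
    rw [coeff_mul]
    refine Submodule.sum_mem _ fun x hx => ?_
    have h1 := hS.mul (ha x.1) (hb x.2)
    have h2 : m - wt x.1 + (n - wt x.2) = m + n - wt μ := by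
      rw [Finset.HasAntidiagonal.mem_antidiagonal] at hx
      rw [← hx, wt_add]; ring
    rwa [h2] at h1
  · intro m
    have hfin := finite_wt (B := B) (K := K) m
    letI : Fintype {μ : Tau B →₀ ℕ | wt μ ≤ m} := hfin.fintype
    have : ∀ μ : {μ : Tau B →₀ ℕ | wt μ ≤ m}, Module.Finite K
        (grS (K := K) (ℓ := ℓ) (m - wt μ.1)) := fun μ => hS.fin _
    let φ : grR B m →ₗ[K] (∀ μ : {μ : Tau B →₀ ℕ | wt μ ≤ m},
        grS (K := K) (ℓ := ℓ) (m - wt μ.1)) :=
      { toFun := fun f μ => ⟨coeff μ.1 f.1, f.2 μ.1⟩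
        map_add' := fun f g => by
          funext μ
          apply Subtype.ext
          exact coeff_add _ _ _
        map_smul' := fun c f => by
          funext μ
          apply Subtype.ext
          exact coeff_smul _ _ _ }
    apply Module.Finite.of_injective φ
    intro f g hfg
    apply Subtype.ext
    ext1 μ
    by_cases hμ : wt μ ≤ m
    · exact congrArg Subtype.val (congrFun hfg ⟨μ, hμ⟩)
    · have h1 := f.2 μ
      have h2 := g.2 μ
      rw [grS_of_neg (by omega), Submodule.mem_bot] at h1 h2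
      rw [h1, h2]
  · intro m hm
    rw [eq_bot_iff]
    intro f hf
    rw [Submodule.mem_bot]
    ext1 μ
    have h1 := hf μ
    have h2 := wt_nonneg μ
    rw [grS_of_neg (by omega), Submodule.mem_bot] at h1
    rw [h1, coeff_zero]
  · refine ⟨pR, fun m f μ => ?_, fun m f hf => ?_, fun m n f hf hn => ?_, pR_sum⟩
    · rw [coeff_pR]
      exact pS_mem _ _
    · ext1 μ
      rw [coeff_pR, pS_of_mem (hf μ), if_pos rfl]
    · ext1 μ
      rw [coeff_pR, pS_of_mem (hf μ), if_neg (by omega), coeff_zero]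

theorem thmR0 : stR0.{u} := by
  classical
  intro K _ ℓ B
  have h1 : (1 : R B) ∈ grR B 0 := (thmR K ℓ B).one
  refine finrank_eq_one (⟨1, h1⟩ : grR B 0) ?_ ?_
  · intro h
    exact one_ne_zero (congrArg Subtype.val h)
  · rintro ⟨f, hf⟩
    have h2 : ∀ μ, μ ≠ 0 → coeff μ f = 0 := by
      intro μ hμ
      have h3 := hf μ
      have h4 : ¬ wt μ ≤ 0 := fun hc => hμ (eq_zero_of_wt hc)
      rwa [grS_of_neg (by omega), Submodule.mem_bot] at h3
    have h5 : (coeff 0 f).IsHomogeneous 0 := by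
      have h6 := hf 0
      rwa [wt_zero, sub_zero, grS_of_nonneg le_rfl] at h6
    have h7 : coeff 0 f = C (coeff 0 (coeff 0 f)) := by
      have h8 := (totalDegree_eq_zero_iff_eq_C (p := coeff 0 f)).1
        (Nat.le_zero.1 h5.totalDegree_le)
      exact h8
    refine ⟨coeff 0 (coeff 0 f), ?_⟩
    apply Subtype.ext
    ext1 μ
    change coeff μ (coeff 0 (coeff 0 f) • (1 : R B)) = coeff μ f
    rw [coeff_smul, coeff_one]
    by_cases hμ : 0 = μ
    · rw [if_pos hμ, ← hμ, smul_eq_C_mul, mul_one, ← h7]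
    · rw [if_neg hμ, h2 μ (Ne.symm hμ), smul_zero]

end Pool.Agent.Lib.MP_fe1391_co.Tame.Grad
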