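import Mathlib
import Pool.Agent.Lib.MP_fe1391_co.Tame.Stmts2

/-!
# S2: the automatic part of tameness
-/

set_option autoImplicit false

namespace Pool.Agent.Lib.MP_fe1391_co.Tame.Auto

open MvPolynomial CategoryTheory

universe u

variable {K : Type u} [Field K] {ℓ : ℕ}

/-! ### Linear forms -/

lemma coeff_lin (a : Fin ℓ → K) (i : Fin ℓ) : coeff (Finsupp.single i 1) (lin a) = a i := by
  classical
  rw [lin, coeff_sum, Finset.sum_eq_single i]
  · simp [coeff_C_mul]
  · intro j _ hj
    rw [coeff_C_mul, coeff_X, if_neg]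
    · simp
    · rwa [Finsupp.single_left_inj one_ne_zero]
  · simp

lemma lin_homog (a : Fin ℓ → K) : (lin a).IsHomogeneous 1 := by
  rw [lin]
  exact IsHomogeneous.sum _ _ _ fun i _ => isHomogeneous_C_mul_X _ _

lemma lin_ne_zero {a : Fin ℓ → K} (ha : a ≠ 0) : lin a ≠ 0 := by
  intro h
  apply ha
  funext i
  rw [← coeff_lin a i, h]
  simp

lemma lin_irreducible {a : Fin ℓ → K} (ha : a ≠ 0) : Irreducible (lin a) := by
  apply irreducible_of_totalDegree_eq_one
  · exact (lin_homog a).totalDegree (lin_ne_zero ha)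
  · intro x hx
    obtain ⟨i, hi⟩ := Function.ne_iff.1 ha
    have h := hx (Finsupp.single i 1)
    rw [coeff_lin] at h
    rw [isUnit_iff_ne_zero]
    rintro rfl
    exact hi (zero_dvd_iff.1 h)

lemma lin_dvd_lin {a b : Fin ℓ → K} (ha : a ≠ 0) (h : lin a ∣ lin b) : ∃ c : K, b = c • a := by
  by_cases hb : b = 0
  · exact ⟨0, by simp [hb]⟩
  obtain ⟨q, hq⟩ := h
  have hq0 : q ≠ 0 := by
    rintro rfl
    exact lin_ne_zero hb (by simpa using hq)
  have h1 := congrArg totalDegree hq
  rw [totalDegree_mul_of_isDomain (lin_ne_zero ha) hq0, (lin_homog a).totalDegree (lin_ne_zero ha),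
    (lin_homog b).totalDegree (lin_ne_zero hb)] at h1
  obtain ⟨c, rfl⟩ : ∃ c, q = C c := ⟨_, totalDegree_eq_zero_iff_eq_C.1 (by omega)⟩
  refine ⟨c, ?_⟩
  funext i
  rw [← coeff_lin b i, hq, mul_comm, coeff_C_mul, coeff_lin]
  simp

lemma Q_ne_zero {B : Finset (Fin ℓ → K)} (hB : Norm B) : Qof B ≠ 0 :=
  Finset.prod_ne_zero_iff.2 fun a ha => lin_ne_zero (hB.ne a ha)

lemma Q_dvd {B : Finset (Fin ℓ → K)} (hB : Norm B) {f : S K ℓ} (h : ∀ b ∈ B, lin b ∣ f) :
    Qof B ∣ f := by
  apply Finset.prod_dvd_of_isRelPrime _ h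
  intro a ha b hb hab
  show IsRelPrime (lin a) (lin b)
  rw [(lin_irreducible (hB.ne a ha)).isRelPrime_iff_not_dvd]
  intro hd
  obtain ⟨c, hc⟩ := lin_dvd_lin (hB.ne a ha) hd
  exact hB.ind a ha b hb hab c hc

/-! ### Kernels of maps of free modules -/

lemma pd_congr {R : Type u} [CommRing R] {M N : Type u} [AddCommGroup M] [Module R M]
    [AddCommGroup N] [Module R N] (e : M ≃ₗ[R] N) (n : ℕ)
    (h : HasProjectiveDimensionLT (ModuleCat.of R M) n) :
    HasProjectiveDimensionLT (ModuleCat.of R N) n :=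
  hasProjectiveDimensionLT_of_iso e.toModuleIso n

lemma pd_ker {R : Type u} [CommRing R] {F G : Type u} [AddCommGroup F] [Module R F]
    [AddCommGroup G] [Module R G] [Module.Projective R F] [Module.Projective R G] (n : ℕ)
    (h : ∀ (M : Type u) [AddCommGroup M] [Module R M],
      HasProjectiveDimensionLE (ModuleCat.of R M) (n + 2)) (f : F →ₗ[R] G) :
    HasProjectiveDimensionLE (ModuleCat.of R (LinearMap.ker f)) n := by
  have hF : Projective (ModuleCat.of R F) :=
    (IsProjective.iff_projective (R := R) F).1 inferInstance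
  have hG : Projective (ModuleCat.of R G) :=
    (IsProjective.iff_projective (R := R) G).1 inferInstance
  have hF1 : HasProjectiveDimensionLT (ModuleCat.of R F) 1 := inferInstance
  have hG1 : HasProjectiveDimensionLT (ModuleCat.of R G) 1 := inferInstance
  have h1 : HasProjectiveDimensionLT (ModuleCat.of R (LinearMap.ker (LinearMap.range f).mkQ))
      (n + 2) := by
    have hS := LinearMap.shortExact_shortComplexKer
      (Submodule.mkQ_surjective (LinearMap.range f))
    exact hS.hasProjectiveDimensionLT_X₁ (n + 2)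
      (hasProjectiveDimensionLT_of_ge _ 1 (n + 2) (by omega)) (h (G ⧸ LinearMap.range f))
  have h2 : HasProjectiveDimensionLT (ModuleCat.of R (LinearMap.range f)) (n + 2) :=
    pd_congr (LinearEquiv.ofEq _ _ (Submodule.ker_mkQ _)) _ h1
  have h3 : HasProjectiveDimensionLT (ModuleCat.of R (LinearMap.ker f.rangeRestrict))
      (n + 1) := by
    have hS := LinearMap.shortExact_shortComplexKer (LinearMap.surjective_rangeRestrict f)
    exact hS.hasProjectiveDimensionLT_X₁ (n + 1)
      (hasProjectiveDimensionLT_of_ge _ 1 (n + 1) (by omega)) h2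
  exact pd_congr (LinearEquiv.ofEq _ _ (LinearMap.ker_rangeRestrict f)) _ h3

/-! ### `LogA` is a second syzygy -/

/-- index set of the quotients `ψ(b, w, j)` -/
abbrev Psi (B : Finset (Fin ℓ → K)) (p : ℕ) := ↥B × (Fin p → Fin ℓ) × Fin p

/-- index set of the equations -/
abbrev Eqs (B : Finset (Fin ℓ → K)) (p : ℕ) :=
  (Fin p → Fin ℓ) ⊕ ((Fin p → Fin ℓ) × Fin p × Fin p) ⊕ Psi B p

open Classical in
/-- the equations of `LogA` -/
noncomputable def eqs (B : Finset (Fin ℓ → K)) (p : ℕ) :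
    (((Fin p → Fin ℓ) → S K ℓ) × (Psi B p → S K ℓ)) →ₗ[S K ℓ] (Eqs B p → S K ℓ) where
  toFun x := fun
    | Sum.inl w => if Function.Injective w then 0 else x.1 w
    | Sum.inr (Sum.inl (w, i, j)) => if i = j then 0 else x.1 (w ∘ Equiv.swap i j) + x.1 w
    | Sum.inr (Sum.inr (b, w, j)) =>
        ∑ i, C (b.1 i) * x.1 (Function.update w j i) - lin b.1 * x.2 (b, w, j)
  map_add' x y := by
    funext e
    rcases e with w | ⟨w, i, j⟩ | ⟨b, w, j⟩
    · simp only [Pi.add_apply, Prod.fst_add]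
      split_ifs <;> simp
    · simp only [Pi.add_apply, Prod.fst_add]
      split_ifs
      · simp
      · ring
    · simp only [Pi.add_apply, Prod.fst_add, Prod.snd_add, mul_add, Finset.sum_add_distrib]
      ring
  map_smul' c x := by
    funext e
    rcases e with w | ⟨w, i, j⟩ | ⟨b, w, j⟩
    · simp only [Pi.smul_apply, Prod.smul_fst, RingHom.id_apply, smul_eq_mul]
      split_ifs <;> simp
    · simp only [Pi.smul_apply, Prod.smul_fst, RingHom.id_apply, smul_eq_mul]
      split_ifs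
      · simp
      · ring
    · simp only [Pi.smul_apply, Prod.smul_fst, Prod.smul_snd, RingHom.id_apply, smul_eq_mul,
        mul_sub, Finset.mul_sum]
      congr 1
      · exact Finset.sum_congr rfl fun i _ => by ring
      · ring

lemma mem_ker_eqs {B : Finset (Fin ℓ → K)} {p : ℕ}
    (x : ((Fin p → Fin ℓ) → S K ℓ) × (Psi B p → S K ℓ)) :
    x ∈ LinearMap.ker (eqs B p) ↔ IsAlt x.1 ∧ ∀ (b : ↥B) (w : Fin p → Fin ℓ) (j : Fin p),
      ∑ i, C (b.1 i) * x.1 (Function.update w j i) = lin b.1 * x.2 (b, w, j) := by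
  rw [LinearMap.mem_ker]
  constructor
  · intro h
    refine ⟨⟨fun w hw => ?_, fun w i j hij => ?_⟩, fun b w j => ?_⟩
    · have := congrFun h (Sum.inl w)
      simpa [eqs, hw] using this
    · have := congrFun h (Sum.inr (Sum.inl (w, i, j)))
      simp only [eqs, LinearMap.coe_mk, AddHom.coe_mk, if_neg hij, Pi.zero_apply] at this
      exact eq_neg_of_add_eq_zero_left this
    · have := congrFun h (Sum.inr (Sum.inr (b, w, j)))
      simp only [eqs, LinearMap.coe_mk, AddHom.coe_mk, Pi.zero_apply] at this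
      exact sub_eq_zero.1 this
  · rintro ⟨h1, h2⟩
    funext e
    rcases e with w | ⟨w, i, j⟩ | ⟨b, w, j⟩
    · by_cases hw : Function.Injective w
      · simp [eqs, hw]
      · simp [eqs, hw, h1.nz w hw]
    · by_cases hij : i = j
      · simp [eqs, hij]
      · simp only [eqs, LinearMap.coe_mk, AddHom.coe_mk, if_neg hij, Pi.zero_apply]
        rw [h1.sw w i j hij, neg_add_cancel]
    · simp only [eqs, LinearMap.coe_mk, AddHom.coe_mk, Pi.zero_apply]
      rw [h2 b w j, sub_self]

/-- the projection of the kernel to `LogA` -/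
noncomputable def toLog (B : Finset (Fin ℓ → K)) (p : ℕ) :
    LinearMap.ker (eqs B p) →ₗ[S K ℓ] LogA (S K ℓ) B p :=
  ((LinearMap.fst _ _ _).comp (LinearMap.ker (eqs B p)).subtype).codRestrict _ (by
    intro x
    obtain ⟨h1, h2⟩ := (mem_ker_eqs x.1).1 x.2
    refine ⟨h1, fun b hb w j => ⟨x.1.2 (⟨b, hb⟩, w, j), ?_⟩⟩
    exact h2 ⟨b, hb⟩ w j)

lemma toLog_bijective {B : Finset (Fin ℓ → K)} (hB : Norm B) (p : ℕ) :
    Function.Bijective (toLog B p) := by
  constructor
  · rw [injective_iff_map_eq_zero]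
    intro x hx
    have h0 : x.1.1 = 0 := congrArg Subtype.val hx
    obtain ⟨h1, h2⟩ := (mem_ker_eqs x.1).1 x.2
    apply Subtype.ext
    apply Prod.ext
    · exact h0
    · funext ⟨b, w, j⟩
      have := h2 b w j
      rw [h0] at this
      simp only [Pi.zero_apply, mul_zero, Finset.sum_const_zero] at this
      exact (mul_eq_zero.1 this.symm).resolve_left (lin_ne_zero (hB.ne b.1 b.2))
  · rintro ⟨a, ha⟩
    have ha1 : IsAlt a := ha.1
    have ha2 := ha.2
    choose ψ hψ using ha2
    refine ⟨⟨(a, fun x => ψ x.1.1 x.1.2 x.2.1 x.2.2), ?_⟩, Subtype.ext rfl⟩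
    rw [mem_ker_eqs]
    exact ⟨ha1, fun b w j => hψ b.1 b.2 w j⟩

/-! ### The top degree -/

/-- the array of signs -/
noncomputable def sgn : (Fin ℓ → Fin ℓ) → S K ℓ := fun w =>
  (Matrix.of fun i j : Fin ℓ => if w i = j then (1 : S K ℓ) else 0).det

lemma sgn_id : sgn (K := K) (ℓ := ℓ) id = 1 := by
  have : (Matrix.of fun i j : Fin ℓ => if id i = j then (1 : S K ℓ) else 0) = 1 := by
    ext i j
    simp [Matrix.one_apply]
  rw [sgn, this, Matrix.det_one]

lemma sgn_alt : IsAlt (sgn (K := K) (ℓ := ℓ)) := by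
  constructor
  · intro w hw
    simp only [Function.Injective, not_forall] at hw
    obtain ⟨i, j, hij, hne⟩ := hw
    apply Matrix.det_zero_of_row_eq hne
    funext k
    simp [hij]
  · intro w i j hij
    have h := Matrix.det_permute (Equiv.swap i j)
      (Matrix.of fun i j : Fin ℓ => if w i = j then (1 : S K ℓ) else 0)
    rw [Equiv.Perm.sign_swap hij] at h
    have h2 : (Matrix.of fun i j : Fin ℓ => if w i = j then (1 : S K ℓ) else 0).submatrix
        (Equiv.swap i j) id = Matrix.of fun a b : Fin ℓ =>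
          if (w ∘ Equiv.swap i j) a = b then (1 : S K ℓ) else 0 := by
      ext a b
      simp
    rw [h2] at h
    rw [sgn, h, sgn]
    simp

lemma Qsgn_mem (B : Finset (Fin ℓ → K)) : (Qof B • sgn : (Fin ℓ → Fin ℓ) → S K ℓ) ∈
    LogA (S K ℓ) B ℓ := by
  refine ⟨⟨fun w hw => ?_, fun w i j hij => ?_⟩, fun b hb w j => ?_⟩
  · rw [Pi.smul_apply, sgn_alt.nz w hw, smul_zero]
  · rw [Pi.smul_apply, Pi.smul_apply, sgn_alt.sw w i j hij, smul_neg]
  · apply Finset.dvd_sum
    intro i _
    apply Dvd.dvd.mul_left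
    rw [Pi.smul_apply, smul_eq_mul]
    exact Dvd.dvd.mul_right (Finset.dvd_prod_of_mem lin hb) _

lemma alt_zero {a : (Fin ℓ → Fin ℓ) → S K ℓ} (ha : IsAlt a) (h0 : a id = 0) : a = 0 := by
  have hperm : ∀ σ : Equiv.Perm (Fin ℓ), a σ = 0 := by
    intro σ
    induction σ using Equiv.Perm.swap_induction_on' with
    | one => exact h0
    | mul_swap f x y hxy ih =>
      have h1 : (⇑(f * Equiv.swap x y) : Fin ℓ → Fin ℓ) = f ∘ Equiv.swap x y := rfl
      rw [h1, ha.sw _ x y hxy, ih, neg_zero]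
  funext w
  by_cases hw : Function.Injective w
  · have hb : Function.Bijective w := Finite.injective_iff_bijective.1 hw
    exact hperm (Equiv.ofBijective w hb)
  · exact ha.nz w hw

lemma top_dvd {B : Finset (Fin ℓ → K)} (hB : Norm B) {a : (Fin ℓ → Fin ℓ) → S K ℓ}
    (ha : a ∈ LogA (S K ℓ) B ℓ) : Qof B ∣ a id := by
  apply Q_dvd hB
  intro b hb
  obtain ⟨j, hj⟩ := Function.ne_iff.1 (hB.ne b hb)
  have h1 := ha.2 b hb id j
  rw [Finset.sum_eq_single j] at h1
  · rw [Function.update_eq_self_iff.2 (by simp)] at h1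
    have hu : IsUnit (C (b j) : S K ℓ) := (IsUnit.mk0 _ hj).map C
    exact (hu.dvd_mul_left).1 h1
  · intro i _ hij
    rw [ha.1.nz, mul_zero]
    intro hinj
    have h2 : Function.update (id : Fin ℓ → Fin ℓ) j i j = Function.update id j i i := by
      rw [Function.update_self, Function.update_of_ne hij]
      rfl
    exact hij (hinj h2).symm
  · simp

/-- `LogA` in the top degree is free of rank one -/
lemma free_top {B : Finset (Fin ℓ → K)} (hB : Norm B) :
    Module.Free (S K ℓ) (LogA (S K ℓ) B ℓ) := by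
  let φ : S K ℓ →ₗ[S K ℓ] LogA (S K ℓ) B ℓ :=
    LinearMap.toSpanSingleton _ _ ⟨Qof B • sgn, Qsgn_mem B⟩
  have hφ : ∀ f, ((φ f : LogA (S K ℓ) B ℓ) : (Fin ℓ → Fin ℓ) → S K ℓ) id = f * Qof B := by
    intro f
    show (f • (Qof B • sgn : (Fin ℓ → Fin ℓ) → S K ℓ)) id = _
    rw [Pi.smul_apply, Pi.smul_apply, sgn_id]
    simp
  have hbij : Function.Bijective φ := by
    constructor
    · rw [injective_iff_map_eq_zero]
      intro f hf
      have h1 := hφ f
      rw [hf] at h1
      have h2 : f * Qof B = 0 := h1.symm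
      exact (mul_eq_zero.1 h2).resolve_right (Q_ne_zero hB)
    · intro a
      obtain ⟨f, hf⟩ := top_dvd hB a.2
      refine ⟨f, ?_⟩
      have h1 : ((φ f - a : LogA (S K ℓ) B ℓ) : (Fin ℓ → Fin ℓ) → S K ℓ) = 0 := by
        apply alt_zero (φ f - a).2.1
        show (φ f : (Fin ℓ → Fin ℓ) → S K ℓ) id - (a : (Fin ℓ → Fin ℓ) → S K ℓ) id = 0
        rw [hφ, hf, mul_comm, sub_self]
      exact sub_eq_zero.1 (Subtype.ext h1)
  exact Module.Free.of_equiv (LinearEquiv.ofBijective φ hbij)

theorem thm (h : stSyzygy.{u}) : stAuto.{u} := by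
  intro K _ ℓ B hB p hp hcase
  rcases Nat.eq_zero_or_pos p with rfl | hp0
  · exact h K ℓ _
  by_cases hpl : p = ℓ
  · subst hpl
    rw [Nat.sub_self]
    have := free_top hB
    have h1 : Projective (ModuleCat.of (S K p) (LogA (S K p) B p)) :=
      (IsProjective.iff_projective (R := S K p) (LogA (S K p) B p)).1 inferInstance
    exact (projective_iff_hasProjectiveDimensionLE_zero _).1 h1
  · have hp2 : p ≤ 2 := by
      rcases hcase with h1 | h1
      · exact h1
      · exact absurd h1 hpl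
    obtain ⟨n, rfl⟩ : ∃ n, ℓ = n + 2 := ⟨ℓ - 2, by omega⟩
    have h1 := pd_ker n (fun M _ _ => h K (n + 2) M) (eqs B p)
    have h2 : HasProjectiveDimensionLT (ModuleCat.of (S K (n + 2))
        (LogA (S K (n + 2)) B p)) (n + 1) :=
      pd_congr (LinearEquiv.ofBijective (toLog B p) (toLog_bijective hB p)) _ h1
    exact hasProjectiveDimensionLT_of_ge _ (n + 1) _ (by omega)

end Pool.Agent.Lib.MP_fe1391_co.Tame.Auto
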