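import Pool.Agent.Lib.MP_fe1391_co.Tame.Htpy

/-!
# Tame arrangements: E7, the duality between derivations and the forms of corank one
-/

set_option autoImplicit false

namespace Pool.Agent.Lib.MP_fe1391_co.Tame.Pair

open MvPolynomial Htpy

universe u

/-! ### Linear forms -/

section Lin

variable {K : Type u} [Field K] {ℓ : ℕ}

theorem lin_smul (c : K) (a : Fin ℓ → K) : lin (c • a) = C c * lin a := by
  unfold lin
  rw [Finset.mul_sum]
  refine Finset.sum_congr rfl fun i _ => ?_
  rw [Pi.smul_apply, smul_eq_mul, C_mul, mul_assoc]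

theorem coeff_lin (a : Fin ℓ → K) (i : Fin ℓ) : coeff (Finsupp.single i 1) (lin a) = a i := by
  classical
  unfold lin
  rw [coeff_sum, Finset.sum_eq_single i]
  · simp [coeff_C_mul]
  · intro j _ hj
    rw [coeff_C_mul, coeff_X, if_neg]
    · simp
    · rwa [Finsupp.single_left_inj one_ne_zero]
  · simp

theorem lin_homog (a : Fin ℓ → K) : (lin a).IsHomogeneous 1 := by
  unfold lin
  exact IsHomogeneous.sum _ _ _ fun i _ => isHomogeneous_C_mul_X _ _

theorem lin_ne_zero {a : Fin ℓ → K} (ha : a ≠ 0) : lin a ≠ 0 := by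
  intro h
  apply ha
  funext i
  rw [← coeff_lin a i, h]
  simp

theorem lin_irreducible {a : Fin ℓ → K} (ha : a ≠ 0) : Irreducible (lin a) := by
  apply irreducible_of_totalDegree_eq_one
  · exact (lin_homog a).totalDegree (lin_ne_zero ha)
  · intro x hx
    obtain ⟨i, hi⟩ := Function.ne_iff.1 ha
    have h := hx (Finsupp.single i 1)
    rw [coeff_lin] at h
    rw [isUnit_iff_ne_zero]
    rintro rfl
    exact hi (zero_dvd_iff.1 h)

theorem lin_prime {a : Fin ℓ → K} (ha : a ≠ 0) : Prime (lin a) := (lin_irreducible ha).prime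

theorem lin_dvd_lin {a b : Fin ℓ → K} (ha : a ≠ 0) (h : lin a ∣ lin b) : ∃ c : K, b = c • a := by
  by_cases hb : b = 0
  · exact ⟨0, by simp [hb]⟩
  obtain ⟨q, hq⟩ := h
  have hq0 : q ≠ 0 := by
    rintro rfl
    exact lin_ne_zero hb (by simpa using hq)
  have h1 := congrArg totalDegree hq
  rw [totalDegree_mul_of_isDomain (lin_ne_zero ha) hq0, (lin_homog a).totalDegree (lin_ne_zero ha),
    (lin_homog b).totalDegree (lin_ne_zero hb)] at h1
  obtain ⟨c, rfl⟩ : ∃ c, q = C c := ⟨_, totalDegree_eq_zero_iff_eq_C.1 (by omega)⟩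
  refine ⟨c, ?_⟩
  funext i
  rw [← coeff_lin b i, hq, mul_comm, coeff_C_mul, coeff_lin]
  simp

theorem norm_subset {A B : Finset (Fin ℓ → K)} (hB : Norm B) (h : A ⊆ B) : Norm A :=
  ⟨fun a ha => hB.ne a (h ha), fun a ha b hb => hB.ind a (h ha) b (h hb)⟩

theorem Q_ne_zero {B : Finset (Fin ℓ → K)} (hB : Norm B) : Qof B ≠ 0 :=
  Finset.prod_ne_zero_iff.2 fun a ha => lin_ne_zero (hB.ne a ha)

theorem Q_dvd_of_forall {B : Finset (Fin ℓ → K)} (hB : Norm B) {f : S K ℓ}
    (h : ∀ a ∈ B, lin a ∣ f) : Qof B ∣ f := by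
  classical
  unfold Qof
  induction B using Finset.induction_on with
  | empty => simp
  | insert b B hb ih =>
    rw [Finset.prod_insert hb]
    have ih' := ih (norm_subset hB (Finset.subset_insert _ _))
      fun a ha => h a (Finset.mem_insert_of_mem ha)
    obtain ⟨g, hg⟩ := ih'
    have h1 : lin b ∣ (∏ a ∈ B, lin a) * g := hg ▸ h b (Finset.mem_insert_self _ _)
    have hp := lin_prime (hB.ne b (Finset.mem_insert_self _ _))
    rcases hp.dvd_or_dvd h1 with h2 | ⟨k, hk⟩
    · exfalso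
      obtain ⟨a, ha, h3⟩ := (hp.dvd_finsetProd_iff _).1 h2
      obtain ⟨c, hc⟩ := lin_dvd_lin (hB.ne b (Finset.mem_insert_self _ _)) h3
      exact hB.ind b (Finset.mem_insert_self _ _) a (Finset.mem_insert_of_mem ha)
        (by rintro rfl; exact hb ha) c hc
    · exact ⟨k, by rw [hg, hk]; ring⟩

end Lin

/-! ### Alternating arrays -/

section Arr

variable {A : Type*} [CommRing A] {ℓ : ℕ}

theorem map_lin {p : ℕ} (Φ : (Fin ℓ → A) [⋀^Fin p]→ₗ[A] A) (u : Fin p → Fin ℓ → A) (j : Fin p)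
    (v : Fin ℓ → A) :
    Φ (Function.update u j v) = ∑ i, v i * Φ (Function.update u j (Pi.single i 1)) := by
  classical
  have h := LinearMap.pi_apply_eq_sum_univ (Φ.toMultilinearMap.toLinearMap u j) v
  have h1 : (Φ.toMultilinearMap.toLinearMap u j) v = Φ (Function.update u j v) := rfl
  rw [← h1, h]
  refine Finset.sum_congr rfl fun i _ => ?_
  rw [smul_eq_mul]
  congr 1
  have h2 : (fun j' : Fin ℓ => if i = j' then (1 : A) else 0) = Pi.single i 1 := by
    funext j'
    by_cases hij : i = j'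
    · subst hij
      simp
    · rw [if_neg hij, Pi.single_eq_of_ne (Ne.symm hij)]
  rw [h2]
  rfl

/-- the alternating array of the determinant -/
noncomputable def vol (A : Type*) [CommRing A] (n : ℕ) : (Fin n → Fin n) → A :=
  fun w => (Matrix.detRowAlternating : (Fin n → A) [⋀^Fin n]→ₗ[A] A)
    (fun k => Pi.single (w k) 1)

theorem isAlt_vol (n : ℕ) : IsAlt (vol A n) := isAlt_of_map _

theorem vol_id (n : ℕ) : vol A n id = 1 := by
  unfold vol
  have h : (fun k : Fin n => (Pi.single (id k) 1 : Fin n → A)) = (1 : Matrix (Fin n) (Fin n) A) := by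
    funext k j
    rw [id, Matrix.one_apply, Pi.single_apply]
    simp only [eq_comm]
  rw [h]
  exact Matrix.det_one

theorem cons_swap {p : ℕ} (x : Fin ℓ) (w : Fin p → Fin ℓ) (i j : Fin p) :
    (Fin.cons x (w ∘ Equiv.swap i j) : Fin (p + 1) → Fin ℓ) =
      (Fin.cons x w : Fin (p + 1) → Fin ℓ) ∘ Equiv.swap i.succ j.succ := by
  funext k
  refine Fin.cases ?_ (fun k' => ?_) k
  · rw [Function.comp_apply, Equiv.swap_apply_of_ne_of_ne (Fin.succ_ne_zero _).symm
      (Fin.succ_ne_zero _).symm, Fin.cons_zero, Fin.cons_zero]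
  · rw [Function.comp_apply, Fin.cons_succ, Function.comp_apply]
    rcases eq_or_ne k' i with rfl | hi
    · rw [Equiv.swap_apply_left, Equiv.swap_apply_left, Fin.cons_succ]
    · rcases eq_or_ne k' j with rfl | hj
      · rw [Equiv.swap_apply_right, Equiv.swap_apply_right, Fin.cons_succ]
      · rw [Equiv.swap_apply_of_ne_of_ne hi hj, Equiv.swap_apply_of_ne_of_ne
          (fun h => hi (Fin.succ_injective _ h)) (fun h => hj (Fin.succ_injective _ h)),
          Fin.cons_succ]

theorem isAlt_con {p : ℕ} (v : Fin ℓ → A) (a : (Fin (p + 1) → Fin ℓ) → A) (ha : IsAlt a) :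
    IsAlt (con v a) := by
  constructor
  · intro w hw
    show ∑ i, v i * a (Fin.cons i w) = 0
    refine Finset.sum_eq_zero fun i _ => ?_
    rw [ha.nz, mul_zero]
    intro h
    apply hw
    intro x y hxy
    have := @h x.succ y.succ (by rw [Fin.cons_succ, Fin.cons_succ, hxy])
    exact Fin.succ_injective _ this
  · intro w i j hij
    show ∑ x, v x * a (Fin.cons x (w ∘ Equiv.swap i j)) = - ∑ x, v x * a (Fin.cons x w)
    rw [← Finset.sum_neg_distrib]
    refine Finset.sum_congr rfl fun x _ => ?_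
    rw [cons_swap, ha.sw _ _ _ (fun h => hij (Fin.succ_injective _ h)), mul_neg]

/-- the value of a `1`-vector wedged with an `ℓ`-array -/
noncomputable def F (t : Fin (ℓ + 1) → A) (a : (Fin ℓ → Fin (ℓ + 1)) → A) : A := wedge t a id

theorem F_apply (t : Fin (ℓ + 1) → A) (a : (Fin ℓ → Fin (ℓ + 1)) → A) :
    F t a = ∑ j : Fin (ℓ + 1), (-1) ^ (j : ℕ) * (t j * a j.succAbove) := rfl

theorem F_con (t c : Fin (ℓ + 1) → A) : F t (con c (vol A (ℓ + 1))) = ∑ i, c i * t i := by
  have h := con_wedge c t (vol A (ℓ + 1))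
  have h0 : wedge t (vol A (ℓ + 1)) = 0 := by
    funext w
    refine (isAlt_wedge t (vol A (ℓ + 1)) (isAlt_vol _)).nz w ?_
    intro hi
    have := Fintype.card_le_of_injective w hi
    simp only [Fintype.card_fin] at this
    omega
  rw [h0, map_zero] at h
  have h1 := congrFun h id
  rw [Pi.sub_apply, Pi.smul_apply, vol_id, smul_eq_mul, mul_one] at h1
  exact (sub_eq_zero.1 h1.symm).symm

/-- the covector of an `ℓ`-array -/
noncomputable def om (a : (Fin ℓ → Fin (ℓ + 1)) → A) (i : Fin (ℓ + 1)) : A :=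
  (-1) ^ (i : ℕ) * a i.succAbove

theorem F_om (t : Fin (ℓ + 1) → A) (a : (Fin ℓ → Fin (ℓ + 1)) → A) :
    F t a = ∑ i, om a i * t i := by
  rw [F_apply]
  refine Finset.sum_congr rfl fun i _ => ?_
  rw [om]
  ring

theorem nondeg (a : (Fin ℓ → Fin (ℓ + 1)) → A) (ha : IsAlt a)
    (h : ∀ i : Fin (ℓ + 1), a i.succAbove = 0) : a = 0 := by
  classical
  funext w
  by_cases hw : Function.Injective w
  · obtain ⟨i, hi⟩ : ∃ i, i ∉ Set.range w := by
      by_contra hcon
      push Not at hcon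
      have hs : Function.Surjective w := hcon
      have := Fintype.card_le_of_surjective w hs
      simp only [Fintype.card_fin] at this
      omega
    have h1 : ∀ k, ∃ k', i.succAbove k' = w k := fun k =>
      Fin.exists_succAbove_eq (fun hk => hi ⟨k, hk⟩)
    choose σ hσ using h1
    have hinj : Function.Injective σ := by
      intro x y hxy
      apply hw
      rw [← hσ, ← hσ, hxy]
    let τ : Equiv.Perm (Fin ℓ) := Equiv.ofBijective σ ((Finite.injective_iff_bijective).1 hinj)
    have h2 : (fun k => (Pi.single (w k) 1 : Fin (ℓ + 1) → A)) =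
        (fun k => (Pi.single (i.succAbove k) 1 : Fin (ℓ + 1) → A)) ∘ τ := by
      funext k
      rw [Function.comp_apply]
      show _ = Pi.single (i.succAbove (σ k)) 1
      rw [hσ]
    rw [← amap_basis a ha w, h2, AlternatingMap.map_perm, amap_basis, h i, smul_zero]
    rfl
  · exact ha.nz w hw

theorem con_om (a : (Fin ℓ → Fin (ℓ + 1)) → A) (ha : IsAlt a) :
    con (om a) (vol A (ℓ + 1)) = a := by
  have h1 := isAlt_con (om a) (vol A (ℓ + 1)) (isAlt_vol _)
  have h2 : IsAlt (con (om a) (vol A (ℓ + 1)) - a) := by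
    constructor
    · intro w hw
      rw [Pi.sub_apply, h1.nz w hw, ha.nz w hw, sub_zero]
    · intro w i j hij
      rw [Pi.sub_apply, Pi.sub_apply, h1.sw w i j hij, ha.sw w i j hij]
      ring
  have h3 : ∀ i : Fin (ℓ + 1), (con (om a) (vol A (ℓ + 1)) - a) i.succAbove = 0 := by
    intro i
    have h4 := F_con (Pi.single i 1) (om a)
    rw [F_om] at h4
    have h5 : ∀ c : Fin (ℓ + 1) → A, ∑ j, c j * (Pi.single i 1 : Fin (ℓ + 1) → A) j = c i := by
      intro c
      rw [Finset.sum_eq_single i]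
      · rw [Pi.single_eq_same, mul_one]
      · intro j _ hj
        rw [Pi.single_eq_of_ne hj, mul_zero]
      · intro hi
        exact absurd (Finset.mem_univ _) hi
    rw [h5, h5] at h4
    unfold om at h4
    have h6 : ((-1 : A) ^ (i : ℕ)) * ((-1) ^ (i : ℕ)) = 1 := by
      rw [← mul_pow]
      simp
    have h7 := congrArg (fun x => ((-1 : A) ^ (i : ℕ)) * x) h4
    simp only [← mul_assoc, h6, one_mul] at h7
    rw [Pi.sub_apply, sub_eq_zero]
    exact h7
  exact sub_eq_zero.1 (nondeg _ h2 h3)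

end Arr

/-! ### The duality -/

section Dual

variable {K : Type u} [Field K] {ℓ : ℕ} {B : Finset (Fin (ℓ + 1) → K)}

/-- a logarithmic form of top degree has its coefficient divisible by every linear form -/
theorem top_dvd (hB : Norm B) {θ : (Fin (ℓ + 1) → Fin (ℓ + 1)) → S K (ℓ + 1)}
    (hθ : θ ∈ LogA (S K (ℓ + 1)) B (ℓ + 1)) : Qof B ∣ θ id := by
  classical
  refine Q_dvd_of_forall hB fun b hb => ?_
  obtain ⟨k, hk⟩ := Function.ne_iff.1 (hB.ne b hb)
  have h := hθ.2 b hb id k
  rw [Finset.sum_eq_single k] at h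
  · have hupd : Function.update (id : Fin (ℓ + 1) → Fin (ℓ + 1)) k k = id :=
      Function.update_eq_self k id
    rw [hupd] at h
    have hk' : (b k)⁻¹ * b k = 1 := inv_mul_cancel₀ hk
    have h1 := Dvd.dvd.mul_left h (C (b k)⁻¹)
    rw [Algebra.algebraMap_self, RingHom.id_apply, RingHom.id_apply, ← mul_assoc, ← C_mul, hk',
      C_1, one_mul] at h1
    exact h1
  · intro i _ hi
    rw [hθ.1.nz, mul_zero]
    intro hinj
    have := @hinj k i (by rw [Function.update_self, Function.update_of_ne hi, id])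
    exact hi this.symm
  · intro hk'
    exact absurd (Finset.mem_univ _) hk'

/-- membership of `con c vol`, first case -/
theorem mem_of_dvd (c : Fin (ℓ + 1) → S K (ℓ + 1)) (hc : ∀ i, Qof B ∣ c i) :
    con c (vol (S K (ℓ + 1)) (ℓ + 1)) ∈ LogA (S K (ℓ + 1)) B ℓ := by
  refine ⟨isAlt_con _ _ (isAlt_vol _), fun b hb w j => ?_⟩
  refine Finset.dvd_sum fun i _ => Dvd.dvd.mul_left ?_ _
  show algebraMap (S K (ℓ + 1)) (S K (ℓ + 1)) (lin b) ∣
    ∑ x, c x * vol (S K (ℓ + 1)) (ℓ + 1) (Fin.cons x (Function.update w j i))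
  refine Finset.dvd_sum fun x _ => Dvd.dvd.mul_right ?_ _
  exact (Finset.dvd_prod_of_mem lin hb).trans (hc x)

/-- the product of all linear forms but one -/
noncomputable def Qe (B : Finset (Fin (ℓ + 1) → K)) (b : Fin (ℓ + 1) → K) : S K (ℓ + 1) := by
  classical exact Qof (B.erase b)

theorem Qe_mul {b : Fin (ℓ + 1) → K} (hb : b ∈ B) : Qof B = lin b * Qe B b := by
  classical
  unfold Qe
  exact (Finset.mul_prod_erase B lin hb).symm

theorem dvd_Qe {b b' : Fin (ℓ + 1) → K} (hb' : b' ∈ B) (h : b' ≠ b) : lin b' ∣ Qe B b := by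
  classical
  unfold Qe
  exact Finset.dvd_prod_of_mem lin (Finset.mem_erase.2 ⟨h, hb'⟩)

/-- membership of `con c vol`, second case -/
theorem mem_of_b (b : Fin (ℓ + 1) → K) :
    con (fun i => Qe B b * C (b i)) (vol (S K (ℓ + 1)) (ℓ + 1)) ∈
      LogA (S K (ℓ + 1)) B ℓ := by
  classical
  refine ⟨isAlt_con _ _ (isAlt_vol _), fun b' hb' w j => ?_⟩
  by_cases hbb : b' = b
  · subst hbb
    have h : ∑ i, algebraMap (S K (ℓ + 1)) (S K (ℓ + 1)) (C (b' i)) *
        con (fun i => Qe B b' * C (b' i)) (vol (S K (ℓ + 1)) (ℓ + 1))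
          (Function.update w j i) = 0 := by
      have hv : ∀ u : Fin (ℓ + 1) → Fin (ℓ + 1), vol (S K (ℓ + 1)) (ℓ + 1) u =
        (Matrix.detRowAlternating : (Fin (ℓ + 1) → S K (ℓ + 1)) [⋀^Fin (ℓ + 1)]→ₗ[S K (ℓ + 1)]
          S K (ℓ + 1)) (fun k => Pi.single (u k) 1) := fun _ => rfl
      set Φ := (Matrix.detRowAlternating : (Fin (ℓ + 1) → S K (ℓ + 1)) [⋀^Fin (ℓ + 1)]→ₗ[S K (ℓ + 1)]
          S K (ℓ + 1)) with hΦ
      let e : Fin (ℓ + 1) → Fin (ℓ + 1) → S K (ℓ + 1) := fun i => Pi.single i 1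
      let bb : Fin (ℓ + 1) → S K (ℓ + 1) := fun i => C (b' i)
      let u0 : Fin (ℓ + 1) → Fin (ℓ + 1) → S K (ℓ + 1) := fun k => e ((Fin.cons 0 w : Fin (ℓ + 1) → Fin (ℓ + 1)) k)
      have hval : ∀ x i : Fin (ℓ + 1), vol (S K (ℓ + 1)) (ℓ + 1)
          (Fin.cons x (Function.update w j i)) =
          Φ (Function.update (Function.update u0 j.succ (e i)) 0 (e x)) := by
        intro x i
        rw [hv]
        congr 1
        funext k
        refine Fin.cases ?_ (fun k' => ?_) k
        · rw [Function.update_self, Fin.cons_zero]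
        · rw [Function.update_of_ne (Fin.succ_ne_zero _), Fin.cons_succ]
          rcases eq_or_ne k' j with rfl | hk
          · rw [Function.update_self, Function.update_self]
          · rw [Function.update_of_ne hk, Function.update_of_ne
              (fun h => hk (Fin.succ_injective _ h))]
            show _ = e ((Fin.cons 0 w : Fin (ℓ + 1) → Fin (ℓ + 1)) k'.succ)
            rw [Fin.cons_succ]
      have h1 : ∑ i, algebraMap (S K (ℓ + 1)) (S K (ℓ + 1)) (C (b' i)) *
          con (fun i => Qe B b' * C (b' i)) (vol (S K (ℓ + 1)) (ℓ + 1))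
            (Function.update w j i) =
          Qe B b' * ∑ x, bb x * ∑ i, bb i *
            Φ (Function.update (Function.update u0 0 (e x)) j.succ (e i)) := by
        rw [Finset.mul_sum]
        simp only [con, LinearMap.coe_mk, AddHom.coe_mk, Finset.mul_sum]
        rw [Finset.sum_comm]
        refine Finset.sum_congr rfl fun x _ => Finset.sum_congr rfl fun i _ => ?_
        rw [hval, Function.update_comm (Fin.succ_ne_zero j)]
        show C (b' i) * (Qe B b' * C (b' x) * _) = Qe B b' * (C (b' x) * (C (b' i) * _))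
        ring
      rw [h1]
      have h2 : ∀ x, ∑ i, bb i * Φ (Function.update (Function.update u0 0 (e x)) j.succ (e i)) =
          Φ (Function.update (Function.update u0 j.succ bb) 0 (e x)) := by
        intro x
        rw [← map_lin, Function.update_comm (Fin.succ_ne_zero j)]
      simp only [h2]
      rw [← map_lin, Φ.map_eq_zero_of_eq _ (i := 0) (j := j.succ), mul_zero]
      · rw [Function.update_self, Function.update_of_ne (Fin.succ_ne_zero _), Function.update_self]
      · exact (Fin.succ_ne_zero _).symm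
    rw [h]
    exact dvd_zero _
  · refine Finset.dvd_sum fun i _ => Dvd.dvd.mul_left ?_ _
    show algebraMap (S K (ℓ + 1)) (S K (ℓ + 1)) (lin b') ∣
      ∑ x, Qe B b * C (b x) *
        vol (S K (ℓ + 1)) (ℓ + 1) (Fin.cons x (Function.update w j i))
    refine Finset.dvd_sum fun x _ => Dvd.dvd.mul_right (Dvd.dvd.mul_right ?_ _) _
    exact dvd_Qe hb' hbb

/-- the form `Q * (e_i contracted into the volume)` -/
noncomputable def E (B : Finset (Fin (ℓ + 1) → K)) (i : Fin (ℓ + 1)) :
    LogA (S K (ℓ + 1)) B ℓ :=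
  ⟨con (fun j => Qof B * (Pi.single i 1 : Fin (ℓ + 1) → S K (ℓ + 1)) j)
    (vol (S K (ℓ + 1)) (ℓ + 1)), mem_of_dvd _ fun _ => Dvd.intro _ rfl⟩

theorem sum_E (c : Fin (ℓ + 1) → S K (ℓ + 1)) :
    ((∑ i, c i • E B i : LogA (S K (ℓ + 1)) B ℓ) : (Fin ℓ → Fin (ℓ + 1)) → S K (ℓ + 1)) =
      Qof B • con c (vol (S K (ℓ + 1)) (ℓ + 1)) := by
  rw [Submodule.coe_sum]
  funext w
  rw [Finset.sum_apply]
  simp only [Submodule.coe_smul, Pi.smul_apply, smul_eq_mul, E, con, LinearMap.coe_mk,
    AddHom.coe_mk]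
  rw [Finset.mul_sum]
  refine Finset.sum_congr rfl fun i _ => ?_
  rw [Finset.sum_eq_single i]
  · rw [Pi.single_eq_same]
    ring
  · intro j _ hj
    rw [Pi.single_eq_of_ne hj]
    ring
  · intro h
    exact absurd (Finset.mem_univ _) h

theorem smul_eq (a : LogA (S K (ℓ + 1)) B ℓ) :
    Qof B • a = ∑ i, om (a : (Fin ℓ → Fin (ℓ + 1)) → S K (ℓ + 1)) i • E B i := by
  apply Subtype.ext
  rw [sum_E, con_om _ a.2.1]
  rfl

theorem sum_b (b : Fin (ℓ + 1) → K) (hbB : b ∈ B) :
    (∑ i, (C (b i) : S K (ℓ + 1)) • E B i : LogA (S K (ℓ + 1)) B ℓ) =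
      lin b • (⟨_, mem_of_b b⟩ : LogA (S K (ℓ + 1)) B ℓ) := by
  apply Subtype.ext
  rw [sum_E]
  funext w
  simp only [Submodule.coe_smul, Pi.smul_apply, smul_eq_mul, con, LinearMap.coe_mk,
    AddHom.coe_mk]
  rw [Finset.mul_sum, Finset.mul_sum]
  refine Finset.sum_congr rfl fun i _ => ?_
  rw [Qe_mul hbB]
  ring

/-- the map from the dual of the forms to the derivations -/
noncomputable def Psi (B : Finset (Fin (ℓ + 1) → K)) : ((LogA (S K (ℓ + 1)) B ℓ) →ₗ[S K (ℓ + 1)] S K (ℓ + 1)) →ₗ[S K (ℓ + 1)]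
    LogA (S K (ℓ + 1)) B 1 where
  toFun φ := ⟨fun w => φ (E B (w 0)), by
    refine ⟨⟨fun w hw => ?_, fun w i j hij => ?_⟩, fun b hb w j => ?_⟩
    · exact absurd (fun x y _ => Subsingleton.elim x y) hw
    · exact absurd (Subsingleton.elim i j) hij
    · have h : ∑ i, algebraMap (S K (ℓ + 1)) (S K (ℓ + 1)) (C (b i)) *
          φ (E B ((Function.update w j i) 0)) = lin b * φ ⟨_, mem_of_b b⟩ := by
        rw [← smul_eq_mul (lin b), ← map_smul, ← sum_b b hb, map_sum]
        refine Finset.sum_congr rfl fun i _ => ?_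
        rw [map_smul, smul_eq_mul]
        have : (Function.update w j i) 0 = i := by
          rw [Subsingleton.elim j 0, Function.update_self]
        rw [this]
        rfl
      rw [h]
      exact Dvd.intro _ rfl⟩
  map_add' φ φ' := by
    apply Subtype.ext
    funext w
    rfl
  map_smul' c φ := by
    apply Subtype.ext
    funext w
    rfl

theorem Psi_injective (hB : Norm B) : Function.Injective (Psi B) := by
  rw [injective_iff_map_eq_zero]
  intro φ hφ
  have h1 : ∀ i, φ (E B i) = 0 := by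
    intro i
    have := congrArg Subtype.val hφ
    exact congrFun this (fun _ => i)
  ext a
  have h2 := congrArg φ (smul_eq a)
  rw [map_smul, map_sum] at h2
  have h3 : ∑ x, φ (om (a : (Fin ℓ → Fin (ℓ + 1)) → S K (ℓ + 1)) x • E B x) = 0 := by
    refine Finset.sum_eq_zero fun i _ => ?_
    rw [map_smul, h1, smul_zero]
  rw [h3, smul_eq_mul] at h2
  exact congrArg _ ((mul_eq_zero.1 h2).resolve_left (Q_ne_zero hB))

theorem F_add (t : Fin (ℓ + 1) → S K (ℓ + 1)) (a a' : (Fin ℓ → Fin (ℓ + 1)) → S K (ℓ + 1)) :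
    F t (a + a') = F t a + F t a' := by
  rw [F_apply, F_apply, F_apply, ← Finset.sum_add_distrib]
  refine Finset.sum_congr rfl fun i _ => ?_
  rw [Pi.add_apply]
  ring

theorem F_smul (t : Fin (ℓ + 1) → S K (ℓ + 1)) (c : S K (ℓ + 1))
    (a : (Fin ℓ → Fin (ℓ + 1)) → S K (ℓ + 1)) : F t (c • a) = c * F t a := by
  rw [F_apply, F_apply, Finset.mul_sum]
  refine Finset.sum_congr rfl fun i _ => ?_
  rw [Pi.smul_apply, smul_eq_mul]
  ring

theorem Psi_surjective (hB : Norm B) : Function.Surjective (Psi B) := by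
  intro t'
  let t : Fin (ℓ + 1) → S K (ℓ + 1) := fun i => (t' : (Fin 1 → Fin (ℓ + 1)) → S K (ℓ + 1)) fun _ => i
  have ht : ∀ b ∈ B, algebraMap (S K (ℓ + 1)) (S K (ℓ + 1)) (lin b) ∣
      ∑ i, algebraMap (S K (ℓ + 1)) (S K (ℓ + 1)) (C (b i)) * t i := by
    intro b hb
    have h := t'.2.2 b hb (fun _ => 0) 0
    have h1 : ∀ i : Fin (ℓ + 1), (Function.update (fun _ : Fin 1 => (0 : Fin (ℓ + 1))) 0 i) =
        fun _ => i := by
      intro i
      funext k
      rw [Subsingleton.elim k 0, Function.update_self]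
    simp only [h1] at h
    exact h
  have hdiv : ∀ a : LogA (S K (ℓ + 1)) B ℓ, ∃ x, F t a = Qof B * x := fun a =>
    top_dvd hB (wedge_mem ht a.2)
  choose g hg using hdiv
  let φ : (LogA (S K (ℓ + 1)) B ℓ) →ₗ[S K (ℓ + 1)] S K (ℓ + 1) :=
    { toFun := g
      map_add' := by
        intro a a'
        apply mul_left_cancel₀ (Q_ne_zero hB)
        rw [mul_add, ← hg, ← hg, ← hg, Submodule.coe_add, F_add]
      map_smul' := by
        intro c a
        apply mul_left_cancel₀ (Q_ne_zero hB)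
        rw [RingHom.id_apply, smul_eq_mul, mul_left_comm, ← hg, ← hg, Submodule.coe_smul, F_smul] }
  refine ⟨φ, ?_⟩
  apply Subtype.ext
  funext w
  show g (E B (w 0)) = (t' : (Fin 1 → Fin (ℓ + 1)) → S K (ℓ + 1)) w
  apply mul_left_cancel₀ (Q_ne_zero hB)
  rw [← hg]
  have hw : w = fun _ => w 0 := by
    funext k
    rw [Subsingleton.elim k 0]
  have h1 : F t (E B (w 0) : (Fin ℓ → Fin (ℓ + 1)) → S K (ℓ + 1)) =
      ∑ i, (Qof B * (Pi.single (w 0) 1 : Fin (ℓ + 1) → S K (ℓ + 1)) i) * t i :=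
    F_con t _
  rw [h1, Finset.sum_eq_single (w 0)]
  · rw [Pi.single_eq_same, mul_one]
    show Qof B * (t' : (Fin 1 → Fin (ℓ + 1)) → S K (ℓ + 1)) (fun _ => w 0) = _
    rw [← hw]
  · intro j _ hj
    rw [Pi.single_eq_of_ne hj, mul_zero, zero_mul]
  · intro h
    exact absurd (Finset.mem_univ _) h

end Dual

/-- E7 -/
theorem thm : stPair.{u} := by
  intro K _ ℓ B hB hfree
  have e := LinearEquiv.ofBijective (Psi B) ⟨Psi_injective hB, Psi_surjective hB⟩
  have : Module.Finite (S K (ℓ + 1)) (LogA (S K (ℓ + 1)) B ℓ) := inferInstance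
  have : Module.Free (S K (ℓ + 1))
    ((LogA (S K (ℓ + 1)) B ℓ) →ₗ[S K (ℓ + 1)] S K (ℓ + 1)) := inferInstance
  exact Module.Free.of_equiv e

end Pool.Agent.Lib.MP_fe1391_co.Tame.Pair
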