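import Pool.Agent.Lib.MP_fe1391_co.Tame.Stmts2
import Pool.Agent.Lib.MP_fe1391_co.Tame.Pair
import Pool.Agent.Lib.MP_fe1391_co.Tame.Auto

/-!
# Tame arrangements: T2, the minors of a Saito matrix form a basis of `D^p`
-/

set_option autoImplicit false

namespace Pool.Agent.Lib.MP_fe1391_co.Tame.Minors

open MvPolynomial Htpy

universe u

section Gen

variable {A : Type*} [CommRing A] {ℓ : ℕ}

/-- expansion of an alternating form on a free module -/
theorem expand {p : ℕ} (γ : (Fin ℓ → A) [⋀^Fin p]→ₗ[A] A) (u : Fin p → Fin ℓ → A) :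
    γ u = ∑ I : Fin p ↪o Fin ℓ,
      (Matrix.of fun i j => u i (I j)).det * γ (fun k => Pi.single (I k) 1) := by
  classical
  let b := Pi.basisFun A (Fin ℓ)
  let b' : Module.Basis (Fin p ↪o Fin ℓ) A (⋀[A]^p (Fin ℓ → A)) :=
    (b.exteriorPower p).reindex Set.powersetCard.ofFinEmbEquiv.symm
  have h1 : γ u = exteriorPower.alternatingMapLinearEquiv γ (exteriorPower.ιMulti A p u) :=
    (exteriorPower.alternatingMapLinearEquiv_apply_ιMulti γ u).symm
  rw [h1, ← b'.sum_repr (exteriorPower.ιMulti A p u), map_sum]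
  refine Finset.sum_congr rfl fun I _ => ?_
  rw [map_smul, smul_eq_mul]
  have h2 : b' I = exteriorPower.ιMulti A p (fun k => Pi.single (I k) 1) := by
    rw [Module.Basis.reindex_apply, Equiv.symm_symm, exteriorPower.basis_apply,
      exteriorPower.ιMulti_family, Equiv.symm_apply_apply]
    congr 1
    funext k
    exact Pi.basisFun_apply A (Fin ℓ) (I k)
  have h3 : b'.repr (exteriorPower.ιMulti A p u) I = (Matrix.of fun i j => u i (I j)).det := by
    rw [Module.Basis.repr_reindex_apply, Equiv.symm_symm, exteriorPower.basis_repr_apply,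
      exteriorPower.ιMultiDual_apply_ιMulti, Equiv.symm_apply_apply]
    rfl
  rw [h2, h3, exteriorPower.alternatingMapLinearEquiv_apply_ιMulti]

/-- the alternating form whose array is the minor -/
noncomputable def psi (θ : Matrix (Fin ℓ) (Fin ℓ) A) {p : ℕ} (I : Fin p ↪o Fin ℓ) :
    (Fin ℓ → A) [⋀^Fin p]→ₗ[A] A :=
  (Matrix.detRowAlternating : (Fin p → A) [⋀^Fin p]→ₗ[A] A).compLinearMap
    ((LinearMap.funLeft A A I).comp θ.mulVecLin)

theorem psi_apply (θ : Matrix (Fin ℓ) (Fin ℓ) A) {p : ℕ} (I : Fin p ↪o Fin ℓ)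
    (v : Fin p → Fin ℓ → A) :
    psi θ I v = (Matrix.of fun i j => (θ.mulVec (v i)) (I j)).det := rfl

theorem psi_basis (θ : Matrix (Fin ℓ) (Fin ℓ) A) {p : ℕ} (I : Fin p ↪o Fin ℓ)
    (w : Fin p → Fin ℓ) :
    psi θ I (fun k => Pi.single (w k) 1) = (θ.submatrix I w).det := by
  rw [psi_apply, ← Matrix.det_transpose]
  congr 1
  ext i j
  simp

theorem mulVec_adj (θ : Matrix (Fin ℓ) (Fin ℓ) A) (k : Fin ℓ) :
    θ.mulVec (fun i => θ.adjugate i k) = θ.det • Pi.single k 1 := by
  have h : (fun i => θ.adjugate i k) = θ.adjugate.mulVec (Pi.single k 1) := by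
    rw [Matrix.mulVec_single_one]
    rfl
  rw [h, Matrix.mulVec_mulVec, Matrix.mul_adjugate, Matrix.smul_mulVec, Matrix.one_mulVec]

/-- the evaluation at the adjugate columns -/
noncomputable def hh (θ : Matrix (Fin ℓ) (Fin ℓ) A) {p : ℕ} (a : (Fin p → Fin ℓ) → A)
    (ha : IsAlt a) (κ : Fin p → Fin ℓ) : A :=
  amap a ha (fun k i => θ.adjugate i (κ k))

theorem expand_array (θ : Matrix (Fin ℓ) (Fin ℓ) A) {p : ℕ} (a : (Fin p → Fin ℓ) → A)
    (ha : IsAlt a) (w : Fin p → Fin ℓ) :
    θ.det ^ p * a w = ∑ I : Fin p ↪o Fin ℓ, hh θ a ha I * (θ.submatrix I w).det := by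
  have h := expand ((amap a ha).compLinearMap θ.adjugate.mulVecLin)
    (fun k => θ.mulVec (Pi.single (w k) 1))
  have h1 : ((amap a ha).compLinearMap θ.adjugate.mulVecLin)
      (fun k => θ.mulVec (Pi.single (w k) 1)) = θ.det ^ p * a w := by
    rw [AlternatingMap.compLinearMap_apply]
    have h2 : (fun i => θ.adjugate.mulVecLin ((fun k => θ.mulVec (Pi.single (w k) 1)) i)) =
        fun k => θ.det • (Pi.single (w k) 1 : Fin ℓ → A) := by
      funext k
      rw [Matrix.mulVecLin_apply, Matrix.mulVec_mulVec, Matrix.adjugate_mul, Matrix.smul_mulVec,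
        Matrix.one_mulVec]
    rw [h2]
    have h3 := (amap a ha).toMultilinearMap.map_smul_univ (fun _ : Fin p => θ.det)
      (fun k => (Pi.single (w k) 1 : Fin ℓ → A))
    rw [Finset.prod_const, Finset.card_univ, Fintype.card_fin] at h3
    have h4 : (amap a ha).toMultilinearMap (fun k => (Pi.single (w k) 1 : Fin ℓ → A)) = a w :=
      amap_basis a ha w
    rw [h4] at h3
    exact h3
  rw [h1] at h
  rw [h]
  refine Finset.sum_congr rfl fun I _ => ?_
  rw [mul_comm]
  congr 1
  · rw [AlternatingMap.compLinearMap_apply]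
    unfold hh
    congr 1
    funext k i
    rw [Matrix.mulVecLin_apply, Matrix.mulVec_single_one]
    rfl
  · rw [← Matrix.det_transpose]
    congr 1
    ext i j
    simp

theorem det_delta {p : ℕ} (I J : Fin p ↪o Fin ℓ) :
    (Matrix.of fun i j : Fin p => if I j = J i then (1 : A) else 0).det =
      if I = J then 1 else 0 := by
  classical
  by_cases h : I = J
  · subst h
    rw [if_pos rfl]
    have h1 : (Matrix.of fun i j : Fin p => if I j = I i then (1 : A) else 0) = 1 := by
      ext i j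
      rw [Matrix.of_apply, Matrix.one_apply]
      simp [eq_comm]
    rw [h1, Matrix.det_one]
  · rw [if_neg h]
    have hne : Set.powersetCard.ofFinEmbEquiv I ≠ Set.powersetCard.ofFinEmbEquiv J :=
      fun h' => h (Equiv.injective _ h')
    obtain ⟨i, hi, hi'⟩ := (Set.powersetCard.exists_mem_notMem_iff_ne _ _).mp hne
    rw [Set.powersetCard.mem_ofFinEmbEquiv_iff_mem_range] at hi hi'
    obtain ⟨j, rfl⟩ := hi
    apply Matrix.det_eq_zero_of_column_eq_zero j
    intro i
    rw [Matrix.of_apply, if_neg]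
    intro h'
    exact hi' ⟨i, h'.symm⟩

theorem psi_adj (θ : Matrix (Fin ℓ) (Fin ℓ) A) {p : ℕ} (I J : Fin p ↪o Fin ℓ) :
    psi θ I (fun k i => θ.adjugate i (J k)) = if I = J then θ.det ^ p else 0 := by
  classical
  rw [psi_apply]
  have h : (Matrix.of fun i j => (θ.mulVec ((fun k i' => θ.adjugate i' (J k)) i)) (I j)) =
      θ.det • Matrix.of fun i j : Fin p => if I j = J i then (1 : A) else 0 := by
    ext i j
    simp only [mulVec_adj, Matrix.of_apply, Matrix.smul_apply, Pi.smul_apply, Pi.single_apply]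
  rw [h, Matrix.det_smul, det_delta, Fintype.card_fin]
  split_ifs <;> simp

theorem sum_app {ι : Type*} {p : ℕ} (s : Finset ι) (f : ι → (Fin ℓ → A) [⋀^Fin p]→ₗ[A] A)
    (v : Fin p → Fin ℓ → A) : (∑ i ∈ s, f i) v = ∑ i ∈ s, f i v := by
  classical
  induction s using Finset.induction_on with
  | empty => simp
  | insert x s hx ih => rw [Finset.sum_insert hx, Finset.sum_insert hx, AlternatingMap.add_apply, ih]

theorem coef_zero (θ : Matrix (Fin ℓ) (Fin ℓ) A) {p : ℕ} (c : (Fin p ↪o Fin ℓ) → A)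
    (h : ∑ I, c I • (fun w : Fin p → Fin ℓ => (θ.submatrix I w).det) = 0) (J : Fin p ↪o Fin ℓ) :
    θ.det ^ p * c J = 0 := by
  classical
  have h1 : ∑ I, c I • psi θ I = 0 := by
    apply Module.Basis.ext_alternating (Pi.basisFun A (Fin ℓ))
    intro v _
    have h2 := congrFun h v
    rw [Finset.sum_apply] at h2
    rw [sum_app, AlternatingMap.zero_apply]
    have h3 : ∀ I : Fin p ↪o Fin ℓ, (c I • psi θ I) (fun i => (Pi.basisFun A (Fin ℓ)) (v i)) =
        (c I • fun w : Fin p → Fin ℓ => (θ.submatrix I w).det) v := by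
      intro I
      have h4 := psi_basis θ I v
      simp only [Pi.basisFun_apply]
      rw [AlternatingMap.smul_apply, h4, Pi.smul_apply]
    rw [Finset.sum_congr rfl fun I _ => h3 I]
    exact h2
  have h2 : (∑ I, c I • psi θ I) (fun k i => θ.adjugate i (J k)) = 0 := by
    rw [h1]
    rfl
  rw [sum_app, Finset.sum_eq_single J] at h2
  · rw [AlternatingMap.smul_apply, psi_adj, if_pos rfl, smul_eq_mul, mul_comm] at h2
    exact h2
  · intro I _ hI
    rw [AlternatingMap.smul_apply, psi_adj, if_neg hI, smul_zero]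
  · intro hJ
    exact absurd (Finset.mem_univ _) hJ

theorem psi_update (θ : Matrix (Fin ℓ) (Fin ℓ) A) {p : ℕ} (I : Fin p ↪o Fin ℓ)
    (u : Fin p → Fin ℓ → A) (j : Fin p) (v t : Fin ℓ → A) (x : A) (h : θ.mulVec v = x • t) :
    x ∣ psi θ I (Function.update u j v) := by
  classical
  refine ⟨(Matrix.detRowAlternating : (Fin p → A) [⋀^Fin p]→ₗ[A] A) (Function.update
    (fun k => ((LinearMap.funLeft A A I).comp θ.mulVecLin) (u k)) j
    (LinearMap.funLeft A A I t)), ?_⟩
  rw [psi, AlternatingMap.compLinearMap_apply]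
  have h1 : (fun i => ((LinearMap.funLeft A A I).comp θ.mulVecLin) (Function.update u j v i)) =
      Function.update (fun k => ((LinearMap.funLeft A A I).comp θ.mulVecLin) (u k)) j
        (x • LinearMap.funLeft A A I t) := by
    funext i
    rcases eq_or_ne i j with rfl | hij
    · rw [Function.update_self, Function.update_self, LinearMap.comp_apply,
        Matrix.mulVecLin_apply, h, map_smul]
    · rw [Function.update_of_ne hij, Function.update_of_ne hij]
  rw [h1, AlternatingMap.map_update_smul, smul_eq_mul]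

theorem hh_wedge (θ : Matrix (Fin ℓ) (Fin ℓ) A) {p : ℕ} (a : (Fin p → Fin ℓ) → A)
    (ha : IsAlt a) (κ : Fin p → Fin ℓ) (r : Fin ℓ) (hr : r ∉ Set.range κ)
    (hw : IsAlt (wedge (θ r) a)) :
    hh θ (wedge (θ r) a) hw (Fin.cons r κ) = θ.det * hh θ a ha κ := by
  classical
  let T : (Fin ℓ → A) →ₗ[A] A := ∑ i, θ r i • LinearMap.proj i
  let f : (Fin ℓ → A) →ₗ[A] (Fin ℓ → A) [⋀^Fin p]→ₗ[A] A := T.smulRight (amap a ha)
  have hTv : ∀ v, T v = θ.mulVec v r := by
    intro v
    simp only [T, LinearMap.sum_apply, LinearMap.smul_apply, LinearMap.proj_apply, smul_eq_mul]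
    rfl
  have hT : ∀ i, T (Pi.single i 1) = θ r i := by
    intro i
    rw [hTv, Matrix.mulVec_single_one]
    rfl
  have heq : amap (wedge (θ r) a) hw = AlternatingMap.alternatizeUncurryFin f := by
    apply Module.Basis.ext_alternating (Pi.basisFun A (Fin ℓ))
    intro w _
    simp only [Pi.basisFun_apply]
    rw [amap_basis, AlternatingMap.alternatizeUncurryFin_apply]
    unfold wedge
    refine Finset.sum_congr rfl fun j _ => ?_
    have h2 : (amap a ha) (j.removeNth fun k => (Pi.single (w k) 1 : Fin ℓ → A)) =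
        a (j.removeNth w) := amap_basis a ha (j.removeNth w)
    simp only [f, LinearMap.smulRight_apply, AlternatingMap.smul_apply, hT, smul_eq_mul]
    rw [h2]
    rcases Nat.even_or_odd (j : ℕ) with he | ho
    · rw [he.neg_one_pow, he.neg_one_pow, one_mul, one_smul]
    · rw [ho.neg_one_pow, ho.neg_one_pow, neg_smul, one_smul, neg_mul, one_mul]
  unfold hh
  rw [heq, AlternatingMap.alternatizeUncurryFin_apply, Fin.sum_univ_succ,
    Finset.sum_eq_zero, add_zero]
  · have h1 : (fun i => θ.adjugate i ((Fin.cons r κ : Fin (p + 1) → Fin ℓ) 0)) =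
        fun i => θ.adjugate i r := by
      funext i
      rw [Fin.cons_zero]
    have h2 : Fin.removeNth (0 : Fin (p + 1))
        (fun (k : Fin (p + 1)) i => θ.adjugate i ((Fin.cons r κ : Fin (p + 1) → Fin ℓ) k)) =
        fun k i => θ.adjugate i (κ k) := by
      funext k i
      simp [Fin.removeNth]
    rw [h1, h2]
    simp only [f, LinearMap.smulRight_apply, AlternatingMap.smul_apply, hTv, smul_eq_mul]
    rw [mulVec_adj]
    simp
  · intro j _
    simp only [f, LinearMap.smulRight_apply, AlternatingMap.smul_apply, hTv, smul_eq_mul]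
    have h1 : θ.mulVec (fun i => θ.adjugate i ((Fin.cons r κ : Fin (p + 1) → Fin ℓ) j.succ)) r = 0 := by
      rw [mulVec_adj, Pi.smul_apply, Fin.cons_succ, Pi.single_eq_of_ne, smul_zero]
      rintro rfl
      exact hr ⟨j, rfl⟩
    rw [h1, zero_mul, smul_zero]

theorem hh_top (θ : Matrix (Fin ℓ) (Fin ℓ) A) (a : (Fin ℓ → Fin ℓ) → A) (ha : IsAlt a)
    (σ : Equiv.Perm (Fin ℓ)) :
    hh θ a ha σ = a id * (Equiv.Perm.sign σ * θ.det ^ (ℓ - 1)) := by
  classical
  unfold hh
  have h := congrFun (congrArg DFunLike.coe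
    ((amap a ha).eq_smul_basis_det (Pi.basisFun A (Fin ℓ)))) (fun k i => θ.adjugate i (σ k))
  rw [h, AlternatingMap.smul_apply, Pi.basisFun_det, smul_eq_mul]
  congr 1
  · have h1 : (⇑(Pi.basisFun A (Fin ℓ)) : Fin ℓ → Fin ℓ → A) = fun k => Pi.single (id k) 1 := by
      funext k
      exact Pi.basisFun_apply A (Fin ℓ) k
    rw [h1, amap_basis]
  · have h1 : (Matrix.detRowAlternating : (Fin ℓ → A) [⋀^Fin ℓ]→ₗ[A] A)
        (fun k i => θ.adjugate i (σ k)) = (θ.adjugate.submatrix id σ).det := by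
      rw [← Matrix.det_transpose]
      rfl
    rw [h1, Matrix.det_permute', Matrix.det_adjugate, Fintype.card_fin]

end Gen

section Log

variable {K : Type u} [Field K] {ℓ : ℕ} {B : Finset (Fin ℓ → K)}

theorem minor_mem {θ : Matrix (Fin ℓ) (Fin ℓ) (S K ℓ)}
    (hθ : ∀ i, ∀ b ∈ B, lin b ∣ ∑ j, C (b j) * θ i j) {p : ℕ} (I : Fin p ↪o Fin ℓ) :
    minor θ I ∈ LogA (S K ℓ) B p := by
  classical
  have heq : minor θ I = fun w => psi θ I (fun k => Pi.single (w k) 1) := by
    funext w
    exact (psi_basis θ I w).symm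
  refine ⟨?_, fun b hb w j => ?_⟩
  · rw [heq]
    exact isAlt_of_map _
  · choose t ht using fun i => hθ i b hb
    have h1 : θ.mulVec (fun i => C (b i)) = lin b • t := by
      funext i
      rw [Pi.smul_apply, smul_eq_mul, ← ht i]
      simp only [Matrix.mulVec, dotProduct]
      exact Finset.sum_congr rfl fun j _ => mul_comm _ _
    have h2 := psi_update θ I (fun k => Pi.single (w k) 1) j _ t _ h1
    rw [Pair.map_lin] at h2
    have h3 : ∀ i : Fin ℓ, (fun k => (Pi.single (Function.update w j i k) 1 : Fin ℓ → S K ℓ)) =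
        Function.update (fun k => (Pi.single (w k) 1 : Fin ℓ → S K ℓ)) j (Pi.single i 1) := by
      intro i
      funext k
      rcases eq_or_ne k j with rfl | hkj
      · rw [Function.update_self, Function.update_self]
      · rw [Function.update_of_ne hkj, Function.update_of_ne hkj]
    have h4 : ∑ i, algebraMap (S K ℓ) (S K ℓ) (C (b i)) * minor θ I (Function.update w j i) =
        ∑ i, (C (b i) : S K ℓ) * psi θ I (Function.update
          (fun k => (Pi.single (w k) 1 : Fin ℓ → S K ℓ)) j (Pi.single i 1)) := by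
      refine Finset.sum_congr rfl fun i _ => ?_
      rw [Algebra.algebraMap_self, RingHom.id_apply, ← h3 i, psi_basis]
      rfl
    rw [h4, Algebra.algebraMap_self, RingHom.id_apply]
    exact h2

theorem dvd_hh (hB : Norm B) {θ : Matrix (Fin ℓ) (Fin ℓ) (S K ℓ)}
    (hθ : ∀ i, ∀ b ∈ B, lin b ∣ ∑ j, C (b j) * θ i j)
    {c : K} (hc : c ≠ 0) (hdet : θ.det = C c * Qof B) (n : ℕ) :
    ∀ (p : ℕ), p + n = ℓ → ∀ (a : (Fin p → Fin ℓ) → S K ℓ) (ha : a ∈ LogA (S K ℓ) B p)
      (κ : Fin p → Fin ℓ), Function.Injective κ → θ.det ^ p ∣ hh θ a ha.1 κ := by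
  classical
  have hdet0 : θ.det ≠ 0 := by
    rw [hdet]
    exact mul_ne_zero (by simpa using hc) (Pair.Q_ne_zero hB)
  induction n with
  | zero =>
    intro p hp a ha κ hκ
    obtain rfl : p = ℓ := by omega
    let σ : Equiv.Perm (Fin p) := Equiv.ofBijective κ (Finite.injective_iff_bijective.1 hκ)
    have h1 : hh θ a ha.1 κ = a id * (Equiv.Perm.sign σ * θ.det ^ (p - 1)) := hh_top θ a ha.1 σ
    rw [h1]
    have e1 : ∀ m : ℕ, m = 0 → θ.det ^ m = 1 := fun m hm => by rw [hm, pow_zero]
    have e2 : ∀ m : ℕ, 0 < m → θ.det ^ m = θ.det * θ.det ^ (m - 1) := fun m hm => by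
      rw [← pow_succ', Nat.sub_add_cancel hm]
    rcases Nat.eq_zero_or_pos p with h0 | hpos
    · rw [e1 p h0]
      exact one_dvd _
    · have h2 : θ.det ∣ a id := by
        have h3 := Auto.top_dvd hB ha
        rw [hdet]
        obtain ⟨g, hg⟩ := h3
        refine ⟨C c⁻¹ * g, ?_⟩
        have h4 : (C c : S K p) * C c⁻¹ = 1 := by rw [← C_mul, mul_inv_cancel₀ hc, C_1]
        calc a id = Qof B * g := hg
          _ = (C c * C c⁻¹) * (Qof B * g) := by rw [h4, one_mul]
          _ = _ := by ring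
      rw [e2 p hpos]
      exact mul_dvd_mul h2 (Dvd.intro_left _ rfl)
  | succ n ih =>
    intro p hp a ha κ hκ
    obtain ⟨r, hr⟩ : ∃ r, r ∉ Set.range κ := by
      by_contra hcon
      push Not at hcon
      have := Fintype.card_le_of_surjective κ hcon
      simp only [Fintype.card_fin] at this
      omega
    have hw : wedge (θ r) a ∈ LogA (S K ℓ) B (p + 1) := wedge_mem (by
      intro b hb
      simpa [Algebra.algebraMap_self] using hθ r b hb) ha
    have hinj : Function.Injective (Fin.cons r κ : Fin (p + 1) → Fin ℓ) :=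
      Fin.cons_injective_iff.2 ⟨hr, hκ⟩
    have h1 := ih (p + 1) (by omega) _ hw _ hinj
    rw [hh_wedge θ a ha.1 κ r hr, pow_succ'] at h1
    exact (mul_dvd_mul_iff_left hdet0).1 h1

theorem thm : stMinors.{u} := by
  intro K _ ℓ B hB d θ hS p
  obtain ⟨c, hc, hdet⟩ := hS.det
  have hdet0 : θ.det ≠ 0 := by
    rw [hdet]
    exact mul_ne_zero (by simpa using hc) (Pair.Q_ne_zero hB)
  refine ⟨fun I => minor_mem hS.log I, ?_, fun a ha => ?_⟩
  · rw [Fintype.linearIndependent_iff]
    intro g hg J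
    have h := coef_zero θ g hg J
    exact (mul_eq_zero.1 h).resolve_left (pow_ne_zero _ hdet0)
  · by_cases hp : p ≤ ℓ
    · have h := fun I : Fin p ↪o Fin ℓ => dvd_hh hB hS.log hc hdet (ℓ - p) p (by omega) a ha I
        I.injective
      choose f hf using h
      refine ⟨f, ?_⟩
      funext w
      have h1 := expand_array θ a ha.1 w
      apply mul_left_cancel₀ (pow_ne_zero p hdet0)
      rw [h1, Finset.sum_apply, Finset.mul_sum]
      refine Finset.sum_congr rfl fun I _ => ?_
      rw [hf I, Pi.smul_apply, smul_eq_mul]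
      unfold minor
      ring
    · refine ⟨fun _ => 0, ?_⟩
      funext w
      rw [ha.1.nz]
      · simp
      · intro hinj
        have := Fintype.card_le_of_injective w hinj
        simp only [Fintype.card_fin] at this
        omega

end Log

end Pool.Agent.Lib.MP_fe1391_co.Tame.Minors
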