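import Pool.Agent.Lib.MP_fe1391_co.Tame.Stmts

/-!
# Tame arrangements: minimal graded free resolutions over the polynomial ring
-/

set_option autoImplicit false

namespace Pool.Agent.Lib.MP_fe1391_co.Tame.Res

open MvPolynomial CategoryTheory

universe u

/-! ## Projective dimension -/

theorem pd_drop {R : Type u} [CommRing R] {M F : Type u} [AddCommGroup M] [Module R M]
    [AddCommGroup F] [Module R F] [Module.Free R F] (f : F →ₗ[R] M)
    (hf : Function.Surjective f) (k : ℕ)
    (h : HasProjectiveDimensionLE (ModuleCat.of R M) (k + 1)) :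
    HasProjectiveDimensionLE (ModuleCat.of R (LinearMap.ker f)) k := by
  have hS := LinearMap.shortExact_shortComplexKer hf
  have hP : Projective (ModuleCat.of R F) := by
    rw [← IsProjective.iff_projective]
    infer_instance
  exact (hS.hasProjectiveDimensionLT_X₃_iff k hP).mp h

theorem pd_zero {R : Type u} [CommRing R] {M : Type u} [AddCommGroup M] [Module R M]
    (h : HasProjectiveDimensionLE (ModuleCat.of R M) 0) : Module.Projective R M := by
  rw [IsProjective.iff_projective, projective_iff_hasProjectiveDimensionLE_zero]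
  exact h

theorem pd_equiv {R : Type u} [CommRing R] {M M' : Type u} [AddCommGroup M] [Module R M]
    [AddCommGroup M'] [Module R M'] (e : M ≃ₗ[R] M') (k : ℕ)
    (h : HasProjectiveDimensionLE (ModuleCat.of R M) k) :
    HasProjectiveDimensionLE (ModuleCat.of R M') k :=
  hasProjectiveDimensionLT_of_iso e.toModuleIso (k + 1)

section general

variable {K : Type u} [Field K] {A : Type u} [CommRing A] [Algebra K A]

/-- `IsGRes` with arbitrary degrees of the coordinates. -/
structure GR (g : ℤ → Submodule K A) (m : Ideal A) {κ : Type} (s : κ → ℤ)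
    (N : Submodule A (κ → A)) (k : ℕ) (T : Cx A) (ε : Matrix κ (T.ι 0) A) : Prop where
  exact : T.Exact
  len : T.Len k
  min : T.Min m
  nonneg : T.Nonneg
  hom : T.Hom g
  eh : ∀ w i, ε w i ∈ g (T.deg 0 i - s w)
  surj : ∀ v, v ∈ N ↔ ∃ t, v = ε.mulVec t
  ker : ∀ t, ε.mulVec t = 0 ↔ ∃ w, t = (T.d 0).mulVec w

/-- the zero complex -/
def zer (A : Type u) [CommRing A] : Cx A where
  ι _ := Fin 0
  fι _ := inferInstance
  dι _ := inferInstance
  deg _ i := i.elim0
  d _ := fun i => i.elim0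

/-- put `Fin n` in front of a complex -/
def cons (n : ℕ) (e : Fin n → ℤ) (T : Cx A) (ε : Matrix (Fin n) (T.ι 0) A) : Cx A where
  ι j := match j with
    | 0 => Fin n
    | j + 1 => T.ι j
  fι j := match j with
    | 0 => inferInstanceAs (Fintype (Fin n))
    | j + 1 => T.fι j
  dι j := match j with
    | 0 => inferInstanceAs (DecidableEq (Fin n))
    | j + 1 => T.dι j
  deg j := match j with
    | 0 => e
    | j + 1 => T.deg j
  d j := match j with
    | 0 => ε
    | j + 1 => T.d j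

theorem zer_GR (g : ℤ → Submodule K A) (m : Ideal A) {n : ℕ} (s : Fin n → ℤ) :
    GR g m s (⊥ : Submodule A (Fin n → A)) 0 (zer A) 0 where
  exact := by
    intro j v
    have hv : v = 0 := by
      funext i
      exact i.elim0
    refine ⟨fun _ => ⟨0, ?_⟩, fun _ => ?_⟩
    · rw [Matrix.mulVec_zero, hv]
    · rw [hv, Matrix.mulVec_zero]
  len := fun j _ => inferInstanceAs (IsEmpty (Fin 0))
  min := fun j i => i.elim0
  nonneg := fun j i => i.elim0
  hom := fun j i => i.elim0
  eh := fun w i => i.elim0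
  surj := by
    intro v
    rw [Submodule.mem_bot]
    constructor
    · rintro rfl
      exact ⟨0, by rw [Matrix.zero_mulVec]⟩
    · rintro ⟨t, rfl⟩
      rw [Matrix.zero_mulVec]
  ker := by
    intro t
    have ht : t = 0 := by
      funext i
      exact i.elim0
    refine ⟨fun _ => ⟨0, by rw [Matrix.mulVec_zero, ht]⟩, fun _ => by
      rw [Matrix.zero_mulVec]⟩

theorem cons_GR (g : ℤ → Submodule K A) (m : Ideal A) {κ : Type} (s : κ → ℤ) (n : ℕ)
    (e : Fin n → ℤ) (he : ∀ i, 0 ≤ e i) (N : Submodule A (κ → A)) (ε : Matrix κ (Fin n) A)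
    (hN : ∀ v, v ∈ N ↔ ∃ t, v = ε.mulVec t) (hε : ∀ w i, ε w i ∈ g (e i - s w))
    (hm : ∀ t, ε.mulVec t = 0 → ∀ i, t i ∈ m) (T : Cx A) (ε' : Matrix (Fin n) (T.ι 0) A) (k : ℕ)
    (h : GR g m e (LinearMap.ker ε.mulVecLin) k T ε') (k' : ℕ)
    (hk : ∀ j, k' < j + 1 → IsEmpty (T.ι j)) :
    GR g m s N k' (cons n e T ε') ε where
  exact := by
    intro j v
    cases j with
    | zero => exact h.ker v
    | succ j => exact h.exact j v
  len := by
    intro j hj
    cases j with
    | zero => exact absurd hj (Nat.not_lt_zero _)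
    | succ j => exact hk j hj
  min := by
    have key : ∀ (i : Fin n) (i' : T.ι 0), ε' i i' ∈ m := by
      intro i i'
      have h1 : ε'.mulVec (Pi.single i' 1) ∈ LinearMap.ker ε.mulVecLin :=
        (h.surj _).2 ⟨_, rfl⟩
      have h2 := hm _ h1 i
      rw [Matrix.mulVec_single_one] at h2
      exact h2
    intro j i i'
    cases j with
    | zero => exact key i i'
    | succ j => exact h.min j i i'
  nonneg := by
    intro j i
    cases j with
    | zero => exact he i
    | succ j => exact h.nonneg j i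
  hom := by
    intro j i i'
    cases j with
    | zero => exact h.eh i i'
    | succ j => exact h.hom j i i'
  eh := hε
  surj := hN
  ker := by
    intro t
    exact (h.surj t)

/-! ## Homogeneous components -/

section comp

variable (g : ℤ → Submodule K A) (π : ℤ → A →ₗ[K] A)

/-- the axioms for the projections -/
structure Pr : Prop where
  mul : ∀ {m n : ℤ} {a b : A}, a ∈ g m → b ∈ g n → a * b ∈ g (m + n)
  neg : ∀ m, m < 0 → g m = ⊥
  h1 : ∀ m a, π m a ∈ g m
  h2 : ∀ m a, a ∈ g m → π m a = a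
  h3 : ∀ m n a, a ∈ g m → n ≠ m → π n a = 0
  h4 : ∀ a, ∃ s : Finset ℤ, a = ∑ m ∈ s, π m a ∧ ∀ m, m ∉ s → π m a = 0

variable {g π}

theorem proj_mul (hP : Pr g π) (m n : ℤ) (a b : A) (hb : b ∈ g n) :
    π m (b * a) = b * π (m - n) a := by
  obtain ⟨s, hs, hs'⟩ := hP.h4 a
  have h5 : π m (b * a) = ∑ k ∈ s, π m (b * π k a) := by
    conv_lhs => rw [hs]
    rw [Finset.mul_sum, map_sum]
  rw [h5]
  by_cases hmn : m - n ∈ s
  · rw [Finset.sum_eq_single_of_mem (m - n) hmn]
    · have : b * π (m - n) a ∈ g m := by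
        have := hP.mul hb (hP.h1 (m - n) a)
        rwa [show n + (m - n) = m by ring] at this
      exact hP.h2 _ _ this
    · intro k _ hk
      exact hP.h3 (n + k) m _ (hP.mul hb (hP.h1 k a)) (fun h => hk (by omega))
  · rw [hs' _ hmn, mul_zero]
    apply Finset.sum_eq_zero
    intro k hk
    refine hP.h3 (n + k) m _ (hP.mul hb (hP.h1 k a)) (fun h => hmn ?_)
    have : k = m - n := by omega
    rwa [← this]

/-- homogeneous component of a vector -/
def comp (π : ℤ → A →ₗ[K] A) {n : ℕ} (e : Fin n → ℤ) (m : ℤ) (t : Fin n → A) : Fin n → A :=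
  fun i => π (m - e i) (t i)

theorem comp_ker (hP : Pr g π) {κ : Type} {s : κ → ℤ} {n : ℕ} {e : Fin n → ℤ}
    (ε : Matrix κ (Fin n) A) (hε : ∀ w i, ε w i ∈ g (e i - s w)) (m : ℤ) (t : Fin n → A)
    (ht : ε.mulVec t = 0) : ε.mulVec (comp π e m t) = 0 := by
  funext w
  have h5 : ε.mulVec (comp π e m t) w = π (m - s w) (ε.mulVec t w) := by
    simp only [Matrix.mulVec, dotProduct, comp, map_sum]
    refine Finset.sum_congr rfl fun i _ => ?_
    rw [proj_mul hP (m - s w) (e i - s w) _ _ (hε w i)]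
    rw [show m - s w - (e i - s w) = m - e i by ring]
  rw [h5, ht, Pi.zero_apply, map_zero]

theorem isGr_ker (hP : Pr g π) {κ : Type} {s : κ → ℤ} {n : ℕ} {e : Fin n → ℤ}
    (ε : Matrix κ (Fin n) A) (hε : ∀ w i, ε w i ∈ g (e i - s w)) :
    IsGr g e (LinearMap.ker ε.mulVecLin) := by
  classical
  intro t ht
  rw [LinearMap.mem_ker, Matrix.mulVecLin_apply] at ht
  choose S hS hS' using fun i => hP.h4 (t i)
  refine ⟨Finset.univ.biUnion fun i => (S i).image (· + e i), fun m => comp π e m t,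
    fun m _ => ⟨?_, ?_⟩, ?_⟩
  · rw [LinearMap.mem_ker, Matrix.mulVecLin_apply]
    exact comp_ker hP ε hε m t ht
  · intro i
    exact hP.h1 _ _
  · funext i
    rw [Finset.sum_apply]
    have h6 : ((S i).image (· + e i)) ⊆ Finset.univ.biUnion fun i => (S i).image (· + e i) :=
      Finset.subset_biUnion_of_mem (fun i => (S i).image (· + e i)) (Finset.mem_univ i)
    rw [← Finset.sum_subset h6]
    · rw [Finset.sum_image (fun a _ b _ h => by simpa using h)]
      conv_lhs => rw [hS i]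
      refine Finset.sum_congr rfl fun m _ => ?_
      change _ = π (m + e i - e i) (t i)
      rw [add_sub_cancel_right]
    · intro m _ hm
      apply hS' i
      intro h
      apply hm
      rw [Finset.mem_image]
      exact ⟨_, h, by ring⟩

/-- `n` homogeneous generators -/
def Gen (g : ℤ → Submodule K A) {κ : Type} (s : κ → ℤ) (N : Submodule A (κ → A)) (n : ℕ) : Prop :=
  ∃ (v : Fin n → κ → A) (e : Fin n → ℤ), (∀ i, v i ∈ Hm g s (e i)) ∧
    Submodule.span A (Set.range v) = N

theorem exists_gen {κ : Type} {s : κ → ℤ} {N : Submodule A (κ → A)} (hN : N.FG)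
    (hG : IsGr g s N) : ∃ n, Gen g s N n := by
  classical
  obtain ⟨G, hG'⟩ := hN
  have hmem : ∀ x : G, x.1 ∈ N := fun x => by
    rw [← hG']
    exact Submodule.subset_span x.2
  choose S c hS hc using fun x : G => hG x.1 (hmem x)
  let I := Σ x : G, ↥(S x)
  let q : I ≃ Fin (Fintype.card I) := Fintype.equivFin I
  refine ⟨Fintype.card I, fun i => c (q.symm i).1 (q.symm i).2, fun i => (q.symm i).2,
    fun i => (hS _ _ (q.symm i).2.2).2, le_antisymm ?_ ?_⟩
  · rw [Submodule.span_le]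
    rintro _ ⟨i, rfl⟩
    exact (hS _ _ (q.symm i).2.2).1
  · conv_lhs => rw [← hG']
    rw [Submodule.span_le]
    intro x hx
    have h5 := hc ⟨x, hx⟩
    rw [SetLike.mem_coe]
    change x = _ at h5
    rw [h5]
    refine Submodule.sum_mem _ fun m hm => Submodule.subset_span ?_
    refine ⟨q ⟨⟨x, hx⟩, ⟨m, hm⟩⟩, ?_⟩
    change c (q.symm (q ⟨⟨x, hx⟩, ⟨m, hm⟩⟩)).1 (q.symm (q ⟨⟨x, hx⟩, ⟨m, hm⟩⟩)).2 = _
    rw [Equiv.symm_apply_apply]

theorem gen_drop {κ : Type} {s : κ → ℤ} {N : Submodule A (κ → A)} {n : ℕ}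
    (v : Fin (n + 1) → κ → A) (e : Fin (n + 1) → ℤ) (hv : ∀ i, v i ∈ Hm g s (e i))
    (hs : Submodule.span A (Set.range v) = N) (i : Fin (n + 1)) (t : Fin (n + 1) → A)
    (ht : ∑ j, t j • v j = 0) (hu : IsUnit (t i)) : Gen g s N n := by
  refine ⟨fun j => v (i.succAbove j), fun j => e (i.succAbove j), fun j => hv _, ?_⟩
  rw [← hs]
  apply le_antisymm
  · apply Submodule.span_mono
    rintro _ ⟨j, rfl⟩
    exact ⟨_, rfl⟩
  · rw [Submodule.span_le]
    rintro _ ⟨j, rfl⟩
    rw [SetLike.mem_coe]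
    obtain ⟨u, hu⟩ := hu
    by_cases hj : j = i
    · subst hj
      rw [Fin.sum_univ_succAbove _ j, ← hu] at ht
      have h5 : v j = ∑ k : Fin n, (-((u⁻¹ : Aˣ) : A) * t (j.succAbove k)) • v (j.succAbove k) := by
        have h6 : (u : A) • v j = - ∑ k : Fin n, t (j.succAbove k) • v (j.succAbove k) :=
          eq_neg_of_add_eq_zero_left ht
        have h7 : v j = ((u⁻¹ : Aˣ) : A) • ((u : A) • v j) := by
          rw [smul_smul, Units.inv_mul, one_smul]
        rw [h7, h6, smul_neg, Finset.smul_sum, ← Finset.sum_neg_distrib]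
        refine Finset.sum_congr rfl fun k _ => ?_
        rw [smul_smul, neg_mul, neg_smul]
      rw [h5]
      exact Submodule.sum_mem _ fun k _ => Submodule.smul_mem _ _ (Submodule.subset_span ⟨k, rfl⟩)
    · obtain ⟨k, hk⟩ := Fin.exists_succAbove_eq hj
      exact Submodule.subset_span ⟨k, congrArg v hk⟩

theorem mulVec_sum {κ : Type} {n : ℕ} (v : Fin n → κ → A) (t : Fin n → A) :
    Matrix.mulVec (fun w i => v i w) t = ∑ j, t j • v j := by
  funext w
  simp only [Matrix.mulVec, dotProduct, Finset.sum_apply, Pi.smul_apply, smul_eq_mul]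
  exact Finset.sum_congr rfl fun i _ => mul_comm _ _

/-- minimal homogeneous generators -/
theorem exists_min (hP : Pr g π) {κ : Type} {s : κ → ℤ} (hs0 : ∀ w, 0 ≤ s w)
    {N : Submodule A (κ → A)} (hN : N.FG) (hG : IsGr g s N) (m : Ideal A) (hm1 : (1 : A) ∉ m)
    (hm0 : ∀ a, a ∉ m → IsUnit (π 0 a)) :
    ∃ (n : ℕ) (e : Fin n → ℤ) (ε : Matrix κ (Fin n) A), (∀ i, 0 ≤ e i) ∧
      (∀ v, v ∈ N ↔ ∃ t, v = ε.mulVec t) ∧ (∀ w i, ε w i ∈ g (e i - s w)) ∧
      (∀ t, ε.mulVec t = 0 → ∀ i, t i ∈ m) := by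
  classical
  have hex := exists_gen hN hG
  have hmin := fun k (hk : k < Nat.find hex) => Nat.find_min hex hk
  obtain ⟨v, e, hv, hs⟩ := Nat.find_spec hex
  generalize Nat.find hex = n at v e hv hs hmin
  have hrel : ∀ t, Matrix.mulVec (fun w i => v i w) t = 0 → ∀ i, t i ∈ m := by
    intro t ht i
    by_contra hi
    have h5 := comp_ker hP (s := s) (e := e) (fun w i => v i w) (fun w i => hv i w) (e i) t ht
    cases n with
    | zero => exact i.elim0
    | succ n =>
      refine hmin n (Nat.lt_succ_self n) (gen_drop v e hv hs i (comp π e (e i) t) ?_ ?_)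
      · rw [← mulVec_sum]
        exact h5
      · change IsUnit (π (e i - e i) (t i))
        rw [sub_self]
        exact hm0 _ hi
  refine ⟨n, e, fun w i => v i w, ?_, ?_, fun w i => hv i w, hrel⟩
  · intro i
    by_contra hi
    have h6 : v i = 0 := by
      funext w
      have := hv i w
      rw [hP.neg (e i - s w) (by have := hs0 w; omega), Submodule.mem_bot] at this
      exact this
    have h7 := hrel (Pi.single i 1) (by
      rw [mulVec_sum, Finset.sum_eq_single i]
      · rw [h6, smul_zero]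
      · intro j _ hj
        rw [Pi.single_eq_of_ne hj, zero_smul]
      · intro h
        exact absurd (Finset.mem_univ i) h) i
    rw [Pi.single_eq_same] at h7
    exact hm1 h7
  · intro x
    rw [← hs, Submodule.mem_span_range_iff_exists_fun]
    constructor
    · rintro ⟨c, hc⟩
      exact ⟨c, by rw [mulVec_sum, hc]⟩
    · rintro ⟨t, ht⟩
      exact ⟨t, by rw [ht, mulVec_sum]⟩

/-- the projective case -/
theorem ker_bot [IsNoetherianRing A] [IsDomain A] {κ : Type} {n : ℕ}
    {N : Submodule A (κ → A)} (ε : Matrix κ (Fin n) A) (hN : ∀ v, v ∈ N ↔ ∃ t, v = ε.mulVec t)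
    (hp : Module.Projective A N) (m : Ideal A) (hm1 : m ≠ ⊤)
    (hm : ∀ t, ε.mulVec t = 0 → ∀ i, t i ∈ m) : LinearMap.ker ε.mulVecLin = ⊥ := by
  classical
  let f : (Fin n → A) →ₗ[A] N := ε.mulVecLin.codRestrict N (fun t => (hN _).2 ⟨t, rfl⟩)
  have hf : Function.Surjective f := by
    rintro ⟨v, hv⟩
    obtain ⟨t, rfl⟩ := (hN v).1 hv
    exact ⟨t, rfl⟩
  obtain ⟨σ, hσ⟩ := Module.projective_lifting_property f LinearMap.id hf
  have hσ' : ∀ x, f (σ x) = x := fun x => LinearMap.congr_fun hσ x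
  let p : (Fin n → A) →ₗ[A] (Fin n → A) := LinearMap.id - σ ∘ₗ f
  have hfk : ∀ t, f t = 0 ↔ ε.mulVec t = 0 := by
    intro t
    rw [← Submodule.coe_eq_zero]
    rfl
  have hp1 : ∀ t, ε.mulVec (p t) = 0 := by
    intro t
    rw [← hfk]
    simp only [p, LinearMap.sub_apply, LinearMap.id_apply, LinearMap.comp_apply, map_sub, hσ',
      sub_self]
  have hp2 : ∀ t, ε.mulVec t = 0 → p t = t := by
    intro t ht
    simp only [p, LinearMap.sub_apply, LinearMap.id_apply, LinearMap.comp_apply]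
    rw [(hfk t).2 ht, map_zero, sub_zero]
  have hpow : ∀ k : ℕ, ∀ t, ε.mulVec t = 0 → ∀ i, t i ∈ m ^ k := by
    intro k
    induction k with
    | zero =>
      intro t _ i
      rw [pow_zero, Ideal.one_eq_top]
      exact Submodule.mem_top
    | succ k ih =>
      intro t ht i
      have h5 : t = ∑ j, t j • p (Pi.single j 1) := by
        conv_lhs => rw [← hp2 t ht, pi_eq_sum_univ' t, map_sum]
        refine Finset.sum_congr rfl fun j _ => ?_
        rw [map_smul]
      rw [h5, Finset.sum_apply]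
      refine Ideal.sum_mem _ fun j _ => ?_
      rw [Pi.smul_apply, smul_eq_mul, pow_succ']
      exact Ideal.mul_mem_mul (hm t ht j) (ih _ (hp1 _) i)
  rw [eq_bot_iff]
  intro t ht
  rw [LinearMap.mem_ker, Matrix.mulVecLin_apply] at ht
  rw [Submodule.mem_bot]
  funext i
  have h6 : t i ∈ (⨅ k : ℕ, m ^ k : Ideal A) := by
    rw [Submodule.mem_iInf]
    exact fun k => hpow k t ht i
  rw [Ideal.iInf_pow_eq_bot_of_isDomain m hm1] at h6
  exact h6

theorem main (hP : Pr g π) [IsNoetherianRing A] [IsDomain A] (m : Ideal A) (hm1 : (1 : A) ∉ m)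
    (hm0 : ∀ a, a ∉ m → IsUnit (π 0 a)) (k : ℕ) : ∀ (κ : Type) [Fintype κ] (s : κ → ℤ)
    (_ : ∀ w, 0 ≤ s w) (N : Submodule A (κ → A)) (_ : IsGr g s N)
    (_ : HasProjectiveDimensionLE (ModuleCat.of A N) k),
    ∃ (T : Cx A) (ε : Matrix κ (T.ι 0) A), GR g m s N k T ε := by
  have hmt : m ≠ ⊤ := fun h => hm1 (by rw [h]; exact Submodule.mem_top)
  induction k with
  | zero =>
    intro κ _ s hs N hG hpd
    obtain ⟨n, e, ε, he, hN, hε, hrel⟩ := exists_min hP hs (IsNoetherian.noetherian N) hG m hm1 hm0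
    have hb := ker_bot ε hN (pd_zero hpd) m hmt hrel
    have hz := zer_GR g m e
    rw [← hb] at hz
    exact ⟨_, _, cons_GR g m s n e he N ε hN hε hrel _ _ 0 hz 0
      (fun j _ => inferInstanceAs (IsEmpty (Fin 0)))⟩
  | succ k ih =>
    intro κ _ s hs N hG hpd
    obtain ⟨n, e, ε, he, hN, hε, hrel⟩ := exists_min hP hs (IsNoetherian.noetherian N) hG m hm1 hm0
    let f : (Fin n → A) →ₗ[A] N := ε.mulVecLin.codRestrict N (fun t => (hN _).2 ⟨t, rfl⟩)
    have hf : Function.Surjective f := by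
      rintro ⟨v, hv⟩
      obtain ⟨t, rfl⟩ := (hN v).1 hv
      exact ⟨t, rfl⟩
    have hk : LinearMap.ker f = LinearMap.ker ε.mulVecLin := LinearMap.ker_codRestrict _ _ _
    have hpd' := pd_drop f hf k hpd
    rw [hk] at hpd'
    obtain ⟨T, ε', hT⟩ := ih (Fin n) e he _ (isGr_ker hP ε hε) hpd'
    exact ⟨_, _, cons_GR g m s n e he N ε hN hε hrel T ε' k hT (k + 1)
      (fun j hj => hT.len j (by omega))⟩

end comp

end general

/-! ## The polynomial ring -/

theorem cc_pos {K : Type u} [Field K] {ℓ : ℕ} (m : ℤ) (hm : m ≠ 0) (a : S K ℓ)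
    (ha : a ∈ grS (K := K) (ℓ := ℓ) m) : constantCoeff a = 0 := by
  unfold grS at ha
  split_ifs at ha with h
  · rw [mem_homogeneousSubmodule] at ha
    rw [constantCoeff_eq]
    by_contra h0
    have := ha h0
    simp at this
    omega
  · rw [Submodule.mem_bot] at ha
    rw [ha, map_zero]

theorem cc_zero {K : Type u} [Field K] {ℓ : ℕ} (a : S K ℓ)
    (ha : a ∈ grS (K := K) (ℓ := ℓ) 0) : a = C (constantCoeff a) := by
  unfold grS at ha
  rw [if_pos le_rfl, mem_homogeneousSubmodule] at ha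
  ext d
  rw [coeff_C]
  split_ifs with h
  · rw [← h, constantCoeff_eq]
  · by_contra h0
    have := ha h0
    apply h
    symm
    have h2 : d.degree = 0 := by
      rw [Finsupp.degree_eq_weight_one (R := ℕ)]
      exact this
    exact (Finsupp.degree_eq_zero_iff d).1 h2

theorem unit0 {K : Type u} [Field K] {ℓ : ℕ} {π : ℤ → S K ℓ →ₗ[K] S K ℓ}
    (hP : Pr (K := K) (A := S K ℓ) grS π) (a : S K ℓ) (ha : a ∉ mS K ℓ) : IsUnit (π 0 a) := by
  obtain ⟨s, hs, hs'⟩ := hP.h4 a
  have h1 : constantCoeff a = constantCoeff (π 0 a) := by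
    conv_lhs => rw [hs, map_sum]
    by_cases h0 : (0 : ℤ) ∈ s
    · rw [Finset.sum_eq_single_of_mem 0 h0]
      intro m _ hm
      exact cc_pos m hm _ (hP.h1 m a)
    · rw [hs' 0 h0, map_zero]
      apply Finset.sum_eq_zero
      intro m hm
      exact cc_pos m (fun h => h0 (h ▸ hm)) _ (hP.h1 m a)
  rw [cc_zero _ (hP.h1 0 a), ← h1]
  have h2 : constantCoeff a ≠ 0 := fun h => ha ((RingHom.mem_ker).2 h)
  exact (isUnit_iff_ne_zero.2 h2).map C

theorem thm (hS : stGrS.{u}) : stRes.{u} := by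
  intro K _ ℓ κ _ _ N k hG hpd
  obtain ⟨π, h1, h2, h3, h4⟩ := (hS K ℓ).proj
  have hP : Pr (K := K) (A := S K ℓ) grS π := ⟨(hS K ℓ).mul, (hS K ℓ).neg, h1, h2, h3, h4⟩
  have hm1 : (1 : S K ℓ) ∉ mS K ℓ := by
    intro h
    have := (RingHom.mem_ker).1 h
    rw [map_one] at this
    exact one_ne_zero this
  obtain ⟨T, ε, hT⟩ := main hP (mS K ℓ) hm1 (unit0 hP) k κ (fun _ => 0) (fun _ => le_rfl) N hG hpd
  exact ⟨T, ε, ⟨hT.exact, hT.len, hT.min, hT.nonneg, hT.hom, hT.eh, hT.surj, hT.ker⟩⟩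

end Pool.Agent.Lib.MP_fe1391_co.Tame.Res
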