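import Pool.Agent.Lib.MP_fe1391_co.Tame.Stmts2
import Pool.Agent.Lib.MP_fe1391_co.Tame.Pair

/-!
# Tame arrangements: T1, Saito's criterion (homogeneous basis of a free arrangement)
-/

set_option autoImplicit false

namespace Pool.Agent.Lib.MP_fe1391_co.Tame.Saito

open MvPolynomial Pair

universe u

section Det

variable {K : Type u} [Field K] {ℓ : ℕ} {B : Finset (Fin ℓ → K)}

/-- logarithmic vector fields, as vectors -/
def IsLog (B : Finset (Fin ℓ → K)) (t : Fin ℓ → S K ℓ) : Prop :=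
  ∀ b ∈ B, lin b ∣ ∑ j, C (b j) * t j

theorem mem_iff (t : Fin ℓ → S K ℓ) :
    (fun w : Fin 1 → Fin ℓ => t (w 0)) ∈ LogA (S K ℓ) B 1 ↔ IsLog B t := by
  constructor
  · rintro ⟨-, h⟩ b hb
    by_cases hne : Nonempty (Fin ℓ)
    · obtain ⟨i0⟩ := hne
      have h1 := h b hb (fun _ => i0) 0
      simpa [Function.update] using h1
    · rw [not_nonempty_iff] at hne
      simp
  · intro h
    refine ⟨⟨fun w hw => ?_, fun w i j hij => ?_⟩, fun b hb w j => ?_⟩
    · exact absurd (Function.injective_of_subsingleton w) hw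
    · exact absurd (Subsingleton.elim i j) hij
    · have h1 := h b hb
      have hj : j = 0 := Subsingleton.elim _ _
      subst hj
      simpa using h1

theorem isLog_smul (s : S K ℓ) {t : Fin ℓ → S K ℓ} (ht : IsLog B t) : IsLog B (s • t) := by
  intro b hb
  have := Dvd.dvd.mul_left (ht b hb) s
  rw [Finset.mul_sum] at this
  convert this using 1
  refine Finset.sum_congr rfl fun j _ => ?_
  rw [Pi.smul_apply, smul_eq_mul]
  ring

/-- `lin b` divides the determinant -/
theorem lin_dvd_det {b : Fin ℓ → K} (hb0 : b ≠ 0) {θ : Matrix (Fin ℓ) (Fin ℓ) (S K ℓ)}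
    (h : ∀ i, lin b ∣ ∑ j, C (b j) * θ i j) : lin b ∣ θ.det := by
  obtain ⟨j0, hj0⟩ := Function.ne_iff.1 hb0
  choose w hw using h
  have h1 : θ.mulVec (fun j => C (b j)) = lin b • w := by
    funext i
    rw [Pi.smul_apply, smul_eq_mul, ← hw i]
    simp only [Matrix.mulVec, dotProduct]
    exact Finset.sum_congr rfl fun j _ => mul_comm _ _
  have h2 : θ.adjugate.mulVec (θ.mulVec (fun j => C (b j))) = θ.det • (fun j => C (b j)) := by
    rw [Matrix.mulVec_mulVec, Matrix.adjugate_mul, Matrix.smul_mulVec, Matrix.one_mulVec]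
  rw [h1, Matrix.mulVec_smul] at h2
  have h3 := congrFun h2 j0
  simp only [Pi.smul_apply, smul_eq_mul] at h3
  have h4 : θ.det = lin b * (θ.adjugate.mulVec w j0 * C (b j0)⁻¹) := by
    have h5 : (C (b j0) : S K ℓ) * C (b j0)⁻¹ = 1 := by
      rw [← C_mul, mul_inv_cancel₀ hj0, C_1]
    calc θ.det = θ.det * (C (b j0) * C (b j0)⁻¹) := by rw [h5, mul_one]
      _ = (θ.det * C (b j0)) * C (b j0)⁻¹ := by ring
      _ = _ := by rw [← h3]; ring
  exact ⟨_, h4⟩

theorem Q_dvd_det (hB : Norm B) {θ : Matrix (Fin ℓ) (Fin ℓ) (S K ℓ)} (h : ∀ i, IsLog B (θ i)) :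
    Qof B ∣ θ.det :=
  Q_dvd_of_forall hB fun b hb => lin_dvd_det (hB.ne b hb) fun i => h i b hb

theorem det_dvd {θ : Matrix (Fin ℓ) (Fin ℓ) (S K ℓ)}
    (hs : ∀ t, IsLog B t → ∃ c : Fin ℓ → S K ℓ, t = Matrix.vecMul c θ)
    {T : Matrix (Fin ℓ) (Fin ℓ) (S K ℓ)} (hT : ∀ i, IsLog B (T i)) : θ.det ∣ T.det := by
  choose c hc using fun i => hs (T i) (hT i)
  have : T = Matrix.of c * θ := by
    ext i j
    rw [hc i]
    rfl
  rw [this, Matrix.det_mul]
  exact Dvd.intro_left _ rfl

theorem isLog_Q (B : Finset (Fin ℓ → K)) (t : Fin ℓ → S K ℓ) : IsLog B (Qof B • t) := by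
  intro b hb
  refine Finset.dvd_sum fun j _ => Dvd.dvd.mul_left ?_ _
  rw [Pi.smul_apply, smul_eq_mul]
  exact Dvd.dvd.mul_right (Finset.dvd_prod_of_mem lin hb) _

theorem det_dvd_Q {θ : Matrix (Fin ℓ) (Fin ℓ) (S K ℓ)}
    (hs : ∀ t, IsLog B t → ∃ c : Fin ℓ → S K ℓ, t = Matrix.vecMul c θ) :
    θ.det ∣ Qof B ^ ℓ := by
  have h := det_dvd hs (T := Qof B • (1 : Matrix (Fin ℓ) (Fin ℓ) (S K ℓ)))
    (fun i => isLog_Q B _)
  rwa [Matrix.det_smul, Matrix.det_one, mul_one, Fintype.card_fin] at h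

open Classical in
/-- the product of all linear forms but one -/
noncomputable def Qd (B : Finset (Fin ℓ → K)) (b : Fin ℓ → K) : S K ℓ := Qof (B.erase b)

theorem dvd_Qd {b b' : Fin ℓ → K} (hb' : b' ∈ B) (h : b' ≠ b) : lin b' ∣ Qd B b := by
  classical
  unfold Qd
  exact Finset.dvd_prod_of_mem lin (Finset.mem_erase.2 ⟨h, hb'⟩)

theorem not_dvd_Qd (hB : Norm B) {b : Fin ℓ → K} (hb : b ∈ B) : ¬ lin b ∣ Qd B b := by
  classical
  intro h
  obtain ⟨a, ha, h1⟩ := ((lin_prime (hB.ne b hb)).dvd_finsetProd_iff _).1 h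
  obtain ⟨c, hc⟩ := lin_dvd_lin (hB.ne b hb) h1
  obtain ⟨h2, h3⟩ := Finset.mem_erase.1 ha
  exact hB.ind b hb a h3 (Ne.symm h2) c hc

/-- the test fields -/
theorem det_dvd_prod {θ : Matrix (Fin ℓ) (Fin ℓ) (S K ℓ)}
    (hs : ∀ t, IsLog B t → ∃ c : Fin ℓ → S K ℓ, t = Matrix.vecMul c θ)
    (b : Fin ℓ → K) (j0 : Fin ℓ) (hj0 : b j0 ≠ 0) :
    θ.det ∣ Qof B * ∏ _i ∈ Finset.univ.erase j0, (Qd B b * C (b j0)) := by
  classical
  set v : Fin ℓ → S K ℓ := fun i => if i = j0 then 1 else - C (b i * (b j0)⁻¹) with hv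
  set U : Matrix (Fin ℓ) (Fin ℓ) (S K ℓ) := (1 : Matrix (Fin ℓ) (Fin ℓ) (S K ℓ)).updateCol j0 v
    with hU
  set D : Fin ℓ → S K ℓ := fun i => if i = j0 then Qof B else Qd B b * C (b j0) with hD
  have hdet : (Matrix.diagonal D * U).det = Qof B *
      ∏ _i ∈ Finset.univ.erase j0, (Qd B b * C (b j0)) := by
    rw [Matrix.det_mul, Matrix.det_diagonal]
    have h1 : U.det = v j0 := by
      rw [hU, ← Matrix.cramer_apply, Matrix.cramer_one]
      rfl
    rw [h1]
    have h2 : v j0 = 1 := by simp [hv]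
    rw [h2, mul_one, ← Finset.mul_prod_erase Finset.univ D (Finset.mem_univ j0)]
    congr 1
    · simp [hD]
    · refine Finset.prod_congr rfl fun i hi => ?_
      have := (Finset.mem_erase.1 hi).1
      simp [hD, this]
  rw [← hdet]
  apply det_dvd hs
  intro i
  have hrow : (Matrix.diagonal D * U) i = D i • U i := by
    funext j
    rw [Matrix.diagonal_mul]
    rfl
  rw [hrow]
  by_cases hi : i = j0
  · have : D i = Qof B := by simp [hD, hi]
    rw [this]
    exact isLog_Q B _
  · have hDi : D i = Qd B b * C (b j0) := by simp [hD, hi]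
    intro b' hb'
    by_cases hbb : b' = b
    · subst hbb
      have h0 : ∑ j, C (b' j) * (D i • U i) j = 0 := by
        have h1 : ∀ j, C (b' j) * (D i • U i) j = D i * (C (b' j) * U i j) := by
          intro j
          rw [Pi.smul_apply, smul_eq_mul]
          ring
        simp_rw [h1]
        rw [← Finset.mul_sum]
        have h2 : ∑ j, C (b' j) * U i j = 0 := by
          rw [← Finset.add_sum_erase Finset.univ _ (Finset.mem_univ j0)]
          have h3 : U i j0 = - C (b' i * (b' j0)⁻¹) := by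
            rw [hU, Matrix.updateCol_self]
            simp [hv, hi]
          have h4 : ∑ x ∈ Finset.univ.erase j0, C (b' x) * U i x = C (b' i) := by
            rw [Finset.sum_eq_single i]
            · rw [hU, Matrix.updateCol_ne hi, Matrix.one_apply_eq, mul_one]
            · intro j hj hji
              rw [hU, Matrix.updateCol_ne (Finset.mem_erase.1 hj).1,
                Matrix.one_apply_ne (Ne.symm hji), mul_zero]
            · intro h
              exact absurd (Finset.mem_erase.2 ⟨hi, Finset.mem_univ _⟩) h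
          rw [h3, h4, mul_neg, ← C_mul, neg_add_eq_zero]
          congr 1
          field_simp
        rw [h2, mul_zero]
      rw [h0]
      exact dvd_zero _
    · refine Finset.dvd_sum fun j _ => Dvd.dvd.mul_left ?_ _
      rw [Pi.smul_apply, smul_eq_mul, hDi]
      exact Dvd.dvd.mul_right (Dvd.dvd.mul_right (dvd_Qd hb' hbb) _) _

theorem det_eq (hB : Norm B) {θ : Matrix (Fin ℓ) (Fin ℓ) (S K ℓ)} (h : ∀ i, IsLog B (θ i))
    (hs : ∀ t, IsLog B t → ∃ c : Fin ℓ → S K ℓ, t = Matrix.vecMul c θ) :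
    ∃ c : K, c ≠ 0 ∧ θ.det = C c * Qof B := by
  classical
  obtain ⟨g, hg⟩ := Q_dvd_det hB h
  have hQ : Qof B ≠ 0 := Q_ne_zero hB
  have hdet0 : θ.det ≠ 0 := by
    intro h0
    have := det_dvd_Q hs
    rw [h0, zero_dvd_iff] at this
    exact pow_ne_zero _ hQ this
  have hg0 : g ≠ 0 := by
    rintro rfl
    exact hdet0 (by rw [hg, mul_zero])
  have hu : IsUnit g := by
    by_contra hnu
    obtain ⟨p, hp, hpg⟩ := WfDvdMonoid.exists_irreducible_factor hnu hg0
    have hpp : Prime p := hp.prime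
    have h1 : p ∣ Qof B ^ ℓ := (hpg.trans (Dvd.intro_left _ hg.symm)).trans (det_dvd_Q hs)
    have h2 : p ∣ Qof B := hpp.dvd_of_dvd_pow h1
    obtain ⟨b, hb, h3⟩ := (hpp.dvd_finsetProd_iff _).1 h2
    have hlp := lin_prime (hB.ne b hb)
    have h4 : lin b ∣ p := hp.dvd_symm hlp.irreducible h3
    obtain ⟨j0, hj0⟩ := Function.ne_iff.1 (hB.ne b hb)
    have h5 := det_dvd_prod hs b j0 hj0
    rw [hg] at h5
    have h6 : g ∣ ∏ i ∈ Finset.univ.erase j0, (Qd B b * C (b j0)) :=
      (mul_dvd_mul_iff_left hQ).1 h5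
    have h7 : lin b ∣ ∏ i ∈ Finset.univ.erase j0, (Qd B b * C (b j0)) :=
      (h4.trans hpg).trans h6
    obtain ⟨i, _, h8⟩ := (hlp.dvd_finsetProd_iff _).1 h7
    have h9 : IsUnit (C (b j0) : S K ℓ) := (isUnit_iff_ne_zero.2 hj0).map C
    exact not_dvd_Qd hB hb (h9.dvd_mul_right.1 h8)
  obtain ⟨r, hr, hrg⟩ := isUnit_iff_eq_C_of_isReduced.1 hu
  exact ⟨r, hr.ne_zero, by rw [hg, hrg, mul_comm]⟩

end Det

theorem thm (hRes : stRes.{u}) (hGr : stGrLog.{u}) : stSaito.{u} := by
  intro K _ ℓ B hB hfree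
  have hpd : CategoryTheory.HasProjectiveDimensionLE
      (ModuleCat.of (S K ℓ) (LogA (S K ℓ) B 1)) 0 := by
    have hP : Module.Projective (S K ℓ) (LogA (S K ℓ) B 1) := inferInstance
    rw [IsProjective.iff_projective,
      CategoryTheory.projective_iff_hasProjectiveDimensionLE_zero] at hP
    exact hP
  obtain ⟨T, ε, hT⟩ := hRes K ℓ (Fin 1 → Fin ℓ) (LogA (S K ℓ) B 1) 0 (hGr K ℓ B 1) hpd
  have hinj : ∀ t, ε.mulVec t = 0 → t = 0 := by
    intro t ht
    obtain ⟨w, hw⟩ := (hT.ker t).1 ht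
    have : IsEmpty (T.ι 1) := hT.len 1 one_pos
    rw [hw]
    funext i
    simp [Matrix.mulVec, dotProduct]
  have hmem : ∀ t, ε.mulVec t ∈ LogA (S K ℓ) B 1 := fun t => (hT.surj _).2 ⟨t, rfl⟩
  -- the number of basis elements
  have hcard : Fintype.card (T.ι 0) = ℓ := by
    apply le_antisymm
    · let f : (T.ι 0 → S K ℓ) →ₗ[S K ℓ] (Fin ℓ → S K ℓ) :=
        { toFun := fun t j => ε.mulVec t (fun _ => j)
          map_add' := fun t t' => by
            funext j
            rw [Matrix.mulVec_add]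
            rfl
          map_smul' := fun c t => by
            funext j
            rw [Matrix.mulVec_smul]
            rfl }
      have hf : Function.Injective f := by
        rw [← LinearMap.ker_eq_bot, LinearMap.ker_eq_bot']
        intro t ht
        apply hinj
        funext w
        have := congrFun ht (w 0)
        have hw : w = fun _ => w 0 := by
          funext x
          rw [Subsingleton.elim x 0]
        rw [hw]
        exact this
      have := card_le_of_injective (S K ℓ) f hf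
      rwa [Fintype.card_fin] at this
    · have hex : ∀ j : Fin ℓ, ∃ t : T.ι 0 → S K ℓ,
          (fun w : Fin 1 → Fin ℓ => (Qof B • (Pi.single j 1 : Fin ℓ → S K ℓ)) (w 0)) =
            ε.mulVec t := fun j => (hT.surj _).1 ((mem_iff _).2 (isLog_Q B _))
      choose t ht using hex
      let f : (Fin ℓ → S K ℓ) →ₗ[S K ℓ] (T.ι 0 → S K ℓ) :=
        (Matrix.of fun i j => t j i : Matrix (T.ι 0) (Fin ℓ) (S K ℓ)).mulVecLin
      have hfa : ∀ c, f c = ∑ j, c j • t j := by
        intro c
        funext i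
        simp only [f, Matrix.mulVecLin_apply, Matrix.mulVec, dotProduct, Matrix.of_apply,
          Finset.sum_apply, Pi.smul_apply, smul_eq_mul]
        exact Finset.sum_congr rfl fun j _ => mul_comm _ _
      have hf : Function.Injective f := by
        rw [← LinearMap.ker_eq_bot, LinearMap.ker_eq_bot']
        intro c hc
        rw [hfa] at hc
        have h1 := congrArg ε.mulVec hc
        rw [Matrix.mulVec_zero] at h1
        have h2 : ε.mulVec (∑ j, c j • t j) = ∑ j, c j • ε.mulVec (t j) := by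
          rw [← Matrix.mulVecLin_apply, map_sum]
          simp only [map_smul, Matrix.mulVecLin_apply]
        rw [h2] at h1
        funext i
        have h3 := congrFun h1 (fun _ => i)
        simp only [← ht, Finset.sum_apply, Pi.smul_apply, smul_eq_mul, Pi.zero_apply] at h3
        rw [Finset.sum_eq_single i] at h3
        · rw [Pi.single_eq_same, mul_one] at h3
          exact (mul_eq_zero.1 h3).resolve_right (Q_ne_zero hB)
        · intro j _ hj
          rw [Pi.single_eq_of_ne (Ne.symm hj), mul_zero, mul_zero]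
        · intro h
          exact absurd (Finset.mem_univ _) h
      have := card_le_of_injective (S K ℓ) f hf
      rwa [Fintype.card_fin] at this
  let e : Fin ℓ ≃ T.ι 0 := (finCongr hcard.symm).trans (Fintype.equivFin (T.ι 0)).symm
  let θ : Matrix (Fin ℓ) (Fin ℓ) (S K ℓ) := fun i j => ε (fun _ => j) (e i)
  have hlog : ∀ i, IsLog B (θ i) := by
    intro i
    rw [← mem_iff]
    have h1 := hmem (Pi.single (e i) 1)
    have h2 : ε.mulVec (Pi.single (e i) 1) = fun w : Fin 1 → Fin ℓ => θ i (w 0) := by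
      funext w
      rw [Matrix.mulVec_single_one]
      have hw : w = fun _ => w 0 := by
        funext x
        rw [Subsingleton.elim x 0]
      conv_lhs => rw [hw]
      rfl
    rwa [h2] at h1
  have hspan : ∀ t, IsLog B t → ∃ c : Fin ℓ → S K ℓ, t = Matrix.vecMul c θ := by
    intro t ht
    obtain ⟨s, hs⟩ := (hT.surj _).1 ((mem_iff t).2 ht)
    refine ⟨fun i => s (e i), ?_⟩
    funext j
    have h1 := congrFun hs (fun _ => j)
    simp only at h1
    rw [h1]
    simp only [Matrix.mulVec, Matrix.vecMul, dotProduct, θ]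
    rw [← Equiv.sum_comp e]
    exact Finset.sum_congr rfl fun i _ => mul_comm _ _
  refine ⟨fun i => (T.deg 0 (e i)).toNat, θ, ⟨fun i j => ?_, fun i b hb => hlog i b hb,
    det_eq hB hlog hspan⟩⟩
  have h1 := hT.eh (fun _ => j) (e i)
  have h2 : (0 : ℤ) ≤ T.deg 0 (e i) := hT.nonneg 0 (e i)
  rw [sub_zero] at h1
  unfold grS at h1
  rw [if_pos h2] at h1
  exact h1

end Pool.Agent.Lib.MP_fe1391_co.Tame.Saito
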