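import Pool.Agent.Lib.MP_fe1391_co.Tame.Stmts

/-!
# Tame arrangements: base change of graded resolutions from `S` to `R` (module D2)
-/

set_option autoImplicit false

namespace Pool.Agent.Lib.MP_fe1391_co.Tame.BC

open MvPolynomial

universe u

variable {K : Type u} [Field K] {ℓ : ℕ} {B : Finset (Fin ℓ → K)}

/-- coefficients of a matrix with entries in `S` applied to a vector over `R` -/
theorem coeff_mulVec {a b : Type*} [Fintype b] (M : Matrix a b (S K ℓ)) (w : b → R B)
    (μ : Tau B →₀ ℕ) (i : a) :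
    coeff μ ((M.map (C : S K ℓ →+* R B)).mulVec w i) = M.mulVec (fun j => coeff μ (w j)) i := by
  simp only [Matrix.mulVec, dotProduct, Matrix.map_apply]
  rw [coeff_sum]
  exact Finset.sum_congr rfl fun j _ => coeff_C_mul _ _ _

/-- lifting along a matrix with entries in `S`, coefficient by coefficient -/
theorem lift {a b : Type*} [Fintype a] [Fintype b] (M : Matrix a b (S K ℓ)) (v : a → R B)
    (h : ∀ μ : Tau B →₀ ℕ, ∃ w : b → S K ℓ, (fun i => coeff μ (v i)) = M.mulVec w) :
    ∃ W : b → R B, v = (M.map (C : S K ℓ →+* R B)).mulVec W ∧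
      ((∀ i, v i ∈ uR B) → ∀ j, W j ∈ uR B) := by
  classical
  have h' : ∀ μ : Tau B →₀ ℕ, ∃ w : b → S K ℓ, (fun i => coeff μ (v i)) = M.mulVec w ∧
      ((∀ i, coeff μ (v i) = 0) → w = 0) := by
    intro μ
    by_cases h0 : ∀ i, coeff μ (v i) = 0
    · refine ⟨0, ?_, fun _ => rfl⟩
      rw [Matrix.mulVec_zero]
      funext i
      exact h0 i
    · obtain ⟨w, hw⟩ := h μ
      exact ⟨w, hw, fun hc => absurd hc h0⟩
  choose w hw hw0 using h'
  set s : Finset (Tau B →₀ ℕ) := Finset.univ.biUnion fun i => (v i).support with hs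
  have hout : ∀ μ, μ ∉ s → w μ = 0 := by
    intro μ hμ
    apply hw0
    intro i
    by_contra hc
    exact hμ (Finset.mem_biUnion.2 ⟨i, Finset.mem_univ _, mem_support_iff.2 hc⟩)
  have hco : ∀ μ j, coeff μ (∑ ν ∈ s, monomial ν (w ν j) : R B) = w μ j := by
    intro μ j
    rw [coeff_sum]
    simp only [coeff_monomial]
    rw [Finset.sum_ite_eq' s μ (fun ν => w ν j)]
    split_ifs with hμ
    · rfl
    · rw [hout μ hμ]
      rfl
  refine ⟨fun j => ∑ ν ∈ s, monomial ν (w ν j), ?_, ?_⟩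
  · funext i
    refine MvPolynomial.ext _ _ fun μ => ?_
    rw [coeff_mulVec]
    simp only [hco]
    exact congrFun (hw μ) i
  · intro hv j
    have h0 : w 0 = 0 := hw0 0 fun i => by
      have := hv i
      rw [uR, RingHom.mem_ker, constantCoeff_eq] at this
      exact this
    rw [uR, RingHom.mem_ker, constantCoeff_eq, hco, h0]
    rfl

/-- exactness is preserved -/
theorem exact_iff {a b c : Type*} [Fintype b] [Fintype c] (M : Matrix a b (S K ℓ))
    (M' : Matrix b c (S K ℓ)) (h : ∀ v, M.mulVec v = 0 ↔ ∃ w, v = M'.mulVec w) (v : b → R B) :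
    (M.map (C : S K ℓ →+* R B)).mulVec v = 0 ↔
      ∃ w, v = (M'.map (C : S K ℓ →+* R B)).mulVec w := by
  constructor
  · intro hv
    obtain ⟨W, hW, -⟩ := lift M' v fun μ => (h _).1 <| by
      funext i
      rw [← coeff_mulVec, hv]
      simp
    exact ⟨W, hW⟩
  · rintro ⟨w, rfl⟩
    funext i
    refine MvPolynomial.ext _ _ fun μ => ?_
    rw [coeff_mulVec]
    have : M.mulVec (fun j => coeff μ ((M'.map (C : S K ℓ →+* R B)).mulVec w j)) = 0 := by
      refine (h _).2 ⟨fun j => coeff μ (w j), ?_⟩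
      funext j
      exact coeff_mulVec M' w μ j
    rw [this]
    simp

theorem wt_zero : wt (0 : Tau B →₀ ℕ) = 0 := by
  simp [wt]

theorem C_mem_grR {m : ℤ} {a : S K ℓ} (ha : a ∈ grS (K := K) (ℓ := ℓ) m) :
    (C a : R B) ∈ grR B m := by
  classical
  intro μ
  rw [coeff_C]
  split_ifs with hμ
  · subst hμ
    rw [wt_zero, sub_zero]
    exact ha
  · exact Submodule.zero_mem _

theorem C_mem_mR {a : S K ℓ} (ha : a ∈ mS K ℓ) : (C a : R B) ∈ mR B := by
  rw [mR, RingHom.mem_ker, RingHom.comp_apply, constantCoeff_C]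
  exact ha

/-- elements of `(u, z) N_R` have no constant term -/
theorem mem_uR_smul {κ : Type} (N : Submodule (S K ℓ) (κ → S K ℓ)) (v : κ → R B)
    (hv : v ∈ uR B • NR B N) : v ∈ NR B N ∧ ∀ i, v i ∈ uR B := by
  refine ⟨Submodule.smul_le_right hv, ?_⟩
  refine Submodule.smul_induction_on hv (fun r hr n _ i => ?_) (fun x y hx hy i => ?_)
  · rw [Pi.smul_apply, smul_eq_mul]
    exact Ideal.mul_mem_right _ _ hr
  · exact (uR B).add_mem (hx i) (hy i)

theorem thm (_hS : stGrS.{u}) (_hR : stGrR.{u}) : stBC.{u} := by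
  intro K _ ℓ B κ _ N k T ε s h
  have hsurj : ∀ v : κ → R B, v ∈ NR B N → ∃ t : T.ι 0 → R B,
      v = (ε.map (C : S K ℓ →+* R B)).mulVec t ∧ ((∀ i, v i ∈ uR B) → ∀ j, t j ∈ uR B) :=
    fun v hv => lift ε v fun μ => (h.surj _).1 (hv μ)
  refine ⟨?_, ?_, ?_⟩
  · refine ⟨?_, ?_, ?_, ?_, ?_, ?_, ?_, ?_⟩
    · intro j v
      exact exact_iff (T.d j) (T.d (j + 1)) (h.exact j) v
    · exact h.len
    · intro j i i'
      exact C_mem_mR (h.min j i i')
    · intro j i
      exact add_nonneg (h.nonneg j i) (Int.natCast_nonneg s)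
    · intro j i i'
      have := C_mem_grR (B := B) (h.hom j i i')
      have he : (T.bc B s).deg (j + 1) i' - (T.bc B s).deg j i =
          T.deg (j + 1) i' - T.deg j i := by
        show (T.deg (j + 1) i' + (s : ℤ)) - (T.deg j i + (s : ℤ)) = _
        ring
      rw [he]
      exact this
    · intro w i
      have := C_mem_grR (B := B) (h.eh w i)
      have he : (T.bc B s).deg 0 i - (s : ℤ) = T.deg 0 i - 0 := by
        show (T.deg 0 i + (s : ℤ)) - (s : ℤ) = _
        ring
      rw [he]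
      exact this
    · intro v
      constructor
      · intro hv
        obtain ⟨t, ht, -⟩ := hsurj v hv
        exact ⟨t, ht⟩
      · rintro ⟨t, rfl⟩ μ
        refine (h.surj _).2 ⟨fun j => coeff μ (t j), ?_⟩
        funext i
        exact coeff_mulVec ε t μ i
    · intro t
      exact exact_iff ε (T.d 0) h.ker t
  · rintro j t ht ⟨w, hw⟩
    obtain ⟨W, hW, hW'⟩ := lift (B := B) (T.d j) t fun μ => ⟨fun j => coeff μ (w j), by
      funext i
      rw [hw]
      exact coeff_mulVec _ _ _ _⟩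
    exact ⟨W, hW' ht, hW⟩
  · intro v hv
    obtain ⟨h1, h2⟩ := mem_uR_smul N v hv
    obtain ⟨t, ht, ht'⟩ := hsurj v h1
    exact ⟨t, ht' h2, ht⟩

end Pool.Agent.Lib.MP_fe1391_co.Tame.BC
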