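import Pool.Agent.Lib.MP_fe1391_co.Tame.Stmts

/-!
# E4: the coefficientwise description of logarithmic forms over `R`
-/

set_option autoImplicit false

namespace Pool.Agent.Lib.MP_fe1391_co.Tame.BaseC

open MvPolynomial

universe u

/-- E4 (coefficientwise description over `R`). -/
theorem thm : stBaseC.{u} := by
  intro K _ ℓ B p
  have key : ∀ (b : Fin ℓ → K) (v : Fin ℓ → R B),
      algebraMap (S K ℓ) (R B) (lin b) ∣ ∑ i, algebraMap (S K ℓ) (R B) (C (b i)) * v i ↔
      ∀ μ : Tau B →₀ ℕ, algebraMap (S K ℓ) (S K ℓ) (lin b) ∣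
        ∑ i, algebraMap (S K ℓ) (S K ℓ) (C (b i)) * coeff μ (v i) := by
    intro b v
    have e1 : algebraMap (S K ℓ) (R B) = C := rfl
    have e2 : algebraMap (S K ℓ) (S K ℓ) = RingHom.id _ := rfl
    rw [e1, e2, C_dvd_iff_dvd_coeff]
    refine forall_congr' fun μ => ?_
    rw [coeff_sum]
    simp only [coeff_C_mul, RingHom.id_apply]
  ext a
  constructor
  · rintro ⟨⟨h1, h2⟩, h3⟩ μ
    refine ⟨⟨fun w hw => ?_, fun w i j hij => ?_⟩, fun b hb w j => ?_⟩
    · show coeff μ (a w) = 0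
      rw [h1 w hw, coeff_zero]
    · show coeff μ (a (w ∘ Equiv.swap i j)) = - coeff μ (a w)
      rw [h2 w i j hij, coeff_neg]
    · exact (key b _).1 (h3 b hb w j) μ
  · intro h
    refine ⟨⟨fun w hw => ?_, fun w i j hij => ?_⟩, fun b hb w j => ?_⟩
    · ext1 μ
      rw [coeff_zero]
      exact (h μ).1.nz w hw
    · ext1 μ
      rw [coeff_neg]
      exact (h μ).1.sw w i j hij
    · exact (key b _).2 fun μ => (h μ).2 b hb w j

end Pool.Agent.Lib.MP_fe1391_co.Tame.BaseC
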