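import Pool.Agent.Lib.MP_fe1391_co.Tame.Stmts

/-!
# E2: contracting twice with the same covector gives zero
-/

set_option autoImplicit false

namespace Pool.Agent.Lib.MP_fe1391_co.Tame.ConSq

open MvPolynomial

universe u

theorem sum_alt {A : Type u} [CommRing A] {ℓ : ℕ} (f : Fin ℓ → Fin ℓ → A)
    (h0 : ∀ i, f i i = 0) (h1 : ∀ i j, f i j = - f j i) : ∑ i, ∑ j, f i j = 0 := by
  rw [← Finset.sum_product' Finset.univ Finset.univ f]
  refine Finset.sum_involution (fun x _ => (x.2, x.1)) ?_ ?_ ?_ ?_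
  · rintro ⟨i, j⟩ -
    show f i j + f j i = 0
    rw [h1 i j, neg_add_cancel]
  · rintro ⟨i, j⟩ - hf he
    have : j = i := congrArg Prod.fst he
    subst this
    exact hf (h0 _)
  · rintro ⟨i, j⟩ -
    exact Finset.mem_univ _
  · rintro ⟨i, j⟩ -
    rfl

theorem cons_cons_swap {ℓ p : ℕ} (i j : Fin ℓ) (w : Fin p → Fin ℓ) :
    (Fin.cons j (Fin.cons i w : Fin (p + 1) → Fin ℓ) : Fin (p + 2) → Fin ℓ) ∘
      Equiv.swap 0 1 = Fin.cons i (Fin.cons j w : Fin (p + 1) → Fin ℓ) := by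
  funext k
  refine Fin.cases ?_ (fun k => ?_) k
  · simp only [Function.comp_apply, Equiv.swap_apply_left, Fin.cons_zero]
    rw [← Fin.succ_zero_eq_one, Fin.cons_succ, Fin.cons_zero]
  · refine Fin.cases ?_ (fun k => ?_) k
    · rw [Fin.cons_succ, Fin.cons_zero]
      simp only [Function.comp_apply]
      rw [Fin.succ_zero_eq_one, Equiv.swap_apply_right, Fin.cons_zero]
    · simp only [Function.comp_apply]
      rw [Equiv.swap_apply_of_ne_of_ne (Fin.succ_ne_zero _), Fin.cons_succ, Fin.cons_succ,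
        Fin.cons_succ, Fin.cons_succ]
      rw [← Fin.succ_zero_eq_one]
      exact fun h => Fin.succ_ne_zero _ (Fin.succ_injective _ h)

/-- E2 -/
theorem thm : stConSq.{u} := by
  intro A _ ℓ p v a ha
  funext w
  show ∑ i, v i * ∑ j, v j * a (Fin.cons j (Fin.cons i w : Fin (p + 1) → Fin ℓ)) = 0
  simp only [Finset.mul_sum]
  refine sum_alt _ (fun i => ?_) (fun i j => ?_)
  · rw [ha.nz, mul_zero, mul_zero]
    intro hi
    have h1 : (Fin.cons i (Fin.cons i w : Fin (p + 1) → Fin ℓ) : Fin (p + 2) → Fin ℓ) 0 =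
        (Fin.cons i (Fin.cons i w : Fin (p + 1) → Fin ℓ) : Fin (p + 2) → Fin ℓ) 1 := by
      rw [Fin.cons_zero, ← Fin.succ_zero_eq_one, Fin.cons_succ, Fin.cons_zero]
    have h2 := hi h1
    rw [← Fin.succ_zero_eq_one] at h2
    exact Fin.succ_ne_zero _ h2.symm
  · rw [← cons_cons_swap j i w, ha.sw _ 0 1 (by rw [← Fin.succ_zero_eq_one]; exact (Fin.succ_ne_zero _).symm)]
    ring

end Pool.Agent.Lib.MP_fe1391_co.Tame.ConSq
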