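import Pool.Agent.Lib.MP_fe1391_co.Tame.Stmts

/-!
# Tame arrangements: all mapping cones together (F3)
-/

set_option autoImplicit false

namespace Pool.Agent.Lib.MP_fe1391_co.Tame.Cone

open MvPolynomial

universe u

theorem bc_cnt {K : Type u} [Field K] {ℓ : ℕ} (G : Cx (S K ℓ)) (B : Finset (Fin ℓ → K)) (s : ℤ)
    (L : ℕ) (c : ℤ) : (G.bc B s).cnt L c = G.cnt L (c - s) := by
  unfold Cx.cnt
  refine Finset.sum_congr rfl fun j _ => ?_
  have h2 : (Finset.univ.filter fun i : (G.bc B s).ι j => (G.bc B s).deg j i = c).card =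
      (Finset.univ.filter fun i : G.ι j => G.deg j i = c - s).card := by
    change (Finset.univ.filter fun i : G.ι j => G.deg j i + s = c).card = _
    congr 1
    refine Finset.filter_congr fun i _ => ?_
    constructor <;> intro h <;> linarith
  rw [h2]

theorem thm (h1 : stStart.{u}) (h2 : stStep.{u}) : stCone.{u} := by
  intro K _ ℓ B hB G ε hG
  have key : ∀ L p : ℕ, p + L = ℓ →
      ∃ (T : Cx (R B)) (ε' : Matrix (Fin p → Fin ℓ) (T.ι 0) (R B)), IsNRes B p L T ε' ∧
        (∀ c : ℤ, T.cnt L c = ∑ q ∈ Finset.range (L + 1),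
          (-1) ^ q * (G (p + q)).cnt (ℓ - (p + q)) (c - ((p + q : ℕ) : ℤ))) ∧
        (L = 0 → Fintype.card ((G ℓ).ι 0) = Fintype.card (T.ι L)) ∧
        (0 < L → ∀ M, ℓ = M + 1 →
          Fintype.card ((G ℓ).ι 0) + Fintype.card ((G M).ι 1) ≤ Fintype.card (T.ι L)) := by
    intro L
    induction L with
    | zero =>
      intro p hp
      rw [Nat.add_zero] at hp
      subst hp
      have h0 := hG p le_rfl
      rw [Nat.sub_self] at h0
      refine ⟨(G p).bc B p, (ε p).map C, h1 K p B hB (G p) (ε p) h0, fun c => ?_,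
        fun _ => rfl, fun h => absurd h (lt_irrefl 0)⟩
      rw [bc_cnt]
      simp
    | succ L ih =>
      intro p hp
      obtain ⟨T, ε', hT, hc, hcard0, hcard1⟩ := ih (p + 1) (by omega)
      have hp' : p ≤ ℓ := by omega
      have h0 := hG p hp'
      have hsub : ℓ - p = L + 1 := by omega
      rw [hsub] at h0
      obtain ⟨T', ε'', hT', hcnt, hcard⟩ :=
        h2 K ℓ B hB p L T ε' hT (by omega) (G p) (ε p) h0
      refine ⟨T', ε'', hT', fun c => ?_, fun h => absurd h (Nat.succ_ne_zero L),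
        fun _ M hM => ?_⟩
      · rw [hcnt c, hc c, Finset.sum_range_succ' _ (L + 1)]
        have e1 : ∀ q ∈ Finset.range (L + 1),
            (-1 : ℤ) ^ (q + 1) * (G (p + (q + 1))).cnt (ℓ - (p + (q + 1)))
              (c - ((p + (q + 1) : ℕ) : ℤ)) =
            - ((-1) ^ q * (G (p + 1 + q)).cnt (ℓ - (p + 1 + q))
              (c - ((p + 1 + q : ℕ) : ℤ))) := by
          intro q _
          rw [show p + (q + 1) = p + 1 + q by ring, pow_succ]
          ring
        have e2 : (G (p + 0)).cnt (ℓ - (p + 0)) (c - ((p + 0 : ℕ) : ℤ)) =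
            (G p).cnt (L + 1) (c - (p : ℤ)) := by
          rw [Nat.add_zero, hsub]
        rw [Finset.sum_congr rfl e1, Finset.sum_neg_distrib, pow_zero, one_mul, e2]
        ring
      · rw [hcard L]
        rcases Nat.eq_zero_or_pos L with hL | hL
        · subst hL
          have hpM : p = M := by omega
          subst hpM
          rw [hcard0 rfl]
        · have := hcard1 hL M hM
          omega
  obtain ⟨T, ε', hT, hc, -, hcard⟩ := key ℓ 0 (Nat.zero_add ℓ)
  refine ⟨T, ε', hT, fun c => ?_, fun L hL => hcard (by omega) L hL⟩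
  rw [hc c]
  refine Finset.sum_congr rfl fun q _ => ?_
  rw [Nat.zero_add]

end Pool.Agent.Lib.MP_fe1391_co.Tame.Cone
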