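import Pool.Agent.Lib.MP_fe1391_co.Tame.ConSq

/-!
# E1: contraction with `Λ` is divisible by `Q`, with logarithmic coefficients
-/

set_option autoImplicit false

namespace Pool.Agent.Lib.MP_fe1391_co.Tame.Contr

open MvPolynomial

universe u

variable {K : Type u} [Field K] {ℓ : ℕ}

/-! ### Linear forms -/

theorem coeff_lin (a : Fin ℓ → K) (i : Fin ℓ) : coeff (Finsupp.single i 1) (lin a) = a i := by
  classical
  rw [lin, coeff_sum, Finset.sum_eq_single i]
  · simp [coeff_C_mul]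
  · intro j _ hj
    rw [coeff_C_mul, coeff_X, if_neg]
    · simp
    · rwa [Finsupp.single_left_inj one_ne_zero]
  · simp

theorem lin_homog (a : Fin ℓ → K) : (lin a).IsHomogeneous 1 := by
  rw [lin]
  exact IsHomogeneous.sum _ _ _ fun i _ => isHomogeneous_C_mul_X _ _

theorem lin_ne_zero {a : Fin ℓ → K} (ha : a ≠ 0) : lin a ≠ 0 := by
  intro h
  apply ha
  funext i
  rw [← coeff_lin a i, h]
  simp

theorem lin_irreducible {a : Fin ℓ → K} (ha : a ≠ 0) : Irreducible (lin a) := by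
  apply irreducible_of_totalDegree_eq_one
  · exact (lin_homog a).totalDegree (lin_ne_zero ha)
  · intro x hx
    obtain ⟨i, hi⟩ := Function.ne_iff.1 ha
    have h := hx (Finsupp.single i 1)
    rw [coeff_lin] at h
    rw [isUnit_iff_ne_zero]
    rintro rfl
    exact hi (zero_dvd_iff.1 h)

theorem lin_dvd_lin {a b : Fin ℓ → K} (ha : a ≠ 0) (h : lin a ∣ lin b) :
    ∃ c : K, b = c • a := by
  by_cases hb : b = 0
  · exact ⟨0, by simp [hb]⟩
  obtain ⟨q, hq⟩ := h
  have hq0 : q ≠ 0 := by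
    rintro rfl
    exact lin_ne_zero hb (by simpa using hq)
  have h1 := congrArg totalDegree hq
  rw [totalDegree_mul_of_isDomain (lin_ne_zero ha) hq0, (lin_homog a).totalDegree (lin_ne_zero ha),
    (lin_homog b).totalDegree (lin_ne_zero hb)] at h1
  obtain ⟨c, rfl⟩ : ∃ c, q = C c := ⟨_, totalDegree_eq_zero_iff_eq_C.1 (by omega)⟩
  refine ⟨c, ?_⟩
  funext i
  rw [← coeff_lin b i, hq, mul_comm, coeff_C_mul, coeff_lin]
  simp

/-- if a non-proportional form divides `lin b * f` then it divides `f` -/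
theorem dvd_of_dvd_lin_mul {a b : Fin ℓ → K} (ha : a ≠ 0) (hab : ∀ c : K, b ≠ c • a)
    {f : S K ℓ} (h : lin a ∣ lin b * f) : lin a ∣ f := by
  rcases (lin_irreducible ha).prime.dvd_or_dvd h with h1 | h1
  · obtain ⟨c, hc⟩ := lin_dvd_lin ha h1
    exact absurd hc (hab c)
  · exact h1

/-- the same over `R` -/
theorem dvd_of_dvd_lin_mul' {B : Finset (Fin ℓ → K)} {a b : Fin ℓ → K} (ha : a ≠ 0)
    (hab : ∀ c : K, b ≠ c • a) {f : R B} (h : (C (lin a) : R B) ∣ C (lin b) * f) :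
    (C (lin a) : R B) ∣ f := by
  rw [C_dvd_iff_dvd_coeff] at h ⊢
  intro μ
  have h1 := h μ
  rw [coeff_C_mul] at h1
  exact dvd_of_dvd_lin_mul ha hab h1

/-! ### Degrees -/

theorem comp_lin_mul (a : Fin ℓ → K) (f : S K ℓ) (k : ℕ) :
    homogeneousComponent (k + 1) (lin a * f) = lin a * homogeneousComponent k f := by
  conv_lhs => rw [← sum_homogeneousComponent f, Finset.mul_sum, map_sum]
  have h1 : ∀ j ∈ Finset.range (f.totalDegree + 1),
      homogeneousComponent (k + 1) (lin a * homogeneousComponent j f) =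
        if j = k then lin a * homogeneousComponent j f else 0 := by
    intro j _
    have h2 : (lin a * homogeneousComponent j f).IsHomogeneous (1 + j) :=
      (lin_homog a).mul (homogeneousComponent_isHomogeneous j f)
    rw [homogeneousComponent_of_mem h2]
    by_cases hj : j = k
    · rw [if_pos (by omega), if_pos hj]
    · rw [if_neg (by omega), if_neg hj]
  rw [Finset.sum_congr rfl h1, Finset.sum_ite_eq']
  split_ifs with h
  · rfl
  · rw [homogeneousComponent_eq_zero _ _ (by simpa using h), mul_zero]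

theorem lin_mul_mem {a : Fin ℓ → K} (ha : a ≠ 0) {f : S K ℓ} {n : ℤ}
    (h : lin a * f ∈ grS (K := K) (ℓ := ℓ) n) : f ∈ grS (K := K) (ℓ := ℓ) (n - 1) := by
  by_cases hf : f = 0
  · rw [hf]
    exact Submodule.zero_mem _
  have hne : lin a * f ≠ 0 := mul_ne_zero (lin_ne_zero ha) hf
  have hn : 0 ≤ n := by
    by_contra hn
    rw [grS, if_neg hn] at h
    exact hne ((Submodule.mem_bot K).1 h)
  rw [grS, if_pos hn] at h
  have hk : ∀ k : ℕ, homogeneousComponent k f ≠ 0 → k + 1 = n.toNat := by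
    intro k hk
    by_contra hkn
    apply hk
    have h1 := comp_lin_mul a f k
    rw [homogeneousComponent_of_mem h, if_neg hkn] at h1
    exact (mul_eq_zero.1 h1.symm).resolve_left (lin_ne_zero ha)
  have hc : ∀ μ, coeff μ f ≠ 0 → homogeneousComponent μ.degree f ≠ 0 := by
    intro μ hμ h0
    apply hμ
    have h1 := coeff_homogeneousComponent μ.degree f μ
    rw [if_pos rfl, h0, coeff_zero] at h1
    exact h1.symm
  obtain ⟨μ, hμ⟩ := ne_zero_iff.1 hf
  have h2 := hk _ (hc μ hμ)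
  rw [grS, if_pos (by omega)]
  intro ν hν
  have h3 := hk _ (hc ν hν)
  have h4 : ν.degree = (n - 1).toNat := by omega
  rw [← h4]
  rw [Finsupp.degree_eq_weight_one]
  rfl

/-! ### The quotients -/

variable {B : Finset (Fin ℓ → K)}

theorem C_lin_ne_zero {b : Fin ℓ → K} (hb : b ≠ 0) : (C (lin b) : R B) ≠ 0 := by
  rw [Ne, C_eq_zero]
  exact lin_ne_zero hb

/-- the contraction of `θ` with `dα_b` -/
noncomputable def cb (b : Fin ℓ → K) {p : ℕ} (θ : (Fin (p + 1) → Fin ℓ) → R B)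
    (w : Fin p → Fin ℓ) : R B :=
  ∑ i, C (C (b i)) * θ (Fin.cons i w)

theorem update_cons_succ {p : ℕ} (i k : Fin ℓ) (w : Fin p → Fin ℓ) (j : Fin p) :
    (Fin.cons i (Function.update w j k) : Fin (p + 1) → Fin ℓ) =
      Function.update (Fin.cons i w) j.succ k := by
  rw [Fin.cons_update]

theorem dvd_cb {p : ℕ} {θ : (Fin (p + 1) → Fin ℓ) → R B} (hθ : θ ∈ LogA (R B) B (p + 1))
    {b : Fin ℓ → K} (hb : b ∈ B) (w : Fin p → Fin ℓ) : (C (lin b) : R B) ∣ cb b θ w := by
  rcases isEmpty_or_nonempty (Fin ℓ) with he | ⟨⟨i0⟩⟩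
  · rw [cb, Finset.univ_eq_empty, Finset.sum_empty]
    exact dvd_zero _
  · have h1 := hθ.2 b hb (Fin.cons i0 w) 0
    simp only [Fin.update_cons_zero] at h1
    exact h1

theorem cons_swap_succ {p : ℕ} (k : Fin ℓ) (w : Fin p → Fin ℓ) (i j : Fin p) :
    (Fin.cons k (w ∘ Equiv.swap i j) : Fin (p + 1) → Fin ℓ) =
      (Fin.cons k w : Fin (p + 1) → Fin ℓ) ∘ Equiv.swap i.succ j.succ := by
  funext x
  refine Fin.cases ?_ (fun x => ?_) x
  · rw [Fin.cons_zero]
    simp only [Function.comp_apply]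
    rw [Equiv.swap_apply_of_ne_of_ne (Fin.succ_ne_zero _).symm (Fin.succ_ne_zero _).symm,
      Fin.cons_zero]
  · rw [Fin.cons_succ]
    simp only [Function.comp_apply]
    rw [(Fin.succ_injective p).swap_apply, Fin.cons_succ]

theorem cb_nz {p : ℕ} {θ : (Fin (p + 1) → Fin ℓ) → R B} (hθ : IsAlt θ) (b : Fin ℓ → K)
    (w : Fin p → Fin ℓ) (hw : ¬ Function.Injective w) : cb b θ w = 0 := by
  refine Finset.sum_eq_zero fun i _ => ?_
  rw [hθ.nz, mul_zero]
  intro h
  apply hw
  intro x y hxy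
  have := @h x.succ y.succ (by rw [Fin.cons_succ, Fin.cons_succ, hxy])
  exact Fin.succ_injective _ this

theorem cb_sw {p : ℕ} {θ : (Fin (p + 1) → Fin ℓ) → R B} (hθ : IsAlt θ) (b : Fin ℓ → K)
    (w : Fin p → Fin ℓ) (i j : Fin p) (hij : i ≠ j) :
    cb b θ (w ∘ Equiv.swap i j) = - cb b θ w := by
  rw [cb, cb, ← Finset.sum_neg_distrib]
  refine Finset.sum_congr rfl fun k _ => ?_
  rw [cons_swap_succ, hθ.sw _ _ _ fun h => hij (Fin.succ_injective _ h)]
  ring

/-- contraction with `dα_b` in the slots `0` and `j + 1` gives zero -/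
theorem cb_cb_self {p : ℕ} {θ : (Fin (p + 1) → Fin ℓ) → R B} (hθ : IsAlt θ) (b : Fin ℓ → K)
    (w : Fin p → Fin ℓ) (j : Fin p) :
    ∑ k, C (C (b k)) * cb b θ (Function.update w j k) = 0 := by
  simp only [cb, Finset.mul_sum]
  refine ConSq.sum_alt _ (fun i => ?_) (fun k i => ?_)
  · rw [hθ.nz, mul_zero, mul_zero]
    intro h
    have h1 := @h 0 j.succ (by rw [Fin.cons_zero, Fin.cons_succ, Function.update_self])
    exact Fin.succ_ne_zero _ h1.symm
  · have h1 : (Fin.cons k (Function.update w j i) : Fin (p + 1) → Fin ℓ) =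
        (Fin.cons i (Function.update w j k) : Fin (p + 1) → Fin ℓ) ∘ Equiv.swap 0 j.succ := by
      funext x
      simp only [Function.comp_apply]
      refine Fin.cases ?_ (fun x => ?_) x
      · rw [Fin.cons_zero, Equiv.swap_apply_left, Fin.cons_succ, Function.update_self]
      · rw [Fin.cons_succ]
        by_cases hx : x = j
        · subst hx
          rw [Function.update_self, Equiv.swap_apply_right, Fin.cons_zero]
        · rw [Function.update_of_ne hx, Equiv.swap_apply_of_ne_of_ne (Fin.succ_ne_zero _)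
            (fun h => hx (Fin.succ_injective _ h)), Fin.cons_succ, Function.update_of_ne hx]
    rw [h1, hθ.sw _ 0 j.succ (Fin.succ_ne_zero _).symm]
    ring

/-- contraction with `dα_a` in slot `j + 1` and `dα_b` in slot `0` -/
theorem cb_cb_dvd {p : ℕ} {θ : (Fin (p + 1) → Fin ℓ) → R B} (hθ : θ ∈ LogA (R B) B (p + 1))
    {a : Fin ℓ → K} (ha : a ∈ B) (b : Fin ℓ → K) (w : Fin p → Fin ℓ) (j : Fin p) :
    (C (lin a) : R B) ∣ ∑ k, C (C (a k)) * cb b θ (Function.update w j k) := by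
  simp only [cb, Finset.mul_sum]
  rw [Finset.sum_comm]
  refine Finset.dvd_sum fun i _ => ?_
  have h1 := hθ.2 a ha (Fin.cons i w) j.succ
  have h2 : ∑ k, C (C (a k)) * (C (C (b i)) *
      θ (Fin.cons i (Function.update w j k) : Fin (p + 1) → Fin ℓ)) =
      C (C (b i)) * ∑ k, algebraMap (S K ℓ) (R B) (C (a k)) *
        θ (Function.update (Fin.cons i w) j.succ k) := by
    rw [Finset.mul_sum]
    refine Finset.sum_congr rfl fun k _ => ?_
    rw [update_cons_succ, algebraMap_eq]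
    ring
  rw [h2]
  exact Dvd.dvd.mul_left h1 _

theorem log_of_cb (hB : Norm B) {p : ℕ} {θ : (Fin (p + 1) → Fin ℓ) → R B}
    (hθ : θ ∈ LogA (R B) B (p + 1)) {b : Fin ℓ → K} (hb : b ∈ B)
    {φ : (Fin p → Fin ℓ) → R B} (hφ : ∀ w, cb b θ w = C (lin b) * φ w) :
    φ ∈ LogA (R B) B p := by
  have hb0 := C_lin_ne_zero (B := B) (hB.ne b hb)
  refine ⟨⟨fun w hw => ?_, fun w i j hij => ?_⟩, fun a ha w j => ?_⟩
  · have h1 := hφ w
    rw [cb_nz hθ.1 b w hw] at h1
    exact (mul_eq_zero.1 h1.symm).resolve_left hb0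
  · apply mul_left_cancel₀ hb0
    rw [← hφ, cb_sw hθ.1 b w i j hij, hφ]
    ring
  · have h1 : ∑ k, C (C (a k)) * cb b θ (Function.update w j k) =
        C (lin b) * ∑ k, algebraMap (S K ℓ) (R B) (C (a k)) * φ (Function.update w j k) := by
      rw [Finset.mul_sum]
      refine Finset.sum_congr rfl fun k _ => ?_
      rw [hφ, algebraMap_eq]
      ring
    by_cases hab : a = b
    · subst hab
      rw [cb_cb_self hθ.1] at h1
      rw [(mul_eq_zero.1 h1.symm).resolve_left hb0]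
      exact dvd_zero _
    · apply dvd_of_dvd_lin_mul' (hB.ne a ha) (hB.ind a ha b hb hab)
      rw [← h1]
      exact cb_cb_dvd hθ ha b w j

theorem cons_mem {p : ℕ} {θ : (Fin (p + 1) → Fin ℓ) → R B} (hθ : θ ∈ LogA (R B) B (p + 1))
    (i : Fin ℓ) : (fun w => θ (Fin.cons i w)) ∈ LogA (R B) B p := by
  refine ⟨⟨fun w hw => ?_, fun w k j hij => ?_⟩, fun a ha w j => ?_⟩
  · apply hθ.1.nz
    intro h
    apply hw
    intro x y hxy
    have := @h x.succ y.succ (by rw [Fin.cons_succ, Fin.cons_succ, hxy])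
    exact Fin.succ_injective _ this
  · show θ (Fin.cons i (w ∘ Equiv.swap k j)) = - θ (Fin.cons i w)
    rw [cons_swap_succ, hθ.1.sw _ _ _ fun h => hij (Fin.succ_injective _ h)]
  · have h1 := hθ.2 a ha (Fin.cons i w) j.succ
    simp only [← update_cons_succ] at h1
    exact h1

theorem cb_gr {p : ℕ} {θ : (Fin (p + 1) → Fin ℓ) → R B} {m : ℤ}
    (hm : ∀ w, θ w ∈ grR B m) (b : Fin ℓ → K) (w : Fin p → Fin ℓ) : cb b θ w ∈ grR B m := by
  refine Submodule.sum_mem _ fun i _ => ?_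
  have h1 : (C (C (b i)) : R B) * θ (Fin.cons i w) = b i • θ (Fin.cons i w) := by
    rw [← smul_eq_C_mul]
    exact algebraMap_smul (S K ℓ) (b i) _
  rw [h1]
  exact Submodule.smul_mem _ _ (hm _)

open Classical in
theorem sum_Lam (g : Fin ℓ → R B) :
    ∑ i, Lam B i * g i =
      (∑ b : B, X (Sum.inl b) * (C (Qof (B.erase b.1)) * ∑ i, C (C (b.1 i)) * g i)) +
        C (Qof B) * ∑ i, X (Sum.inr i) * g i := by
  simp only [Lam, add_mul, Finset.sum_add_distrib, Finset.sum_mul]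
  congr 1
  · rw [Finset.sum_comm]
    refine Finset.sum_congr rfl fun b _ => ?_
    rw [Finset.mul_sum, Finset.mul_sum]
    refine Finset.sum_congr rfl fun i _ => ?_
    rw [C_mul]
    generalize (C (Qof (B.erase b.1)) : R B) = q
    generalize (C (C (b.1 i)) : R B) = c
    generalize (X (Sum.inl b) : R B) = x
    generalize g i = y
    ring
  · rw [Finset.mul_sum]
    refine Finset.sum_congr rfl fun i _ => ?_
    rw [mul_assoc]

open Classical in
theorem Q_mul (b : B) : C (Qof (B.erase b.1)) * C (lin b.1) = (C (Qof B) : R B) := by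
  rw [← C_mul, Qof, Qof, Finset.prod_erase_mul _ _ b.2]

theorem key {p : ℕ} (θ : (Fin (p + 1) → Fin ℓ) → R B) (φ : B → (Fin p → Fin ℓ) → R B)
    (hφ : ∀ (b : B) (w : Fin p → Fin ℓ), cb b.1 θ w = C (lin b.1) * φ b w)
    (w : Fin p → Fin ℓ) :
    ∑ i, Lam B i * θ (Fin.cons i w) = C (Qof B) *
      ((∑ b : B, X (Sum.inl b) * φ b w) + ∑ i, X (Sum.inr i) * θ (Fin.cons i w)) := by
  classical
  rw [sum_Lam (fun i => θ (Fin.cons i w)), mul_add]
  refine congrArg₂ (· + ·) ?_ rfl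
  rw [Finset.mul_sum]
  refine Finset.sum_congr rfl fun b _ => ?_
  have h1 := hφ b w
  rw [cb] at h1
  rw [h1, ← Q_mul b]
  generalize (C (Qof (B.erase b.1)) : R B) = q
  generalize (C (lin b.1) : R B) = c
  generalize (X (Sum.inl b) : R B) = x
  generalize φ b w = y
  ring

/-- E1 -/
theorem thm : stCon.{u} := by
  intro K _ ℓ B hB p θ hθ
  have h1 : ∀ b : B, ∀ w : Fin p → Fin ℓ, ∃ q : R B, cb b.1 θ w = C (lin b.1) * q :=
    fun b w => dvd_cb hθ b.2 w
  choose φ hφ using h1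
  refine ⟨φ, fun i w => θ (Fin.cons i w), fun b => log_of_cb hB hθ b.2 (hφ b),
    fun i => cons_mem hθ i, ?_, fun m hm => ⟨fun b w μ => ?_, fun i w => hm _⟩⟩
  · funext w
    have h2 : (∑ b : B, (X (Sum.inl b) : R B) • φ b + ∑ i : Fin ℓ, (X (Sum.inr i) : R B) •
        (fun w : Fin p → Fin ℓ => θ (Fin.cons i w)) : (Fin p → Fin ℓ) → R B) w =
        (∑ b : B, X (Sum.inl b) * φ b w) + ∑ i, X (Sum.inr i) * θ (Fin.cons i w) := by
      rw [Pi.add_apply, Finset.sum_apply, Finset.sum_apply]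
      rfl
    rw [Pi.smul_apply, h2, smul_eq_mul]
    exact key θ φ hφ w
  · have h2 := cb_gr hm b.1 w μ
    rw [hφ, coeff_C_mul] at h2
    have h3 := lin_mul_mem (hB.ne b.1 b.2) h2
    have h4 : m - wt μ - 1 = m - 1 - wt μ := by ring
    rwa [h4] at h3

end Pool.Agent.Lib.MP_fe1391_co.Tame.Contr
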