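import Pool.Agent.Lib.MP_fe1391_co.Tame.Stmts

/-!
# Tame arrangements: counting dimensions along exact graded complexes
-/

set_option autoImplicit false

namespace Pool.Agent.Lib.MP_fe1391_co.Tame.Count

open MvPolynomial Pool.Agent.Lib.MP_fe1391_co.Tame

universe u

section

variable {K : Type u} [Field K] {A : Type u} [CommRing A] [Algebra K A]

/-- multiplication by a homogeneous element commutes with the projections -/
theorem proj_mul {g : ℤ → Submodule K A} (hmul : ∀ {m n : ℤ} {a b : A}, a ∈ g m → b ∈ g n →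
    a * b ∈ g (m + n)) {π : ℤ → A →ₗ[K] A} (h1 : ∀ m a, π m a ∈ g m)
    (h2 : ∀ m a, a ∈ g m → π m a = a) (h3 : ∀ m n a, a ∈ g m → n ≠ m → π n a = 0)
    (h4 : ∀ a, ∃ s : Finset ℤ, a = ∑ m ∈ s, π m a ∧ ∀ m, m ∉ s → π m a = 0)
    {n k : ℤ} {a b : A} (ha : a ∈ g n) : π (n + k) (a * b) = a * π k b := by
  obtain ⟨s, hs, hs'⟩ := h4 b
  have e : π (n + k) (a * b) = ∑ m ∈ s, π (n + k) (a * π m b) := by
    conv_lhs => rw [hs, Finset.mul_sum, map_sum]
  rw [e]
  by_cases hk : k ∈ s
  · rw [Finset.sum_eq_single k]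
    · exact h2 _ _ (hmul ha (h1 _ _))
    · intro m _ hm
      exact h3 (n + m) _ _ (hmul ha (h1 _ _)) (fun h => hm (by omega))
    · intro h
      exact absurd hk h
  · rw [hs' k hk, mul_zero]
    refine Finset.sum_eq_zero fun m hm => ?_
    exact h3 (n + m) _ _ (hmul ha (h1 _ _)) (fun h => hk (by
      have : k = m := by omega
      rw [this]; exact hm))

/-- the homogeneous vectors form a product of graded pieces -/
noncomputable def hmEquiv (g : ℤ → Submodule K A) {ι : Type*} (deg : ι → ℤ) (m : ℤ) :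
    (Hm g deg m) ≃ₗ[K] (∀ i, g (m - deg i)) where
  toFun v := fun i => ⟨v.1 i, v.2 i⟩
  map_add' _ _ := rfl
  map_smul' _ _ := rfl
  invFun v := ⟨fun i => (v i).1, fun i => (v i).2⟩
  left_inv _ := rfl
  right_inv _ := rfl

theorem finrank_hm {g : ℤ → Submodule K A} (hfin : ∀ m, Module.Finite K (g m)) {ι : Type*}
    [Fintype ι] (deg : ι → ℤ) (m : ℤ) :
    Module.finrank K (Hm g deg m) = ∑ i, Module.finrank K (g (m - deg i)) := by
  have := hfin
  rw [(hmEquiv g deg m).finrank_eq, Module.finrank_pi_fintype]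

theorem finite_hm {g : ℤ → Submodule K A} (hfin : ∀ m, Module.Finite K (g m)) {ι : Type*}
    [Fintype ι] (deg : ι → ℤ) (m : ℤ) : Module.Finite K (Hm g deg m) := by
  have := hfin
  exact Module.Finite.equiv (hmEquiv g deg m).symm

/-- homogeneous matrices preserve homogeneity -/
theorem mulVec_mem {g : ℤ → Submodule K A} (hg : GrAlg g) {ι ι' : Type*} [Fintype ι']
    {deg : ι → ℤ} {deg' : ι' → ℤ} {M : Matrix ι ι' A} (hM : ∀ i i', M i i' ∈ g (deg' i' - deg i))
    {m : ℤ} {v : ι' → A} (hv : v ∈ Hm g deg' m) : M.mulVec v ∈ Hm g deg m := by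
  intro i
  refine Submodule.sum_mem _ fun i' _ => ?_
  have := hg.mul (hM i i') (hv i')
  convert this using 2
  ring

/-- a homogeneous vector in the image of a homogeneous matrix is the image of a homogeneous
vector -/
theorem lift_hom {g : ℤ → Submodule K A} (hg : GrAlg g) {ι ι' : Type*} [Fintype ι']
    {deg : ι → ℤ} {deg' : ι' → ℤ} {M : Matrix ι ι' A} (hM : ∀ i i', M i i' ∈ g (deg' i' - deg i))
    {m : ℤ} {w : ι' → A} (hw : M.mulVec w ∈ Hm g deg m) :
    ∃ w' ∈ Hm g deg' m, M.mulVec w' = M.mulVec w := by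
  obtain ⟨π, h1, h2, h3, h4⟩ := hg.proj
  refine ⟨fun i' => π (m - deg' i') (w i'), fun i' => h1 _ _, ?_⟩
  funext i
  rw [← h2 _ _ (hw i)]
  simp only [Matrix.mulVec, dotProduct, map_sum]
  refine Finset.sum_congr rfl fun i' _ => ?_
  rw [← proj_mul (fun {_ _ _ _} => hg.mul) h1 h2 h3 h4 (hM i i')]
  congr 2
  ring

end

theorem finrank_step {K : Type u} [Field K] {A : Type u} [CommRing A] [Algebra K A]
    {g : ℤ → Submodule K A} (hg : GrAlg g) (T : Cx A) (hE : T.Exact) (hH : T.Hom g) (m : ℤ)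
    (j : ℕ) :
    Module.finrank K (Hm g (T.deg j) m ⊓
      (LinearMap.range (T.d j).mulVecLin).restrictScalars K : Submodule K (T.ι j → A)) +
    Module.finrank K (Hm g (T.deg (j + 1)) m ⊓
      (LinearMap.range (T.d (j + 1)).mulVecLin).restrictScalars K :
        Submodule K (T.ι (j + 1) → A)) = ∑ i, Module.finrank K (g (m - T.deg (j + 1) i)) := by
  rw [← finrank_hm hg.fin (T.deg (j + 1)) m]
  have := finite_hm hg.fin (T.deg (j + 1)) m
  let F : Hm g (T.deg (j + 1)) m →ₗ[K] (T.ι j → A) :=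
    ((T.d j).mulVecLin.restrictScalars K).comp (Hm g (T.deg (j + 1)) m).subtype
  rw [← LinearMap.finrank_range_add_finrank_ker F]
  have hr : LinearMap.range F = Hm g (T.deg j) m ⊓
      (LinearMap.range (T.d j).mulVecLin).restrictScalars K := by
    ext v
    constructor
    · rintro ⟨w, rfl⟩
      exact ⟨mulVec_mem hg (hH j) w.2, ⟨w.1, rfl⟩⟩
    · rintro ⟨hv, ⟨w, hw⟩⟩
      have hw' : (T.d j).mulVec w = v := hw
      have hv' : (T.d j).mulVec w ∈ Hm g (T.deg j) m := by rw [hw']; exact hv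
      obtain ⟨w', h1, h2⟩ := lift_hom hg (hH j) hv'
      exact ⟨⟨w', h1⟩, h2.trans hw'⟩
  have hk : Module.finrank K (LinearMap.ker F) = Module.finrank K (Hm g (T.deg (j + 1)) m ⊓
      (LinearMap.range (T.d (j + 1)).mulVecLin).restrictScalars K :
        Submodule K (T.ι (j + 1) → A)) := by
    have e : (LinearMap.ker F).map (Hm g (T.deg (j + 1)) m).subtype = Hm g (T.deg (j + 1)) m ⊓
      (LinearMap.range (T.d (j + 1)).mulVecLin).restrictScalars K := by
      ext v
      constructor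
      · rintro ⟨w, hw, rfl⟩
        refine ⟨w.2, ?_⟩
        have hw' : (T.d j).mulVec w.1 = 0 := hw
        obtain ⟨t, ht⟩ := (hE j w.1).1 hw'
        exact ⟨t, ht.symm⟩
      · rintro ⟨hv, ⟨w, hw⟩⟩
        have hw' : (T.d (j + 1)).mulVec w = v := hw
        refine ⟨⟨v, hv⟩, ?_, rfl⟩
        exact (hE j v).2 ⟨w, hw'.symm⟩
    rw [← e]
    exact ((Submodule.equivMapOfInjective _ (Submodule.injective_subtype _) _).finrank_eq)
  rw [hr, hk]

theorem thm : stCount.{u} := by
  intro K _ A _ _ g hg T L hE hH hL m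
  have key : ∀ n : ℕ, ((Module.finrank K (Hm g (T.deg 0) m ⊓
      (LinearMap.range (T.d 0).mulVecLin).restrictScalars K : Submodule K (T.ι 0 → A)) : ℕ) : ℤ) =
    (∑ j ∈ Finset.range n, (-1) ^ j *
      ∑ i : T.ι (j + 1), ((Module.finrank K (g (m - T.deg (j + 1) i)) : ℕ) : ℤ)) +
      (-1) ^ n * ((Module.finrank K (Hm g (T.deg n) m ⊓
      (LinearMap.range (T.d n).mulVecLin).restrictScalars K : Submodule K (T.ι n → A)) : ℕ) : ℤ) := by
    intro n
    induction n with
    | zero => simp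
    | succ n ih =>
      rw [ih, Finset.sum_range_succ]
      have h := finrank_step hg T hE hH m n
      have h' := congrArg (fun x : ℕ => (x : ℤ)) h
      simp only [Nat.cast_add, Nat.cast_sum] at h'
      rw [← h', pow_succ]
      ring
  rw [key L]
  have : Module.finrank K (Hm g (T.deg L) m ⊓
      (LinearMap.range (T.d L).mulVecLin).restrictScalars K : Submodule K (T.ι L → A)) = 0 := by
    have := hL (L + 1) (Nat.lt_succ_self L)
    have e : (Hm g (T.deg L) m ⊓
      (LinearMap.range (T.d L).mulVecLin).restrictScalars K : Submodule K (T.ι L → A)) = ⊥ := by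
      rw [eq_bot_iff]
      rintro v ⟨_, ⟨w, hw⟩⟩
      have hw' : (T.d L).mulVec w = v := hw
      rw [Submodule.mem_bot, ← hw']
      funext i
      simp [Matrix.mulVec, dotProduct]
    rw [e]
    exact finrank_bot K _
  rw [this]
  simp

/-- the augmented complex -/
def aug {A : Type u} [CommRing A] {κ : Type} [Fintype κ] [DecidableEq κ] (T : Cx A)
    (ε : Matrix κ (T.ι 0) A) : Cx A where
  ι := fun j => Nat.casesOn j κ T.ι
  fι := fun j => by
    cases j with
    | zero => exact (inferInstance : Fintype κ)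
    | succ j => exact T.fι j
  dι := fun j => by
    cases j with
    | zero => exact (inferInstance : DecidableEq κ)
    | succ j => exact T.dι j
  deg := fun j => by
    cases j with
    | zero => exact fun _ => 0
    | succ j => exact T.deg j
  d := fun j => by
    cases j with
    | zero => exact ε
    | succ j => exact T.d j

theorem coeff_HS {f : ℤ → ℤ} (hf : ∀ m, m < 0 → f m = 0) (e : ℕ) :
    (PowerSeries.mk fun d : ℕ => f ((d : ℤ) - e)) =
      PowerSeries.X ^ e * PowerSeries.mk fun d : ℕ => f (d : ℤ) := by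
  ext d
  rw [PowerSeries.coeff_mk, PowerSeries.coeff_X_pow_mul']
  split_ifs with h
  · rw [PowerSeries.coeff_mk]
    congr 1
    omega
  · exact hf _ (by omega)

theorem thmHilb (hS : stGrS.{u}) (hC : stCount.{u}) (hH : stHS.{u}) : stHilbS.{u} := by
  classical
  intro K _ ℓ κ _ N k T ε hT
  have hg : GrAlg (K := K) (A := S K ℓ) grS := hS K ℓ
  have hneg : ∀ m : ℤ, m < 0 → ((Module.finrank K (grS (K := K) (ℓ := ℓ) m) : ℕ) : ℤ) = 0 := by
    intro m hm
    rw [hg.neg m hm]
    simp
  have e1 : ∀ m : ℤ, ((Module.finrank K (Hm grS (fun _ : κ => 0) m ⊓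
      N.restrictScalars K : Submodule K (κ → S K ℓ)) : ℕ) : ℤ) =
      ∑ j ∈ Finset.range (k + 1), (-1) ^ j *
        ∑ i : T.ι j, ((Module.finrank K (grS (K := K) (ℓ := ℓ) (m - T.deg j i)) : ℕ) : ℤ) := by
    intro m
    have hN : N = LinearMap.range ε.mulVecLin := by
      ext v
      rw [hT.surj v]
      constructor
      · rintro ⟨t, ht⟩
        exact ⟨t, ht.symm⟩
      · rintro ⟨t, ht⟩
        exact ⟨t, ht.symm⟩
    rw [hN]
    refine hC K (S K ℓ) grS hg (aug T ε) (k + 1) ?_ ?_ ?_ m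
    · intro j
      cases j with
      | zero => exact hT.ker
      | succ j => exact hT.exact j
    · intro j
      cases j with
      | zero => exact hT.eh
      | succ j => exact hT.hom j
    · intro j hj
      cases j with
      | zero => exact absurd hj (Nat.not_lt_zero _)
      | succ j => exact hT.len j (Nat.lt_of_succ_lt_succ hj)
  have hHS : (PowerSeries.mk fun k : ℕ =>
      ((Module.finrank K (grS (K := K) (ℓ := ℓ) (k : ℤ)) : ℕ) : ℤ)) *
        (1 - PowerSeries.X) ^ ℓ = 1 := hH K ℓ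
  have e2 : (PowerSeries.mk fun d : ℕ => ((Module.finrank K (Hm grS (fun _ : κ => 0) (d : ℤ) ⊓
      N.restrictScalars K : Submodule K (κ → S K ℓ)) : ℕ) : ℤ)) =
      ∑ j ∈ Finset.range (k + 1), (-1) ^ j * ∑ i : T.ι j,
        (PowerSeries.X ^ (T.deg j i).toNat * (PowerSeries.mk fun d : ℕ =>
          ((Module.finrank K (grS (K := K) (ℓ := ℓ) (d : ℤ)) : ℕ) : ℤ))) := by
    have e3 : ∀ j, ∀ i : T.ι j, (PowerSeries.X ^ (T.deg j i).toNat * (PowerSeries.mk fun d : ℕ =>
          ((Module.finrank K (grS (K := K) (ℓ := ℓ) (d : ℤ)) : ℕ) : ℤ))) =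
          PowerSeries.mk fun d : ℕ =>
            ((Module.finrank K (grS (K := K) (ℓ := ℓ) ((d : ℤ) - T.deg j i)) : ℕ) : ℤ) := by
      intro j i
      rw [← coeff_HS (f := fun m => ((Module.finrank K (grS (K := K) (ℓ := ℓ) m) : ℕ) : ℤ)) hneg]
      congr 1
      funext d
      have h0 := hT.nonneg j i
      have h1 : ((T.deg j i).toNat : ℤ) = T.deg j i := by omega
      rw [h1]
    ext d
    rw [PowerSeries.coeff_mk, e1, map_sum]
    refine Finset.sum_congr rfl fun j _ => ?_
    have e4 : ((-1 : PowerSeries ℤ)) ^ j = PowerSeries.C ((-1 : ℤ) ^ j) := by simp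
    rw [e4, PowerSeries.coeff_C_mul, map_sum]
    congr 1
    refine Finset.sum_congr rfl fun i _ => ?_
    rw [e3, PowerSeries.coeff_mk]
  rw [e2, Finset.sum_mul]
  ext d
  rw [map_sum, PowerSeries.coeff_mk, Cx.cnt]
  refine Finset.sum_congr rfl fun j _ => ?_
  have e4 : ((-1 : PowerSeries ℤ)) ^ j = PowerSeries.C ((-1 : ℤ) ^ j) := by simp
  rw [e4, mul_assoc, PowerSeries.coeff_C_mul, Finset.sum_mul, map_sum]
  congr 1
  have e5 : ∀ i : T.ι j, (PowerSeries.coeff d) (PowerSeries.X ^ (T.deg j i).toNat *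
      (PowerSeries.mk fun d : ℕ =>
          ((Module.finrank K (grS (K := K) (ℓ := ℓ) (d : ℤ)) : ℕ) : ℤ)) *
            (1 - PowerSeries.X) ^ ℓ) = if T.deg j i = (d : ℤ) then 1 else 0 := by
    intro i
    rw [mul_assoc, hHS, mul_one, PowerSeries.coeff_X_pow]
    have h0 := hT.nonneg j i
    by_cases h : T.deg j i = (d : ℤ)
    · rw [if_pos h, if_pos (by omega)]
    · rw [if_neg h, if_neg (by omega)]
  rw [Finset.sum_congr rfl fun i _ => e5 i, Finset.card_filter]
  push_cast
  rfl

end Pool.Agent.Lib.MP_fe1391_co.Tame.Count
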