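import Pool.Agent.Lib.MP_fe1391_co.Tame.Stmts

/-!
# A3: graph forms followed by one more element
-/

set_option autoImplicit false

namespace Pool.Agent.Lib.MP_fe1391_co.Tame.DomReg

open MvPolynomial RingTheory.Sequence

universe u v

variable {P : Type u} [CommRing P] {σ : Type v} {ℓ : ℕ}

/-- the graph forms -/
noncomputable def fm (g : Fin ℓ → MvPolynomial σ P) (i : Fin ℓ) : MvPolynomial (σ ⊕ Fin ℓ) P :=
  X (Sum.inr i) - rename Sum.inl (g i)

/-- modulo the graph forms every polynomial is its value on the graph -/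
theorem sub_mem (g : Fin ℓ → MvPolynomial σ P) (q : MvPolynomial (σ ⊕ Fin ℓ) P) :
    q - rename Sum.inl (aeval (Sum.elim X g) q) ∈ Ideal.span (Set.range (fm g)) := by
  set I := Ideal.span (Set.range (fm g)) with hI
  rw [← Ideal.Quotient.eq]
  have key : (Ideal.Quotient.mkₐ P I) =
      (Ideal.Quotient.mkₐ P I).comp
        ((rename Sum.inl : MvPolynomial σ P →ₐ[P] MvPolynomial (σ ⊕ Fin ℓ) P).comp
          (aeval (Sum.elim X g))) := by
    apply MvPolynomial.algHom_ext
    rintro (s | i)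
    · simp
    · simp only [AlgHom.comp_apply, aeval_X, Sum.elim_inr]
      rw [Ideal.Quotient.mkₐ_eq_mk, Ideal.Quotient.eq]
      exact Ideal.subset_span ⟨i, rfl⟩
  exact DFunLike.congr_fun key q

theorem ker_le (g : Fin ℓ → MvPolynomial σ P) (q : MvPolynomial (σ ⊕ Fin ℓ) P)
    (hq : aeval (Sum.elim X g) q = 0) : q ∈ Ideal.span (Set.range (fm g)) := by
  have h := sub_mem g q
  rwa [hq, map_zero, sub_zero] at h

theorem le_ker (g : Fin ℓ → MvPolynomial σ P) (q : MvPolynomial (σ ⊕ Fin ℓ) P)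
    (hq : q ∈ Ideal.span (Set.range (fm g))) : aeval (Sum.elim X g) q = 0 := by
  have h : Ideal.span (Set.range (fm g)) ≤
      RingHom.ker (aeval (Sum.elim X g) : MvPolynomial (σ ⊕ Fin ℓ) P →ₐ[P] MvPolynomial σ P) := by
    rw [Ideal.span_le]
    rintro _ ⟨i, rfl⟩
    rw [SetLike.mem_coe, RingHom.mem_ker, fm, map_sub, aeval_X, Sum.elim_inr, aeval_rename]
    have h1 : (Sum.elim X g ∘ Sum.inl : σ → MvPolynomial σ P) = X := rfl
    rw [h1, aeval_X_left_apply, sub_self]
  exact h hq

theorem thm.{a, b} (h : stPivot.{a, b}) : stDomReg.{a, b} := by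
  classical
  intro P _ _ σ ℓ g f hf
  have hlist : Ideal.ofList (List.ofFn (fun i => X (Sum.inr i) - rename Sum.inl (g i))) =
      Ideal.span (Set.range (fm g)) := by
    rw [Ideal.ofList]
    congr 1
    ext q
    simp only [List.mem_ofFn, Set.mem_ofPred_eq, Set.mem_range, fm]
  rw [isWeaklyRegular_append_iff]
  constructor
  · have h1 := h P (σ ⊕ Fin ℓ) [] (List.ofFn (fun i : Fin ℓ => (Sum.inr i : σ ⊕ Fin ℓ)))
      (Sum.elim (fun _ => 0) (fun i => rename Sum.inl (g i))) (IsWeaklyRegular.nil P P)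
      (List.nodup_ofFn.2 Sum.inr_injective) ?_
    · rw [List.map_nil, List.nil_append, List.map_ofFn] at h1
      exact h1
    · intro t ht s hs hv
      rw [List.mem_ofFn] at ht hs
      obtain ⟨i, rfl⟩ := ht
      obtain ⟨j, rfl⟩ := hs
      rw [Sum.elim_inr] at hv
      have h2 := vars_rename Sum.inl (g i) hv
      rw [Finset.mem_image] at h2
      obtain ⟨a, _, ha⟩ := h2
      exact absurd ha (by simp)
  · rw [isWeaklyRegular_singleton_iff, hlist, smul_eq_mul, Ideal.mul_top,
      isSMulRegular_quotient_iff_mem_of_smul_mem]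
    intro z hz
    have h3 := le_ker g _ hz
    rw [smul_eq_mul, map_mul] at h3
    exact ker_le g z ((mul_eq_zero.1 h3).resolve_left hf)

end Pool.Agent.Lib.MP_fe1391_co.Tame.DomReg
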