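import Pool.Agent.Lib.MP_fe1391_co.Tame.Stmts

/-!
# G1: the dual complex
-/

set_option autoImplicit false

namespace Pool.Agent.Lib.MP_fe1391_co.Tame.Dual

open MvPolynomial

universe u

theorem fr_congr {A : Type u} [CommRing A] : ∀ (k : ℕ) {N N' : Type u} [AddCommGroup N]
    [Module A N] [AddCommGroup N'] [Module A N'], (N ≃ₗ[A] N') → FR A k N → FR A k N'
  | 0, _, _, _, _, _, _, e, h => by
    have h' : Module.Free A _ := h
    exact Module.Free.of_equiv e
  | k + 1, _, _, _, _, _, _, e, h => by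
    obtain ⟨F, i1, i2, i3, f, hf, hk⟩ := h
    refine ⟨F, i1, i2, i3, e.toLinearMap ∘ₗ f, e.surjective.comp hf, ?_⟩
    have : LinearMap.ker (e.toLinearMap ∘ₗ f) = LinearMap.ker f :=
      LinearMap.ker_comp_of_ker_eq_bot f e.ker
    rw [this]
    exact hk

/-- the transposed differential -/
def vm {A : Type u} [CommRing A] (T : Cx A) (j : ℕ) :
    (T.ι j → A) →ₗ[A] (T.ι (j + 1) → A) := (T.d j).vecMulLinear

theorem vm_apply {A : Type u} [CommRing A] (T : Cx A) (j : ℕ) (v : T.ι j → A) :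
    vm T j v = (T.d j).vecMul v := rfl

theorem d_d {A : Type u} [CommRing A] (T : Cx A) (hT : T.Exact) (j : ℕ) :
    T.d j * T.d (j + 1) = 0 := by
  apply Matrix.ext_of_mulVec_single
  intro i
  rw [← Matrix.mulVec_mulVec, (hT j _).2 ⟨_, rfl⟩, Matrix.zero_mulVec]

theorem vm_vm {A : Type u} [CommRing A] (T : Cx A) (hT : T.Exact) (j : ℕ) (v : T.ι j → A) :
    vm T (j + 1) (vm T j v) = 0 := by
  rw [vm_apply, vm_apply, Matrix.vecMul_vecMul, d_d T hT, Matrix.vecMul_zero]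

/-- cokernels of the dual complex have short resolutions -/
theorem fr_coker {A : Type u} [CommRing A] (T : Cx A) (hT : T.Exact) : ∀ j : ℕ,
    (∀ ψ : T.ι 0 → A, vm T 0 ψ = 0 → ψ = 0) →
    (∀ i, i < j → ∀ ψ : T.ι (i + 1) → A, vm T (i + 1) ψ = 0 → ∃ χ, ψ = vm T i χ) →
    FR A (j + 1) ((T.ι (j + 1) → A) ⧸ LinearMap.range (vm T j))
  | 0, h0, _ => by
    refine ⟨T.ι 1 → A, inferInstance, inferInstance, inferInstance,
      Submodule.mkQ _, Submodule.mkQ_surjective _, ?_⟩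
    rw [Submodule.ker_mkQ]
    have hinj : LinearMap.ker (vm T 0) = ⊥ := by
      rw [LinearMap.ker_eq_bot']
      exact h0
    have e := LinearEquiv.ofInjective (vm T 0) (LinearMap.ker_eq_bot.1 hinj)
    exact fr_congr 0 e (show Module.Free A (T.ι 0 → A) from inferInstance)
  | j + 1, h0, hi => by
    refine ⟨T.ι (j + 2) → A, inferInstance, inferInstance, inferInstance,
      Submodule.mkQ _, Submodule.mkQ_surjective _, ?_⟩
    rw [Submodule.ker_mkQ]
    have ih := fr_coker T hT j h0 (fun i h => hi i (by omega))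
    have hker : LinearMap.ker (vm T (j + 1)) = LinearMap.range (vm T j) := by
      ext ψ
      rw [LinearMap.mem_ker, LinearMap.mem_range]
      constructor
      · intro h
        obtain ⟨χ, hχ⟩ := hi j (by omega) ψ h
        exact ⟨χ, hχ.symm⟩
      · rintro ⟨χ, rfl⟩
        exact vm_vm T hT j χ
    have e : ((T.ι (j + 1) → A) ⧸ LinearMap.range (vm T j)) ≃ₗ[A]
        LinearMap.range (vm T (j + 1)) :=
      (Submodule.quotEquivOfEq _ _ hker.symm).trans (vm T (j + 1)).quotKerEquivRange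
    exact fr_congr (j + 1) e ih

theorem thm (hN : stNull.{u}) (hG1 : stG1.{u}) (hG3 : stG3.{u}) : stDual.{u} := by
  intro K _ ℓ B hB hFR T hT hL hI
  have hnull := fun f (hf : f ∈ IR B) => hN (R B) T hT f (hI f hf)
  have key : ∀ f ∈ IR B, ∀ j (ψ : T.ι (j + 1) → R B), vm T (j + 1) ψ = 0 →
      ∃ χ, f • ψ = vm T j χ := by
    intro f hf j ψ hψ
    obtain ⟨h, _, hj⟩ := hnull f hf
    refine ⟨(h j).vecMul ψ, ?_⟩
    have h1 := congrArg (fun M => Matrix.vecMul ψ M) (hj j)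
    simp only [Matrix.vecMul_smul, Matrix.vecMul_one, Matrix.vecMul_add] at h1
    rw [h1, ← Matrix.vecMul_vecMul, ← Matrix.vecMul_vecMul]
    rw [vm_apply] at hψ
    rw [hψ, Matrix.zero_vecMul, zero_add, vm_apply]
  have hA : 0 < ℓ → ∀ ψ : T.ι 0 → R B, vm T 0 ψ = 0 → ψ = 0 := by
    intro hl ψ hψ
    refine hG1 K ℓ B hB 0 hl (T.ι 0 → R B)
      (show Module.Free (R B) (T.ι 0 → R B) from inferInstance) ψ ?_
    intro f hf
    obtain ⟨h, h0, _⟩ := hnull f hf
    have h1 := congrArg (fun M => Matrix.vecMul ψ M) h0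
    simp only [Matrix.vecMul_smul, Matrix.vecMul_one] at h1
    rw [h1, ← Matrix.vecMul_vecMul]
    rw [vm_apply] at hψ
    rw [hψ, Matrix.zero_vecMul]
  have hBB : ∀ j, j + 1 < ℓ → ∀ ψ : T.ι (j + 1) → R B, vm T (j + 1) ψ = 0 →
      ∃ χ, ψ = vm T j χ := by
    intro j
    induction j using Nat.strong_induction_on with
    | _ j ih =>
      intro hj ψ hψ
      have hfr := fr_coker T hT j (hA (by omega)) (fun i hi => ih i hi (by omega))
      have hz : (Submodule.Quotient.mk ψ : (T.ι (j + 1) → R B) ⧸ LinearMap.range (vm T j)) = 0 := by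
        refine hG1 K ℓ B hB (j + 1) hj _ hfr _ ?_
        intro f hf
        rw [← Submodule.Quotient.mk_smul, Submodule.Quotient.mk_eq_zero]
        obtain ⟨χ, hχ⟩ := key f hf j ψ hψ
        exact ⟨χ, hχ.symm⟩
      rw [Submodule.Quotient.mk_eq_zero] at hz
      obtain ⟨χ, hχ⟩ := hz
      exact ⟨χ, hχ.symm⟩
  have hD : ∀ L, ℓ = L + 1 → ∀ ψ : T.ι (L + 1) → R B, ∀ f ∈ IR B,
      ∃ χ, f • ψ = vm T L χ := by
    intro L hl ψ f hf
    refine key f hf L ψ ?_
    have : IsEmpty (T.ι (L + 2)) := hL (L + 2) (by omega)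
    exact Subsingleton.elim _ _
  refine ⟨hA, hBB, ?_, hD⟩
  intro L hl ψ f hf hψ
  have hfr := fr_coker T hT L (hA (by omega)) (fun i hi => hBB i (by omega))
  have hz : (Submodule.Quotient.mk ψ : (T.ι (L + 1) → R B) ⧸ LinearMap.range (vm T L)) = 0 := by
    refine hG3 K ℓ B hB hFR (L + 1) (by omega) _ hfr _ ?_ f hf ?_
    · intro g hg
      rw [← Submodule.Quotient.mk_smul, Submodule.Quotient.mk_eq_zero]
      obtain ⟨χ, hχ⟩ := hD L hl ψ g hg
      exact ⟨χ, hχ.symm⟩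
    · rw [← Submodule.Quotient.mk_smul, Submodule.Quotient.mk_eq_zero]
      obtain ⟨χ, hχ⟩ := hψ
      exact ⟨χ, hχ.symm⟩
  rw [Submodule.Quotient.mk_eq_zero] at hz
  obtain ⟨χ, hχ⟩ := hz
  exact ⟨χ, hχ.symm⟩

end Pool.Agent.Lib.MP_fe1391_co.Tame.Dual
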