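import Pool.Agent.Lib.MP_fe1391_co.Tame.Stmts

/-!
# Tame arrangements, module G2 (the palindromic case)
-/

set_option autoImplicit false

namespace Pool.Agent.Lib.MP_fe1391_co.Tame.Top

open MvPolynomial

universe u

/-! ### Free resolutions -/

section FRes

variable {A : Type u} [CommRing A]

theorem FR_range (T : Cx A) (hE : T.Exact) : ∀ (k j : ℕ), (∀ i, j + 1 + k < i → IsEmpty (T.ι i)) →
    FR A k (LinearMap.range (T.d j).mulVecLin) := by
  intro k
  induction k with
  | zero =>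
    intro j hL
    have hemp : IsEmpty (T.ι (j + 2)) := hL _ (by omega)
    have hinj : Function.Injective (T.d j).mulVecLin := by
      rw [← LinearMap.ker_eq_bot, LinearMap.ker_eq_bot']
      intro v hv
      rw [Matrix.mulVecLin_apply] at hv
      obtain ⟨w, rfl⟩ := (hE j v).mp hv
      funext i
      simp [Matrix.mulVec, dotProduct]
    change Module.Free A (LinearMap.range (T.d j).mulVecLin)
    exact Module.Free.of_equiv (LinearEquiv.ofInjective _ hinj)
  | succ k ih =>
    intro j hL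
    refine ⟨(T.ι (j + 1) → A), inferInstance, inferInstance, inferInstance,
      (T.d j).mulVecLin.rangeRestrict, LinearMap.surjective_rangeRestrict _, ?_⟩
    have hk : LinearMap.ker (T.d j).mulVecLin.rangeRestrict =
        LinearMap.range (T.d (j + 1)).mulVecLin := by
      rw [LinearMap.ker_rangeRestrict]
      ext v
      rw [LinearMap.mem_ker, Matrix.mulVecLin_apply, hE j v, LinearMap.mem_range]
      constructor
      · rintro ⟨w, hw⟩; exact ⟨w, by rw [Matrix.mulVecLin_apply, hw]⟩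
      · rintro ⟨w, hw⟩; exact ⟨w, by rw [← hw, Matrix.mulVecLin_apply]⟩
    rw [hk]
    exact ih (j + 1) fun i hi => hL i (by omega)

theorem FR_zero_range (T : Cx A) (hE : T.Exact) {L : ℕ} (hL : T.Len (L + 1)) :
    FR A L (LinearMap.range (T.d 0).mulVecLin) :=
  FR_range T hE L 0 fun i hi => hL i (by omega)

end FRes

/-! ### Gradings -/

section Gr

variable {K : Type u} [Field K] {A : Type u} [CommRing A] [Algebra K A] {g : ℤ → Submodule K A}

theorem proj_mul {π : ℤ → A →ₗ[K] A}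
    (hmul : ∀ {m n : ℤ} {a b : A}, a ∈ g m → b ∈ g n → a * b ∈ g (m + n))
    (h1 : ∀ m a, π m a ∈ g m) (h2 : ∀ m a, a ∈ g m → π m a = a)
    (h3 : ∀ m n a, a ∈ g m → n ≠ m → π n a = 0)
    (h4 : ∀ a, ∃ s : Finset ℤ, a = ∑ m ∈ s, π m a ∧ ∀ m, m ∉ s → π m a = 0)
    {n : ℤ} {a : A} (ha : a ∈ g n) (m : ℤ) (b : A) : π m (a * b) = a * π (m - n) b := by
  classical
  obtain ⟨s, hs, hs'⟩ := h4 b
  have e1 : a * b = ∑ k ∈ s, a * π k b := by rw [← Finset.mul_sum, ← hs]
  rw [e1, map_sum]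
  have e2 : ∀ k ∈ s, π m (a * π k b) = if k = m - n then a * π k b else 0 := by
    intro k _
    have hk : a * π k b ∈ g (n + k) := hmul ha (h1 k b)
    by_cases h : k = m - n
    · rw [if_pos h]
      apply h2
      have : n + k = m := by omega
      rwa [this] at hk
    · rw [if_neg h]
      exact h3 _ _ _ hk (by omega)
  rw [Finset.sum_congr rfl e2, Finset.sum_ite_eq']
  by_cases h : m - n ∈ s
  · rw [if_pos h]
  · rw [if_neg h, hs' _ h, mul_zero]

theorem exists_comp (hg : GrAlg g) {ι : Type*} [Fintype ι] (deg : ι → ℤ) (v : ι → A) :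
    ∃ (S : Finset ℤ) (c : ℤ → ι → A), (∀ m, c m ∈ Hm g deg m) ∧ v = ∑ m ∈ S, c m := by
  classical
  obtain ⟨π, h1, -, -, h4⟩ := hg.proj
  choose s hs hs' using h4
  refine ⟨Finset.univ.biUnion fun i => (s (v i)).image fun k => k + deg i,
    fun m i => π (m - deg i) (v i), fun m i => h1 _ _, ?_⟩
  funext i
  rw [Finset.sum_apply]
  rw [← Finset.sum_subset (s₁ := (s (v i)).image fun k => k + deg i)]
  · rw [Finset.sum_image (fun x _ y _ h => by simpa using h)]
    simp only [add_sub_cancel_right]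
    exact hs (v i)
  · exact Finset.subset_biUnion_of_mem (fun i => (s (v i)).image fun k => k + deg i)
      (Finset.mem_univ i)
  · intro m _ hm
    apply hs'
    intro h
    exact hm (Finset.mem_image.mpr ⟨m - deg i, h, by ring⟩)

/-- homogeneous vectors as a product -/
def HmEquiv {ι : Type*} (g : ℤ → Submodule K A) (deg : ι → ℤ) (m : ℤ) :
    Hm g deg m ≃ₗ[K] (∀ i, g (m - deg i)) where
  toFun v i := ⟨v.1 i, v.2 i⟩
  invFun w := ⟨fun i => (w i).1, fun i => (w i).2⟩
  map_add' _ _ := rfl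
  map_smul' _ _ := rfl
  left_inv _ := rfl
  right_inv _ := rfl

theorem finite_Hm (hg : GrAlg g) {ι : Type*} [Fintype ι] (deg : ι → ℤ) (m : ℤ) :
    Module.Finite K (Hm g deg m) := by
  have : ∀ i, Module.Finite K (g (m - deg i)) := fun i => hg.fin _
  exact Module.Finite.equiv (HmEquiv g deg m).symm

theorem finrank_Hm (hg : GrAlg g) {ι : Type*} [Fintype ι] (deg : ι → ℤ) (m : ℤ) :
    Module.finrank K (Hm g deg m) = ∑ i, Module.finrank K (g (m - deg i)) := by
  have : ∀ i, Module.Finite K (g (m - deg i)) := fun i => hg.fin _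
  rw [(HmEquiv g deg m).finrank_eq, Module.finrank_pi_fintype]

end Gr

/-! ### Dimensions of quotients -/

section Quot

variable {K : Type u} [Field K] {E : Type*} [AddCommGroup E] [Module K E]

theorem finrank_map_add {E' : Type*} [AddCommGroup E'] [Module K E'] (φ : E →ₗ[K] E')
    (W : Submodule K E) [Module.Finite K W] :
    Module.finrank K (W.map φ) + Module.finrank K (W ⊓ LinearMap.ker φ : Submodule K E) =
      Module.finrank K W := by
  have h1 := LinearMap.finrank_range_add_finrank_ker (φ.domRestrict W)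
  have h2 : LinearMap.range (φ.domRestrict W) = W.map φ := by
    ext x
    constructor
    · rintro ⟨y, rfl⟩
      exact ⟨y.1, y.2, rfl⟩
    · rintro ⟨y, hy, rfl⟩
      exact ⟨⟨y, hy⟩, rfl⟩
  have h3 : Module.finrank K (LinearMap.ker (φ.domRestrict W)) =
      Module.finrank K (W ⊓ LinearMap.ker φ : Submodule K E) := by
    have e1 : (LinearMap.ker (φ.domRestrict W)).map W.subtype = W ⊓ LinearMap.ker φ := by
      ext x
      constructor
      · rintro ⟨y, hy, rfl⟩
        exact ⟨y.2, hy⟩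
      · rintro ⟨hx, hx'⟩
        exact ⟨⟨x, hx⟩, hx', rfl⟩
    rw [← e1]
    exact (Submodule.finrank_map_subtype_eq W _).symm
  rw [h2, h3] at h1
  exact h1

theorem finrank_quot (W S : Submodule K E) [Module.Finite K W] :
    Module.finrank K (W.map S.mkQ) + Module.finrank K (W ⊓ S : Submodule K E) =
      Module.finrank K W := by
  have h1 := LinearMap.finrank_range_add_finrank_ker (S.mkQ.domRestrict W)
  have h2 : LinearMap.range (S.mkQ.domRestrict W) = W.map S.mkQ := by
    ext x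
    constructor
    · rintro ⟨y, rfl⟩
      exact ⟨y.1, y.2, rfl⟩
    · rintro ⟨y, hy, rfl⟩
      exact ⟨⟨y, hy⟩, rfl⟩
  have h3 : Module.finrank K (LinearMap.ker (S.mkQ.domRestrict W)) =
      Module.finrank K (W ⊓ S : Submodule K E) := by
    have e1 : (LinearMap.ker (S.mkQ.domRestrict W)).map W.subtype = W ⊓ S := by
      ext x
      constructor
      · rintro ⟨y, hy, rfl⟩
        exact ⟨y.2, (Submodule.Quotient.mk_eq_zero S).mp hy⟩
      · rintro ⟨hx, hx'⟩
        exact ⟨⟨x, hx⟩, (Submodule.Quotient.mk_eq_zero S).mpr hx', rfl⟩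
    rw [← e1]
    exact (Submodule.finrank_map_subtype_eq W _).symm
  rw [h2, h3] at h1
  exact h1

end Quot

/-! ### Homogeneous matrices -/

section HomMat

variable {K : Type u} [Field K] {A : Type u} [CommRing A] [Algebra K A] {g : ℤ → Submodule K A}
variable {ι κ : Type*} [Fintype ι] [Fintype κ]

theorem mulVec_mem (hg : GrAlg g) {deg : ι → ℤ} {deg' : κ → ℤ} {M : Matrix κ ι A}
    (hM : ∀ k i, M k i ∈ g (deg i - deg' k)) {m : ℤ} {t : ι → A} (ht : t ∈ Hm g deg m) :
    M.mulVec t ∈ Hm g deg' m := by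
  intro k
  refine Submodule.sum_mem _ fun i _ => ?_
  have := hg.mul (hM k i) (ht i)
  have e : deg i - deg' k + (m - deg i) = m - deg' k := by ring
  rwa [e] at this

theorem exists_homog (hg : GrAlg g) {deg : ι → ℤ} {deg' : κ → ℤ} {M : Matrix κ ι A}
    (hM : ∀ k i, M k i ∈ g (deg i - deg' k)) {m : ℤ} {v : κ → A} (hv : v ∈ Hm g deg' m)
    {t : ι → A} (ht : v = M.mulVec t) : ∃ t' ∈ Hm g deg m, v = M.mulVec t' := by
  obtain ⟨π, h1, h2, h3, h4⟩ := hg.proj
  refine ⟨fun i => π (m - deg i) (t i), fun i => h1 _ _, ?_⟩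
  funext k
  have e1 : v k = π (m - deg' k) (v k) := (h2 _ _ (hv k)).symm
  rw [e1, ht]
  change π (m - deg' k) (∑ i, M k i * t i) = ∑ i, M k i * π (m - deg i) (t i)
  rw [map_sum]
  refine Finset.sum_congr rfl fun i _ => ?_
  rw [proj_mul hg.mul h1 h2 h3 h4 (hM k i)]
  congr 2
  ring_nf

/-- range of a matrix, as a `K`-space -/
def rg (K : Type u) [Field K] {A : Type u} [CommRing A] [Algebra K A] {ι κ : Type*} [Fintype ι]
    (M : Matrix κ ι A) : Submodule K (κ → A) := (LinearMap.range M.mulVecLin).restrictScalars K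

/-- kernel of a matrix, as a `K`-space -/
def kr (K : Type u) [Field K] {A : Type u} [CommRing A] [Algebra K A] {ι κ : Type*} [Fintype ι]
    (M : Matrix κ ι A) : Submodule K (ι → A) := (LinearMap.ker M.mulVecLin).restrictScalars K

omit [Fintype κ] in
theorem mem_rg {M : Matrix κ ι A} {v : κ → A} : v ∈ rg K M ↔ ∃ t, v = M.mulVec t := by
  constructor
  · rintro ⟨t, ht⟩; exact ⟨t, by rw [← ht]; rfl⟩
  · rintro ⟨t, ht⟩; exact ⟨t, by rw [ht]; rfl⟩

omit [Fintype κ] in
theorem mem_kr {M : Matrix κ ι A} {t : ι → A} : t ∈ kr K M ↔ M.mulVec t = 0 := Iff.rfl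

theorem finrank_rg (hg : GrAlg g) {deg : ι → ℤ} {deg' : κ → ℤ} {M : Matrix κ ι A}
    (hM : ∀ k i, M k i ∈ g (deg i - deg' k)) (m : ℤ) :
    Module.finrank K (Hm g deg' m ⊓ rg K M : Submodule K (κ → A)) +
      Module.finrank K (Hm g deg m ⊓ kr K M : Submodule K (ι → A)) =
      Module.finrank K (Hm g deg m) := by
  have hfin := finite_Hm hg deg m
  set φ : (ι → A) →ₗ[K] (κ → A) := M.mulVecLin.restrictScalars K with hφ
  have h1 := LinearMap.finrank_range_add_finrank_ker (φ.domRestrict (Hm g deg m))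
  have h2 : LinearMap.range (φ.domRestrict (Hm g deg m)) = Hm g deg' m ⊓ rg K M := by
    ext v
    constructor
    · rintro ⟨t, rfl⟩
      exact ⟨mulVec_mem hg hM t.2, mem_rg.mpr ⟨t.1, rfl⟩⟩
    · rintro ⟨hv, hv'⟩
      obtain ⟨t, ht⟩ := mem_rg.mp hv'
      obtain ⟨t', ht', e⟩ := exists_homog hg hM hv ht
      exact ⟨⟨t', ht'⟩, e.symm⟩
  have h3 : Module.finrank K (LinearMap.ker (φ.domRestrict (Hm g deg m))) =
      Module.finrank K (Hm g deg m ⊓ kr K M : Submodule K (ι → A)) := by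
    have e1 : (LinearMap.ker (φ.domRestrict (Hm g deg m))).map (Hm g deg m).subtype =
        Hm g deg m ⊓ kr K M := by
      ext x
      constructor
      · rintro ⟨y, hy, rfl⟩
        exact ⟨y.2, hy⟩
      · rintro ⟨hx, hx'⟩
        exact ⟨⟨x, hx⟩, hx', rfl⟩
    rw [← e1]
    exact (Submodule.finrank_map_subtype_eq _ _).symm
  rw [h2, h3] at h1
  exact h1

end HomMat

/-! ### The polynomial -/

section Poly

open Polynomial in
theorem reverse_one_sub_X_pow (ℓ : ℕ) :
    ((1 - Polynomial.X : Polynomial ℤ) ^ ℓ).reverse = (-1) ^ ℓ * (1 - Polynomial.X) ^ ℓ := by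
  have h1 : (1 - Polynomial.X : Polynomial ℤ).reverse = -(1 - Polynomial.X) := by
    have hd : (1 - Polynomial.X : Polynomial ℤ).natDegree = 1 := by
      have : (1 - Polynomial.X : Polynomial ℤ) = -(Polynomial.X - Polynomial.C 1) := by
        rw [Polynomial.C_1]; ring
      rw [this, Polynomial.natDegree_neg, Polynomial.natDegree_X_sub_C]
    ext n
    rw [Polynomial.coeff_reverse, hd]
    rcases n with _ | _ | n
    · simp [Polynomial.revAt, Polynomial.coeff_one]
    · simp [Polynomial.revAt, Polynomial.coeff_one]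
    · have : Polynomial.revAt 1 (n + 1 + 1) = n + 1 + 1 := by
        rw [Polynomial.revAt_eq_self_of_lt (by omega)]
      rw [this]
      simp [Polynomial.coeff_one, Polynomial.coeff_X]
  induction ℓ with
  | zero =>
    rw [pow_zero, pow_zero, one_mul, ← Polynomial.C_1, Polynomial.reverse_C]
  | succ n ih =>
    rw [pow_succ, Polynomial.reverse_mul_of_domain, ih, h1]
    ring

theorem palin (ℓ : ℕ) (f : Polynomial ℤ) (hr : f.reverse = f) :
    ∀ c ≤ ((1 - Polynomial.X) ^ ℓ * f : Polynomial ℤ).natDegree,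
    ((1 - Polynomial.X) ^ ℓ * f : Polynomial ℤ).coeff
      (((1 - Polynomial.X) ^ ℓ * f : Polynomial ℤ).natDegree - c) =
      (-1) ^ ℓ * ((1 - Polynomial.X) ^ ℓ * f : Polynomial ℤ).coeff c := by
  intro c hc
  set h : Polynomial ℤ := (1 - Polynomial.X) ^ ℓ * f with hh
  have h1 : h.reverse = (-1) ^ ℓ * h := by
    rw [hh, Polynomial.reverse_mul_of_domain, reverse_one_sub_X_pow, hr]
    ring
  have h2 : h.reverse.coeff c = ((-1) ^ ℓ * h).coeff c := by rw [h1]
  rw [Polynomial.coeff_reverse, Polynomial.revAt_le hc] at h2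
  rw [h2]
  have : ((-1 : Polynomial ℤ) ^ ℓ) = Polynomial.C ((-1 : ℤ) ^ ℓ) := by simp
  rw [this, Polynomial.coeff_C_mul]

theorem coeff_zero_ne (f : Polynomial ℤ) (hf : f ≠ 0) (hr : f.reverse = f) : f.coeff 0 ≠ 0 := by
  rw [← hr, Polynomial.coeff_zero_reverse]
  exact Polynomial.leadingCoeff_ne_zero.mpr hf

end Poly

/-! ### Sums over basis degrees -/

theorem sum_deg {A : Type u} [CommRing A] (T : Cx A) (ℓ : ℕ) (h : Polynomial ℤ)
    (hc : ∀ c : ℤ, T.cnt ℓ c = if 0 ≤ c then h.coeff c.toNat else 0) (φ : ℤ → ℤ) :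
    ∑ j ∈ Finset.range (ℓ + 1), (-1) ^ j * ∑ i, φ (T.deg j i) =
      ∑ c ∈ Finset.range (h.natDegree + 1), h.coeff c * φ c := by
  classical
  set C : Finset ℤ := (Finset.range (ℓ + 1)).biUnion (fun j => Finset.univ.image (T.deg j)) ∪
    (Finset.range (h.natDegree + 1)).image (fun n : ℕ => (n : ℤ)) with hC
  have h1 : ∀ j ∈ Finset.range (ℓ + 1), ∑ i, φ (T.deg j i) =
      ∑ c ∈ C, ((Finset.univ.filter fun i => T.deg j i = c).card : ℤ) * φ c := by
    intro j hj
    rw [← Finset.sum_fiberwise_of_maps_to (s := Finset.univ) (t := C) (g := T.deg j)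
      (fun i _ => Finset.mem_union_left _ (Finset.mem_biUnion.mpr
        ⟨j, hj, Finset.mem_image_of_mem _ (Finset.mem_univ i)⟩))]
    refine Finset.sum_congr rfl fun c _ => ?_
    rw [Finset.sum_congr rfl (g := fun _ => φ c)
      (fun i hi => by rw [(Finset.mem_filter.mp hi).2]), Finset.sum_const, nsmul_eq_mul]
  rw [Finset.sum_congr rfl fun j hj => by rw [h1 j hj, Finset.mul_sum], Finset.sum_comm]
  have h2 : ∀ c ∈ C, ∑ j ∈ Finset.range (ℓ + 1),
      (-1) ^ j * (((Finset.univ.filter fun i => T.deg j i = c).card : ℤ) * φ c) =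
      (if 0 ≤ c then h.coeff c.toNat else 0) * φ c := by
    intro c _
    rw [← hc c, Cx.cnt, Finset.sum_mul]
    refine Finset.sum_congr rfl fun j _ => ?_
    rw [mul_assoc]
  rw [Finset.sum_congr rfl h2]
  rw [← Finset.sum_subset (s₁ := (Finset.range (h.natDegree + 1)).image (fun n : ℕ => (n : ℤ)))
    Finset.subset_union_right]
  · rw [Finset.sum_image (fun x _ y _ hxy => by exact_mod_cast hxy)]
    refine Finset.sum_congr rfl fun c _ => ?_
    rw [if_pos (by positivity), Int.toNat_natCast]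
  · intro c _ hc'
    by_cases h0 : 0 ≤ c
    · rw [if_pos h0, Polynomial.coeff_eq_zero_of_natDegree_lt, zero_mul]
      by_contra hlt
      apply hc'
      exact Finset.mem_image.mpr ⟨c.toNat, Finset.mem_range.mpr (by omega), Int.toNat_of_nonneg h0⟩
    · rw [if_neg h0, zero_mul]

/-! ### The module `R / I` -/

section Main

variable {K : Type u} [Field K] {ℓ : ℕ} {B : Finset (Fin ℓ → K)}

/-- the only index of the row -/
def w₀ (ℓ : ℕ) : Fin 0 → Fin ℓ := fun i => i.elim0

theorem eq_w₀ (w : Fin 0 → Fin ℓ) : w = w₀ ℓ := funext fun i => i.elim0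

theorem row_mem (hℓ : 0 < ℓ) {T : Cx (R B)} {ε : Matrix (Fin 0 → Fin ℓ) (T.ι 0) (R B)}
    (hT : IsNRes B 0 ℓ T ε) (t : T.ι 0 → R B) :
    ε.mulVec t (w₀ ℓ) ∈ IR B ↔ ∃ w, t = (T.d 0).mulVec w := by
  rw [← hT.ker t]
  have hss : Subsingleton (Fin (0 + 1)) := inferInstanceAs (Subsingleton (Fin 1))
  constructor
  · rintro ⟨t', h1, h2⟩
    refine ⟨fun w => t' (w 0), ⟨⟨fun w hw => ?_, fun w i j hij => ?_⟩, fun b hb w j => ?_⟩, ?_⟩
    · exact absurd (Function.injective_of_subsingleton w) hw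
    · exact absurd (Subsingleton.elim i j) hij
    · have e : j = 0 := Subsingleton.elim _ _
      subst e
      simp only [Function.update_self]
      exact h1 b hb
    · funext w
      rw [Pi.smul_apply, smul_eq_mul, eq_w₀ w, h2]
      rfl
  · rintro ⟨θ, ⟨-, h2⟩, h3⟩
    refine ⟨fun i => θ (Fin.cons i (w₀ ℓ)), fun b hb => ?_, ?_⟩
    · have h4 := h2 b hb (fun _ => ⟨0, hℓ⟩) 0
      have e : ∀ i, Function.update (fun _ : Fin 1 => (⟨0, hℓ⟩ : Fin ℓ)) 0 i =
          Fin.cons i (w₀ ℓ) := by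
        intro i
        funext k
        have : k = 0 := Subsingleton.elim _ _
        subst this
        simp
      simp only [e] at h4
      exact h4
    · have h4 := congrFun h3 (w₀ ℓ)
      rw [Pi.smul_apply, smul_eq_mul] at h4
      rw [← h4]
      rfl

theorem row_surj (hE6 : stExt.{u}) (hB : Norm B) {T : Cx (R B)}
    {ε : Matrix (Fin 0 → Fin ℓ) (T.ι 0) (R B)} (hT : IsNRes B 0 ℓ T ε) (a : R B) :
    ∃ t : T.ι 0 → R B, ε.mulVec t (w₀ ℓ) = a := by
  have h1 : (fun _ => a : (Fin 0 → Fin ℓ) → R B) ∈ LogA (R B) B 0 := by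
    rw [(hE6 K ℓ B hB).1]; trivial
  obtain ⟨t, ht⟩ := (hT.surj _).mp h1
  exact ⟨t, by rw [← ht]⟩

/-- the row as a linear map -/
noncomputable def rowMap (ℓ : ℕ) {A : Type u} [CommRing A] {ι : Type} [Fintype ι]
    (ε : Matrix (Fin 0 → Fin ℓ) ι A) : (ι → A) →ₗ[A] A :=
  (LinearMap.proj (w₀ ℓ)).comp ε.mulVecLin

theorem FR_quot (hE6 : stExt.{u}) (hB : Norm B) {L : ℕ} (hL : ℓ = L + 1) {T : Cx (R B)}
    {ε : Matrix (Fin 0 → Fin ℓ) (T.ι 0) (R B)} (hT : IsNRes B 0 ℓ T ε) :
    FR (R B) ℓ (R B ⧸ IR B) := by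
  subst hL
  refine ⟨(T.ι 0 → R B), inferInstance, inferInstance, inferInstance,
    (IR B).mkQ.comp (rowMap (L + 1) ε), ?_, ?_⟩
  · intro q
    obtain ⟨a, rfl⟩ := Submodule.Quotient.mk_surjective _ q
    obtain ⟨t, ht⟩ := row_surj hE6 hB hT a
    exact ⟨t, congrArg _ ht⟩
  · have hk : LinearMap.ker ((IR B).mkQ.comp (rowMap (L + 1) ε)) =
        LinearMap.range (T.d 0).mulVecLin := by
      ext t
      rw [LinearMap.mem_ker, LinearMap.mem_range]
      change Submodule.Quotient.mk (ε.mulVec t (w₀ (L + 1))) = 0 ↔ _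
      rw [Submodule.Quotient.mk_eq_zero, row_mem (by omega) hT]
      constructor
      · rintro ⟨w, rfl⟩; exact ⟨w, rfl⟩
      · rintro ⟨w, rfl⟩; exact ⟨w, rfl⟩
    rw [hk]
    exact FR_zero_range T hT.exact hT.len

/-- dimension of the degree `m` part of `R / I` -/
theorem dim_quot (hC : stCount.{u}) (hg : GrAlg (K := K) (A := R B) (grR B)) (hℓ : 0 < ℓ)
    (hE6 : stExt.{u}) (hB : Norm B) {T : Cx (R B)}
    {ε : Matrix (Fin 0 → Fin ℓ) (T.ι 0) (R B)} (hT : IsNRes B 0 ℓ T ε) (m : ℤ) :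
    ((Module.finrank K ((grR B m).map ((IR B).restrictScalars K).mkQ) : ℕ) : ℤ) =
      ∑ j ∈ Finset.range (ℓ + 1), (-1) ^ j *
        ∑ i, ((Module.finrank K (grR B (m - T.deg j i)) : ℕ) : ℤ) := by
  have hfin := finite_Hm hg (T.deg 0) m
  set φ : (T.ι 0 → R B) →ₗ[K] (R B ⧸ (IR B).restrictScalars K) :=
    ((IR B).restrictScalars K).mkQ.comp ((rowMap ℓ ε).restrictScalars K) with hφ
  have h1 := finrank_map_add φ (Hm (grR B) (T.deg 0) m)
  have h2 : (Hm (grR B) (T.deg 0) m).map φ = (grR B m).map ((IR B).restrictScalars K).mkQ := by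
    ext v
    constructor
    · rintro ⟨t, ht, rfl⟩
      refine ⟨rowMap ℓ ε t, ?_, rfl⟩
      have h3 := mulVec_mem hg (deg := T.deg 0) (deg' := fun _ => ((0 : ℕ) : ℤ))
        (fun w i => hT.eh w i) ht
      have h4 := h3 (w₀ ℓ)
      simp only [Nat.cast_zero, sub_zero] at h4
      exact h4
    · rintro ⟨a, ha, rfl⟩
      obtain ⟨t, ht⟩ := row_surj hE6 hB hT a
      obtain ⟨t', ht', e⟩ := exists_homog hg (deg := T.deg 0) (deg' := fun _ => ((0 : ℕ) : ℤ))
        (M := ε) (fun w i => hT.eh w i) (m := m) (v := fun _ => a) (fun w => by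
          simp only [Nat.cast_zero, sub_zero]; exact ha) (t := t) (by
          funext w
          rw [eq_w₀ w, ht])
      refine ⟨t', ht', ?_⟩
      have e2 := congrFun e (w₀ ℓ)
      change ((IR B).restrictScalars K).mkQ (ε.mulVec t' (w₀ ℓ)) = _
      rw [← e2]
  have h3 : Hm (grR B) (T.deg 0) m ⊓ LinearMap.ker φ = Hm (grR B) (T.deg 0) m ⊓
      (LinearMap.range (T.d 0).mulVecLin).restrictScalars K := by
    ext x
    have key : φ x = 0 ↔ ∃ w, x = (T.d 0).mulVec w := by
      rw [← row_mem hℓ hT]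
      exact Submodule.Quotient.mk_eq_zero _
    constructor
    · rintro ⟨hx, hx'⟩
      obtain ⟨w, hw⟩ := key.mp hx'
      exact ⟨hx, ⟨w, hw.symm⟩⟩
    · rintro ⟨hx, ⟨w, hw⟩⟩
      exact ⟨hx, key.mpr ⟨w, hw.symm⟩⟩
  rw [h2, h3] at h1
  have h4 := hC K (R B) (grR B) hg T ℓ hT.exact hT.hom hT.len m
  have h5 := finrank_Hm hg (T.deg 0) m
  rw [Finset.sum_range_succ']
  simp only [pow_zero, one_mul]
  have h6 : ((Module.finrank K (Hm (grR B) (T.deg 0) m) : ℕ) : ℤ) =
      ∑ i, ((Module.finrank K (grR B (m - T.deg 0 i)) : ℕ) : ℤ) := by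
    rw [h5]; push_cast; rfl
  have h7 : ∑ j ∈ Finset.range ℓ, (-1 : ℤ) ^ (j + 1) *
      ∑ i : T.ι (j + 1), ((Module.finrank K (grR B (m - T.deg (j + 1) i)) : ℕ) : ℤ) =
      - ∑ j ∈ Finset.range ℓ, (-1) ^ j *
      ∑ i : T.ι (j + 1), ((Module.finrank K (grR B (m - T.deg (j + 1) i)) : ℕ) : ℤ) := by
    rw [← Finset.sum_neg_distrib]
    exact Finset.sum_congr rfl fun j _ => by ring
  rw [h7, ← h6, ← h4, ← h1]
  push_cast
  ring

/-- dimensions along the dual complex -/
theorem dim_dual {A : Type u} [CommRing A] [Algebra K A] {g : ℤ → Submodule K A}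
    (hg : GrAlg g) (T : Cx A) (hH : T.Hom g) (L : ℕ)
    (h0 : ∀ ψ : T.ι 0 → A, (T.d 0).vecMul ψ = 0 → ψ = 0)
    (h1 : ∀ j, j + 1 < L + 1 → ∀ ψ : T.ι (j + 1) → A, (T.d (j + 1)).vecMul ψ = 0 →
      ∃ χ, ψ = (T.d j).vecMul χ) (hE : ∀ j, T.d j * T.d (j + 1) = 0) (m : ℤ) :
    ∀ k ≤ L, ((Module.finrank K (Hm g (fun i => - T.deg (k + 1) i) m ⊓
      rg K (T.d k).transpose : Submodule K (T.ι (k + 1) → A)) : ℕ) : ℤ) =
      (-1) ^ k * ∑ j ∈ Finset.range (k + 1), (-1) ^ j *
        ∑ i, ((Module.finrank K (g (m + T.deg j i)) : ℕ) : ℤ) := by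
  have hM : ∀ k i i', (T.d k).transpose i i' ∈ g (-T.deg k i' - -T.deg (k + 1) i) := by
    intro k i i'
    have := hH k i' i
    have e : -T.deg k i' - -T.deg (k + 1) i = T.deg (k + 1) i - T.deg k i' := by ring
    rw [e]
    exact this
  have hF : ∀ k, ((Module.finrank K (Hm g (fun i => - T.deg k i) m) : ℕ) : ℤ) =
      ∑ i, ((Module.finrank K (g (m + T.deg k i)) : ℕ) : ℤ) := by
    intro k
    rw [finrank_Hm hg]
    push_cast
    exact Finset.sum_congr rfl fun i _ => by rw [sub_neg_eq_add]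
  intro k
  induction k with
  | zero =>
    intro _
    have h2 := finrank_rg hg (M := (T.d 0).transpose) (hM 0) m
    have h3 : Hm g (fun i => - T.deg 0 i) m ⊓ kr K (T.d 0).transpose = ⊥ := by
      rw [eq_bot_iff]
      rintro x ⟨-, hx⟩
      rw [Submodule.mem_bot]
      refine h0 x ?_
      have := mem_kr.mp hx
      rwa [Matrix.mulVec_transpose] at this
    rw [h3, finrank_bot, add_zero] at h2
    rw [h2, hF 0]
    simp
  | succ k ih =>
    intro hk
    have h2 := finrank_rg hg (M := (T.d (k + 1)).transpose) (hM (k + 1)) m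
    have h3 : kr K (T.d (k + 1)).transpose = rg K (T.d k).transpose := by
      ext x
      rw [mem_kr, mem_rg, Matrix.mulVec_transpose]
      constructor
      · intro hx
        obtain ⟨χ, hχ⟩ := h1 k (by omega) x hx
        exact ⟨χ, by rw [Matrix.mulVec_transpose]; exact hχ⟩
      · rintro ⟨χ, rfl⟩
        rw [Matrix.mulVec_transpose, Matrix.vecMul_vecMul, hE, Matrix.vecMul_zero]
    rw [h3] at h2
    have h4 := ih (by omega)
    have h5 := hF (k + 1)
    rw [← h2] at h5
    push_cast at h5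
    rw [h4] at h5
    rw [Finset.sum_range_succ, ← h5]
    have e1 : ((-1 : ℤ) ^ (k + 1)) * (-1) ^ (k + 1) = 1 := by
      rw [← mul_pow]; simp
    rw [mul_add, ← mul_assoc ((-1) ^ (k + 1)) ((-1) ^ (k + 1)), e1, pow_succ]
    ring

end Main

theorem d_mul_d {A : Type u} [CommRing A] (T : Cx A) (hE : T.Exact) (j : ℕ) :
    T.d j * T.d (j + 1) = 0 := by
  ext i k
  have h1 : (T.d j).mulVec ((T.d (j + 1)).mulVec (Pi.single k 1)) = 0 :=
    (hE j _).mpr ⟨_, rfl⟩
  rw [Matrix.mulVec_mulVec] at h1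
  have h2 := congrFun h1 i
  rw [Matrix.mulVec_single_one] at h2
  exact h2

/-- Module G2. -/
theorem thm (hD : stDual.{u}) (hC : stCount.{u}) (hR : stGrR.{u}) (hR0 : stR0.{u})
    (_hCon : stCon.{u}) (hE6 : stExt.{u}) : stTop.{u} := by
  intro K _ ℓ B hB hℓ T ε hT f hf hrev hcnt
  obtain ⟨L, rfl⟩ : ∃ L, ℓ = L + 1 := ⟨ℓ - 1, by omega⟩
  have hg : GrAlg (K := K) (A := R B) (grR B) := hR K (L + 1) B
  set h : Polynomial ℤ := (1 - Polynomial.X) ^ (L + 1) * f with hh
  set e : ℕ := h.natDegree with he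
  set r : ℤ → ℤ := fun m => ((Module.finrank K (grR B m) : ℕ) : ℤ) with hr
  set I : Submodule K (R B) := (IR B).restrictScalars K with hI
  set D : Submodule K (T.ι (L + 1) → R B) := rg K (T.d L).transpose with hDdef
  -- the dual complex
  have hFR : FR (R B) (L + 1) (R B ⧸ IR B) := FR_quot hE6 hB rfl hT
  obtain ⟨D1, D2, D3, -⟩ := hD K (L + 1) B hB hFR T hT.exact hT.len (fun a ha t => by
    rw [← row_mem hℓ hT, Matrix.mulVec_smul, Pi.smul_apply, smul_eq_mul]
    exact Ideal.mul_mem_right _ _ ha)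
  -- the dimensions
  have hM : ∀ m : ℤ, ((Module.finrank K ((grR B m).map I.mkQ) : ℕ) : ℤ) =
      ∑ c ∈ Finset.range (e + 1), h.coeff c * r (m - c) := by
    intro m
    rw [dim_quot hC hg hℓ hE6 hB hT m]
    exact sum_deg T (L + 1) h hcnt (fun c => r (m - c))
  have hω : ∀ m : ℤ, ((Module.finrank K
      ((Hm (grR B) (fun i => - T.deg (L + 1) i) m).map D.mkQ) : ℕ) : ℤ) =
      ((Module.finrank K ((grR B (m + e)).map I.mkQ) : ℕ) : ℤ) := by
    intro m
    have hfin := finite_Hm hg (fun i => - T.deg (L + 1) i) m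
    have h1 := finrank_quot (Hm (grR B) (fun i => - T.deg (L + 1) i) m) D
    have h2 := dim_dual hg T hT.hom L (D1 hℓ) D2 (d_mul_d T hT.exact) m L le_rfl
    have h3 : ((Module.finrank K (Hm (grR B) (fun i => - T.deg (L + 1) i) m) : ℕ) : ℤ) =
        ∑ i, r (m + T.deg (L + 1) i) := by
      rw [finrank_Hm hg]
      push_cast
      exact Finset.sum_congr rfl fun i _ => by rw [sub_neg_eq_add]
    rw [← h1] at h3
    push_cast at h3
    rw [h2] at h3
    have h4 := sum_deg T (L + 1) h hcnt (fun c => r (m + c))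
    rw [Finset.sum_range_succ] at h4
    have e1 : ((-1 : ℤ) ^ (L + 1)) * (-1) ^ (L + 1) = 1 := by
      rw [← mul_pow]; simp
    have h5 : ((Module.finrank K
        ((Hm (grR B) (fun i => - T.deg (L + 1) i) m).map D.mkQ) : ℕ) : ℤ) =
        (-1) ^ (L + 1) * ∑ c ∈ Finset.range (h.natDegree + 1), h.coeff c * r (m + c) := by
      rw [← h4, mul_add, ← mul_assoc ((-1) ^ (L + 1)) ((-1) ^ (L + 1)), e1, one_mul,
        ← h3, pow_succ]
      ring
    rw [h5, hM (m + e), Finset.mul_sum, ← he, ← Finset.sum_range_reflect]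
    refine Finset.sum_congr rfl fun c hc => ?_
    have hc' : c ≤ e := by
      have := Finset.mem_range.mp hc
      omega
    have h6 : e + 1 - 1 - c = e - c := by omega
    rw [h6, palin (L + 1) f hrev c hc', ← mul_assoc, ← mul_assoc, e1, one_mul]
    congr 2
    push_cast [Nat.cast_sub hc']
    ring
  -- the lowest degree
  have hr0 : ∀ m : ℤ, m < 0 → r m = 0 := by
    intro m hm
    rw [hr]
    simp only
    rw [hg.neg m hm, finrank_bot]
    rfl
  have hM0 : ((Module.finrank K ((grR B 0).map I.mkQ) : ℕ) : ℤ) = f.coeff 0 := by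
    rw [hM 0, Finset.sum_range_succ', Finset.sum_eq_zero, zero_add]
    · have h1 : h.coeff 0 = f.coeff 0 := by
        rw [hh, Polynomial.mul_coeff_zero, Polynomial.coeff_zero_eq_eval_zero,
          Polynomial.eval_pow]
        simp
      rw [h1]
      have h2 : r (0 - ((0 : ℕ) : ℤ)) = 1 := by
        have h3 : (0 : ℤ) - ((0 : ℕ) : ℤ) = 0 := by simp
        rw [h3]
        change ((Module.finrank K (grR B 0) : ℕ) : ℤ) = 1
        rw [hR0 K (L + 1) B]
        rfl
      rw [h2, mul_one]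
    · intro c _
      rw [hr0 _ (by push_cast; omega), mul_zero]
  have hw : ∃ w ∈ Hm (grR B) (fun i => - T.deg (L + 1) i) (-(e : ℤ)), w ∉ D := by
    by_contra hcon
    push Not at hcon
    have h1 := hω (-(e : ℤ))
    rw [neg_add_cancel, hM0] at h1
    have h2 : (Hm (grR B) (fun i => - T.deg (L + 1) i) (-(e : ℤ))).map D.mkQ = ⊥ := by
      rw [eq_bot_iff]
      rintro _ ⟨w, hw, rfl⟩
      rw [Submodule.mem_bot]
      exact (Submodule.Quotient.mk_eq_zero D).mpr (hcon w hw)
    rw [h2, finrank_bot] at h1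
    exact coeff_zero_ne f hf hrev h1.symm
  obtain ⟨w, hw1, hw2⟩ := hw
  -- everything of degree `m`
  have hgen : ∀ (m : ℤ), ∀ v ∈ Hm (grR B) (fun i => - T.deg (L + 1) i) m,
      ∃ a : R B, v - a • w ∈ D := by
    intro m v hv
    have hfin := finite_Hm hg (fun i => - T.deg (L + 1) i) m
    have hfin' : Module.Finite K (grR B (m + e)) := hg.fin _
    let μ : R B →ₗ[K] ((T.ι (L + 1) → R B) ⧸ D) :=
      D.mkQ.comp ((LinearMap.toSpanSingleton (R B) (T.ι (L + 1) → R B) w).restrictScalars K)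
    have hμ : ∀ a, μ a = D.mkQ (a • w) := fun a => rfl
    have hle : (grR B (m + e)).map μ ≤
        (Hm (grR B) (fun i => - T.deg (L + 1) i) m).map D.mkQ := by
      rintro _ ⟨a, ha, rfl⟩
      refine ⟨a • w, fun i => ?_, rfl⟩
      have h1 := hg.mul ha (hw1 i)
      have e1 : m + (e : ℤ) + (-(e : ℤ) - -T.deg (L + 1) i) = m - -T.deg (L + 1) i := by ring
      rwa [e1] at h1
    have h1 := finrank_map_add μ (grR B (m + e))
    have h2 := finrank_quot (grR B (m + e)) I
    have h3 : Module.finrank K (grR B (m + e) ⊓ LinearMap.ker μ : Submodule K (R B)) ≤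
        Module.finrank K (grR B (m + e) ⊓ I : Submodule K (R B)) := by
      have hf1 : Module.Finite K (grR B (m + e) ⊓ I : Submodule K (R B)) :=
        Submodule.finiteDimensional_of_le inf_le_left
      refine Submodule.finrank_mono ?_
      rintro a ⟨ha, ha'⟩
      refine ⟨ha, ?_⟩
      by_contra hcon
      have h4 : a • w ∈ D := by
        have ha2 : μ a = 0 := ha'
        rw [hμ] at ha2
        exact (Submodule.Quotient.mk_eq_zero D).mp ha2
      obtain ⟨χ, hχ⟩ := mem_rg.mp h4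
      obtain ⟨χ', hχ'⟩ := D3 L rfl w a hcon ⟨χ, by rw [hχ, Matrix.mulVec_transpose]⟩
      exact hw2 (mem_rg.mpr ⟨χ', by rw [hχ', Matrix.mulVec_transpose]⟩)
    have h4 := hω m
    have h5 : Module.finrank K ((Hm (grR B) (fun i => - T.deg (L + 1) i) m).map D.mkQ) ≤
        Module.finrank K ((grR B (m + e)).map μ) := by omega
    have hf2 : Module.Finite K ((Hm (grR B) (fun i => - T.deg (L + 1) i) m).map D.mkQ) :=
      Module.Finite.map _ _
    have h6 := Submodule.eq_of_le_of_finrank_le hle h5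
    have h7 : D.mkQ v ∈ (grR B (m + e)).map μ := by
      rw [h6]; exact ⟨v, hv, rfl⟩
    obtain ⟨a, -, ha⟩ := h7
    refine ⟨a, ?_⟩
    rw [hμ] at ha
    exact (Submodule.Quotient.eq D).mp ha.symm
  have hall : ∀ v : T.ι (L + 1) → R B, ∃ a : R B, v - a • w ∈ D := by
    intro v
    obtain ⟨S, c, hc, hv⟩ := exists_comp hg (fun i => - T.deg (L + 1) i) v
    choose a ha using fun m => hgen m (c m) (hc m)
    refine ⟨∑ m ∈ S, a m, ?_⟩
    rw [hv, Finset.sum_smul, ← Finset.sum_sub_distrib]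
    exact Submodule.sum_mem _ fun m _ => ha m
  -- reduction modulo the irrelevant ideal
  set κ : R B →+* K := (constantCoeff : S K (L + 1) →+* K).comp
    (constantCoeff : R B →+* S K (L + 1)) with hκ
  have hDκ : ∀ x ∈ D, ∀ k, κ (x k) = 0 := by
    intro x hx k
    obtain ⟨χ, rfl⟩ := mem_rg.mp hx
    change κ (∑ i, (T.d L).transpose k i * χ i) = 0
    rw [map_sum]
    refine Finset.sum_eq_zero fun i _ => ?_
    have h1 : T.d L i k ∈ mR B := hT.min L i k
    have h2 : κ (T.d L i k) = 0 := h1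
    rw [map_mul, Matrix.transpose_apply, h2, zero_mul]
  rw [Fintype.card_le_one_iff]
  classical
  intro i j
  by_contra hij
  obtain ⟨a, ha⟩ := hall (Pi.single i 1)
  obtain ⟨b, hb⟩ := hall (Pi.single j 1)
  have h1 := hDκ _ ha i
  have h2 := hDκ _ ha j
  have h3 := hDκ _ hb j
  rw [Pi.sub_apply, Pi.single_eq_same, Pi.smul_apply, smul_eq_mul, map_sub, map_one, map_mul,
    sub_eq_zero] at h1 h3
  rw [Pi.sub_apply, Pi.single_eq_of_ne (Ne.symm hij), Pi.smul_apply, smul_eq_mul, map_sub,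
    map_zero, map_mul, sub_eq_zero] at h2
  have h4 : κ a ≠ 0 := by
    intro h
    rw [h, zero_mul] at h1
    exact one_ne_zero h1
  have h5 : κ (w j) = 0 := by
    rcases mul_eq_zero.mp h2.symm with h | h
    · exact absurd h h4
    · exact h
  rw [h5, mul_zero] at h3
  exact one_ne_zero h3

end Pool.Agent.Lib.MP_fe1391_co.Tame.Top
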