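import Pool.Agent.Lib.MP_fe1391_co.Tame.Stmts2
import Pool.Agent.Lib.MP_fe1391_co.Tame.Top

/-!
# T3, T4, T5: free arrangements have palindromic Solomon-Terao polynomials
-/

set_option autoImplicit false

namespace Pool.Agent.Lib.MP_fe1391_co.Tame.Fwd

open MvPolynomial

universe u

/-! ### T5: product form implies palindromic -/

theorem rev_geom (n : ℕ) :
    (∑ j ∈ Finset.range (n + 1), (Polynomial.X : Polynomial ℤ) ^ j).reverse =
      ∑ j ∈ Finset.range (n + 1), (Polynomial.X : Polynomial ℤ) ^ j := by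
  have hc : ∀ k, (∑ j ∈ Finset.range (n + 1), (Polynomial.X : Polynomial ℤ) ^ j).coeff k =
      if k < n + 1 then 1 else 0 := by
    intro k
    simp only [Polynomial.finsetSum_coeff, Polynomial.coeff_X_pow]
    rw [Finset.sum_ite_eq]
    simp
  have hd : (∑ j ∈ Finset.range (n + 1), (Polynomial.X : Polynomial ℤ) ^ j).natDegree = n := by
    apply le_antisymm
    · rw [Polynomial.natDegree_le_iff_coeff_eq_zero]
      intro N hN
      rw [hc, if_neg (by omega)]
    · apply Polynomial.le_natDegree_of_ne_zero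
      rw [hc, if_pos (by omega)]
      exact one_ne_zero
  ext k
  rw [Polynomial.coeff_reverse, hc, hd]
  by_cases hk : k ≤ n
  · rw [Polynomial.revAt_le hk, hc, if_pos (by omega), if_pos (by omega)]
  · rw [Polynomial.revAt_eq_self_of_lt (by omega), hc]

theorem geom_ne (n : ℕ) : (∑ j ∈ Finset.range (n + 1), (Polynomial.X : Polynomial ℤ) ^ j) ≠ 0 := by
  intro h
  have := congrArg (fun f => Polynomial.coeff f 0) h
  simp [Polynomial.coeff_X_pow] at this

theorem thm5 : stPal := by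
  intro ℓ d
  refine ⟨∏ i, ∑ j ∈ Finset.range (d i + 1), (Polynomial.X : Polynomial ℤ) ^ j, ?_, ?_, ?_⟩
  · exact Finset.prod_ne_zero_iff.2 fun i _ => geom_ne _
  · have : ∀ s : Finset (Fin ℓ),
        (∏ i ∈ s, ∑ j ∈ Finset.range (d i + 1), (Polynomial.X : Polynomial ℤ) ^ j).reverse =
        ∏ i ∈ s, ∑ j ∈ Finset.range (d i + 1), (Polynomial.X : Polynomial ℤ) ^ j := by
      classical
      intro s
      induction s using Finset.induction_on with
      | empty =>
        rw [Finset.prod_empty]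
        exact Polynomial.reverse_C 1
      | insert i s hi ih =>
        rw [Finset.prod_insert hi, Polynomial.reverse_mul_of_domain, ih, rev_geom]
    exact this _
  · have := map_prod (Polynomial.coeToPowerSeries.ringHom (R := ℤ))
      (fun i => ∑ j ∈ Finset.range (d i + 1), (Polynomial.X : Polynomial ℤ) ^ j) Finset.univ
    simp only [Polynomial.coeToPowerSeries.ringHom_apply] at this
    rw [this]
    refine Finset.prod_congr rfl fun i _ => ?_
    have h2 := map_sum (Polynomial.coeToPowerSeries.ringHom (R := ℤ))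
      (fun j => (Polynomial.X : Polynomial ℤ) ^ j) (Finset.range (d i + 1))
    simp only [Polynomial.coeToPowerSeries.ringHom_apply] at h2
    rw [h2]
    refine Finset.sum_congr rfl fun j _ => ?_
    rw [Polynomial.coe_pow, Polynomial.coe_X]

/-! ### T3: the Hilbert series of `D^p` -/

variable {K : Type u} [Field K] {ℓ : ℕ}

theorem minor_hom {θ : Matrix (Fin ℓ) (Fin ℓ) (S K ℓ)} {d : Fin ℓ → ℕ}
    (hθ : ∀ i j, (θ i j).IsHomogeneous (d i)) {p : ℕ} (I : Fin p ↪o Fin ℓ) (w : Fin p → Fin ℓ) :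
    (minor θ I w).IsHomogeneous (∑ j, d (I j)) := by
  rw [minor, Matrix.det_apply]
  apply IsHomogeneous.sum
  intro σ _
  have h1 : (∏ i, θ.submatrix I w (σ i) i).IsHomogeneous (∑ j, d (I j)) := by
    have h2 : ∑ j, d (I j) = ∑ j, d (I (σ j)) := (Equiv.sum_comp σ fun j => d (I j)).symm
    rw [h2]
    exact IsHomogeneous.prod _ _ _ fun i _ => hθ _ _
  rcases Int.units_eq_one_or (Equiv.Perm.sign σ) with h | h
  · rw [h, one_smul]
    exact h1
  · rw [h, Units.neg_smul, one_smul]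
    exact h1.neg

/-- the degrees of the minors -/
def dg (d : Fin ℓ → ℕ) {p : ℕ} (I : Fin p ↪o Fin ℓ) : ℤ := ((∑ j, d (I j) : ℕ) : ℤ)

theorem minor_gr {θ : Matrix (Fin ℓ) (Fin ℓ) (S K ℓ)} {d : Fin ℓ → ℕ}
    (hθ : ∀ i j, (θ i j).IsHomogeneous (d i)) {p : ℕ} (w : Fin p → Fin ℓ) (I : Fin p ↪o Fin ℓ) :
    minor θ I w ∈ grS (K := K) (ℓ := ℓ) (dg d I - 0) := by
  rw [sub_zero, dg, grS, if_pos (by positivity), Int.toNat_natCast, mem_homogeneousSubmodule]
  exact minor_hom hθ I w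

theorem finrank_eq (hM : stMinors.{u}) (hS : stGrS.{u}) {B : Finset (Fin ℓ → K)} (hB : Norm B)
    {d : Fin ℓ → ℕ} {θ : Matrix (Fin ℓ) (Fin ℓ) (S K ℓ)} (hθ : IsSaito B d θ) (p : ℕ) (k : ℤ) :
    Module.finrank K (Hm grS (fun _ : (Fin p → Fin ℓ) => 0) k ⊓
        (LogA (S K ℓ) B p).restrictScalars K : Submodule K ((Fin p → Fin ℓ) → S K ℓ)) =
      ∑ I : Fin p ↪o Fin ℓ, Module.finrank K (grS (K := K) (ℓ := ℓ) (k - dg d I)) := by
  obtain ⟨h1, h2, h3⟩ := hM K ℓ B hB d θ hθ p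
  let M : Matrix (Fin p → Fin ℓ) (Fin p ↪o Fin ℓ) (S K ℓ) := Matrix.of fun w I => minor θ I w
  have hMv : ∀ f : (Fin p ↪o Fin ℓ) → S K ℓ, M.mulVec f = ∑ I, f I • minor θ I := by
    intro f
    funext w
    rw [Finset.sum_apply]
    change ∑ I, minor θ I w * f I = _
    exact Finset.sum_congr rfl fun I _ => by rw [Pi.smul_apply, smul_eq_mul, mul_comm]
  have hinj : Function.Injective (M.mulVecLin.restrictScalars K) := by
    rw [← LinearMap.ker_eq_bot, LinearMap.ker_eq_bot']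
    intro f hf
    have hf' : ∑ I, f I • minor θ I = 0 := by rw [← hMv]; exact hf
    funext I
    exact Fintype.linearIndependent_iff.1 h2 f hf' I
  have hg := hS K ℓ
  rw [← Top.finrank_Hm hg (fun I : Fin p ↪o Fin ℓ => dg d I) k]
  have e := Submodule.equivMapOfInjective (M.mulVecLin.restrictScalars K) hinj
    (Hm grS (fun I : Fin p ↪o Fin ℓ => dg d I) k)
  rw [e.finrank_eq]
  have hE : (Hm grS (fun _ : (Fin p → Fin ℓ) => 0) k ⊓
        (LogA (S K ℓ) B p).restrictScalars K : Submodule K ((Fin p → Fin ℓ) → S K ℓ)) =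
      Submodule.map (M.mulVecLin.restrictScalars K) (Hm grS (fun I : Fin p ↪o Fin ℓ => dg d I) k) :=
    ?_
  · rw [hE]
  ext v
  constructor
  · rintro ⟨hv1, hv2⟩
    obtain ⟨f, hf⟩ := h3 v hv2
    rw [← hMv] at hf
    obtain ⟨t, ht, ht'⟩ := Top.exists_homog hg (M := M) (deg := fun I => dg d I)
      (deg' := fun _ => 0) (fun w I => minor_gr hθ.hom w I) hv1 hf
    exact ⟨t, ht, ht'.symm⟩
  · rintro ⟨t, ht, rfl⟩
    refine ⟨Top.mulVec_mem hg (M := M) (deg := fun I => dg d I)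
      (deg' := fun _ => 0) (fun w I => minor_gr hθ.hom w I) ht, ?_⟩
    change M.mulVec t ∈ LogA (S K ℓ) B p
    rw [hMv]
    exact Submodule.sum_mem _ fun I _ => Submodule.smul_mem _ _ (h1 I)

theorem sum_emb {β : Type*} [AddCommMonoid β] (p : ℕ) (F : Finset (Fin ℓ) → β) :
    ∑ I : Fin p ↪o Fin ℓ, F (Finset.univ.map I.toEmbedding) =
      ∑ s ∈ Finset.powersetCard p (Finset.univ : Finset (Fin ℓ)), F s := by
  classical
  refine Finset.sum_bij (fun I _ => Finset.univ.map I.toEmbedding) ?_ ?_ ?_ ?_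
  · intro I _
    rw [Finset.mem_powersetCard]
    exact ⟨Finset.subset_univ _, by simp⟩
  · intro I _ J _ h
    have hc : (Finset.univ.map I.toEmbedding).card = p := by simp
    have e1 := Finset.orderEmbOfFin_unique' hc (f := I) (fun x => by simp)
    have e2 := Finset.orderEmbOfFin_unique' hc (f := J) (fun x => by rw [h]; simp)
    rw [e1, e2]
  · intro s hs
    rw [Finset.mem_powersetCard] at hs
    refine ⟨s.orderEmbOfFin hs.2, Finset.mem_univ _, ?_⟩
    ext x
    rw [Finset.mem_map]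
    constructor
    · rintro ⟨i, _, rfl⟩
      exact Finset.orderEmbOfFin_mem _ hs.2 i
    · intro hx
      have : x ∈ Set.range (s.orderEmbOfFin hs.2) := by
        rw [Finset.range_orderEmbOfFin]
        exact hx
      obtain ⟨i, hi⟩ := this
      exact ⟨i, Finset.mem_univ _, hi⟩
  · intro I _
    rfl

theorem thm3 (hM : stMinors.{u}) (hS : stGrS.{u}) (hH : stHS.{u}) : stHilbP.{u} := by
  intro K _ ℓ B hB d θ hθ p
  have h1 : (PowerSeries.mk fun k : ℕ => ((Module.finrank K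
        (Hm grS (fun _ : (Fin p → Fin ℓ) => 0) (k : ℤ) ⊓
        (LogA (S K ℓ) B p).restrictScalars K : Submodule K ((Fin p → Fin ℓ) → S K ℓ)) : ℕ) : ℤ)) =
      (∑ I : Fin p ↪o Fin ℓ, PowerSeries.X ^ (∑ j, d (I j))) * (PowerSeries.mk fun k : ℕ =>
      ((Module.finrank K (grS (K := K) (ℓ := ℓ) (k : ℤ)) : ℕ) : ℤ)) := by
    ext k
    rw [PowerSeries.coeff_mk, finrank_eq hM hS hB hθ, Finset.sum_mul, map_sum]
    push_cast
    refine Finset.sum_congr rfl fun I _ => ?_
    rw [PowerSeries.coeff_X_pow_mul']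
    by_cases h : ∑ j, d (I j) ≤ k
    · rw [if_pos h, PowerSeries.coeff_mk, Nat.cast_sub h, dg]
    · rw [if_neg h, grS, if_neg (by rw [dg]; omega)]
      simp
  rw [h1, mul_assoc, hH, mul_one, ← sum_emb]
  refine Finset.sum_congr rfl fun I _ => ?_
  rw [Finset.sum_map]
  rfl

theorem thm4 (h1 : stSaito.{u}) (h3 : stHilbP.{u}) : stFwd.{u} := by
  intro K _ ℓ B hB hfree
  obtain ⟨d, θ, hθ⟩ := h1 K ℓ B hB hfree
  refine ⟨d, ?_⟩
  have hne : (1 - PowerSeries.X : PowerSeries ℤ) ^ ℓ ≠ 0 := by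
    apply pow_ne_zero
    intro h
    have := congrArg (PowerSeries.coeff 0) h
    simp at this
  apply mul_right_cancel₀ hne
  rw [Finset.sum_mul]
  have e1 : ∀ p ∈ Finset.range (ℓ + 1), (PowerSeries.mk fun k : ℕ => ((Module.finrank K
        (Hm grS (fun _ : (Fin p → Fin ℓ) => 0) (k : ℤ) ⊓
        (LogA (S K ℓ) B p).restrictScalars K : Submodule K ((Fin p → Fin ℓ) → S K ℓ)) : ℕ) : ℤ)) *
        (-PowerSeries.X) ^ p * (1 - PowerSeries.X) ^ ℓ =
      ∑ I ∈ Finset.powersetCard p (Finset.univ : Finset (Fin ℓ)),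
        ∏ i ∈ I, (-(PowerSeries.X : PowerSeries ℤ) ^ (d i + 1)) := by
    intro p _
    rw [mul_right_comm, h3 K ℓ B hB d θ hθ p, Finset.sum_mul]
    refine Finset.sum_congr rfl fun I hI => ?_
    rw [Finset.mem_powersetCard] at hI
    rw [← hI.2, ← Finset.prod_pow_eq_pow_sum, ← Finset.prod_const, ← Finset.prod_mul_distrib]
    exact Finset.prod_congr rfl fun i _ => by ring
  rw [Finset.sum_congr rfl e1]
  have e3 : ∑ p ∈ Finset.range (ℓ + 1),
      ∑ I ∈ Finset.powersetCard p (Finset.univ : Finset (Fin ℓ)),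
        ∏ i ∈ I, (-(PowerSeries.X : PowerSeries ℤ) ^ (d i + 1)) =
      ∏ i, (1 + (-(PowerSeries.X : PowerSeries ℤ) ^ (d i + 1))) := by
    rw [Finset.prod_one_add, Finset.sum_powerset]
    simp
  rw [e3]
  have e4 : (1 - PowerSeries.X : PowerSeries ℤ) ^ ℓ = ∏ _i : Fin ℓ, (1 - PowerSeries.X) := by
    simp
  rw [e4, ← Finset.prod_mul_distrib]
  refine Finset.prod_congr rfl fun i _ => ?_
  rw [geom_sum_mul_neg]
  ring

end Pool.Agent.Lib.MP_fe1391_co.Tame.Fwd
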