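import Pool.Agent.Lib.MP_fe1391_co.Tame.Stmts

/-!
# Tame arrangements: the Gamma lemma for the ideal `I`, statements G1 and G3
-/

set_option autoImplicit false

namespace Pool.Agent.Lib.MP_fe1391_co.Tame

open MvPolynomial TensorProduct RingTheory.Sequence

universe u

namespace G13

variable {K : Type u} [Field K] {ℓ : ℕ}

lemma lin_ne {b : Fin ℓ → K} (hb : b ≠ 0) : lin b ≠ 0 := by
  intro h
  apply hb
  funext i
  have h1 : eval (Pi.single i (1 : K)) (lin b) = b i := by
    simp only [lin, map_sum, map_mul, eval_C, eval_X]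
    rw [Finset.sum_eq_single i]
    · simp
    · intro j _ hj
      simp [Pi.single_eq_of_ne hj]
    · simp
  rw [h, map_zero] at h1
  exact h1.symm

lemma Qof_ne {B : Finset (Fin ℓ → K)} (hB : Norm B) : Qof B ≠ 0 :=
  Finset.prod_ne_zero_iff.mpr fun b hb => lin_ne (hB.ne b hb)

/-- the elements `Lam B i` are in the ideal `IR B` -/
lemma Lam_mem (B : Finset (Fin ℓ → K)) (i : Fin ℓ) : Lam B i ∈ IR B := by
  classical
  refine ⟨Pi.single i (C (Qof B)), fun b hb => ?_, ?_⟩
  · rw [Finset.sum_eq_single i]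
    · rw [Pi.single_eq_same]
      exact Dvd.dvd.mul_left (map_dvd C (Finset.dvd_prod_of_mem lin hb)) _
    · intro j _ hj
      rw [Pi.single_eq_of_ne hj, mul_zero]
    · simp
  · rw [Finset.sum_eq_single i]
    · rw [Pi.single_eq_same, mul_comm]
    · intro j _ hj
      rw [Pi.single_eq_of_ne hj, mul_zero]
    · simp

/-- the submonoid of the powers of `Q` -/
noncomputable abbrev Mo (B : Finset (Fin ℓ → K)) : Submonoid (R B) :=
  (Submonoid.powers (Qof B)).map (C : S K ℓ →+* R B)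

lemma mem_Mo {B : Finset (Fin ℓ → K)} {m : R B} (hm : m ∈ Mo B) :
    ∃ e : ℕ, m = (C (Qof B) : R B) ^ e := by
  obtain ⟨_, ⟨e, rfl⟩, rfl⟩ := hm
  exact ⟨e, by simp⟩

lemma Mo_le {B : Finset (Fin ℓ → K)} (hB : Norm B) : Mo B ≤ nonZeroDivisors (R B) := by
  intro m hm
  obtain ⟨e, rfl⟩ := mem_Mo hm
  refine mem_nonZeroDivisors_of_ne_zero (pow_ne_zero _ ?_)
  rw [Ne, C_eq_zero]
  exact Qof_ne hB

section

variable (B : Finset (Fin ℓ → K)) (P : Type u) [CommRing P] [Algebra (S K ℓ) P]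
  [IsLocalization.Away (Qof B) P]

/-- the localised ring -/
abbrev RP : Type u := MvPolynomial (Tau B) P

/-- the algebra structure -/
noncomputable local instance algRP : Algebra (R B) (RP B P) := MvPolynomial.algebraMvPolynomial

noncomputable local instance modRP : Module (R B) (RP B P) := Algebra.toModule

open Classical in
/-- the values of the variables `z_i` -/
noncomputable def g (i : Fin ℓ) : MvPolynomial (↥B) P :=
  -∑ b : B, X b * C (algebraMap (S K ℓ) P (Qof (B.erase b.1) * C (b.1 i)) *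
    IsLocalization.Away.invSelf (Qof B))

/-- the forms `v_i` -/
noncomputable def vl (i : Fin ℓ) : RP B P :=
  X (Sum.inr i) - rename Sum.inl (g B P i)

lemma isLoc : IsLocalization (Mo B) (RP B P) :=
  MvPolynomial.isLocalization (Submonoid.powers (Qof B)) P

lemma C_mul_inv : (C (algebraMap (S K ℓ) P (Qof B)) : RP B P) *
    C (IsLocalization.Away.invSelf (Qof B)) = 1 := by
  rw [← C_mul, IsLocalization.Away.mul_invSelf, C_1]

lemma algebraMap_Lam (i : Fin ℓ) :
    algebraMap (R B) (RP B P) (Lam B i) = C (algebraMap (S K ℓ) P (Qof B)) * vl B P i := by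
  classical
  have e : algebraMap (R B) (RP B P) = MvPolynomial.map (algebraMap (S K ℓ) P) := rfl
  rw [e, Lam, vl, g, map_add, map_sum, map_neg, sub_neg_eq_add, mul_add, map_mul, map_C, map_X,
    map_sum, Finset.mul_sum, add_comm]
  congr 1
  refine Finset.sum_congr rfl fun b _ => ?_
  rw [map_mul, map_X, map_C, map_mul (rename Sum.inl), rename_X, rename_C, C_mul]
  calc _ = X (Sum.inl b) * C (algebraMap (S K ℓ) P (Qof (B.erase b.1) * C (b.1 i))) *
        ((C (algebraMap (S K ℓ) P (Qof B)) : RP B P) *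
          C (IsLocalization.Away.invSelf (Qof B))) := by
        rw [C_mul_inv, mul_one]
    _ = _ := by ring

lemma vl_eq (i : Fin ℓ) : vl B P i =
    C (IsLocalization.Away.invSelf (Qof B)) * algebraMap (R B) (RP B P) (Lam B i) := by
  rw [algebraMap_Lam, ← mul_assoc, mul_comm (C (IsLocalization.Away.invSelf (Qof B))),
    C_mul_inv, one_mul]

variable {B P}

omit [IsLocalization.Away (Qof B) P] in
lemma smul_tmul_zero {N : Type u} [AddCommGroup N] [Module (R B) N]
    {z : N} {f : R B} (h : f • z = 0) :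
    algebraMap (R B) (RP B P) f • ((1 : RP B P) ⊗ₜ[R B] z) = 0 := by
  rw [algebraMap_smul, ← TensorProduct.tmul_smul, h, TensorProduct.tmul_zero]

lemma vl_smul {N : Type u} [AddCommGroup N] [Module (R B) N]
    {z : N} (hz : ∀ f ∈ IR B, f • z = 0) (i : Fin ℓ) :
    vl B P i • ((1 : RP B P) ⊗ₜ[R B] z) = 0 := by
  rw [vl_eq, mul_smul, smul_tmul_zero (hz _ (Lam_mem B i)), smul_zero]

/-- the general form: if `(v_1, …, v_ℓ)` followed by `ys` is weakly regular -/
lemma main (h1 : stGamma.{u}) (h3 : stG2.{u}) (hB : Norm B) {k : ℕ}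
    (hk : k ≤ ℓ) (N : Type u) [AddCommGroup N] [Module (R B) N] (hN : FR (R B) k N)
    (ys : List (RP B P)) (hys : IsWeaklyRegular (RP B P) (List.ofFn (vl B P) ++ ys))
    (hlen : k < (List.ofFn (vl B P) ++ ys).length) (z : N) (hz : ∀ f ∈ IR B, f • z = 0)
    (hy : ∀ y ∈ ys, y • ((1 : RP B P) ⊗ₜ[R B] z) = 0) : z = 0 := by
  have : IsLocalization (Mo B) (RP B P) := isLoc B P
  obtain ⟨m, hm, hmz⟩ := h1 (R B) (RP B P) (Mo B) (List.ofFn (vl B P) ++ ys) k N hys hN hlen z (by
    intro x hx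
    refine ⟨1, ?_⟩
    rw [pow_one]
    rcases List.mem_append.mp hx with hx | hx
    · obtain ⟨i, rfl⟩ := List.mem_ofFn.mp hx
      exact vl_smul hz i
    · exact hy x hx)
  obtain ⟨e, rfl⟩ := mem_Mo hm
  exact h3 K ℓ B hB k hk N hN z hz ⟨e, hmz⟩

/-- the kernel of the evaluation is generated by the forms `v_i` -/
lemma mem_span_of_aeval {F : RP B P}
    (hF : aeval (Sum.elim X (g B P)) F = 0) : F ∈ Ideal.span (Set.range (vl B P)) := by
  have h1 : ((Ideal.Quotient.mkₐ P (Ideal.span (Set.range (vl B P)))).comp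
      (rename (R := P) (Sum.inl : ↥B → Tau B))).comp (aeval (Sum.elim X (g B P))) =
      Ideal.Quotient.mkₐ P (Ideal.span (Set.range (vl B P))) := by
    refine MvPolynomial.algHom_ext fun t => ?_
    rcases t with b | i
    · simp
    · simp only [AlgHom.comp_apply, aeval_X, Sum.elim_inr, Ideal.Quotient.mkₐ_eq_mk]
      rw [eq_comm, Ideal.Quotient.eq]
      exact Ideal.subset_span ⟨i, rfl⟩
  have h2 := DFunLike.congr_fun h1 F
  rw [AlgHom.comp_apply, hF, map_zero, eq_comm, Ideal.Quotient.mkₐ_eq_mk,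
    Ideal.Quotient.eq_zero_iff_mem] at h2
  exact h2

/-- an element whose evaluation vanishes is killed by a power of `Q` modulo `IR B` -/
lemma pow_mul_mem (hB : Norm B) {f : R B}
    (hF : aeval (Sum.elim X (g B P)) (algebraMap (R B) (RP B P) f) = 0) :
    ∃ e : ℕ, (C (Qof B) : R B) ^ e * f ∈ IR B := by
  have : IsLocalization (Mo B) (RP B P) := isLoc B P
  obtain ⟨c, hc⟩ := (Ideal.mem_span_range_iff_exists_fun).mp (mem_span_of_aeval hF)
  obtain ⟨b, hb⟩ := IsLocalization.exist_integer_multiples_of_finite (Mo B) c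
  choose c' hc' using hb
  obtain ⟨e, he⟩ := mem_Mo b.2
  refine ⟨e + 1, ?_⟩
  have hinj : Function.Injective (algebraMap (R B) (RP B P)) :=
    IsLocalization.injective (RP B P) (Mo_le hB)
  have h1 : (C (Qof B) : R B) ^ (e + 1) * f = ∑ i, c' i * Lam B i := by
    apply hinj
    rw [map_mul, map_sum, ← hc, pow_succ, ← he, map_mul, Finset.mul_sum]
    refine Finset.sum_congr rfl fun i _ => ?_
    have hq : algebraMap (R B) (RP B P) (C (Qof B)) = C (algebraMap (S K ℓ) P (Qof B)) :=
      map_C _ _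
    rw [map_mul, algebraMap_Lam, hc' i, hq, Algebra.smul_def]
    ring
  rw [h1]
  exact (IR B).sum_mem fun i _ => (IR B).mul_mem_left _ (Lam_mem B i)

end

lemma isDomain_P {B : Finset (Fin ℓ → K)} (hB : Norm B) :
    IsDomain (Localization.Away (Qof B)) :=
  IsLocalization.isDomain_localization (powers_le_nonZeroDivisors_of_noZeroDivisors (Qof_ne hB))

/-- G1 for one localisation -/
lemma aux1 (h1 : stGamma.{u}) (h2 : stDomReg.{u, u}) (h3 : stG2.{u}) {B : Finset (Fin ℓ → K)}
    (P : Type u) [CommRing P] [Algebra (S K ℓ) P] [IsLocalization.Away (Qof B) P] [IsDomain P]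
    (hB : Norm B) {k : ℕ} (hk : k < ℓ) (N : Type u) [AddCommGroup N] [Module (R B) N]
    (hN : FR (R B) k N) (z : N) (hz : ∀ f ∈ IR B, f • z = 0) : z = 0 := by
  have h := h2 P (↥B) ℓ (g B P) 1 (by rw [map_one]; exact one_ne_zero)
  have h' : IsWeaklyRegular (RP B P) (List.ofFn (vl B P)) :=
    ((isWeaklyRegular_append_iff _ _ _).mp h).1
  exact main h1 h3 hB hk.le N hN [] (by rwa [List.append_nil]) (by simpa using hk) z hz
    fun y hy => absurd hy List.not_mem_nil

/-- G3 for one localisation -/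
lemma aux3 (h1 : stGamma.{u}) (h2 : stDomReg.{u, u}) (h3 : stG2.{u}) {B : Finset (Fin ℓ → K)}
    (P : Type u) [CommRing P] [Algebra (S K ℓ) P] [IsLocalization.Away (Qof B) P] [IsDomain P]
    (hB : Norm B) (hFR : FR (R B) ℓ (R B ⧸ IR B)) {k : ℕ} (hk : k ≤ ℓ) (N : Type u)
    [AddCommGroup N] [Module (R B) N] (hN : FR (R B) k N) (z : N) (hz : ∀ f ∈ IR B, f • z = 0)
    (f : R B) (hf : f ∉ IR B) (hfz : f • z = 0) : z = 0 := by
  let _ : Algebra (R B) (RP B P) := MvPolynomial.algebraMvPolynomial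
  have hF : aeval (Sum.elim X (g B P)) (algebraMap (R B) (RP B P) f) ≠ 0 := by
    intro h0
    obtain ⟨e, he⟩ := pow_mul_mem hB h0
    apply hf
    have h4 : (Ideal.Quotient.mk (IR B) f : R B ⧸ IR B) = 0 := by
      refine h3 K ℓ B hB ℓ le_rfl (R B ⧸ IR B) hFR _ (fun a ha => ?_) ⟨e, ?_⟩
      · exact Ideal.Quotient.eq_zero_iff_mem.mpr ((IR B).mul_mem_right f ha)
      · exact Ideal.Quotient.eq_zero_iff_mem.mpr he
    exact Ideal.Quotient.eq_zero_iff_mem.mp h4
  have h := h2 P (↥B) ℓ (g B P) (algebraMap (R B) (RP B P) f) hF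
  refine main h1 h3 hB hk N hN [algebraMap (R B) (RP B P) f] h (by simp; omega) z hz ?_
  intro y hy
  rw [List.mem_singleton] at hy
  rw [hy]
  exact smul_tmul_zero hfz

/-- B2 -/
theorem thm1 (h1 : stGamma.{u}) (h2 : stDomReg.{u, u}) (h3 : stG2.{u}) : stG1.{u} := by
  intro K _ ℓ B hB k hk N _ _ hN z hz
  have : IsDomain (Localization.Away (Qof B)) := isDomain_P hB
  exact aux1 h1 h2 h3 (Localization.Away (Qof B)) hB hk N hN z hz

/-- B3 -/
theorem thm3 (h1 : stGamma.{u}) (h2 : stDomReg.{u, u}) (h3 : stG2.{u}) : stG3.{u} := by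
  intro K _ ℓ B hB hFR k hk N _ _ hN z hz f hf hfz
  have : IsDomain (Localization.Away (Qof B)) := isDomain_P hB
  exact aux3 h1 h2 h3 (Localization.Away (Qof B)) hB hFR hk N hN z hz f hf hfz

end G13

end Pool.Agent.Lib.MP_fe1391_co.Tame
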