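import Pool.Agent.Lib.MP_fe1391_co.Tame.Stmts

/-!
# B1: elements killed by the ideal `I` and by a power of `Q`
-/

set_option autoImplicit false

namespace Pool.Agent.Lib.MP_fe1391_co.Tame.G2

open MvPolynomial RingTheory.Sequence TensorProduct

universe u v

variable {K : Type u} [Field K] {ℓ : ℕ}

/-! ### Linear algebra -/

/-- reduced echelon form of a subspace of `K ^ ℓ` -/
theorem exists_echelon (W : Submodule K (Fin ℓ → K)) :
    ∃ (J : Finset (Fin ℓ)) (y : Fin ℓ → (Fin ℓ → K)), (∀ j ∈ J, y j ∈ W) ∧ (∀ j ∈ J, y j j = 1) ∧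
      (∀ j ∈ J, ∀ j' ∈ J, j' ≠ j → y j j' = 0) ∧ ∀ w ∈ W, w = ∑ j ∈ J, w j • y j := by
  classical
  let P : Finset (Fin ℓ) → Prop := fun I => ∀ w ∈ W, (∀ j, j ∉ I → w j = 0) → w = 0
  have hP0 : P ∅ := fun w _ h => funext fun j => h j (Finset.notMem_empty j)
  obtain ⟨I, hI, hmax⟩ := (Finset.univ.filter P).exists_max_image Finset.card
    ⟨∅, Finset.mem_filter.2 ⟨Finset.mem_univ _, hP0⟩⟩
  have hPI : P I := (Finset.mem_filter.1 hI).2
  have key : ∀ j, j ∉ I → ∃ v ∈ W, v j = 1 ∧ ∀ j', j' ∉ I → j' ≠ j → v j' = 0 := by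
    intro j hj
    have hn : ¬ P (insert j I) := by
      intro h
      have h1 := hmax (insert j I) (Finset.mem_filter.2 ⟨Finset.mem_univ _, h⟩)
      rw [Finset.card_insert_of_notMem hj] at h1
      omega
    simp only [P] at hn
    push Not at hn
    obtain ⟨w, hw, hw0, hne⟩ := hn
    have hwj : w j ≠ 0 := by
      intro h0
      apply hne
      apply hPI w hw
      intro j' hj'
      by_cases hjj : j' = j
      · rw [hjj, h0]
      · exact hw0 j' (by rw [Finset.mem_insert, not_or]; exact ⟨hjj, hj'⟩)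
    refine ⟨(w j)⁻¹ • w, W.smul_mem _ hw, ?_, fun j' hj' hjj => ?_⟩
    · rw [Pi.smul_apply, smul_eq_mul, inv_mul_cancel₀ hwj]
    · rw [Pi.smul_apply, hw0 j' (by rw [Finset.mem_insert, not_or]; exact ⟨hjj, hj'⟩), smul_zero]
  choose! y hy1 hy2 hy3 using key
  refine ⟨Iᶜ, y, ?_, ?_, ?_, ?_⟩
  · intro j hj
    exact hy1 j (Finset.mem_compl.1 hj)
  · intro j hj
    exact hy2 j (Finset.mem_compl.1 hj)
  · intro j hj j' hj' hjj
    exact hy3 j (Finset.mem_compl.1 hj) j' (Finset.mem_compl.1 hj') hjj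
  · intro w hw
    have h1 : w - ∑ j ∈ Iᶜ, w j • y j ∈ W := by
      refine W.sub_mem hw (W.sum_mem fun j hj => W.smul_mem _ (hy1 j (Finset.mem_compl.1 hj)))
    have h2 : w - ∑ j ∈ Iᶜ, w j • y j = 0 := by
      refine hPI _ h1 fun j hj => ?_
      rw [Pi.sub_apply, Finset.sum_apply]
      have h3 : ∑ c ∈ Iᶜ, (w c • y c) j = w j := by
        rw [Finset.sum_eq_single j]
        · rw [Pi.smul_apply, hy2 j hj, smul_eq_mul, mul_one]
        · intro c hc hcj
          rw [Pi.smul_apply, hy3 c (Finset.mem_compl.1 hc) j hj (Ne.symm hcj), smul_zero]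
        · intro h
          exact absurd (Finset.mem_compl.2 hj) h
      rw [h3, sub_self]
    exact sub_eq_zero.1 h2

theorem lin_add (v w : Fin ℓ → K) : lin (v + w) = lin v + lin w := by
  unfold lin
  rw [← Finset.sum_add_distrib]
  exact Finset.sum_congr rfl fun i _ => by rw [Pi.add_apply, C_add, add_mul]

theorem lin_smul (c : K) (w : Fin ℓ → K) : lin (c • w) = C c * lin w := by
  unfold lin
  rw [Finset.mul_sum]
  exact Finset.sum_congr rfl fun i _ => by rw [Pi.smul_apply, smul_eq_mul, C_mul, mul_assoc]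

theorem lin_zero : lin (0 : Fin ℓ → K) = 0 := by
  unfold lin
  exact Finset.sum_eq_zero fun i _ => by rw [Pi.zero_apply, C_0, zero_mul]

theorem lin_sum {ι : Type*} (s : Finset ι) (f : ι → (Fin ℓ → K)) :
    lin (∑ j ∈ s, f j) = ∑ j ∈ s, lin (f j) := by
  classical
  induction s using Finset.induction_on with
  | empty => rw [Finset.sum_empty, Finset.sum_empty, lin_zero]
  | insert a s ha ih => rw [Finset.sum_insert ha, Finset.sum_insert ha, lin_add, ih]

/-! ### Pivot forms -/

/-- a pivot form minus its pivot does not contain the pivot variables -/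
theorem pivot_vars {P : Type u} [CommRing P] {τ : Type v} [Fintype τ] (T : List τ) (t : τ)
    (γ : τ → P) (h1 : γ t = 1) (h0 : ∀ s ∈ T, s ≠ t → γ s = 0) :
    ∀ s ∈ T, s ∉ (X t - ∑ r, C (γ r) * X r : MvPolynomial τ P).vars := by
  classical
  have h2 : (X t - ∑ r, C (γ r) * X r : MvPolynomial τ P) ∈ supported P {s | s ∉ T} := by
    have h3 : (X t - ∑ r, C (γ r) * X r : MvPolynomial τ P) =
        -∑ r ∈ Finset.univ.erase t, C (γ r) * X r := by
      rw [← Finset.add_sum_erase _ _ (Finset.mem_univ t), h1, C_1, one_mul]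
      ring
    rw [h3]
    refine neg_mem (sum_mem fun r hr => ?_)
    by_cases hrT : r ∈ T
    · rw [h0 r hrT (Finset.ne_of_mem_erase hr), C_0, zero_mul]
      exact zero_mem _
    · exact mul_mem (Subalgebra.algebraMap_mem _ (γ r)) (Algebra.subset_adjoin ⟨r, hrT, rfl⟩)
  rw [mem_supported] at h2
  intro s hs hv
  exact h2 hv hs

/-! ### Elements of the ideal -/

theorem Qof_erase [DecidableEq (Fin ℓ → K)] (B : Finset (Fin ℓ → K)) {b : Fin ℓ → K}
    (hb : b ∈ B) : lin b * Qof (B.erase b) = Qof B := by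
  unfold Qof
  rw [Finset.mul_prod_erase _ _ hb]

theorem mem_IR (B : Finset (Fin ℓ → K)) (c : Tau B → S K ℓ)
    (h : ∀ b : B, ∑ i, C (b.1 i) * c (Sum.inr i) = lin b.1 * c (Sum.inl b)) :
    (∑ t : Tau B, C (c t) * X t : R B) ∈ IR B := by
  classical
  refine ⟨fun i => C (c (Sum.inr i)), fun b hb => ?_, ?_⟩
  · have h1 := h ⟨b, hb⟩
    refine ⟨C (c (Sum.inl ⟨b, hb⟩)), ?_⟩
    rw [← C_mul, ← h1, map_sum]
    exact Finset.sum_congr rfl fun i _ => by rw [← C_mul]
  · unfold Lam
    simp only [add_mul, Finset.sum_add_distrib, Finset.sum_mul]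
    rw [Finset.sum_comm, Fintype.sum_sum_type, mul_add, Finset.mul_sum, Finset.mul_sum]
    congr 1
    · refine Finset.sum_congr rfl fun b _ => ?_
      have h1 : ∑ i, (X (Sum.inl b) * C (Qof (B.erase b.1) * C (b.1 i)) * C (c (Sum.inr i)) : R B) =
          X (Sum.inl b) * C (Qof (B.erase b.1) * ∑ i, C (b.1 i) * c (Sum.inr i)) := by
        rw [Finset.mul_sum, map_sum, Finset.mul_sum]
        refine Finset.sum_congr rfl fun i _ => ?_
        rw [mul_assoc, ← C_mul, mul_assoc]
      rw [h1, h b, ← mul_assoc (Qof _) (lin b.1), mul_comm (Qof _) (lin b.1), Qof_erase B b.2,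
        C_mul]
      ring
    · refine Finset.sum_congr rfl fun i _ => ?_
      ring

section main

variable (B B' : Finset (Fin ℓ → K)) (J : Finset (Fin ℓ)) (y : Fin ℓ → (Fin ℓ → K))

open Classical in
/-- coefficients of the pivot form at `z_i` -/
noncomputable def cz (i : Fin ℓ) : Tau B → S K ℓ
  | Sum.inl b => if b.1 ∈ B' then
      Qof (B'.erase b.1) * C (∑ k, b.1 k * ((if k = i then 1 else 0) - if k ∈ J then y k i else 0))
      else 0
  | Sum.inr k => Qof B' * C ((if k = i then 1 else 0) - if k ∈ J then y k i else 0)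

open Classical in
/-- coefficients of the form `e` -/
noncomputable def ce : Tau B → S K ℓ
  | Sum.inl b => if b.1 ∈ B' then
      Qof (B'.erase b.1) * ∑ j ∈ J, C (b.1 j) * lin (y j)
      else Qof B'
  | Sum.inr k => if k ∈ J then Qof B' * lin (y k) else 0

variable {B B' J y}

theorem cz_mem (hW : ∀ b ∈ B, b ∉ B' → b = ∑ j ∈ J, b j • y j) (i : Fin ℓ) :
    (∑ t : Tau B, C (cz B B' J y i t) * X t : R B) ∈ IR B := by
  classical
  apply mem_IR
  intro b
  have h1 : ∑ k, C (b.1 k) * cz B B' J y i (Sum.inr k) = Qof B' *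
      C (∑ k, b.1 k * ((if k = i then 1 else 0) - if k ∈ J then y k i else 0)) := by
    rw [map_sum, Finset.mul_sum]
    refine Finset.sum_congr rfl fun k _ => ?_
    rw [C_mul]
    simp only [cz]
    ring
  rw [h1]
  by_cases hb : b.1 ∈ B'
  · have h2 : cz B B' J y i (Sum.inl b) = Qof (B'.erase b.1) *
        C (∑ k, b.1 k * ((if k = i then 1 else 0) - if k ∈ J then y k i else 0)) := by
      simp only [cz, if_pos hb]
    rw [h2, ← mul_assoc, Qof_erase B' hb]
  · have h2 : cz B B' J y i (Sum.inl b) = 0 := by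
      simp only [cz, if_neg hb]
    rw [h2, mul_zero]
    have h3 : ∑ k, b.1 k * ((if k = i then 1 else 0) - if k ∈ J then y k i else 0) = 0 := by
      have h4 := congrFun (hW b.1 b.2 hb) i
      rw [Finset.sum_apply] at h4
      simp only [mul_sub, Finset.sum_sub_distrib, mul_ite, mul_one, mul_zero, Finset.sum_ite_eq',
        Finset.mem_univ, if_true, Finset.sum_ite_mem, Finset.univ_inter]
      rw [sub_eq_zero]
      rw [h4]
      refine Finset.sum_congr rfl fun j _ => ?_
      rw [Pi.smul_apply, smul_eq_mul]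
    rw [h3, C_0, mul_zero]

theorem ce_mem (hW : ∀ b ∈ B, b ∉ B' → b = ∑ j ∈ J, b j • y j) :
    (∑ t : Tau B, C (ce B B' J y t) * X t : R B) ∈ IR B := by
  classical
  apply mem_IR
  intro b
  have h1 : ∑ k, C (b.1 k) * ce B B' J y (Sum.inr k) = Qof B' *
      ∑ j ∈ J, C (b.1 j) * lin (y j) := by
    rw [Finset.mul_sum]
    simp only [ce, mul_ite, mul_zero, Finset.sum_ite_mem, Finset.univ_inter]
    refine Finset.sum_congr rfl fun k _ => ?_
    ring
  rw [h1]
  by_cases hb : b.1 ∈ B'
  · have h2 : ce B B' J y (Sum.inl b) = Qof (B'.erase b.1) *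
        ∑ j ∈ J, C (b.1 j) * lin (y j) := by
      simp only [ce, if_pos hb]
    rw [h2, ← mul_assoc, Qof_erase B' hb]
  · have h2 : ce B B' J y (Sum.inl b) = Qof B' := by
      simp only [ce, if_neg hb]
    rw [h2]
    have h3 : ∑ j ∈ J, C (b.1 j) * lin (y j) = lin b.1 := by
      conv_rhs => rw [hW b.1 b.2 hb]
      rw [lin_sum]
      exact Finset.sum_congr rfl fun j _ => by rw [lin_smul]
    rw [h3, mul_comm]

end main

attribute [local instance] MvPolynomial.algebraMvPolynomial

theorem thm.{a} (h1 : stGamma.{a}) (h2 : stPivot.{a, 0}) (h2' : stPivot.{a, a}) : stG2.{a} := by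
  classical
  intro K _ ℓ B hB k hk N _ _ hFR z hI hQ
  by_contra hz
  -- a maximal set of normals whose product is not nilpotent on `z`
  let P : Finset (Fin ℓ → K) → Prop := fun B' => ∀ e : ℕ, (C (Qof B') : R B) ^ e • z ≠ 0
  have hP0 : P ∅ := by
    intro e
    have : Qof (∅ : Finset (Fin ℓ → K)) = 1 := Finset.prod_empty
    rw [this, C_1, one_pow, one_smul]
    exact hz
  obtain ⟨B', hB', hmax⟩ := (B.powerset.filter P).exists_max_image Finset.card
    ⟨∅, Finset.mem_filter.2 ⟨Finset.mem_powerset.2 (Finset.empty_subset _), hP0⟩⟩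
  rw [Finset.mem_filter, Finset.mem_powerset] at hB'
  obtain ⟨hsub, hPB'⟩ := hB'
  have hbad : ∀ b ∈ B, b ∉ B' → ∃ e : ℕ, (C (lin b * Qof B') : R B) ^ e • z = 0 := by
    intro b hb hbB'
    by_contra hcon
    push Not at hcon
    have h3 := hmax (insert b B') (Finset.mem_filter.2 ⟨Finset.mem_powerset.2
      (Finset.insert_subset hb hsub), fun e => by
        have : Qof (insert b B') = lin b * Qof B' := Finset.prod_insert hbB'
        rw [this]
        exact hcon e⟩)
    rw [Finset.card_insert_of_notMem hbB'] at h3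
    omega
  obtain ⟨b0, hb0, hb0'⟩ : ∃ b ∈ B, b ∉ B' := by
    by_contra hcon
    push Not at hcon
    obtain ⟨e, he⟩ := hQ
    have hBB : B' = B := Finset.Subset.antisymm hsub hcon
    have hQQ : Qof B' = Qof B := by rw [hBB]
    apply hPB' e
    rw [hQQ]
    exact he
  -- the linear algebra
  obtain ⟨J, y, hyW, hy1, hy0, hW⟩ := exists_echelon
    (Submodule.span K ((B \ B' : Finset (Fin ℓ → K)) : Set (Fin ℓ → K)))
  have hW' : ∀ b ∈ B, b ∉ B' → b = ∑ j ∈ J, b j • y j := fun b hb hb' =>
    hW b (Submodule.subset_span (Finset.mem_coe.2 (Finset.mem_sdiff.2 ⟨hb, hb'⟩)))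
  -- the localisation
  let q : S K ℓ := Qof B'
  let P' : Type a := Localization.Away q
  have hloc : IsLocalization ((Submonoid.powers q).map (C : S K ℓ →+* R B))
      (MvPolynomial (Tau B) P') := MvPolynomial.isLocalization _ _
  obtain ⟨iq, hiq⟩ : ∃ iq : P', iq * algebraMap (S K ℓ) P' q = 1 := by
    obtain ⟨w, hw⟩ := (IsLocalization.Away.algebraMap_isUnit (S := P') q).exists_left_inv
    exact ⟨w, hw⟩
  -- the annihilator
  let z' : MvPolynomial (Tau B) P' ⊗[R B] N := 1 ⊗ₜ[R B] z
  let an : Ideal (MvPolynomial (Tau B) P') :=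
    LinearMap.ker (LinearMap.toSpanSingleton (MvPolynomial (Tau B) P')
      (MvPolynomial (Tau B) P' ⊗[R B] N) z')
  have man : ∀ x, x ∈ an ↔ x • z' = 0 := fun x => by
    rw [LinearMap.mem_ker, LinearMap.toSpanSingleton_apply]
  have hmap : ∀ f : R B, algebraMap (R B) (MvPolynomial (Tau B) P') f • z' =
      1 ⊗ₜ[R B] (f • z) := by
    intro f
    rw [algebraMap_smul, TensorProduct.tmul_smul]
  have hrad : ∀ x ∈ an.radical, ∃ e : ℕ, x ^ e • z' = 0 := by
    intro x hx
    obtain ⟨e, he⟩ := hx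
    exact ⟨e, (man _).1 he⟩
  have hC : ∀ s : S K ℓ, algebraMap (R B) (MvPolynomial (Tau B) P') (C s) =
      C (algebraMap (S K ℓ) P' s) := fun s => by
    rw [MvPolynomial.algebraMap_def, MvPolynomial.map_C]
  have hunit : ∀ x : MvPolynomial (Tau B) P', x * C (algebraMap (S K ℓ) P' q) ∈ an.radical →
      x ∈ an.radical := by
    intro x hx
    have h3 := Ideal.mul_mem_right (C iq) _ hx
    rwa [mul_assoc, ← C_mul, mul_comm (algebraMap _ _ q) iq, hiq, C_1, mul_one] at h3
  have hWrad : ∀ w ∈ Submodule.span K ((B \ B' : Finset (Fin ℓ → K)) : Set (Fin ℓ → K)),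
      (C (algebraMap (S K ℓ) P' (lin w)) : MvPolynomial (Tau B) P') ∈ an.radical := by
    intro w hw
    induction hw using Submodule.span_induction with
    | mem b hb =>
      rw [Finset.mem_coe, Finset.mem_sdiff] at hb
      obtain ⟨e, he⟩ := hbad b hb.1 hb.2
      apply hunit
      refine ⟨e, ?_⟩
      rw [man, ← C_mul, ← map_mul, ← hC, ← map_pow, hmap, he, TensorProduct.tmul_zero]
    | zero =>
      rw [lin_zero, map_zero, C_0]
      exact zero_mem _
    | add v w _ _ hv hw =>
      rw [lin_add, map_add, C_add]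
      exact add_mem hv hw
    | smul c w _ hw =>
      rw [lin_smul, map_mul, C_mul]
      exact Ideal.mul_mem_left _ _ hw
  -- first part of the regular sequence
  have hreg0 : IsWeaklyRegular (S K ℓ) (J.toList.map fun j => lin (y j)) := by
    have h3 := h2 K (Fin ℓ) [] J.toList (fun j => X j - lin (y j)) (IsWeaklyRegular.nil K K)
      J.nodup_toList (by
        intro t ht s hs
        have ht' : t ∈ J := Finset.mem_toList.1 ht
        exact pivot_vars J.toList t (y t) (hy1 t ht') (fun s hs hst =>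
          hy0 t ht' s (Finset.mem_toList.1 hs) hst) s hs)
    simp only [sub_sub_cancel, List.map_nil, List.nil_append] at h3
    exact h3
  have hreg1 : IsWeaklyRegular P' ((J.toList.map fun j => lin (y j)).map
      (algebraMap (S K ℓ) P')) :=
    hreg0.of_isLocalization P' (Submonoid.powers q)
  -- the pivots
  let cf : Tau B → Tau B → S K ℓ := fun t => Sum.elim (fun _ => ce B B' J y)
    (fun i => cz B B' J y i) t
  have hcf : ∀ t, (∑ s : Tau B, C (cf t s) * X s : R B) ∈ IR B := by
    rintro (b | i)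
    · exact ce_mem hW'
    · exact cz_mem hW' i
  let T : List (Tau B) := Jᶜ.toList.map Sum.inr ++ [Sum.inl ⟨b0, hb0⟩]
  let gT : Tau B → MvPolynomial (Tau B) P' := fun t =>
    X t - ∑ s, C (iq * algebraMap (S K ℓ) P' (cf t s)) * X s
  have hT : ∀ t, t ∈ T ↔ (∃ i, i ∉ J ∧ t = Sum.inr i) ∨ t = Sum.inl ⟨b0, hb0⟩ := by
    intro t
    simp only [T, List.mem_append, List.mem_map, Finset.mem_toList, Finset.mem_compl,
      List.mem_singleton]
    constructor
    · rintro (⟨i, hi, rfl⟩ | rfl)
      · exact Or.inl ⟨i, hi, rfl⟩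
      · exact Or.inr rfl
    · rintro (⟨i, hi, rfl⟩ | rfl)
      · exact Or.inl ⟨i, hi, rfl⟩
      · exact Or.inr rfl
  have hTn : T.Nodup := by
    refine List.Nodup.append (Jᶜ.nodup_toList.map Sum.inr_injective) (List.nodup_singleton _) ?_
    intro t ht ht'
    rw [List.mem_singleton] at ht'
    rw [List.mem_map] at ht
    obtain ⟨i, _, hi⟩ := ht
    rw [ht'] at hi
    exact absurd hi (by simp)
  have hreg2 := h2' P' (Tau B) _ T gT hreg1 hTn (by
    intro t ht s hs
    refine pivot_vars T t (fun s => iq * algebraMap (S K ℓ) P' (cf t s)) ?_ ?_ s hs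
    · rcases (hT t).1 ht with ⟨i, hi, rfl⟩ | rfl
      · have h3 : cf (Sum.inr i) (Sum.inr i) = q := by
          simp only [cf, Sum.elim_inr, cz, if_true, if_neg hi, sub_zero, C_1, mul_one]
          rfl
        change iq * algebraMap (S K ℓ) P' (cf (Sum.inr i) (Sum.inr i)) = 1
        rw [h3, hiq]
      · have h3 : cf (Sum.inl ⟨b0, hb0⟩) (Sum.inl ⟨b0, hb0⟩) = q := by
          simp only [cf, Sum.elim_inl, ce, if_neg hb0']
          rfl
        change iq * algebraMap (S K ℓ) P' (cf (Sum.inl ⟨b0, hb0⟩) (Sum.inl ⟨b0, hb0⟩)) = 1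
        rw [h3, hiq]
    · intro s hs hst
      have h3 : cf t s = 0 := by
        rcases (hT t).1 ht with ⟨i, hi, rfl⟩ | rfl
        · rcases (hT s).1 hs with ⟨k, hk, rfl⟩ | rfl
          · have hki : k ≠ i := fun h => hst (by rw [h])
            simp only [cf, Sum.elim_inr, cz, if_neg hki, if_neg hk, sub_zero, C_0, mul_zero]
          · simp only [cf, Sum.elim_inr, cz, if_neg hb0']
        · rcases (hT s).1 hs with ⟨k, hk, rfl⟩ | rfl
          · simp only [cf, Sum.elim_inl, ce, if_neg hk]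
          · exact absurd rfl hst
      change iq * algebraMap (S K ℓ) P' (cf t s) = 0
      rw [h3, map_zero, mul_zero])
  have hpiv : ∀ t, X t - gT t = C iq * algebraMap (R B) (MvPolynomial (Tau B) P')
      (∑ s : Tau B, C (cf t s) * X s) := by
    intro t
    simp only [gT, sub_sub_cancel]
    rw [map_sum, Finset.mul_sum]
    refine Finset.sum_congr rfl fun s _ => ?_
    rw [map_mul (algebraMap (R B) (MvPolynomial (Tau B) P')), hC, MvPolynomial.algebraMap_def,
      MvPolynomial.map_X, C_mul, mul_assoc]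
  -- conclusion
  obtain ⟨m, hm, hmz⟩ := h1 (R B) (MvPolynomial (Tau B) P')
    ((Submonoid.powers q).map (C : S K ℓ →+* R B)) _ k N hreg2 hFR (by
      have h4 : Jᶜ.card + J.card = ℓ := by
        rw [add_comm, Finset.card_add_card_compl, Fintype.card_fin]
      simp only [List.length_append, List.length_map, Finset.length_toList, T,
        List.length_singleton]
      omega) z (by
      intro x hx
      rw [List.mem_append] at hx
      rcases hx with hx | hx
      · rw [List.mem_map] at hx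
        obtain ⟨x', hx', rfl⟩ := hx
        rw [List.mem_map] at hx'
        obtain ⟨x'', hx'', rfl⟩ := hx'
        rw [List.mem_map] at hx''
        obtain ⟨j, hj, rfl⟩ := hx''
        exact hrad _ (hWrad _ (hyW j (Finset.mem_toList.1 hj)))
      · rw [List.mem_map] at hx
        obtain ⟨t, _, rfl⟩ := hx
        refine ⟨1, ?_⟩
        rw [pow_one, hpiv, mul_smul]
        have h5 := hmap (∑ s : Tau B, C (cf t s) * X s)
        rw [hI _ (hcf t), TensorProduct.tmul_zero] at h5
        rw [h5, smul_zero])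
  obtain ⟨q', ⟨e, rfl⟩, rfl⟩ := hm
  apply hPB' e
  have h6 : (C (Qof B') : R B) ^ e = C (q ^ e) := by rw [C_pow]
  rw [h6]
  exact hmz

end Pool.Agent.Lib.MP_fe1391_co.Tame.G2
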