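import Pool.Agent.Lib.MP_fe1391_co.Tame.Defs

/-!
# Tame arrangements: statements of the modules
-/

set_option autoImplicit false

namespace Pool.Agent.Lib.MP_fe1391_co.Tame

open MvPolynomial TensorProduct RingTheory.Sequence

universe u v

/-! ### A. Commutative algebra -/

/-- A1 (Gamma lemma, localised). -/
def stGamma : Prop :=
  ∀ (A A' : Type u) [CommRing A] [CommRing A'] [Algebra A A'] (M : Submonoid A)
    [IsLocalization M A'] (xs : List A') (k : ℕ) (N : Type u) [AddCommGroup N] [Module A N],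
    IsWeaklyRegular A' xs → FR A k N → k < xs.length →
    ∀ z : N, (∀ x ∈ xs, ∃ e : ℕ, x ^ e • ((1 : A') ⊗ₜ[A] z) = 0) → ∃ m ∈ M, m • z = 0

/-- A2 (pivot forms). -/
def stPivot : Prop :=
  ∀ (P : Type u) [CommRing P] (τ : Type v) (xs : List P) (T : List τ) (g : τ → MvPolynomial τ P),
    IsWeaklyRegular P xs → T.Nodup → (∀ t ∈ T, ∀ s ∈ T, s ∉ (g t).vars) →
    IsWeaklyRegular (MvPolynomial τ P) (xs.map C ++ T.map (fun t => X t - g t))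

/-- A3 (graph forms followed by one more element). -/
def stDomReg : Prop :=
  ∀ (P : Type u) [CommRing P] [IsDomain P] (σ : Type v) (ℓ : ℕ) (g : Fin ℓ → MvPolynomial σ P)
    (f : MvPolynomial (σ ⊕ Fin ℓ) P), aeval (Sum.elim X g) f ≠ 0 →
    IsWeaklyRegular (MvPolynomial (σ ⊕ Fin ℓ) P)
      (List.ofFn (fun i => X (Sum.inr i) - rename Sum.inl (g i)) ++ [f])

/-- A4 (null homotopies). -/
def stNull : Prop :=
  ∀ (A : Type u) [CommRing A] (T : Cx A), T.Exact → ∀ f : A,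
    (∀ t : T.ι 0 → A, ∃ w, f • t = (T.d 0).mulVec w) →
    ∃ h : ∀ j, Matrix (T.ι (j + 1)) (T.ι j) A,
      f • (1 : Matrix (T.ι 0) (T.ι 0) A) = T.d 0 * h 0 ∧
      ∀ j, f • (1 : Matrix (T.ι (j + 1)) (T.ι (j + 1)) A) = T.d (j + 1) * h (j + 1) + h j * T.d j

/-! ### B. The Gamma lemma for the ideal `I` -/

/-- B1 -/
def stG2 : Prop :=
  ∀ (K : Type u) [Field K] (ℓ : ℕ) (B : Finset (Fin ℓ → K)), Norm B → ∀ k ≤ ℓ,
    ∀ (N : Type u) [AddCommGroup N] [Module (R B) N], FR (R B) k N →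
    ∀ z : N, (∀ f ∈ IR B, f • z = 0) → (∃ e : ℕ, (C (Qof B) : R B) ^ e • z = 0) → z = 0

/-- B2 -/
def stG1 : Prop :=
  ∀ (K : Type u) [Field K] (ℓ : ℕ) (B : Finset (Fin ℓ → K)), Norm B → ∀ k < ℓ,
    ∀ (N : Type u) [AddCommGroup N] [Module (R B) N], FR (R B) k N →
    ∀ z : N, (∀ f ∈ IR B, f • z = 0) → z = 0

/-- B3 -/
def stG3 : Prop :=
  ∀ (K : Type u) [Field K] (ℓ : ℕ) (B : Finset (Fin ℓ → K)), Norm B →
    FR (R B) ℓ (R B ⧸ IR B) → ∀ k ≤ ℓ,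
    ∀ (N : Type u) [AddCommGroup N] [Module (R B) N], FR (R B) k N →
    ∀ z : N, (∀ f ∈ IR B, f • z = 0) → ∀ f, f ∉ IR B → f • z = 0 → z = 0

/-! ### C. Gradings -/

/-- C1 -/
def stGrS : Prop :=
  ∀ (K : Type u) [Field K] (ℓ : ℕ), GrAlg (K := K) (A := S K ℓ) grS

/-- C2 -/
def stGrR : Prop :=
  ∀ (K : Type u) [Field K] (ℓ : ℕ) (B : Finset (Fin ℓ → K)), GrAlg (K := K) (A := R B) (grR B)

/-- C3 -/
def stHS : Prop :=
  ∀ (K : Type u) [Field K] (ℓ : ℕ),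
    (PowerSeries.mk fun k : ℕ =>
      ((Module.finrank K (grS (K := K) (ℓ := ℓ) (k : ℤ)) : ℕ) : ℤ)) * (1 - PowerSeries.X) ^ ℓ = 1

/-- C4 -/
def stR0 : Prop :=
  ∀ (K : Type u) [Field K] (ℓ : ℕ) (B : Finset (Fin ℓ → K)),
    Module.finrank K (grR B 0) = 1

/-- C5 (counting dimensions along an exact graded complex). -/
def stCount : Prop :=
  ∀ (K : Type u) [Field K] (A : Type u) [CommRing A] [Algebra K A] (g : ℤ → Submodule K A),
    GrAlg g → ∀ (T : Cx A) (L : ℕ), T.Exact → T.Hom g → T.Len L → ∀ m : ℤ,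
    ((Module.finrank K (Hm g (T.deg 0) m ⊓
      (LinearMap.range (T.d 0).mulVecLin).restrictScalars K : Submodule K (T.ι 0 → A)) : ℕ) : ℤ) =
    ∑ j ∈ Finset.range L, (-1) ^ j *
      ∑ i : T.ι (j + 1), ((Module.finrank K (g (m - T.deg (j + 1) i)) : ℕ) : ℤ)

/-- C6 (Hilbert series of a resolved submodule over `S`). -/
def stHilbS : Prop :=
  ∀ (K : Type u) [Field K] (ℓ : ℕ) (κ : Type) [Fintype κ] (N : Submodule (S K ℓ) (κ → S K ℓ))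
    (k : ℕ) (T : Cx (S K ℓ)) (ε : Matrix κ (T.ι 0) (S K ℓ)),
    IsGRes grS (mS K ℓ) 0 N k T ε →
    (PowerSeries.mk fun d : ℕ => ((Module.finrank K (Hm grS (fun _ : κ => 0) (d : ℤ) ⊓
      N.restrictScalars K : Submodule K (κ → S K ℓ)) : ℕ) : ℤ)) * (1 - PowerSeries.X) ^ ℓ =
    PowerSeries.mk fun d : ℕ => T.cnt k d

/-! ### D. Graded free resolutions over `S` and their base change -/

/-- D1 -/
def stRes : Prop :=
  ∀ (K : Type u) [Field K] (ℓ : ℕ) (κ : Type) [Fintype κ] [DecidableEq κ]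
    (N : Submodule (S K ℓ) (κ → S K ℓ)) (k : ℕ), IsGr grS (fun _ => 0) N →
    CategoryTheory.HasProjectiveDimensionLE (ModuleCat.of (S K ℓ) N) k →
    ∃ (T : Cx (S K ℓ)) (ε : Matrix κ (T.ι 0) (S K ℓ)), IsGRes grS (mS K ℓ) 0 N k T ε

/-- D2 -/
def stBC : Prop :=
  ∀ (K : Type u) [Field K] (ℓ : ℕ) (B : Finset (Fin ℓ → K)) (κ : Type) [Fintype κ]
    (N : Submodule (S K ℓ) (κ → S K ℓ)) (k : ℕ) (T : Cx (S K ℓ)) (ε : Matrix κ (T.ι 0) (S K ℓ))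
    (s : ℕ), IsGRes grS (mS K ℓ) 0 N k T ε →
    IsGRes (grR B) (mR B) (s : ℤ) (NR B N) k (T.bc B s) (ε.map C) ∧
    (∀ j (t : T.ι j → R B), (∀ i, t i ∈ uR B) → (∃ w, t = ((T.d j).map C).mulVec w) →
      ∃ w, (∀ i, w i ∈ uR B) ∧ t = ((T.d j).map C).mulVec w) ∧
    (∀ v ∈ uR B • NR B N, ∃ t : T.ι 0 → R B, (∀ i, t i ∈ uR B) ∧ v = (ε.map C).mulVec t)

/-! ### E. Logarithmic forms -/

/-- E1 (contraction with `λ`). -/
def stCon : Prop :=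
  ∀ (K : Type u) [Field K] (ℓ : ℕ) (B : Finset (Fin ℓ → K)), Norm B →
    ∀ (p : ℕ), ∀ θ ∈ LogA (R B) B (p + 1),
    ∃ (φ : ↥B → (Fin p → Fin ℓ) → R B) (ψ : Fin ℓ → (Fin p → Fin ℓ) → R B),
      (∀ b, φ b ∈ LogA (R B) B p) ∧ (∀ i, ψ i ∈ LogA (R B) B p) ∧
      con (Lam B) θ = (C (Qof B) : R B) •
        (∑ b, (X (Sum.inl b) : R B) • φ b + ∑ i, (X (Sum.inr i) : R B) • ψ i) ∧
      ∀ m : ℤ, (∀ w, θ w ∈ grR B m) →
        (∀ b w, φ b w ∈ grR B (m - 1)) ∧ ∀ i w, ψ i w ∈ grR B m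

/-- E2 (`c² = 0`). -/
def stConSq : Prop :=
  ∀ (A : Type u) [CommRing A] (ℓ : ℕ) (p : ℕ) (v : Fin ℓ → A) (a : (Fin (p + 2) → Fin ℓ) → A),
    IsAlt a → con v (con v a) = 0

/-- E3 (homotopy). -/
def stHtpy : Prop :=
  ∀ (K : Type u) [Field K] (ℓ : ℕ) (B : Finset (Fin ℓ → K)),
    ∀ t : Fin ℓ → R B, (∀ b ∈ B, (C (lin b) : R B) ∣ ∑ i, C (C (b i)) * t i) →
    ∀ (p : ℕ), ∀ φ ∈ LogA (R B) B (p + 1), con (Lam B) φ = 0 →
    ∃ ψ ∈ LogA (R B) B (p + 2), con (Lam B) ψ = (∑ i, Lam B i * t i) • φ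

/-- E4 (coefficientwise description over `R`). -/
def stBaseC : Prop :=
  ∀ (K : Type u) [Field K] (ℓ : ℕ) (B : Finset (Fin ℓ → K)) (p : ℕ),
    LogA (R B) B p = NR B (LogA (S K ℓ) B p)

/-- E5 -/
def stGrLog : Prop :=
  ∀ (K : Type u) [Field K] (ℓ : ℕ) (B : Finset (Fin ℓ → K)) (p : ℕ),
    IsGr grS (fun _ => 0) (LogA (S K ℓ) B p)

/-- E6 (extreme degrees). -/
def stExt : Prop :=
  ∀ (K : Type u) [Field K] (ℓ : ℕ) (B : Finset (Fin ℓ → K)), Norm B →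
    LogA (R B) B 0 = ⊤ ∧ LogA (R B) B (ℓ + 1) = ⊥ ∧ LogA (S K ℓ) B ℓ ≠ ⊥

/-- E7 (duality). -/
def stPair : Prop :=
  ∀ (K : Type u) [Field K] (ℓ : ℕ) (B : Finset (Fin (ℓ + 1) → K)), Norm B →
    Module.Free (S K (ℓ + 1)) (LogA (S K (ℓ + 1)) B ℓ) →
    Module.Free (S K (ℓ + 1)) (LogA (S K (ℓ + 1)) B 1)

/-! ### F. The cones -/

/-- F1 (start of the induction). -/
def stStart : Prop :=
  ∀ (K : Type u) [Field K] (ℓ : ℕ) (B : Finset (Fin ℓ → K)), Norm B →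
    ∀ (G : Cx (S K ℓ)) (ε : Matrix (Fin ℓ → Fin ℓ) (G.ι 0) (S K ℓ)),
    IsGRes grS (mS K ℓ) 0 (LogA (S K ℓ) B ℓ) 0 G ε →
    IsNRes B ℓ 0 (G.bc B ℓ) (ε.map C)

/-- F2 (one mapping cone). -/
def stStep : Prop :=
  ∀ (K : Type u) [Field K] (ℓ : ℕ) (B : Finset (Fin ℓ → K)), Norm B →
    ∀ (p L : ℕ) (T : Cx (R B)) (ε : Matrix (Fin (p + 1) → Fin ℓ) (T.ι 0) (R B)),
    IsNRes B (p + 1) L T ε → L < ℓ →
    ∀ (G : Cx (S K ℓ)) (εG : Matrix (Fin p → Fin ℓ) (G.ι 0) (S K ℓ)),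
    IsGRes grS (mS K ℓ) 0 (LogA (S K ℓ) B p) (L + 1) G εG →
    ∃ (T' : Cx (R B)) (ε' : Matrix (Fin p → Fin ℓ) (T'.ι 0) (R B)), IsNRes B p (L + 1) T' ε' ∧
      (∀ c : ℤ, T'.cnt (L + 1) c = G.cnt (L + 1) (c - p) - T.cnt L c) ∧
      ∀ j, Fintype.card (T'.ι (j + 1)) = Fintype.card (T.ι j) + Fintype.card (G.ι (j + 1))

/-- F3 (all cones together). -/
def stCone : Prop :=
  ∀ (K : Type u) [Field K] (ℓ : ℕ) (B : Finset (Fin ℓ → K)), Norm B →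
    ∀ (G : ℕ → Cx (S K ℓ)) (ε : ∀ p, Matrix (Fin p → Fin ℓ) ((G p).ι 0) (S K ℓ)),
    (∀ p ≤ ℓ, IsGRes grS (mS K ℓ) 0 (LogA (S K ℓ) B p) (ℓ - p) (G p) (ε p)) →
    ∃ (T : Cx (R B)) (ε' : Matrix (Fin 0 → Fin ℓ) (T.ι 0) (R B)), IsNRes B 0 ℓ T ε' ∧
      (∀ c : ℤ, T.cnt ℓ c =
        ∑ p ∈ Finset.range (ℓ + 1), (-1) ^ p * (G p).cnt (ℓ - p) (c - p)) ∧
      ∀ L, ℓ = L + 1 →
        Fintype.card ((G ℓ).ι 0) + Fintype.card ((G L).ι 1) ≤ Fintype.card (T.ι ℓ)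

/-! ### G. The dual complex -/

/-- G1 -/
def stDual : Prop :=
  ∀ (K : Type u) [Field K] (ℓ : ℕ) (B : Finset (Fin ℓ → K)), Norm B →
    FR (R B) ℓ (R B ⧸ IR B) →
    ∀ T : Cx (R B), T.Exact → T.Len ℓ →
    (∀ f ∈ IR B, ∀ t : T.ι 0 → R B, ∃ w, f • t = (T.d 0).mulVec w) →
    (0 < ℓ → ∀ ψ : T.ι 0 → R B, (T.d 0).vecMul ψ = 0 → ψ = 0) ∧
    (∀ j, j + 1 < ℓ → ∀ ψ : T.ι (j + 1) → R B, (T.d (j + 1)).vecMul ψ = 0 →
      ∃ χ, ψ = (T.d j).vecMul χ) ∧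
    (∀ L, ℓ = L + 1 → ∀ ψ : T.ι (L + 1) → R B, ∀ f, f ∉ IR B →
      (∃ χ, f • ψ = (T.d L).vecMul χ) → ∃ χ, ψ = (T.d L).vecMul χ) ∧
    (∀ L, ℓ = L + 1 → ∀ ψ : T.ι (L + 1) → R B, ∀ f ∈ IR B, ∃ χ, f • ψ = (T.d L).vecMul χ)

/-- G2 (the palindromic case). -/
def stTop : Prop :=
  ∀ (K : Type u) [Field K] (ℓ : ℕ) (B : Finset (Fin ℓ → K)), Norm B → 0 < ℓ →
    ∀ (T : Cx (R B)) (ε : Matrix (Fin 0 → Fin ℓ) (T.ι 0) (R B)), IsNRes B 0 ℓ T ε →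
    ∀ f : Polynomial ℤ, f ≠ 0 → f.reverse = f →
    (∀ c : ℤ, T.cnt ℓ c =
      if 0 ≤ c then (((1 - Polynomial.X) ^ ℓ * f : Polynomial ℤ)).coeff c.toNat else 0) →
    Fintype.card (T.ι ℓ) ≤ 1

/-! ### H. Everything about `LogA` -/

/-- H1 (the theorem for arrays). -/
def stMain : Prop :=
  ∀ (K : Type u) [Field K] (ℓ : ℕ) (B : Finset (Fin ℓ → K)), Norm B →
    (∀ p ≤ ℓ, CategoryTheory.HasProjectiveDimensionLE
      (ModuleCat.of (S K ℓ) (LogA (S K ℓ) B p)) (ℓ - p)) →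
    ∀ f : Polynomial ℤ, f ≠ 0 → f.reverse = f →
    (f : PowerSeries ℤ) = ∑ p ∈ Finset.range (ℓ + 1),
      (PowerSeries.mk fun d : ℕ => ((Module.finrank K
        (Hm grS (fun _ : (Fin p → Fin ℓ) => 0) (d : ℤ) ⊓
        (LogA (S K ℓ) B p).restrictScalars K : Submodule K ((Fin p → Fin ℓ) → S K ℓ)) : ℕ) : ℤ)) *
        (-PowerSeries.X) ^ p →
    Module.Free (S K ℓ) (LogA (S K ℓ) B 1)

/-- The `S`-module of logarithmic `p`-derivations, as alternating multiderivations. -/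
noncomputable def MDer (K : Type u) [Field K] {ℓ : ℕ} (A : Finset (Submodule K (Fin ℓ → K))) (p : ℕ) :
    Submodule (MvPolynomial (Fin ℓ) K)
      (AlternatingMap K (MvPolynomial (Fin ℓ) K) (MvPolynomial (Fin ℓ) K) (Fin p)) :=
  Submodule.span (MvPolynomial (Fin ℓ) K)
    {θ : AlternatingMap K (MvPolynomial (Fin ℓ) K) (MvPolynomial (Fin ℓ) K) (Fin p) |
      (∀ (v : Fin p → MvPolynomial (Fin ℓ) K) (j : Fin p) (u w : MvPolynomial (Fin ℓ) K),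
          θ (Function.update v j (u * w)) =
            u * θ (Function.update v j w) + w * θ (Function.update v j u)) ∧
      (∀ H ∈ A, ∀ a : Module.Dual K (Fin ℓ → K), LinearMap.ker a = H →
          ∀ (v : Fin p → MvPolynomial (Fin ℓ) K) (j : Fin p),
            v j = (∑ i : Fin ℓ, MvPolynomial.C (a (Pi.single i 1)) * MvPolynomial.X i) →
            (∑ i : Fin ℓ, MvPolynomial.C (a (Pi.single i 1)) * MvPolynomial.X i) ∣ θ v)}

/-- H2 (translation of the definitions of the problem). -/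
def stTrans : Prop :=
  ∀ (K : Type u) [Field K] (ℓ : ℕ) (A : Finset (Submodule K (Fin ℓ → K))),
    (∀ H ∈ A, ∃ a : Module.Dual K (Fin ℓ → K), a ≠ 0 ∧ LinearMap.ker a = H) →
    ∃ B : Finset (Fin ℓ → K), Norm B ∧
      (∀ p, Nonempty (MDer K A p ≃ₗ[MvPolynomial (Fin ℓ) K] LogA (S K ℓ) B p)) ∧
      (∀ p (k : ℕ), Module.finrank K
          (Submodule.span K
            {θ : AlternatingMap K (MvPolynomial (Fin ℓ) K) (MvPolynomial (Fin ℓ) K) (Fin p) |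
              (∀ (v : Fin p → MvPolynomial (Fin ℓ) K) (j : Fin p)
                  (u w : MvPolynomial (Fin ℓ) K),
                  θ (Function.update v j (u * w)) =
                    u * θ (Function.update v j w) + w * θ (Function.update v j u)) ∧
              (∀ H ∈ A, ∀ a : Module.Dual K (Fin ℓ → K), LinearMap.ker a = H →
                  ∀ (v : Fin p → MvPolynomial (Fin ℓ) K) (j : Fin p),
                    v j = (∑ i : Fin ℓ, MvPolynomial.C (a (Pi.single i 1)) * MvPolynomial.X i) →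
                    (∑ i : Fin ℓ, MvPolynomial.C (a (Pi.single i 1)) * MvPolynomial.X i) ∣
                      θ v) ∧
              (∀ w : Fin p → Fin ℓ,
                  (θ (fun j => MvPolynomial.X (w j))).IsHomogeneous k)}) =
        Module.finrank K (Hm grS (fun _ : (Fin p → Fin ℓ) => 0) (k : ℤ) ⊓
          (LogA (S K ℓ) B p).restrictScalars K : Submodule K ((Fin p → Fin ℓ) → S K ℓ))) ∧
      (Module.Free (S K ℓ) (LogA (S K ℓ) B 1) →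
        Module.Free (MvPolynomial (Fin ℓ) K)
          (Submodule.span (MvPolynomial (Fin ℓ) K)
            {θ : Derivation K (MvPolynomial (Fin ℓ) K) (MvPolynomial (Fin ℓ) K) |
              ∀ H ∈ A, ∀ a : Module.Dual K (Fin ℓ → K), LinearMap.ker a = H →
                (∑ i : Fin ℓ, MvPolynomial.C (a (Pi.single i 1)) * MvPolynomial.X i) ∣
                  θ (∑ i : Fin ℓ, MvPolynomial.C (a (Pi.single i 1)) * MvPolynomial.X i)}))

end Pool.Agent.Lib.MP_fe1391_co.Tame
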