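import Mathlib
import Pool.Agent.Lib.MP_fe1391_co.Tame.Stmts

/-!
# A1: the Gamma lemma with localisation
-/

set_option autoImplicit false

namespace Pool.Agent.Lib.MP_fe1391_co.Tame.Gamma

open TensorProduct RingTheory.Sequence Pointwise

universe u

/-- `N` has a resolution of length `k` by modules on which `xs` is weakly regular -/
def WR (A : Type u) [CommRing A] (xs : List A) :
    ℕ → ∀ (N : Type u) [AddCommGroup N] [Module A N], Prop
  | 0, N, _, _ => IsWeaklyRegular N xs
  | k + 1, N, _, _ => ∃ (F : Type u) (_ : AddCommGroup F) (_ : Module A F) (f : F →ₗ[A] N),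
      Function.Surjective f ∧ IsWeaklyRegular F xs ∧ WR A xs k (LinearMap.ker f)

theorem WR.congr {A : Type u} [CommRing A] {xs : List A} :
    ∀ (k : ℕ) {N N' : Type u} [AddCommGroup N] [Module A N] [AddCommGroup N'] [Module A N']
      (_ : N ≃ₗ[A] N'), WR A xs k N → WR A xs k N'
  | 0, _, _, _, _, _, _, e, h => (e.isWeaklyRegular_congr xs).1 h
  | k + 1, _, _, _, _, _, _, e, ⟨F, hF1, hF2, f, hs, hr, hk⟩ =>
    ⟨F, hF1, hF2, e.toLinearMap ∘ₗ f, e.surjective.comp hs, hr,
      WR.congr k (LinearEquiv.ofEq _ _ (LinearEquiv.ker_comp e f).symm) hk⟩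

theorem WR.quot {A : Type u} [CommRing A] {x : A} {xs : List A} :
    ∀ (k : ℕ) {N : Type u} [AddCommGroup N] [Module A N], IsSMulRegular N x →
      WR A (x :: xs) k N → WR A xs k (QuotSMulTop x N)
  | 0, N, _, _, _, h => ((isWeaklyRegular_cons_iff N x xs).1 h).2
  | k + 1, N, _, _, hx, ⟨F, hF1, hF2, f, hs, hr, hk⟩ => by
    obtain ⟨hxF, hr'⟩ := (isWeaklyRegular_cons_iff F x xs).1 hr
    refine ⟨QuotSMulTop x F, inferInstance, inferInstance, QuotSMulTop.map x f,
      QuotSMulTop.map_surjective x hs, hr', ?_⟩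
    have hxK : IsSMulRegular (LinearMap.ker f) x := by
      intro a b hab
      have h1 : x • (a : F) = x • (b : F) := congrArg Subtype.val hab
      exact Subtype.ext (hxF h1)
    have ih := WR.quot k hxK hk
    have hex : Function.Exact (LinearMap.ker f).subtype f := by
      intro y
      simp
    have hex' := QuotSMulTop.map_exact x hex hs
    have hinj : Function.Injective (QuotSMulTop.map x (LinearMap.ker f).subtype) := by
      rw [injective_iff_map_eq_zero]
      intro a ha
      obtain ⟨n, rfl⟩ := Submodule.Quotient.mk_surjective _ a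
      rw [QuotSMulTop.map_apply_mk, Submodule.Quotient.mk_eq_zero,
        Submodule.mem_smul_pointwise_iff_exists] at ha
      obtain ⟨y, -, hy⟩ := ha
      have h1 : x • f y = 0 := by
        rw [← map_smul, hy]
        exact n.2
      have h2 : f y = 0 := IsSMulRegular.right_eq_zero_of_smul hx h1
      rw [Submodule.Quotient.mk_eq_zero, Submodule.mem_smul_pointwise_iff_exists]
      exact ⟨⟨y, h2⟩, trivial, Subtype.ext hy⟩
    have e1 : QuotSMulTop x (LinearMap.ker f) ≃ₗ[A]
        LinearMap.range (QuotSMulTop.map x (LinearMap.ker f).subtype) :=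
      LinearEquiv.ofInjective _ hinj
    have e2 : LinearMap.range (QuotSMulTop.map x (LinearMap.ker f).subtype) =
        LinearMap.ker (QuotSMulTop.map x f) := (LinearMap.exact_iff.1 hex').symm
    exact WR.congr k (e1.trans (LinearEquiv.ofEq _ _ e2)) ih

theorem WR.kill {A : Type u} [CommRing A] :
    ∀ (k : ℕ) (xs : List A) {N : Type u} [AddCommGroup N] [Module A N], WR A xs k N →
      k < xs.length → ∀ z : N, (∀ x ∈ xs, ∃ e : ℕ, x ^ e • z = 0) → z = 0
  | _, [], _, _, _, _, h, _, _ => absurd h (Nat.not_lt_zero _)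
  | 0, x :: xs, N, _, _, h, _, z, hz => by
    obtain ⟨hx, -⟩ := (isWeaklyRegular_cons_iff N x xs).1 h
    obtain ⟨e, he⟩ := hz x (by simp)
    exact IsSMulRegular.right_eq_zero_of_smul (hx.pow e) he
  | k + 1, x :: xs, N, _, _, ⟨F, hF1, hF2, f, hs, hr, hk⟩, hlen, z, hz => by
    obtain ⟨hxF, hr'⟩ := (isWeaklyRegular_cons_iff F x xs).1 hr
    have hxK : IsSMulRegular (LinearMap.ker f) x := by
      intro a b hab
      have h1 : x • (a : F) = x • (b : F) := congrArg Subtype.val hab
      exact Subtype.ext (hxF h1)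
    have hq := WR.quot k hxK hk
    have claim : ∀ z : N, x • z = 0 → (∀ y ∈ xs, ∃ e : ℕ, y ^ e • z = 0) → z = 0 := by
      intro z hxz hyz
      obtain ⟨w, rfl⟩ := hs z
      have hw : x • w ∈ LinearMap.ker f := by
        rw [LinearMap.mem_ker, map_smul, hxz]
      have hc := WR.kill k xs hq (by simpa using hlen)
        (Submodule.Quotient.mk (⟨x • w, hw⟩ : LinearMap.ker f)) (by
          intro y hy
          obtain ⟨e, he⟩ := hyz y hy
          refine ⟨e, ?_⟩
          rw [← Submodule.Quotient.mk_smul, Submodule.Quotient.mk_eq_zero,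
            Submodule.mem_smul_pointwise_iff_exists]
          refine ⟨⟨y ^ e • w, by rw [LinearMap.mem_ker, map_smul, he]⟩, trivial, ?_⟩
          apply Subtype.ext
          show x • y ^ e • w = y ^ e • x • w
          rw [smul_comm])
      rw [Submodule.Quotient.mk_eq_zero, Submodule.mem_smul_pointwise_iff_exists] at hc
      obtain ⟨n, -, hn⟩ := hc
      have h1 : x • (n : F) = x • w := congrArg Subtype.val hn
      have h2 : (n : F) = w := hxF h1
      rw [← h2]
      exact n.2
    obtain ⟨e, he⟩ := hz x (by simp)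
    induction e with
    | zero => simpa using he
    | succ e ih =>
      apply ih
      apply claim
      · rw [smul_smul, ← pow_succ', he]
      · intro y hy
        obtain ⟨m, hm⟩ := hz y (by simp [hy])
        exact ⟨m, by rw [smul_comm, hm, smul_zero]⟩

theorem isWeaklyRegular_free {A : Type u} [CommRing A] {xs : List A}
    (h : IsWeaklyRegular A xs) (G : Type u) [AddCommGroup G] [Module A G] [Module.Free A G] :
    IsWeaklyRegular G xs := by
  have h1 : IsWeaklyRegular (G ⊗[A] A) xs := h.isWeaklyRegular_lTensor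
  exact ((TensorProduct.rid A G).isWeaklyRegular_congr xs).1 h1

theorem WR.of_FR {A A' : Type u} [CommRing A] [CommRing A'] [Algebra A A'] [Module.Flat A A']
    {xs : List A'} (h : IsWeaklyRegular A' xs) :
    ∀ (k : ℕ) {N : Type u} [AddCommGroup N] [Module A N], FR A k N → WR A' xs k (A' ⊗[A] N)
  | 0, N, _, _, hN => by
    have : Module.Free A N := hN
    exact isWeaklyRegular_free h (A' ⊗[A] N)
  | k + 1, N, _, _, ⟨F, hF1, hF2, hF3, f, hs, hk⟩ => by
    refine ⟨A' ⊗[A] F, inferInstance, inferInstance, AlgebraTensorModule.lTensor A' A' f, ?_,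
      isWeaklyRegular_free h _, ?_⟩
    · exact LinearMap.lTensor_surjective A' hs
    · exact WR.congr k (LinearMap.tensorKerEquiv A' A' f) (WR.of_FR h k hk)

theorem thm : stGamma.{u} := by
  intro A A' _ _ _ M _ xs k N _ _ hxs hN hk z hz
  have : Module.Flat A A' := IsLocalization.flat A' M
  have h1 := WR.kill k xs (WR.of_FR (A := A) hxs k hN) hk ((1 : A') ⊗ₜ[A] z) hz
  have h2 : TensorProduct.mk A A' N 1 z = 0 := h1
  rw [IsLocalizedModule.eq_zero_iff M] at h2
  obtain ⟨s, hs⟩ := h2
  exact ⟨s, s.2, hs⟩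

end Pool.Agent.Lib.MP_fe1391_co.Tame.Gamma
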