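import Pool.Agent.Lib.MP_fe1391_co.Tame.Stmts

/-!
# Tame arrangements: E3, the homotopy given by the exterior product with a logarithmic derivation
-/

set_option autoImplicit false

namespace Pool.Agent.Lib.MP_fe1391_co.Tame.Htpy

open MvPolynomial

universe u

section Gen

variable {A : Type*} [CommRing A] {ℓ : ℕ}

/-- The alternating map on `A^ℓ` with a given alternating array of values on basis vectors. -/
noncomputable def amap {p : ℕ} (a : (Fin p → Fin ℓ) → A) (ha : IsAlt a) :
    (Fin ℓ → A) [⋀^Fin p]→ₗ[A] A where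
  toMultilinearMap := ∑ w : Fin p → Fin ℓ,
    a w • (MultilinearMap.mkPiAlgebra A (Fin p) A).compLinearMap (fun k => LinearMap.proj (w k))
  map_eq_zero_of_eq' := by
    intro v i j hv hij
    have happ : ∀ v : Fin p → Fin ℓ → A, (∑ w : Fin p → Fin ℓ,
        a w • (MultilinearMap.mkPiAlgebra A (Fin p) A).compLinearMap
          (fun k => (LinearMap.proj (w k) : (Fin ℓ → A) →ₗ[A] A))) v =
        ∑ w : Fin p → Fin ℓ, a w * ∏ k, v k (w k) := by
      intro v
      simp
    change (∑ w : Fin p → Fin ℓ,
        a w • (MultilinearMap.mkPiAlgebra A (Fin p) A).compLinearMap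
          (fun k => (LinearMap.proj (w k) : (Fin ℓ → A) →ₗ[A] A))) v = 0
    rw [happ]
    refine Finset.sum_involution (fun w _ => w ∘ Equiv.swap i j) ?_ ?_ ?_ ?_
    · intro w _
      have h1 : ∏ k, v k ((w ∘ Equiv.swap i j) k) = ∏ k, v k (w k) := by
        rw [← Equiv.prod_comp (Equiv.swap i j) (fun k => v k (w k))]
        refine Finset.prod_congr rfl fun k _ => ?_
        have : v (Equiv.swap i j k) = v k := by
          rcases eq_or_ne k i with rfl | h
          · rw [Equiv.swap_apply_left, hv]
          · rcases eq_or_ne k j with rfl | h'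
            · rw [Equiv.swap_apply_right, hv]
            · rw [Equiv.swap_apply_of_ne_of_ne h h']
        rw [this]
        rfl
      rw [h1, ha.sw w i j hij]
      ring
    · intro w _ hw heq
      apply hw
      have hni : ¬ Function.Injective w := by
        intro hinj
        have := congrFun heq i
        simp only [Function.comp_apply, Equiv.swap_apply_left] at this
        exact hij (hinj this).symm
      rw [ha.nz w hni, zero_mul]
    · intro w _
      exact Finset.mem_univ _
    · intro w _
      funext k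
      simp

theorem amap_apply {p : ℕ} (a : (Fin p → Fin ℓ) → A) (ha : IsAlt a) (v : Fin p → Fin ℓ → A) :
    amap a ha v = ∑ w : Fin p → Fin ℓ, a w * ∏ k, v k (w k) := by
  change (∑ w : Fin p → Fin ℓ,
        a w • (MultilinearMap.mkPiAlgebra A (Fin p) A).compLinearMap
          (fun k => (LinearMap.proj (w k) : (Fin ℓ → A) →ₗ[A] A))) v = _
  simp

theorem amap_basis {p : ℕ} (a : (Fin p → Fin ℓ) → A) (ha : IsAlt a) (w : Fin p → Fin ℓ) :
    amap a ha (fun k => Pi.single (w k) 1) = a w := by
  classical
  rw [amap_apply, Finset.sum_eq_single w]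
  · simp
  · intro w' _ hne
    obtain ⟨k, hk⟩ := Function.ne_iff.1 hne
    rw [Finset.prod_eq_zero (Finset.mem_univ k), mul_zero]
    exact Pi.single_eq_of_ne hk _
  · intro h
    exact absurd (Finset.mem_univ _) h

/-- The array of the exterior product of a vector field with a form. -/
def wedge {p : ℕ} (t : Fin ℓ → A) (a : (Fin p → Fin ℓ) → A) : (Fin (p + 1) → Fin ℓ) → A :=
  fun w => ∑ j : Fin (p + 1), (-1) ^ (j : ℕ) * (t (w j) * a (j.removeNth w))

/-- an array obtained from an alternating map is alternating -/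
theorem isAlt_of_map {p : ℕ} (Φ : (Fin ℓ → A) [⋀^Fin p]→ₗ[A] A) :
    IsAlt (fun w : Fin p → Fin ℓ => Φ (fun k => Pi.single (w k) 1)) := by
  constructor
  · intro w hw
    rw [Function.not_injective_iff] at hw
    obtain ⟨i, j, h, hij⟩ := hw
    exact Φ.map_eq_zero_of_eq _ (by simp only [h]) hij
  · intro w i j hij
    exact Φ.map_swap (fun k => Pi.single (w k) 1) hij

theorem isAlt_wedge {p : ℕ} (t : Fin ℓ → A) (a : (Fin p → Fin ℓ) → A) (ha : IsAlt a) :
    IsAlt (wedge t a) := by
  classical
  let T : (Fin ℓ → A) →ₗ[A] A := ∑ i, t i • LinearMap.proj i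
  let f : (Fin ℓ → A) →ₗ[A] (Fin ℓ → A) [⋀^Fin p]→ₗ[A] A := T.smulRight (amap a ha)
  have h := isAlt_of_map (AlternatingMap.alternatizeUncurryFin f)
  have hT : ∀ i, T (Pi.single i 1) = t i := by
    intro i
    simp only [T, LinearMap.sum_apply, LinearMap.smul_apply, LinearMap.proj_apply, smul_eq_mul]
    rw [Finset.sum_eq_single i]
    · simp
    · intro b _ hb
      rw [Pi.single_eq_of_ne hb, mul_zero]
    · intro h
      exact absurd (Finset.mem_univ _) h
  have heq : wedge t a =
      fun w : Fin (p + 1) → Fin ℓ =>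
        AlternatingMap.alternatizeUncurryFin f (fun k => Pi.single (w k) 1) := by
    funext w
    rw [AlternatingMap.alternatizeUncurryFin_apply]
    unfold wedge
    refine Finset.sum_congr rfl fun j _ => ?_
    have h2 : (amap a ha) (j.removeNth fun k => (Pi.single (w k) 1 : Fin ℓ → A)) =
        a (j.removeNth w) := amap_basis a ha (j.removeNth w)
    simp only [f, LinearMap.smulRight_apply, AlternatingMap.smul_apply, hT, smul_eq_mul]
    rw [h2]
    rcases Nat.even_or_odd (j : ℕ) with he | ho
    · rw [he.neg_one_pow, he.neg_one_pow, one_mul, one_smul]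
    · rw [ho.neg_one_pow, ho.neg_one_pow, neg_smul, one_smul, neg_mul, one_mul]
  rw [heq]
  exact h

/-- contraction of an exterior product -/
theorem con_wedge {p : ℕ} (v t : Fin ℓ → A) (a : (Fin (p + 1) → Fin ℓ) → A) :
    con v (wedge t a) = (∑ i, v i * t i) • a - wedge t (con v a) := by
  funext w
  simp only [con, wedge, LinearMap.coe_mk, AddHom.coe_mk, Pi.sub_apply, Pi.smul_apply, smul_eq_mul]
  have h0 : ∀ i : Fin ℓ, Fin.removeNth (0 : Fin (p + 2)) (Fin.cons i w : Fin (p + 2) → Fin ℓ) = w := by
    intro i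
    funext k
    simp [Fin.removeNth]
  have h1 : ∀ (i : Fin ℓ) (j : Fin (p + 1)),
      Fin.removeNth (j.succ) (Fin.cons i w : Fin (p + 2) → Fin ℓ) =
        Fin.cons i (Fin.removeNth j w) := by
    intro i j
    funext k
    refine Fin.cases ?_ (fun k' => ?_) k
    · simp [Fin.removeNth]
    · simp [Fin.removeNth]
  have h2 : ∀ i : Fin ℓ, v i * ∑ j : Fin (p + 1 + 1), (-1) ^ (j : ℕ) *
      (t ((Fin.cons i w : Fin (p + 2) → Fin ℓ) j) *
        a (j.removeNth (Fin.cons i w : Fin (p + 2) → Fin ℓ))) =
      v i * t i * a w - ∑ j : Fin (p + 1), (-1) ^ (j : ℕ) *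
        (t (w j) * (v i * a (Fin.cons i (j.removeNth w)))) := by
    intro i
    rw [Fin.sum_univ_succ]
    simp only [h0, h1, Fin.cons_zero, Fin.cons_succ, Fin.val_zero, pow_zero, one_mul, Fin.val_succ]
    rw [mul_add, Finset.mul_sum, sub_eq_add_neg, ← Finset.sum_neg_distrib]
    congr 1
    · ring
    · refine Finset.sum_congr rfl fun j _ => ?_
      rw [pow_succ]
      ring
  rw [Finset.sum_congr rfl fun i _ => h2 i, Finset.sum_sub_distrib, Finset.sum_mul,
    Finset.sum_comm]
  congr 1
  refine Finset.sum_congr rfl fun j _ => ?_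
  rw [Finset.mul_sum, Finset.mul_sum]

end Gen

/-- The exterior product of a logarithmic derivation and a logarithmic form is logarithmic. -/
theorem wedge_mem {K : Type u} [Field K] {ℓ : ℕ} {A : Type u} [CommRing A] [Algebra (S K ℓ) A]
    {B : Finset (Fin ℓ → K)} {p : ℕ} {t : Fin ℓ → A} {a : (Fin p → Fin ℓ) → A}
    (ht : ∀ b ∈ B, algebraMap (S K ℓ) A (lin b) ∣ ∑ i, algebraMap (S K ℓ) A (C (b i)) * t i)
    (ha : a ∈ LogA A B p) : wedge t a ∈ LogA A B (p + 1) := by
  classical
  obtain ⟨ha1, ha2⟩ := ha
  refine ⟨isAlt_wedge t a ha1, fun b hb w j => ?_⟩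
  unfold wedge
  have h : ∑ i, algebraMap (S K ℓ) A (C (b i)) * ∑ k : Fin (p + 1), (-1) ^ (k : ℕ) *
      (t ((Function.update w j i) k) * a (k.removeNth (Function.update w j i))) =
      ∑ k : Fin (p + 1), (-1) ^ (k : ℕ) * ∑ i, algebraMap (S K ℓ) A (C (b i)) *
        (t ((Function.update w j i) k) * a (k.removeNth (Function.update w j i))) := by
    simp only [Finset.mul_sum]
    rw [Finset.sum_comm]
    refine Finset.sum_congr rfl fun k _ => Finset.sum_congr rfl fun i _ => ?_
    ring
  rw [h]
  refine Finset.dvd_sum fun k _ => Dvd.dvd.mul_left ?_ _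
  rcases eq_or_ne k j with rfl | hkj
  · have : ∀ i, algebraMap (S K ℓ) A (C (b i)) * (t ((Function.update w k i) k) *
        a (k.removeNth (Function.update w k i))) =
        (algebraMap (S K ℓ) A (C (b i)) * t i) * a (k.removeNth w) := by
      intro i
      rw [Function.update_self, Fin.removeNth_update, mul_assoc]
    rw [Finset.sum_congr rfl fun i _ => this i, ← Finset.sum_mul]
    exact Dvd.dvd.mul_right (ht b hb) _
  · obtain ⟨j', rfl⟩ := Fin.exists_succAbove_eq hkj.symm
    have : ∀ i, algebraMap (S K ℓ) A (C (b i)) *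
        (t ((Function.update w (k.succAbove j') i) k) *
        a (k.removeNth (Function.update w (k.succAbove j') i))) =
        t (w k) * (algebraMap (S K ℓ) A (C (b i)) * a (Function.update (k.removeNth w) j' i)) := by
      intro i
      rw [Function.update_of_ne hkj, Fin.removeNth_update_succAbove]
      ring
    rw [Finset.sum_congr rfl fun i _ => this i, ← Finset.mul_sum]
    exact Dvd.dvd.mul_left (ha2 b hb _ j') _

/-- E3 -/
theorem thm : stHtpy.{u} := by
  intro K _ ℓ B t ht p φ hφ hc
  refine ⟨wedge t φ, wedge_mem ht hφ, ?_⟩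
  rw [con_wedge, hc]
  have h0 : wedge t (0 : (Fin p → Fin ℓ) → R B) = 0 := by
    funext w
    simp [wedge]
  rw [h0, sub_zero]

end Pool.Agent.Lib.MP_fe1391_co.Tame.Htpy
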