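import Pool.Agent.Lib.MP_fe1391_co.Tame.Stmts

/-!
# Tame arrangements: assembly of the main theorem for arrays
-/

set_option autoImplicit false

namespace Pool.Agent.Lib.MP_fe1391_co.Tame.Main

open MvPolynomial

universe u

/-- the empty complex -/
def triv (A : Type u) [CommRing A] : Cx A where
  ι := fun _ => Empty
  fι := fun _ => inferInstance
  dι := fun _ => inferInstance
  deg := fun _ i => i.elim
  d := fun _ => fun i => i.elim

theorem cnt_neg {A : Type u} [CommRing A] {T : Cx A} (h : T.Nonneg) (L : ℕ) {c : ℤ} (hc : c < 0) :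
    T.cnt L c = 0 := by
  unfold Cx.cnt
  refine Finset.sum_eq_zero fun j _ => ?_
  have : (Finset.univ.filter fun i => T.deg j i = c) = ∅ := by
    refine Finset.filter_eq_empty_iff.2 fun i _ hi => ?_
    have := h j i
    omega
  rw [this]
  simp

theorem thm (hRes : stRes.{u}) (hGrLog : stGrLog.{u}) (hCone : stCone.{u}) (hHilb : stHilbS.{u})
    (hTop : stTop.{u}) (hExt : stExt.{u}) (hPair : stPair.{u}) : stMain.{u} := by
  intro K _ ℓ B hB tame f hf0 hfr hf
  rcases Nat.eq_zero_or_pos ℓ with rfl | hℓ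
  · haveI : IsEmpty (Fin 1 → Fin 0) := ⟨fun w => (w 0).elim0⟩
    haveI : Subsingleton (LogA (S K 0) B 1) := by
      refine ⟨fun a b => Subtype.ext ?_⟩
      funext w
      exact isEmptyElim w
    exact Module.Free.of_subsingleton _ _
  obtain ⟨L, rfl⟩ : ∃ L, ℓ = L + 1 := ⟨ℓ - 1, by omega⟩
  have h1 : ∀ p, ∃ (T : Cx (S K (L + 1))) (ε : Matrix (Fin p → Fin (L + 1)) (T.ι 0) (S K (L + 1))),
      p ≤ L + 1 → IsGRes grS (mS K (L + 1)) 0 (LogA (S K (L + 1)) B p) (L + 1 - p) T ε := by
    intro p
    by_cases hp : p ≤ L + 1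
    · obtain ⟨T, ε, h⟩ := hRes K (L + 1) (Fin p → Fin (L + 1)) (LogA (S K (L + 1)) B p)
        (L + 1 - p) (hGrLog K (L + 1) B p) (tame p hp)
      exact ⟨T, ε, fun _ => h⟩
    · exact ⟨triv _, fun _ i => i.elim, fun h => absurd h hp⟩
  choose G ε hG using h1
  obtain ⟨T, ε', hT, hcnt, hcard⟩ := hCone K (L + 1) B hB G ε hG
  have hcard := hcard L rfl
  have hcoef : ∀ c : ℤ, T.cnt (L + 1) c =
      if 0 ≤ c then (((1 - Polynomial.X) ^ (L + 1) * f : Polynomial ℤ)).coeff c.toNat else 0 := by
    intro c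
    rw [hcnt c]
    split_ifs with hc
    · obtain ⟨n, rfl⟩ := Int.eq_ofNat_of_zero_le hc
      have h2 : (((1 - Polynomial.X) ^ (L + 1) * f : Polynomial ℤ) : PowerSeries ℤ) =
          ∑ p ∈ Finset.range (L + 1 + 1), (PowerSeries.mk fun d : ℕ => (G p).cnt (L + 1 - p) d) *
            (-PowerSeries.X) ^ p := by
        rw [Polynomial.coe_mul, hf, Finset.mul_sum]
        refine Finset.sum_congr rfl fun p hp => ?_
        rw [← hHilb K (L + 1) (Fin p → Fin (L + 1)) (LogA (S K (L + 1)) B p) (L + 1 - p) (G p)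
          (ε p) (hG p (by have := Finset.mem_range.1 hp; omega))]
        rw [Polynomial.coe_pow, Polynomial.coe_sub, Polynomial.coe_one, Polynomial.coe_X]
        ring
      have h3 := congrArg (PowerSeries.coeff n) h2
      rw [Polynomial.coeff_coe] at h3
      rw [Int.toNat_natCast, h3, map_sum]
      refine Finset.sum_congr rfl fun p hp => ?_
      have h4 : ((-PowerSeries.X : PowerSeries ℤ)) ^ p =
          PowerSeries.C ((-1 : ℤ) ^ p) * PowerSeries.X ^ p := by
        rw [neg_pow, map_pow, map_neg, map_one]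
      rw [h4, mul_left_comm, PowerSeries.coeff_C_mul]
      congr 1
      by_cases hpn : p ≤ n
      · obtain ⟨m, rfl⟩ := Nat.exists_eq_add_of_le hpn
        rw [Nat.add_comm p m, PowerSeries.coeff_mul_X_pow, PowerSeries.coeff_mk]
        congr 1
        push_cast
        ring
      · rw [cnt_neg (hG p (by have := Finset.mem_range.1 hp; omega)).nonneg _ (by omega)]
        rw [PowerSeries.coeff_mul_X_pow', if_neg hpn]
    · refine Finset.sum_eq_zero fun p hp => ?_
      rw [cnt_neg (hG p (by have := Finset.mem_range.1 hp; omega)).nonneg _ (by omega), mul_zero]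
  have hle := hTop K (L + 1) B hB (Nat.succ_pos L) T ε' hT f hf0 hfr hcoef
  have hne : 0 < Fintype.card ((G (L + 1)).ι 0) := by
    rw [Fintype.card_pos_iff]
    by_contra hemp
    rw [not_nonempty_iff] at hemp
    apply (hExt K (L + 1) B hB).2.2
    rw [eq_bot_iff]
    intro v hv
    obtain ⟨t, ht⟩ := ((hG (L + 1) le_rfl).surj v).1 hv
    rw [Submodule.mem_bot, ht]
    funext w
    simp [Matrix.mulVec, dotProduct]
  have hemp : IsEmpty ((G L).ι 1) := by
    rw [← Fintype.card_eq_zero_iff]
    omega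
  have hGL := hG L (Nat.le_succ L)
  apply hPair K L B hB
  have hinj : Function.Injective ((ε L).mulVecLin) := by
    rw [← LinearMap.ker_eq_bot, eq_bot_iff]
    intro t ht
    obtain ⟨w, hw⟩ := (hGL.ker t).1 (by simpa using ht)
    rw [Submodule.mem_bot, hw]
    funext i
    simp [Matrix.mulVec, dotProduct]
  have hrange : LinearMap.range ((ε L).mulVecLin) = LogA (S K (L + 1)) B L := by
    ext v
    rw [hGL.surj v]
    constructor
    · rintro ⟨t, rfl⟩
      exact ⟨t, by simp⟩
    · rintro ⟨t, rfl⟩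
      exact ⟨t, by simp⟩
  rw [← hrange]
  exact Module.Free.of_equiv (LinearEquiv.ofInjective _ hinj)

end Pool.Agent.Lib.MP_fe1391_co.Tame.Main
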