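import Pool.Agent.Lib.MP_fe1391_co.Tame.Stmts

/-!
# A4: null homotopies
-/

set_option autoImplicit false

namespace Pool.Agent.Lib.MP_fe1391_co.Tame.Null

universe u

variable {A : Type u} [CommRing A]

/-- lifting a matrix column by column -/
theorem lift_cols {α β γ : Type} [Fintype β] (D : Matrix α β A) (Y : Matrix α γ A)
    (h : ∀ c, ∃ w, (fun a => Y a c) = D.mulVec w) : ∃ h' : Matrix β γ A, D * h' = Y := by
  choose w hw using h
  refine ⟨Matrix.of fun b c => w c b, ?_⟩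
  ext a c
  have := congrFun (hw c) a
  rw [this]
  rfl

/-- consecutive differentials compose to zero -/
theorem d_mul (T : Cx A) (hT : T.Exact) (j : ℕ) : T.d j * T.d (j + 1) = 0 := by
  ext a c
  have h1 : (T.d j).mulVec ((T.d (j + 1)).mulVec (Pi.single c 1)) = 0 :=
    (hT j _).2 ⟨_, rfl⟩
  have h2 := congrFun h1 a
  rw [Matrix.mulVec_mulVec, Matrix.mulVec_single_one] at h2
  exact h2

theorem lift (T : Cx A) (hT : T.Exact) (j : ℕ) {γ : Type} (Y : Matrix (T.ι (j + 1)) γ A)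
    (h : T.d j * Y = 0) : ∃ h' : Matrix (T.ι (j + 2)) γ A, T.d (j + 1) * h' = Y := by
  apply lift_cols
  intro c
  apply (hT j _).1
  funext a
  exact congrFun (congrFun h a) c

theorem thm.{a} : stNull.{a} := by
  intro A _ T hT f hf
  -- the start
  obtain ⟨h0, hh0⟩ : ∃ h0 : Matrix (T.ι 1) (T.ι 0) A,
      T.d 0 * h0 = f • (1 : Matrix (T.ι 0) (T.ι 0) A) := by
    apply lift_cols
    intro c
    obtain ⟨w, hw⟩ := hf (Pi.single c 1)
    refine ⟨w, ?_⟩
    rw [← hw]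
    funext a
    rw [Matrix.smul_apply, Pi.smul_apply, Matrix.one_apply, Pi.single_apply]
  -- the step
  have key : ∀ (j : ℕ) (h : Matrix (T.ι (j + 1)) (T.ι j) A),
      T.d j * (f • (1 : Matrix (T.ι (j + 1)) (T.ι (j + 1)) A) - h * T.d j) = 0 →
      ∃ h' : Matrix (T.ι (j + 2)) (T.ι (j + 1)) A,
        T.d (j + 1) * h' = f • (1 : Matrix (T.ι (j + 1)) (T.ι (j + 1)) A) - h * T.d j ∧
        T.d (j + 1) * (f • (1 : Matrix (T.ι (j + 2)) (T.ι (j + 2)) A) - h' * T.d (j + 1)) = 0 := by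
    intro j h hj
    obtain ⟨h', hh'⟩ := lift T hT j _ hj
    refine ⟨h', hh', ?_⟩
    rw [Matrix.mul_sub, ← Matrix.mul_assoc, hh', Matrix.sub_mul, Matrix.mul_assoc h,
      d_mul T hT j, Matrix.mul_zero, sub_zero, Matrix.mul_smul, Matrix.mul_one, Matrix.smul_mul,
      Matrix.one_mul, sub_self]
  have hs0 : T.d 0 * (f • (1 : Matrix (T.ι 1) (T.ι 1) A) - h0 * T.d 0) = 0 := by
    rw [Matrix.mul_sub, ← Matrix.mul_assoc, hh0, Matrix.mul_smul, Matrix.mul_one, Matrix.smul_mul,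
      Matrix.one_mul, sub_self]
  let H : ∀ j : ℕ, {h : Matrix (T.ι (j + 1)) (T.ι j) A //
      T.d j * (f • (1 : Matrix (T.ι (j + 1)) (T.ι (j + 1)) A) - h * T.d j) = 0} := fun j =>
    Nat.rec ⟨h0, hs0⟩
      (fun k hk => ⟨Classical.choose (key k hk.1 hk.2), (Classical.choose_spec (key k hk.1 hk.2)).2⟩) j
  refine ⟨fun j => (H j).1, hh0.symm, fun j => ?_⟩
  have h1 : T.d (j + 1) * (H (j + 1)).1 =
      f • (1 : Matrix (T.ι (j + 1)) (T.ι (j + 1)) A) - (H j).1 * T.d j :=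
    (Classical.choose_spec (key j (H j).1 (H j).2)).1
  rw [h1, sub_add_cancel]

end Pool.Agent.Lib.MP_fe1391_co.Tame.Null
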