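import Pool.Agent.Lib.MP_fe1391_co.Tame.Stmts

/-!
# A2: regular sequences of pivot forms
-/

set_option autoImplicit false

namespace Pool.Agent.Lib.MP_fe1391_co.Tame.Pivot

open MvPolynomial RingTheory.Sequence

universe u v

variable {P : Type u} [CommRing P] {τ : Type v}

open Classical in
/-- the substitution `X s ↦ g s` for `s` in the list `T` -/
noncomputable def sub (T : List τ) (g : τ → MvPolynomial τ P) :
    MvPolynomial τ P →ₐ[P] MvPolynomial τ P :=
  aeval fun s => if s ∈ T then g s else X s

theorem sub_X_mem {T : List τ} (g : τ → MvPolynomial τ P) {s : τ} (hs : s ∈ T) :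
    sub T g (X s) = g s := by
  rw [sub, aeval_X, if_pos hs]

theorem sub_X_notMem {T : List τ} (g : τ → MvPolynomial τ P) {s : τ} (hs : s ∉ T) :
    sub T g (X s) = X s := by
  rw [sub, aeval_X, if_neg hs]

theorem sub_fix {T : List τ} (g : τ → MvPolynomial τ P) (p : MvPolynomial τ P)
    (hp : ∀ s ∈ T, s ∉ p.vars) : sub T g p = p := by
  have h := hom_congr_vars (f₁ := (sub T g : MvPolynomial τ P →ₐ[P] MvPolynomial τ P).toRingHom)
    (f₂ := RingHom.id _) (p₁ := p) (p₂ := p) (by
      ext x
      simp) (by
      intro i hi _
      have : i ∉ T := fun hT => hp i hT hi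
      simpa using sub_X_notMem g this) rfl
  simpa using h

/-- modulo an ideal which contains the forms `X s - g s` (`s ∈ T`) the substitution is the
identity -/
theorem sub_congr (T : List τ) (g : τ → MvPolynomial τ P) (I : Ideal (MvPolynomial τ P))
    (hI : ∀ s ∈ T, X s - g s ∈ I) (q : MvPolynomial τ P) : q - sub T g q ∈ I := by
  rw [← Ideal.Quotient.eq]
  have key : (Ideal.Quotient.mkₐ P I) = (Ideal.Quotient.mkₐ P I).comp (sub T g) := by
    apply MvPolynomial.algHom_ext
    intro s
    rw [AlgHom.comp_apply]
    by_cases hs : s ∈ T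
    · rw [sub_X_mem g hs, Ideal.Quotient.mkₐ_eq_mk, Ideal.Quotient.eq]
      exact hI s hs
    · rw [sub_X_notMem g hs]
  exact DFunLike.congr_fun key q

/-- `X t - g` is a nonzerodivisor if `g` does not involve `X t` -/
theorem pivot_reg (t : τ) (g q : MvPolynomial τ P) (ht : t ∉ g.vars) (h : (X t - g) * q = 0) :
    q = 0 := by
  have h1 : ∀ g' : MvPolynomial τ P, sub [t] (fun _ => g') g = g := fun g' =>
    sub_fix _ _ fun s hs => by
      rw [List.mem_singleton.1 hs]
      exact ht
  have hX : ∀ g' : MvPolynomial τ P, sub [t] (fun _ => g') (X t) = g' := fun g' =>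
    sub_X_mem _ (by simp)
  have h2 : sub [t] (fun _ => X t + g) (X t - g) = X t := by
    rw [map_sub, hX, h1, add_sub_cancel_right]
  have h3 : sub [t] (fun _ => X t + g) q = 0 := by
    have := congrArg (sub [t] (fun _ => X t + g)) h
    rw [map_mul, h2, map_zero] at this
    exact (isRegular_X (n := t)).left (this.trans (mul_zero _).symm)
  have h4 : (sub [t] (fun _ => X t - g)).comp (sub [t] (fun _ => X t + g)) =
      AlgHom.id P (MvPolynomial τ P) := by
    apply MvPolynomial.algHom_ext
    intro s
    rw [AlgHom.comp_apply, AlgHom.id_apply]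
    by_cases hs : s = t
    · rw [hs, hX, map_add, hX, h1, sub_add_cancel]
    · have hs' : s ∉ [t] := by simpa using hs
      rw [sub_X_notMem _ hs', sub_X_notMem _ hs']
  have h5 := DFunLike.congr_fun h4 q
  rw [AlgHom.comp_apply, h3, map_zero, AlgHom.id_apply] at h5
  exact h5.symm

theorem pivot_mem (J : Ideal P) (t : τ) (g q : MvPolynomial τ P) (ht : t ∉ g.vars)
    (h : (X t - g) * q ∈ J.map (C : P →+* MvPolynomial τ P)) :
    q ∈ J.map (C : P →+* MvPolynomial τ P) := by
  have hker : ∀ p : MvPolynomial τ P, p ∈ J.map (C : P →+* MvPolynomial τ P) ↔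
      map (Ideal.Quotient.mk J) p = 0 := by
    intro p
    rw [mem_map_C_iff]
    constructor
    · intro hp
      ext m
      rw [coeff_map, coeff_zero, Ideal.Quotient.eq_zero_iff_mem]
      exact hp m
    · intro hp m
      rw [← Ideal.Quotient.eq_zero_iff_mem, ← coeff_map, hp, coeff_zero]
  rw [hker] at h ⊢
  rw [map_mul, map_sub, map_X] at h
  refine pivot_reg t _ _ (fun ht' => ht ?_) h
  exact vars_map _ _ ht'

theorem thm : stPivot.{u, v} := by
  intro P _ τ xs T g hxs hT hg
  have hC : IsWeaklyRegular (MvPolynomial τ P) (xs.map (C : P →+* MvPolynomial τ P)) :=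
    IsWeaklyRegular.of_flat (S := MvPolynomial τ P) hxs
  have main : ∀ T' : List τ, T'.Nodup → (∀ t ∈ T', t ∈ T) →
      IsWeaklyRegular (MvPolynomial τ P) (xs.map C ++ T'.map (fun t => X t - g t)) := by
    intro T'
    induction T' using List.reverseRecOn with
    | nil =>
      intro _ _
      simpa using hC
    | append_singleton T' t ih =>
      intro hnd hsub
      have hnd' : T'.Nodup := (List.nodup_append.1 hnd).1
      have htT' : t ∉ T' := fun h => (List.nodup_append.1 hnd).2.2 t h t (by simp) rfl
      have ih' := ih hnd' fun s hs => hsub s (by simp [hs])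
      rw [List.map_append, ← List.append_assoc, isWeaklyRegular_append_iff]
      refine ⟨ih', ?_⟩
      rw [List.map_singleton, isWeaklyRegular_singleton_iff, smul_eq_mul, Ideal.mul_top,
        isSMulRegular_quotient_iff_mem_of_smul_mem]
      intro z hz
      rw [smul_eq_mul] at hz
      set I := Ideal.ofList (xs.map (C : P →+* MvPolynomial τ P) ++
        T'.map (fun t => X t - g t)) with hI
      have hImem : ∀ s ∈ T', X s - g s ∈ I := fun s hs =>
        Ideal.subset_span (List.mem_append_right _ (List.mem_map_of_mem hs))
      have hCI : (Ideal.ofList xs).map (C : P →+* MvPolynomial τ P) ≤ I := by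
        rw [Ideal.map_ofList, hI, Ideal.ofList_append]
        exact le_sup_left
      have hmap : ∀ p ∈ I, sub T' g p ∈ (Ideal.ofList xs).map (C : P →+* MvPolynomial τ P) := by
        have hle : I ≤ ((Ideal.ofList xs).map (C : P →+* MvPolynomial τ P)).comap
            (sub T' g : MvPolynomial τ P →ₐ[P] MvPolynomial τ P).toRingHom := by
          rw [hI, Ideal.ofList, Ideal.span_le]
          intro p hp
          rcases List.mem_append.1 hp with hp | hp
          · obtain ⟨x, hx, rfl⟩ := List.mem_map.1 hp
            rw [SetLike.mem_coe, Ideal.mem_comap]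
            have : (sub T' g : MvPolynomial τ P →ₐ[P] MvPolynomial τ P).toRingHom (C x) = C x := by
              simp [← algebraMap_eq]
            rw [this]
            exact Ideal.mem_map_of_mem _ (Ideal.subset_span hx)
          · obtain ⟨s, hs, rfl⟩ := List.mem_map.1 hp
            rw [SetLike.mem_coe, Ideal.mem_comap]
            have : (sub T' g : MvPolynomial τ P →ₐ[P] MvPolynomial τ P).toRingHom (X s - g s) =
                0 := by
              change sub T' g (X s - g s) = 0
              rw [map_sub, sub_X_mem g hs, sub_fix g (g s)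
                (fun r hr => hg s (hsub s (by simp [hs])) r (hsub r (by simp [hr]))), sub_self]
            rw [this]
            exact Ideal.zero_mem _
        exact hle
      have h1 := hmap _ hz
      have htm : t ∈ T := hsub t (by simp)
      rw [map_mul, map_sub, sub_X_notMem g htT', sub_fix g (g t)
        (fun r hr => hg t htm r (hsub r (by simp [hr])))] at h1
      have h2 := pivot_mem _ t _ _ (hg t htm t htm) h1
      have h3 := sub_congr T' g I hImem z
      have h4 := I.add_mem h3 (hCI h2)
      rwa [sub_add_cancel] at h4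
  exact main T hT fun _ h => h

end Pool.Agent.Lib.MP_fe1391_co.Tame.Pivot
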