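import Pool.Agent.Lib.MP_fe1391_co.Tame.Stmts

/-!
# Tame arrangements: the start of the induction (F1)
-/

set_option autoImplicit false

namespace Pool.Agent.Lib.MP_fe1391_co.Tame.Start

open MvPolynomial

universe u

theorem lin_ne_zero {K : Type u} [Field K] {ℓ : ℕ} {b : Fin ℓ → K} (hb : b ≠ 0) :
    lin b ≠ 0 := by
  classical
  intro h
  apply hb
  funext i
  have h1 : MvPolynomial.eval (fun j => if j = i then (1 : K) else 0) (lin b) = 0 := by
    rw [h, map_zero]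
  simpa [lin] using h1

theorem Qof_ne_zero {K : Type u} [Field K] {ℓ : ℕ} {B : Finset (Fin ℓ → K)} (hB : Norm B) :
    Qof B ≠ 0 :=
  Finset.prod_ne_zero_iff.mpr fun b hb => lin_ne_zero (hB.ne b hb)

theorem thm (hBC : stBC.{u}) (hE4 : stBaseC.{u}) (hE6 : stExt.{u}) : stStart.{u} := by
  intro K _ ℓ B hB G ε hG
  have h := (hBC K ℓ B (Fin ℓ → Fin ℓ) (LogA (S K ℓ) B ℓ) 0 G ε ℓ hG).1
  rw [← hE4 K ℓ B ℓ] at h
  refine ⟨h.exact, h.len, h.min, h.nonneg, h.hom, h.eh, h.surj, fun t => ?_⟩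
  rw [← h.ker t]
  constructor
  · rintro ⟨θ, hθ, hc⟩
    rw [(hE6 K ℓ B hB).2.1, Submodule.mem_bot] at hθ
    rw [hθ, map_zero] at hc
    have hQ : (C (Qof B) : R B) ≠ 0 := fun h0 =>
      Qof_ne_zero hB (C_injective _ _ (h0.trans C_0.symm))
    funext w
    have := congrFun hc w
    rw [Pi.smul_apply, smul_eq_mul, Pi.zero_apply] at this
    rcases mul_eq_zero.mp this.symm with h1 | h1
    · exact absurd h1 hQ
    · exact h1
  · intro h0
    exact ⟨0, Submodule.zero_mem _, by rw [h0, map_zero, smul_zero]⟩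

end Pool.Agent.Lib.MP_fe1391_co.Tame.Start
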