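import Pool.Agent.Lib.MP_fe1391_co.Tame.Stmts

/-!
# F2: one mapping cone
-/

set_option autoImplicit false

namespace Pool.Agent.Lib.MP_fe1391_co.Tame.Step

open MvPolynomial

universe u

/-! ### Short resolutions -/

theorem fr_congr {A : Type u} [CommRing A] : ∀ (k : ℕ) {N N' : Type u} [AddCommGroup N]
    [Module A N] [AddCommGroup N'] [Module A N'], (N ≃ₗ[A] N') → FR A k N → FR A k N'
  | 0, _, _, _, _, _, _, e, h => by
    have h' : Module.Free A _ := h
    exact Module.Free.of_equiv e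
  | k + 1, _, _, _, _, _, _, e, h => by
    obtain ⟨F, i1, i2, i3, f, hf, hk⟩ := h
    refine ⟨F, i1, i2, i3, e.toLinearMap ∘ₗ f, e.surjective.comp hf, ?_⟩
    have : LinearMap.ker (e.toLinearMap ∘ₗ f) = LinearMap.ker f :=
      LinearMap.ker_comp_of_ker_eq_bot f e.ker
    rw [this]
    exact hk

/-- the cokernels in an exact complex of length at most `L` have short resolutions -/
theorem fr_coker {A : Type u} [CommRing A] (T : Cx A) (hT : T.Exact) : ∀ (k j : ℕ),
    (∀ i, j + k < i → IsEmpty (T.ι i)) →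
    FR A k ((T.ι j → A) ⧸ LinearMap.range (T.d j).mulVecLin)
  | 0, j, h => by
    have hemp : IsEmpty (T.ι (j + 1)) := h (j + 1) (by omega)
    have hbot : LinearMap.range (T.d j).mulVecLin = ⊥ := by
      rw [eq_bot_iff]
      rintro _ ⟨w, rfl⟩
      rw [Submodule.mem_bot]
      have : w = 0 := Subsingleton.elim _ _
      rw [this, map_zero]
    have e : (T.ι j → A) ≃ₗ[A] ((T.ι j → A) ⧸ LinearMap.range (T.d j).mulVecLin) :=
      ((Submodule.quotEquivOfEqBot _ hbot)).symm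
    exact fr_congr 0 e (show Module.Free A (T.ι j → A) from inferInstance)
  | k + 1, j, h => by
    refine ⟨T.ι j → A, inferInstance, inferInstance, inferInstance,
      Submodule.mkQ _, Submodule.mkQ_surjective _, ?_⟩
    rw [Submodule.ker_mkQ]
    have ih := fr_coker T hT k (j + 1) (fun i hi => h i (by omega))
    have hker : LinearMap.ker (T.d j).mulVecLin = LinearMap.range (T.d (j + 1)).mulVecLin := by
      ext v
      rw [LinearMap.mem_ker, LinearMap.mem_range, Matrix.mulVecLin_apply, hT j v]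
      constructor
      · rintro ⟨w, rfl⟩
        exact ⟨w, rfl⟩
      · rintro ⟨w, rfl⟩
        exact ⟨w, rfl⟩
    have e : ((T.ι (j + 1) → A) ⧸ LinearMap.range (T.d (j + 1)).mulVecLin) ≃ₗ[A]
        LinearMap.range (T.d j).mulVecLin :=
      (Submodule.quotEquivOfEq _ _ hker.symm).trans (T.d j).mulVecLin.quotKerEquivRange
    exact fr_congr k e ih

/-! ### Homogeneous components -/

section Graded

variable {K : Type u} [Field K] {A : Type u} [CommRing A] [Algebra K A]
  {g : ℤ → Submodule K A}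

/-- multiplication by a homogeneous element and homogeneous components -/
theorem proj_mul (hg : GrAlg g) {π : ℤ → A →ₗ[K] A}
    (h1 : ∀ m a, π m a ∈ g m) (h2 : ∀ m a, a ∈ g m → π m a = a)
    (h3 : ∀ m n a, a ∈ g m → n ≠ m → π n a = 0)
    (h4 : ∀ a, ∃ s : Finset ℤ, a = ∑ m ∈ s, π m a ∧ ∀ m, m ∉ s → π m a = 0)
    {n : ℤ} {a : A} (ha : a ∈ g n) (k : ℤ) (b : A) : π (n + k) (a * b) = a * π k b := by
  classical
  obtain ⟨s, hs, hs'⟩ := h4 b
  conv_lhs => rw [hs, Finset.mul_sum, map_sum]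
  have : ∀ m ∈ s, π (n + k) (a * π m b) = if m = k then a * π k b else 0 := by
    intro m _
    split_ifs with hm
    · subst hm
      exact h2 _ _ (hg.mul ha (h1 _ _))
    · exact h3 (n + m) _ _ (hg.mul ha (h1 _ _)) (by omega)
  rw [Finset.sum_congr rfl this, Finset.sum_ite_eq' s k (fun _ => a * π k b)]
  split_ifs with hk
  · rfl
  · rw [hs' k hk, mul_zero]

end Graded

variable {K : Type u} [Field K] {ℓ : ℕ} {B : Finset (Fin ℓ → K)}

omit [Field K] in
theorem wt_zero : wt (0 : Tau B →₀ ℕ) = 0 := by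
  simp [wt]

theorem cc_mem {m : ℤ} {f : R B} (hf : f ∈ grR B m) :
    (constantCoeff f : S K ℓ) ∈ grS (K := K) (ℓ := ℓ) m := by
  have := hf 0
  rw [wt_zero, sub_zero] at this
  exact this

/-- homogeneous components of elements of `uR` are in `uR` -/
theorem proj_uR (hS : GrAlg (K := K) (A := S K ℓ) grS) {π : ℤ → R B →ₗ[K] R B}
    (h1 : ∀ m a, π m a ∈ grR B m)
    (h4 : ∀ a, ∃ s : Finset ℤ, a = ∑ m ∈ s, π m a ∧ ∀ m, m ∉ s → π m a = 0)
    {a : R B} (ha : a ∈ uR B) (k : ℤ) : π k a ∈ uR B := by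
  classical
  obtain ⟨s, hs, hs'⟩ := h4 a
  by_cases hk : k ∈ s
  · obtain ⟨ρ, r1, r2, r3, -⟩ := hS.proj
    rw [uR, RingHom.mem_ker] at ha ⊢
    rw [hs, map_sum] at ha
    have h5 := congrArg (ρ k) ha
    rw [map_sum, map_zero] at h5
    have : ∀ m ∈ s, ρ k (constantCoeff (π m a) : S K ℓ) =
        if m = k then (constantCoeff (π k a) : S K ℓ) else 0 := by
      intro m _
      split_ifs with hm
      · subst hm
        exact r2 _ _ (cc_mem (h1 _ _))
      · exact r3 m k _ (cc_mem (h1 _ _)) (fun h => hm h.symm)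
    rw [Finset.sum_congr rfl this,
      Finset.sum_ite_eq' s k (fun _ => (constantCoeff (π k a) : S K ℓ)), if_pos hk] at h5
    exact h5
  · rw [hs' k hk]
    exact (uR B).zero_mem

/-- a homogeneous vector in the image of a homogeneous matrix has a homogeneous preimage -/
theorem hlift (hS : GrAlg (K := K) (A := S K ℓ) grS) (hR : GrAlg (K := K) (A := R B) (grR B))
    {a b : Type*} [Fintype b] (M : Matrix a b (R B)) (da : a → ℤ) (db : b → ℤ)
    (hM : ∀ i j, M i j ∈ grR B (db j - da i)) (m : ℤ) (v : a → R B)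
    (hv : ∀ i, v i ∈ grR B (m - da i)) (w : b → R B) (hw : v = M.mulVec w)
    (hu : ∀ j, w j ∈ uR B) :
    ∃ w' : b → R B, v = M.mulVec w' ∧ (∀ j, w' j ∈ uR B) ∧ ∀ j, w' j ∈ grR B (m - db j) := by
  obtain ⟨π, h1, h2, h3, h4⟩ := hR.proj
  refine ⟨fun j => π (m - db j) (w j), ?_, fun j => proj_uR hS h1 h4 (hu j) _, fun j => h1 _ _⟩
  funext i
  have h5 : v i = π (m - da i) (v i) := (h2 _ _ (hv i)).symm
  rw [h5, hw]
  simp only [Matrix.mulVec, dotProduct]
  rw [map_sum]
  refine Finset.sum_congr rfl fun j _ => ?_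
  have h6 := proj_mul hR h1 h2 h3 h4 (hM i j) (m - db j) (w j)
  have h7 : db j - da i + (m - db j) = m - da i := by ring
  rw [h7] at h6
  exact h6

/-! ### The cone -/

/-- the mapping cone -/
def cone {A : Type u} [CommRing A] (T G : Cx A) (φ : ∀ j, Matrix (G.ι j) (T.ι j) A) : Cx A where
  ι := fun j => match j with
    | 0 => G.ι 0
    | j + 1 => T.ι j ⊕ G.ι (j + 1)
  fι := fun j => match j with
    | 0 => G.fι 0
    | _ + 1 => inferInstance
  dι := fun j => match j with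
    | 0 => G.dι 0
    | _ + 1 => inferInstance
  deg := fun j => match j with
    | 0 => G.deg 0
    | j + 1 => Sum.elim (T.deg j) (G.deg (j + 1))
  d := fun j => match j with
    | 0 => Matrix.fromCols (φ 0) (G.d 0)
    | j + 1 => Matrix.fromBlocks (- T.d j) 0 (φ (j + 1)) (G.d (j + 1))

section Cone

variable {A : Type u} [CommRing A] {T G : Cx A} {φ : ∀ j, Matrix (G.ι j) (T.ι j) A}

theorem cone_d0 (v : T.ι 0 ⊕ G.ι 1 → A) : ((cone T G φ).d 0).mulVec v =
    (φ 0).mulVec (v ∘ Sum.inl) + (G.d 0).mulVec (v ∘ Sum.inr) :=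
  Matrix.fromCols_mulVec _ _ _

theorem cone_d1 (j : ℕ) (v : T.ι (j + 1) ⊕ G.ι (j + 2) → A) : ((cone T G φ).d (j + 1)).mulVec v =
    Sum.elim (- (T.d j).mulVec (v ∘ Sum.inl))
      ((φ (j + 1)).mulVec (v ∘ Sum.inl) + (G.d (j + 1)).mulVec (v ∘ Sum.inr)) := by
  refine (Matrix.fromBlocks_mulVec _ _ _ _ _).trans ?_
  rw [Matrix.zero_mulVec, add_zero, Matrix.neg_mulVec]

theorem cone_exact (hT : T.Exact) (hG : G.Exact)
    (hφ : ∀ j, G.d j * φ (j + 1) = φ j * T.d j)
    (e0 : ∀ (a : T.ι 0 → A) (b : G.ι 1 → A), (φ 0).mulVec a + (G.d 0).mulVec b = 0 →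
      ∃ w, a = (T.d 0).mulVec w) : (cone T G φ).Exact := by
  have hφ' : ∀ j (w : T.ι (j + 1) → A), (G.d j).mulVec ((φ (j + 1)).mulVec w) =
      (φ j).mulVec ((T.d j).mulVec w) := by
    intro j w
    rw [Matrix.mulVec_mulVec, hφ, ← Matrix.mulVec_mulVec]
  have hdd : ∀ j (w : G.ι (j + 2) → A), (G.d j).mulVec ((G.d (j + 1)).mulVec w) = 0 :=
    fun j w => (hG j _).2 ⟨w, rfl⟩
  have hTT : ∀ j (w : T.ι (j + 2) → A), (T.d j).mulVec ((T.d (j + 1)).mulVec w) = 0 :=
    fun j w => (hT j _).2 ⟨w, rfl⟩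
  -- the common step
  have key : ∀ j (a : T.ι j → A) (b : G.ι (j + 1) → A) (w : T.ι (j + 1) → A),
      a = (T.d j).mulVec w → (φ j).mulVec a + (G.d j).mulVec b = 0 →
      ∃ w' : T.ι (j + 1) ⊕ G.ι (j + 2) → A,
        Sum.elim a b = ((cone T G φ).d (j + 1)).mulVec w' := by
    intro j a b w ha hab
    have h1 : (G.d j).mulVec ((φ (j + 1)).mulVec w + b) = 0 := by
      rw [Matrix.mulVec_add, hφ', ← ha]
      exact hab
    obtain ⟨w2, hw2⟩ := (hG j _).1 h1
    refine ⟨Sum.elim (-w) w2, ?_⟩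
    rw [cone_d1]
    rw [Sum.elim_comp_inl, Sum.elim_comp_inr, Matrix.mulVec_neg, Matrix.mulVec_neg, neg_neg, ← ha,
      ← hw2, neg_add_cancel_left]
  intro j
  cases j with
  | zero =>
    intro v
    have e := cone_d0 (φ := φ) v
    constructor
    · intro h
      have h := e.symm.trans h
      obtain ⟨w, hw⟩ := e0 _ _ h
      obtain ⟨w', hw'⟩ := key 0 _ _ w hw h
      refine ⟨w', ?_⟩
      rw [← hw']
      exact (Sum.elim_comp_inl_inr v).symm
    · rintro ⟨w, hw⟩
      have h2 := hw.trans (cone_d1 (φ := φ) 0 w)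
      refine e.trans ?_
      rw [h2, Sum.elim_comp_inl, Sum.elim_comp_inr, Matrix.mulVec_add, hφ', hdd,
        Matrix.mulVec_neg, add_zero, neg_add_cancel]
      rfl
  | succ j =>
    intro v
    have e := cone_d1 (φ := φ) j v
    constructor
    · intro h
      have h := e.symm.trans h
      have ha : (T.d j).mulVec (v ∘ Sum.inl) = 0 := by
        funext i
        have h3 : -((T.d j).mulVec (v ∘ Sum.inl) i) = 0 := congrFun h (Sum.inl i)
        exact neg_eq_zero.1 h3
      have hb : (φ (j + 1)).mulVec (v ∘ Sum.inl) + (G.d (j + 1)).mulVec (v ∘ Sum.inr) = 0 := by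
        funext i
        exact congrFun h (Sum.inr i)
      obtain ⟨w, hw⟩ := (hT j _).1 ha
      obtain ⟨w', hw'⟩ := key (j + 1) _ _ w hw hb
      refine ⟨w', ?_⟩
      rw [← hw']
      exact (Sum.elim_comp_inl_inr v).symm
    · rintro ⟨w, hw⟩
      have h2 := hw.trans (cone_d1 (φ := φ) (j + 1) w)
      refine e.trans ?_
      rw [h2, Sum.elim_comp_inl, Sum.elim_comp_inr, Matrix.mulVec_add, hφ', hdd,
        Matrix.mulVec_neg, Matrix.mulVec_neg, hTT, add_zero, neg_add_cancel, neg_zero, neg_zero]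
      funext i
      rcases i with i | i <;> rfl

theorem cone_len {L : ℕ} (hT : T.Len L) (hG : G.Len (L + 1)) : (cone T G φ).Len (L + 1) := by
  intro j hj
  cases j with
  | zero => omega
  | succ j =>
    have := hT j (by omega)
    have := hG (j + 1) hj
    exact (inferInstance : IsEmpty (T.ι j ⊕ G.ι (j + 1)))

theorem cone_min {m : Ideal A} (hT : T.Min m) (hG : G.Min m) (hφ : ∀ j i i', φ j i i' ∈ m) :
    (cone T G φ).Min m := by
  intro j
  cases j with
  | zero =>
    rintro i (i' | i')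
    · exact hφ 0 i i'
    · exact hG 0 i i'
  | succ j =>
    rintro (i | i) (i' | i')
    · exact m.neg_mem (hT j i i')
    · exact m.zero_mem
    · exact hφ (j + 1) i i'
    · exact hG (j + 1) i i'

theorem cone_nonneg (hT : T.Nonneg) (hG : G.Nonneg) : (cone T G φ).Nonneg := by
  intro j
  cases j with
  | zero => exact fun i => hG 0 i
  | succ j =>
    rintro (i | i)
    · exact hT j i
    · exact hG (j + 1) i

theorem cone_hom {K : Type u} [Field K] [Algebra K A] {g : ℤ → Submodule K A}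
    (hT : T.Hom g) (hG : G.Hom g) (hφ : ∀ j i i', φ j i i' ∈ g (T.deg j i' - G.deg j i)) :
    (cone T G φ).Hom g := by
  intro j
  cases j with
  | zero =>
    rintro i (i' | i')
    · exact hφ 0 i i'
    · exact hG 0 i i'
  | succ j =>
    rintro (i | i) (i' | i')
    · exact (g _).neg_mem (hT j i i')
    · exact (g _).zero_mem
    · exact hφ (j + 1) i i'
    · exact hG (j + 1) i i'

theorem cone_card (j : ℕ) : Fintype.card ((cone T G φ).ι (j + 1)) =
    Fintype.card (T.ι j) + Fintype.card (G.ι (j + 1)) :=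
  Fintype.card_sum

theorem cone_cnt (L : ℕ) (c : ℤ) : (cone T G φ).cnt (L + 1) c = G.cnt (L + 1) c - T.cnt L c := by
  have h0 : ∀ j, (Finset.univ.filter fun i => (cone T G φ).deg (j + 1) i = c).card =
      (Finset.univ.filter fun i => T.deg j i = c).card +
        (Finset.univ.filter fun i => G.deg (j + 1) i = c).card := by
    intro j
    have h1 : (Finset.univ.filter fun i : T.ι j ⊕ G.ι (j + 1) =>
        Sum.elim (T.deg j) (G.deg (j + 1)) i = c) =
        (Finset.univ.filter fun i => T.deg j i = c).disjSum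
          (Finset.univ.filter fun i => G.deg (j + 1) i = c) := by
      ext i
      rcases i with i | i <;> simp
    exact (congrArg Finset.card h1).trans (Finset.card_disjSum _ _)
  unfold Cx.cnt
  rw [Finset.sum_range_succ' _ (L + 1), Finset.sum_range_succ' _ (L + 1)]
  have h2 : ((Finset.univ.filter fun i => (cone T G φ).deg 0 i = c).card : ℤ) =
      ((Finset.univ.filter fun i => G.deg 0 i = c).card : ℤ) := rfl
  rw [h2]
  simp only [h0]
  have h3 : ∀ j : ℕ, (-1 : ℤ) ^ (j + 1) *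
      (((Finset.univ.filter fun i => T.deg j i = c).card +
        (Finset.univ.filter fun i => G.deg (j + 1) i = c).card : ℕ) : ℤ) =
      (-1) ^ (j + 1) * ((Finset.univ.filter fun i => G.deg (j + 1) i = c).card : ℤ) -
      (-1) ^ j * ((Finset.univ.filter fun i => T.deg j i = c).card : ℤ) := by
    intro j
    push_cast
    ring
  simp only [h3, Finset.sum_sub_distrib]
  ring

end Cone

/-! ### Lifting the contraction -/

/-- the lifts `φ j` with entries in `(u, z)` -/
theorem lifts (hS : GrAlg (K := K) (A := S K ℓ) grS) (hR : GrAlg (K := K) (A := R B) (grR B))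
    {κ : Type} (T G : Cx (R B)) (hTH : T.Hom (grR B)) (hTE : T.Exact)
    (hGH : G.Hom (grR B)) (hGE : G.Exact) (εG : Matrix κ (G.ι 0) (R B))
    (hεG : ∀ t, εG.mulVec t = 0 ↔ ∃ w, t = (G.d 0).mulVec w)
    (hlu : ∀ j (t : G.ι j → R B), (∀ i, t i ∈ uR B) → (∃ w, t = (G.d j).mulVec w) →
      ∃ w, (∀ i, w i ∈ uR B) ∧ t = (G.d j).mulVec w)
    (φ0 : Matrix (G.ι 0) (T.ι 0) (R B)) (h0u : ∀ i i', φ0 i i' ∈ uR B)
    (h0h : ∀ i i', φ0 i i' ∈ grR B (T.deg 0 i' - G.deg 0 i))
    (h0e : ∀ w, εG.mulVec (φ0.mulVec ((T.d 0).mulVec w)) = 0) :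
    ∃ φ : ∀ j, Matrix (G.ι j) (T.ι j) (R B), φ 0 = φ0 ∧
      (∀ j, G.d j * φ (j + 1) = φ j * T.d j) ∧ (∀ j i i', φ j i i' ∈ uR B) ∧
      (∀ j i i', φ j i i' ∈ grR B (T.deg j i' - G.deg j i)) := by
  classical
  -- one step
  have step : ∀ j (f : Matrix (G.ι j) (T.ι j) (R B)), (∀ i i', f i i' ∈ uR B) →
      (∀ i i', f i i' ∈ grR B (T.deg j i' - G.deg j i)) →
      (∀ w, ∃ w', f.mulVec ((T.d j).mulVec w) = (G.d j).mulVec w') →
      ∃ f' : Matrix (G.ι (j + 1)) (T.ι (j + 1)) (R B), (∀ i i', f' i i' ∈ uR B) ∧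
        (∀ i i', f' i i' ∈ grR B (T.deg (j + 1) i' - G.deg (j + 1) i)) ∧
        G.d j * f' = f * T.d j := by
    intro j f hu hh hz
    have h1 : ∀ i' : T.ι (j + 1), ∃ w' : G.ι (j + 1) → R B,
        (fun i => (f * T.d j) i i') = (G.d j).mulVec w' ∧ (∀ i, w' i ∈ uR B) ∧
        ∀ i, w' i ∈ grR B (T.deg (j + 1) i' - G.deg (j + 1) i) := by
      intro i'
      have h2 : (fun i => (f * T.d j) i i') = f.mulVec ((T.d j).mulVec (Pi.single i' 1)) := by
        rw [Matrix.mulVec_mulVec]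
        funext i
        rw [Matrix.mulVec_single_one]
        rfl
      obtain ⟨w1, hw1⟩ := hz (Pi.single i' 1)
      obtain ⟨w2, hw2u, hw2⟩ := hlu j (fun i => (f * T.d j) i i')
        (fun i => by
          rw [Matrix.mul_apply]
          exact (uR B).sum_mem fun k _ => Ideal.mul_mem_right _ _ (hu i k))
        ⟨w1, h2.trans hw1⟩
      obtain ⟨w3, hw3, hw3u, hw3h⟩ := hlift hS hR (G.d j) (G.deg j) (G.deg (j + 1)) (hGH j)
        (T.deg (j + 1) i') (fun i => (f * T.d j) i i')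
        (fun i => by
          rw [Matrix.mul_apply]
          refine Submodule.sum_mem _ fun k _ => ?_
          have h3 := hR.mul (hh i k) (hTH j k i')
          have h4 : T.deg j k - G.deg j i + (T.deg (j + 1) i' - T.deg j k) =
            T.deg (j + 1) i' - G.deg j i := by ring
          rw [h4] at h3
          exact h3) w2 hw2 hw2u
      exact ⟨w3, hw3, hw3u, hw3h⟩
    choose f' h1 h2 h3 using h1
    refine ⟨fun i i' => f' i' i, fun i i' => h2 i' i, fun i i' => h3 i' i, ?_⟩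
    refine Matrix.ext fun i i' => ?_
    exact (congrFun (h1 i') i).symm
  -- iterate
  let P : ∀ j, Matrix (G.ι j) (T.ι j) (R B) → Prop := fun j f =>
    (∀ i i', f i i' ∈ uR B) ∧ (∀ i i', f i i' ∈ grR B (T.deg j i' - G.deg j i)) ∧
      ∀ w, ∃ w', f.mulVec ((T.d j).mulVec w) = (G.d j).mulVec w'
  have hstep : ∀ j (f : {f // P j f}), ∃ f' : {f' // P (j + 1) f'}, G.d j * f'.1 = f.1 * T.d j := by
    rintro j ⟨f, hu, hh, hz⟩
    obtain ⟨f', hu', hh', he⟩ := step j f hu hh hz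
    refine ⟨⟨f', hu', hh', fun w => ?_⟩, he⟩
    apply (hGE j _).1
    rw [Matrix.mulVec_mulVec, he, ← Matrix.mulVec_mulVec, (hTE j _).2 ⟨w, rfl⟩, Matrix.mulVec_zero]
  choose F hF using hstep
  have hP0 : P 0 φ0 := ⟨h0u, h0h, fun w => (hεG _).1 (h0e w)⟩
  let Φ : ∀ j, {f // P j f} := fun j => Nat.rec ⟨φ0, hP0⟩ (fun j f => F j f) j
  refine ⟨fun j => (Φ j).1, rfl, fun j => hF j (Φ j), fun j => (Φ j).2.1, fun j => (Φ j).2.2.1⟩

theorem lin_ne_zero {b : Fin ℓ → K} (hb : b ≠ 0) : lin b ≠ 0 := by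
  classical
  intro h
  apply hb
  funext i
  have h1 : MvPolynomial.eval (fun j => if j = i then (1 : K) else 0) (lin b) = 0 := by
    rw [h, map_zero]
  simpa [lin] using h1

theorem Qof_ne_zero (hB : Norm B) : Qof B ≠ 0 :=
  Finset.prod_ne_zero_iff.2 fun b hb => lin_ne_zero (hB.ne b hb)

theorem CQ_ne_zero (hB : Norm B) : (C (Qof B) : R B) ≠ 0 := by
  rw [Ne, C_eq_zero]
  exact Qof_ne_zero hB

/-- the matrix version of `con` -/
theorem con_mulVec {p : ℕ} {a : Type*} [Fintype a] (v : Fin ℓ → R B)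
    (ε : Matrix (Fin (p + 1) → Fin ℓ) a (R B)) (t : a → R B) :
    con v (ε.mulVec t) = ∑ i, t i • con v (fun w => ε w i) := by
  have h : ε.mulVec t = ∑ i, t i • (fun w => ε w i) := by
    funext w
    simp only [Matrix.mulVec, dotProduct, Finset.sum_apply, Pi.smul_apply, smul_eq_mul]
    exact Finset.sum_congr rfl fun i _ => mul_comm _ _
  rw [h, map_sum]
  simp only [map_smul]

theorem core (hS : GrAlg (K := K) (A := S K ℓ) grS) (hR : GrAlg (K := K) (A := R B) (grR B))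
    (hG1 : stG1.{u}) (hCon : stCon.{u}) (hSq : stConSq.{u}) (hHt : stHtpy.{u}) (hB : Norm B)
    {p L : ℕ} {T : Cx (R B)} {ε : Matrix (Fin (p + 1) → Fin ℓ) (T.ι 0) (R B)}
    (hT : IsNRes B (p + 1) L T ε) (hL : L < ℓ)
    {G : Cx (R B)} {εR : Matrix (Fin p → Fin ℓ) (G.ι 0) (R B)}
    (hbc : IsGRes (grR B) (mR B) (p : ℤ) (LogA (R B) B p) (L + 1) G εR)
    (hbu : ∀ j (t : G.ι j → R B), (∀ i, t i ∈ uR B) → (∃ w, t = (G.d j).mulVec w) →
      ∃ w, (∀ i, w i ∈ uR B) ∧ t = (G.d j).mulVec w)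
    (hb0 : ∀ v ∈ uR B • LogA (R B) B p, ∃ t : G.ι 0 → R B, (∀ i, t i ∈ uR B) ∧
      v = εR.mulVec t) :
    ∃ (T' : Cx (R B)) (ε' : Matrix (Fin p → Fin ℓ) (T'.ι 0) (R B)), IsNRes B p (L + 1) T' ε' ∧
      (∀ c : ℤ, T'.cnt (L + 1) c = G.cnt (L + 1) c - T.cnt L c) ∧
      ∀ j, Fintype.card (T'.ι (j + 1)) = Fintype.card (T.ι j) + Fintype.card (G.ι (j + 1)) := by
  classical
  have hQ := CQ_ne_zero hB
  -- columns of `ε`
  have hcol : ∀ i, (fun w => ε w i) ∈ LogA (R B) B (p + 1) := by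
    intro i
    refine (hT.surj _).2 ⟨Pi.single i 1, ?_⟩
    rw [Matrix.mulVec_single_one]
    rfl
  -- the contraction of a column, divided by `Q`
  have hχ : ∀ i, ∃ χ : (Fin p → Fin ℓ) → R B, χ ∈ uR B • LogA (R B) B p ∧
      con (Lam B) (fun w => ε w i) = (C (Qof B) : R B) • χ ∧
      ∀ w, χ w ∈ grR B (T.deg 0 i - p) := by
    intro i
    obtain ⟨f, g, hf, hg, he, hh⟩ := hCon K ℓ B hB p _ (hcol i)
    obtain ⟨hfh, hgh⟩ := hh (T.deg 0 i - (p + 1 : ℕ)) (fun w => hT.eh w i)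
    refine ⟨_, ?_, he, fun w => ?_⟩
    · have hXb : ∀ τ : Tau B, (X τ : R B) ∈ uR B := by
        intro τ
        rw [uR, RingHom.mem_ker, constantCoeff_X]
      refine add_mem (Submodule.sum_mem _ fun b _ => ?_) (Submodule.sum_mem _ fun j _ => ?_)
      · exact Submodule.smul_mem_smul (hXb _) (hf b)
      · exact Submodule.smul_mem_smul (hXb _) (hg j)
    · have hXl : ∀ b : ↥B, (X (Sum.inl b) : R B) ∈ grR B 2 := by
        intro b μ
        rw [coeff_X]
        split_ifs with h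
        · subst h
          have : wt (Finsupp.single (Sum.inl b : Tau B) 1) = 2 := by
            simp [wt, Finsupp.single_apply]
          rw [this, sub_self]
          exact hS.one
        · exact Submodule.zero_mem _
      have hXr : ∀ j : Fin ℓ, (X (Sum.inr j) : R B) ∈ grR B 1 := by
        intro j μ
        rw [coeff_X]
        split_ifs with h
        · subst h
          have : wt (Finsupp.single (Sum.inr j : Tau B) 1) = 1 := by
            simp [wt, Finsupp.single_apply]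
          rw [this, sub_self]
          exact hS.one
        · exact Submodule.zero_mem _
      rw [Pi.add_apply, Finset.sum_apply, Finset.sum_apply]
      refine add_mem (Submodule.sum_mem _ fun b _ => ?_) (Submodule.sum_mem _ fun j _ => ?_)
      · have h1 := hR.mul (hXl b) (hfh b w)
        have h2 : (2 : ℤ) + (T.deg 0 i - ((p + 1 : ℕ) : ℤ) - 1) = T.deg 0 i - p := by
          push_cast
          ring
        rw [h2] at h1
        exact h1
      · have h1 := hR.mul (hXr j) (hgh j w)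
        have h2 : (1 : ℤ) + (T.deg 0 i - ((p + 1 : ℕ) : ℤ)) = T.deg 0 i - p := by
          push_cast
          ring
        rw [h2] at h1
        exact h1
  choose χ hχu hχe hχh using hχ
  -- the first lift
  have h0 : ∀ i, ∃ t : G.ι 0 → R B, χ i = εR.mulVec t ∧
      (∀ j, t j ∈ uR B) ∧ ∀ j, t j ∈ grR B (T.deg 0 i - G.deg 0 j) := by
    intro i
    obtain ⟨t, ht, hte⟩ := hb0 _ (hχu i)
    exact hlift hS hR εR (fun _ => (p : ℤ))
      (fun j => G.deg 0 j) hbc.eh (T.deg 0 i) (χ i) (hχh i) t hte ht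
  choose t0 ht0 ht0u ht0h using h0
  set φ0 : Matrix (G.ι 0) (T.ι 0) (R B) := fun i i' => t0 i' i with hφ0
  -- the fundamental relation
  have hfund : ∀ a : T.ι 0 → R B, con (Lam B) (ε.mulVec a) =
      (C (Qof B) : R B) • εR.mulVec (φ0.mulVec a) := by
    intro a
    rw [con_mulVec]
    have h1 : ∀ i, a i • con (Lam B) (fun w => ε w i) = (C (Qof B) : R B) • a i • χ i := by
      intro i
      rw [hχe, smul_comm]
    simp only [h1]
    rw [← Finset.smul_sum]
    congr 1
    have h2 : φ0.mulVec a = ∑ i, a i • t0 i := by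
      funext j
      simp only [Matrix.mulVec, dotProduct, Finset.sum_apply, Pi.smul_apply, smul_eq_mul]
      exact Finset.sum_congr rfl fun i _ => mul_comm _ _
    rw [h2, Matrix.mulVec_sum]
    refine Finset.sum_congr rfl fun i _ => ?_
    rw [Matrix.mulVec_smul, ← ht0 i]
  have hcancel : ∀ v v' : (Fin p → Fin ℓ) → R B,
      (C (Qof B) : R B) • v = (C (Qof B) : R B) • v' → v = v' := by
    intro v v' h
    funext w
    exact mul_left_cancel₀ hQ (congrFun h w)
  have h0e : ∀ w, εR.mulVec (φ0.mulVec ((T.d 0).mulVec w)) = 0 := by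
    intro w
    obtain ⟨θ, hθ, hθe⟩ := (hT.ker _).2 ⟨w, rfl⟩
    have h1 := hSq (R B) ℓ p (Lam B) θ hθ.1
    rw [hθe, map_smul, hfund, smul_smul] at h1
    funext v
    have h2 := congrFun h1 v
    rw [Pi.smul_apply, smul_eq_mul, Pi.zero_apply] at h2
    exact (mul_eq_zero.1 h2).resolve_left (mul_ne_zero hQ hQ)
  obtain ⟨φ, hφz, hφe, hφu, hφh⟩ := lifts hS hR T G hT.hom hT.exact hbc.hom hbc.exact
    εR hbc.ker hbu φ0 (fun i i' => ht0u i' i) (fun i i' => ht0h i' i) h0e
  -- injectivity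
  have hinj : ∀ a : T.ι 0 → R B, εR.mulVec (φ0.mulVec a) = 0 → ∃ w, a = (T.d 0).mulVec w := by
    intro a ha
    have hcon : con (Lam B) (ε.mulVec a) = 0 := by
      rw [hfund, ha, smul_zero]
    have hmem : ε.mulVec a ∈ LogA (R B) B (p + 1) := (hT.surj _).2 ⟨a, rfl⟩
    have hFR : FR (R B) L ((T.ι 0 → R B) ⧸ LinearMap.range (T.d 0).mulVecLin) :=
      fr_coker T hT.exact L 0 (fun i hi => hT.len i (by omega))
    have hz := hG1 K ℓ B hB L hL _ hFR (Submodule.Quotient.mk a) (fun f hf => by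
      obtain ⟨t, ht, hte⟩ := hf
      obtain ⟨ψ, hψ, hψe⟩ := hHt K ℓ B t ht p _ hmem hcon
      rw [← hte, mul_smul, ← Matrix.mulVec_smul] at hψe
      obtain ⟨w, hw⟩ := (hT.ker _).1 ⟨ψ, hψ, hψe⟩
      rw [← Submodule.Quotient.mk_smul, Submodule.Quotient.mk_eq_zero, hw]
      exact ⟨w, rfl⟩)
    rw [Submodule.Quotient.mk_eq_zero] at hz
    obtain ⟨w, hw⟩ := hz
    exact ⟨w, hw.symm⟩
  have hGε : ∀ w, εR.mulVec ((G.d 0).mulVec w) = 0 := fun w => (hbc.ker _).2 ⟨w, rfl⟩
  have hk : ∀ t : G.ι 0 → R B, (∃ θ ∈ LogA (R B) B (p + 1),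
      con (Lam B) θ = (C (Qof B) : R B) • εR.mulVec t) ↔
      ∃ w : T.ι 0 ⊕ G.ι 1 → R B, t = (φ 0).mulVec (w ∘ Sum.inl) +
        (G.d 0).mulVec (w ∘ Sum.inr) := by
    intro t
    constructor
    · rintro ⟨θ, hθ, hθe⟩
      obtain ⟨a, rfl⟩ := (hT.surj θ).1 hθ
      rw [hfund] at hθe
      have h1 := hcancel _ _ hθe
      have h2 : εR.mulVec (t - φ0.mulVec a) = 0 := by
        rw [Matrix.mulVec_sub, h1, sub_self]
      obtain ⟨b, hb⟩ := (hbc.ker _).1 h2
      refine ⟨Sum.elim a b, ?_⟩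
      rw [Sum.elim_comp_inl, Sum.elim_comp_inr, ← hb, hφz, add_sub_cancel]
    · rintro ⟨w, rfl⟩
      refine ⟨ε.mulVec (w ∘ Sum.inl), (hT.surj _).2 ⟨_, rfl⟩, ?_⟩
      rw [hfund, hφz, Matrix.mulVec_add, hGε, add_zero]
  refine ⟨cone T G φ, εR, ?_, cone_cnt L, cone_card⟩
  constructor
  · refine cone_exact hT.exact hbc.exact hφe ?_
    intro a b hab
    rw [hφz] at hab
    apply hinj
    have h1 := congrArg εR.mulVec hab
    rw [Matrix.mulVec_add, hGε, add_zero, Matrix.mulVec_zero] at h1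
    exact h1
  · exact cone_len hT.len hbc.len
  · refine cone_min hT.min hbc.min fun j i i' => ?_
    have := hφu j i i'
    rw [uR, RingHom.mem_ker] at this
    rw [mR, RingHom.mem_ker, RingHom.comp_apply, this, map_zero]
  · exact cone_nonneg hT.nonneg hbc.nonneg
  · exact cone_hom hT.hom hbc.hom hφh
  · exact hbc.eh
  · exact hbc.surj
  · intro t
    refine (hk t).trans ⟨?_, ?_⟩
    · rintro ⟨w, hw⟩
      exact ⟨w, hw.trans (cone_d0 (T := T) (G := G) (φ := φ) w).symm⟩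
    · rintro ⟨w, hw⟩
      exact ⟨w, hw.trans (cone_d0 (T := T) (G := G) (φ := φ) w)⟩

theorem bc_cnt (G : Cx (S K ℓ)) (s : ℤ) (L : ℕ) (c : ℤ) :
    (G.bc B s).cnt L c = G.cnt L (c - s) := by
  unfold Cx.cnt
  refine Finset.sum_congr rfl fun j _ => ?_
  congr 2
  have : (Finset.univ.filter fun i : G.ι j => G.deg j i + s = c) =
      Finset.univ.filter fun i : G.ι j => G.deg j i = c - s := by
    ext i
    simp only [Finset.mem_filter, Finset.mem_univ, true_and]
    exact eq_sub_iff_add_eq.symm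
  exact congrArg Finset.card this

theorem thm (hS : stGrS.{u}) (hR : stGrR.{u}) (hBC : stBC.{u}) (hG1 : stG1.{u})
    (hCon : stCon.{u}) (hSq : stConSq.{u}) (hHt : stHtpy.{u}) (hBaseC : stBaseC.{u}) :
    stStep.{u} := by
  intro K _ ℓ B hB p L T ε hT hL G εG hG
  obtain ⟨hbc, hbu, hb0⟩ := hBC K ℓ B (Fin p → Fin ℓ) (LogA (S K ℓ) B p) (L + 1) G εG p hG
  rw [← hBaseC K ℓ B p] at hbc hb0
  obtain ⟨T', ε', h1, h2, h3⟩ := core (hS K ℓ) (hR K ℓ B) hG1 hCon hSq hHt hB hT hL
    (G := G.bc B p) (εR := εG.map (C : S K ℓ →+* R B)) hbc hbu hb0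
  refine ⟨T', ε', h1, fun c => ?_, h3⟩
  rw [h2, bc_cnt]

end Pool.Agent.Lib.MP_fe1391_co.Tame.Step
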