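import Pool.Agent.Lib.MP_fe1391_co.Tame.Stmts2

/-!
# Hilbert's syzygy theorem

Every module over the polynomial ring `K[x_1, ..., x_ℓ]` has projective dimension at most `ℓ`.
-/

set_option autoImplicit false

namespace Pool.Agent.Lib.MP_fe1391_co.Tame.Syzygy

open CategoryTheory Polynomial

universe u

section
variable {R : Type u} [CommRing R]

theorem projective_polynomialModule (N : Type u) [AddCommGroup N] [Module R N]
    [Module.Projective R N] : Module.Projective R[X] (PolynomialModule R N) :=
  Module.Projective.of_equiv (PolynomialModule.polynomialTensorProductLEquivPolynomialModule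
    (R := R) (M := N))

/-- the map induced on polynomial modules, linear over the polynomial ring -/
noncomputable def pmap {M N : Type u} [AddCommGroup M] [Module R M] [AddCommGroup N] [Module R N]
    (f : M →ₗ[R] N) : PolynomialModule R M →ₗ[R[X]] PolynomialModule R N where
  toFun := PolynomialModule.map R f
  map_add' := map_add _
  map_smul' := fun p q => by
    have := PolynomialModule.map_smul (R := R) R f p q
    simpa using this

theorem pmap_coeff {M N : Type u} [AddCommGroup M] [Module R M] [AddCommGroup N] [Module R N]
    (f : M →ₗ[R] N) (a : PolynomialModule R M) (n : ℕ) :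
    (pmap f a).coeff n = f (a.coeff n) := rfl

theorem pmap_surjective {M N : Type u} [AddCommGroup M] [Module R M] [AddCommGroup N]
    [Module R N] (f : M →ₗ[R] N) (hf : Function.Surjective f) :
    Function.Surjective (pmap f) := by
  intro b
  induction b using PolynomialModule.induction_linear with
  | zero => exact ⟨0, map_zero _⟩
  | add x y hx hy =>
    obtain ⟨a, rfl⟩ := hx
    obtain ⟨b, rfl⟩ := hy
    exact ⟨a + b, map_add _ _ _⟩
  | single n m =>
    obtain ⟨x, rfl⟩ := hf m
    exact ⟨PolynomialModule.single R n x, PolynomialModule.map_single R f n x⟩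

theorem pmap_injective {M N : Type u} [AddCommGroup M] [Module R M] [AddCommGroup N]
    [Module R N] (f : M →ₗ[R] N) (hf : Function.Injective f) :
    Function.Injective (pmap f) := by
  intro a b hab
  apply PolynomialModule.coeff_injective
  ext n
  apply hf
  rw [← pmap_coeff, ← pmap_coeff, hab]

theorem pmap_range_ker {M N : Type u} [AddCommGroup M] [Module R M] [AddCommGroup N]
    [Module R N] (f : M →ₗ[R] N) :
    LinearMap.range (pmap (LinearMap.ker f).subtype) = LinearMap.ker (pmap f) := by
  ext a
  constructor
  · rintro ⟨b, rfl⟩
    rw [LinearMap.mem_ker]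
    apply PolynomialModule.coeff_injective
    ext n
    rw [pmap_coeff, pmap_coeff]
    exact (b.coeff n).2
  · intro h
    rw [LinearMap.mem_ker] at h
    have hn : ∀ n, f (a.coeff n) = 0 := by
      intro n
      rw [← pmap_coeff, h]
      rfl
    classical
    refine ⟨PolynomialModule.ofCoeff R (Finsupp.onFinset a.coeff.support
      (fun n => ⟨a.coeff n, hn n⟩) ?_), ?_⟩
    · intro n hne
      rw [Finsupp.mem_support_iff]
      intro h0
      apply hne
      ext
      exact h0
    · apply PolynomialModule.coeff_injective
      ext n
      rw [pmap_coeff]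
      rfl

/-- the polynomial module of a kernel is the kernel of the induced map -/
noncomputable def pmapKer {M N : Type u} [AddCommGroup M] [Module R M] [AddCommGroup N]
    [Module R N] (f : M →ₗ[R] N) :
    PolynomialModule R (LinearMap.ker f) ≃ₗ[R[X]] LinearMap.ker (pmap f) :=
  (LinearEquiv.ofInjective (pmap (LinearMap.ker f).subtype)
    (pmap_injective _ (Submodule.subtype_injective _))).trans
    (LinearEquiv.ofEq _ _ (pmap_range_ker f))

theorem pd_polynomialModule (n : ℕ) : ∀ (N : Type u) [AddCommGroup N] [Module R N],
    HasProjectiveDimensionLE (ModuleCat.of R N) n →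
    HasProjectiveDimensionLE (ModuleCat.of R[X] (PolynomialModule R N)) n := by
  induction n with
  | zero =>
    intro N _ _ h
    simp only [HasProjectiveDimensionLE, zero_add] at h ⊢
    rw [← projective_iff_hasProjectiveDimensionLT_one, ← IsProjective.iff_projective] at h ⊢
    exact projective_polynomialModule N
  | succ n ih =>
    intro N _ _ h
    let f : (N →₀ R) →ₗ[R] N := Finsupp.linearCombination R (id : N → N)
    have hf : Function.Surjective f := fun x => ⟨Finsupp.single x 1, by simp [f]⟩
    have S_exact := LinearMap.shortExact_shortComplexKer hf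
    have SX_exact := LinearMap.shortExact_shortComplexKer (pmap_surjective f hf)
    have proj : Projective (ModuleCat.of R (N →₀ R)) := by
      rw [← IsProjective.iff_projective]
      infer_instance
    have projX : Projective (ModuleCat.of R[X] (PolynomialModule R (N →₀ R))) := by
      rw [← IsProjective.iff_projective]
      exact projective_polynomialModule _
    have h1 := (S_exact.hasProjectiveDimensionLT_X₃_iff n proj).mp h
    have h2 := ih (LinearMap.ker f) h1
    have h3 : HasProjectiveDimensionLE (ModuleCat.of R[X] (LinearMap.ker (pmap f))) n :=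
      ModuleCat.hasProjectiveDimensionLE_of_linearEquiv.{u, u}
        (M := ModuleCat.of R[X] (PolynomialModule R (LinearMap.ker f))) (pmapKer f) n
    exact (SX_exact.hasProjectiveDimensionLT_X₃_iff n projX).mpr h3

/-! ### The characteristic sequence -/

variable {M : Type u} [AddCommGroup M] [Module R M] [Module R[X] M] [IsScalarTower R R[X] M]

/-- multiplication by the variable, linear over the base -/
noncomputable def xmul : M →ₗ[R] M where
  toFun := fun m => (X : R[X]) • m
  map_add' := smul_add _
  map_smul' := fun r m => by
    simp only [RingHom.id_apply]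
    rw [← algebraMap_smul R[X] r m, ← algebraMap_smul R[X] r ((X : R[X]) • m), smul_smul,
      smul_smul, mul_comm]

/-- the map `a ↦ X a - (x a)` on the polynomial module -/
noncomputable def phi : PolynomialModule R M →ₗ[R[X]] PolynomialModule R M :=
  (X : R[X]) • LinearMap.id - pmap (xmul (R := R) (M := M))

theorem phi_apply (a : PolynomialModule R M) :
    phi a = (X : R[X]) • a - pmap (xmul (R := R) (M := M)) a := rfl

omit [Module R[X] M] [IsScalarTower R R[X] M] in
theorem X_smul_single (i : ℕ) (m : M) :
    (X : R[X]) • PolynomialModule.single R i m = PolynomialModule.single R (i + 1) m := by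
  rw [← monomial_one_one_eq_X, PolynomialModule.monomial_smul_single, one_smul, add_comm]

theorem phi_single (i : ℕ) (m : M) :
    phi (PolynomialModule.single R i m) = PolynomialModule.single R (i + 1) m
      - PolynomialModule.single R i ((X : R[X]) • m) := by
  rw [phi_apply, X_smul_single]
  congr 1
  exact PolynomialModule.map_single R _ i m

omit [Module R[X] M] [IsScalarTower R R[X] M] in
theorem X_smul_coeff_succ (a : PolynomialModule R M) (n : ℕ) :
    ((X : R[X]) • a).coeff (n + 1) = a.coeff n := by
  rw [← monomial_one_one_eq_X, PolynomialModule.monomial_smul_apply]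
  simp

theorem phi_injective : Function.Injective (phi (R := R) (M := M)) := by
  rw [injective_iff_map_eq_zero]
  intro a ha
  have h1 : ∀ n, a.coeff n = (X : R[X]) • a.coeff (n + 1) := by
    intro n
    have h2 : (phi a).coeff (n + 1) = 0 := by
      rw [ha]
      rfl
    rw [phi_apply] at h2
    have h3 : ((X : R[X]) • a - pmap (xmul (R := R) (M := M)) a).coeff (n + 1)
        = a.coeff n - (X : R[X]) • a.coeff (n + 1) := by
      rw [← X_smul_coeff_succ a n]
      rfl
    rw [h3] at h2
    exact sub_eq_zero.mp h2
  have h4 : ∀ k n, a.coeff n = (X : R[X]) ^ k • a.coeff (n + k) := by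
    intro k
    induction k with
    | zero =>
      intro n
      simp
    | succ k ih =>
      intro n
      rw [ih n, h1 (n + k), smul_smul, ← pow_succ]
      rfl
  apply PolynomialModule.coeff_injective
  ext n
  obtain ⟨b, hb⟩ : ∃ b, ∀ m, b ≤ m → a.coeff m = 0 := by
    refine ⟨a.coeff.support.sup id + 1, fun m hm => ?_⟩
    by_contra hne
    have := Finset.le_sup (f := id) (Finsupp.mem_support_iff.mpr hne)
    simp only [id_eq] at this
    omega
  rw [h4 b n, hb (n + b) (by omega), smul_zero]
  rfl

/-- evaluation at the variable, as an additive map -/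
noncomputable def gmapAux : PolynomialModule R M →+ M where
  toFun := fun a => a.coeff.sum (fun i m => (X : R[X]) ^ i • m)
  map_zero' := by simp
  map_add' := fun a b => by
    rw [PolynomialModule.coeff_add]
    exact Finsupp.sum_add_index' (fun _ => smul_zero _) fun _ _ _ => smul_add _ _ _

omit [IsScalarTower R R[X] M] in
theorem gmapAux_single (i : ℕ) (m : M) :
    gmapAux (PolynomialModule.single R i m) = (X : R[X]) ^ i • m := by
  exact Finsupp.sum_single_index (h := fun (i : ℕ) (m : M) => (X : R[X]) ^ i • m)
    (smul_zero _)

/-- evaluation at the variable -/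
noncomputable def gmap : PolynomialModule R M →ₗ[R[X]] M where
  toFun := gmapAux
  map_add' := map_add _
  map_smul' := fun p a => by
    simp only [RingHom.id_apply]
    induction a using PolynomialModule.induction_linear with
    | zero => simp
    | add x y hx hy => rw [smul_add, map_add, map_add, smul_add, hx, hy]
    | single i m =>
      induction p using Polynomial.induction_on' with
      | add p q hp hq => rw [add_smul, map_add, hp, hq, add_smul]
      | monomial n r =>
        rw [PolynomialModule.monomial_smul_single, gmapAux_single, gmapAux_single, smul_smul,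
          ← C_mul_X_pow_eq_monomial, mul_assoc, ← pow_add, mul_comm, mul_smul]
        congr 1
        rw [← algebraMap_smul R[X] r m]
        rfl

theorem gmap_single (i : ℕ) (m : M) :
    gmap (PolynomialModule.single R i m) = (X : R[X]) ^ i • m := gmapAux_single i m

theorem gmap_surjective : Function.Surjective (gmap (R := R) (M := M)) := fun m =>
  ⟨PolynomialModule.single R 0 m, by rw [gmap_single, pow_zero, one_smul]⟩

theorem gmap_comp_phi : (gmap (R := R) (M := M)).comp phi = 0 := by
  ext a
  rw [LinearMap.comp_apply, LinearMap.zero_apply]
  induction a using PolynomialModule.induction_linear with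
  | zero => simp
  | add x y hx hy => rw [map_add, map_add, hx, hy, add_zero]
  | single i m =>
    rw [phi_single, map_sub, gmap_single, gmap_single, smul_smul, ← pow_succ, sub_self]

theorem sub_mem_range (a : PolynomialModule R M) :
    a - PolynomialModule.single R 0 (gmap a) ∈ LinearMap.range (phi (R := R) (M := M)) := by
  induction a using PolynomialModule.induction_linear with
  | zero => simp
  | add x y hx hy =>
    rw [map_add, PolynomialModule.single_add, add_sub_add_comm]
    exact Submodule.add_mem _ hx hy
  | single i m =>
    induction i generalizing m with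
    | zero =>
      rw [gmap_single, pow_zero, one_smul, sub_self]
      exact Submodule.zero_mem _
    | succ i ih =>
      have h1 := ih ((X : R[X]) • m)
      have h2 : phi (PolynomialModule.single R i m) ∈ LinearMap.range (phi (R := R) (M := M)) :=
        ⟨_, rfl⟩
      rw [phi_single] at h2
      have h3 := Submodule.add_mem _ h2 h1
      rw [gmap_single, smul_smul, ← pow_succ] at h3
      rw [gmap_single]
      simpa using h3

theorem range_eq_ker :
    LinearMap.range (phi (R := R) (M := M)) = LinearMap.ker (gmap (R := R) (M := M)) := by
  apply le_antisymm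
  · rintro _ ⟨a, rfl⟩
    rw [LinearMap.mem_ker, ← LinearMap.comp_apply, gmap_comp_phi, LinearMap.zero_apply]
  · intro a ha
    rw [LinearMap.mem_ker] at ha
    have := sub_mem_range a
    rw [ha, PolynomialModule.single_zero, sub_zero] at this
    exact this

/-- the short complex `0 → M[X] → M[X] → M → 0` -/
noncomputable def charComplex (R M : Type u) [CommRing R] [AddCommGroup M] [Module R M]
    [Module R[X] M] [IsScalarTower R R[X] M] : ShortComplex (ModuleCat.{u} R[X]) :=
  ShortComplex.moduleCatMk (phi (R := R) (M := M)) gmap gmap_comp_phi

theorem charComplex_shortExact : (charComplex R M).ShortExact where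
  exact := by
    rw [ShortComplex.moduleCat_exact_iff_range_eq_ker]
    exact range_eq_ker (R := R) (M := M)
  mono_f := by
    rw [ModuleCat.mono_iff_injective]
    exact phi_injective (R := R) (M := M)
  epi_g := by
    rw [ModuleCat.epi_iff_surjective]
    exact gmap_surjective (R := R) (M := M)

end

/-- global dimension at most `n` (in the universe `u`) -/
def GD (R : Type u) [CommRing R] (n : ℕ) : Prop :=
  ∀ (M : Type u) [AddCommGroup M] [Module R M], HasProjectiveDimensionLE (ModuleCat.of R M) n

theorem gd_polynomial {R : Type u} [CommRing R] {n : ℕ} (h : GD R n) : GD R[X] (n + 1) := by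
  intro M _ _
  let _ : Module R M := Module.compHom M (C : R →+* R[X])
  have : IsScalarTower R R[X] M := by
    constructor
    intro r p m
    rw [Algebra.smul_def, mul_smul]
    rfl
  have h1 : HasProjectiveDimensionLE (ModuleCat.of R[X] (PolynomialModule R M)) n :=
    pd_polynomialModule n M (h M)
  have S_exact := charComplex_shortExact (R := R) (M := M)
  have h2 : HasProjectiveDimensionLT (ModuleCat.of R[X] (PolynomialModule R M)) (n + 2) :=
    hasProjectiveDimensionLT_of_ge _ (n + 1) (n + 2) (by omega)
  exact S_exact.hasProjectiveDimensionLT_X₃ (n + 1) h1 h2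

attribute [local instance] RingHomInvPair.of_ringEquiv in
theorem gd_equiv {R R' : Type u} [CommRing R] [CommRing R'] (e : R ≃+* R') {n : ℕ}
    (h : GD R n) : GD R' n := by
  intro M _ _
  let _ : Module R M := Module.compHom M (e : R →+* R')
  have h1 := h M
  let e' : M ≃ₛₗ[RingHomClass.toRingHom e] M :=
    { AddEquiv.refl M with
      map_smul' := fun r m => rfl }
  exact ModuleCat.hasProjectiveDimensionLE_of_semiLinearEquiv e (M := ModuleCat.of R M)
    (N := ModuleCat.of R' M) e' n

theorem gd_field (K : Type u) [Field K] : GD K 0 := by
  intro M _ _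
  simp only [HasProjectiveDimensionLE, zero_add]
  rw [← projective_iff_hasProjectiveDimensionLT_one, ← IsProjective.iff_projective]
  infer_instance

theorem gd_mvPolynomial (K : Type u) [Field K] (ℓ : ℕ) : GD (S K ℓ) ℓ := by
  induction ℓ with
  | zero => exact gd_equiv (MvPolynomial.isEmptyRingEquiv K (Fin 0)).symm (gd_field K)
  | succ ℓ ih =>
    exact gd_equiv (MvPolynomial.finSuccEquiv K ℓ).symm.toRingEquiv (gd_polynomial ih)

/-- S1: Hilbert's syzygy theorem. -/
theorem thm : stSyzygy.{u} := fun K _ ℓ M _ _ => gd_mvPolynomial K ℓ M

end Pool.Agent.Lib.MP_fe1391_co.Tame.Syzygy
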