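import Pool.Agent.Lib.MP_fe1391_co.Tame.Assemble
import Pool.Agent.Lib.MP_fe1391_co.Tame.Auto
import Pool.Agent.Lib.MP_fe1391_co.Tame.BC
import Pool.Agent.Lib.MP_fe1391_co.Tame.BaseC
import Pool.Agent.Lib.MP_fe1391_co.Tame.Contr
import Pool.Agent.Lib.MP_fe1391_co.Tame.ConSq
import Pool.Agent.Lib.MP_fe1391_co.Tame.Cone
import Pool.Agent.Lib.MP_fe1391_co.Tame.Count
import Pool.Agent.Lib.MP_fe1391_co.Tame.DomReg
import Pool.Agent.Lib.MP_fe1391_co.Tame.Dual
import Pool.Agent.Lib.MP_fe1391_co.Tame.Ext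
import Pool.Agent.Lib.MP_fe1391_co.Tame.Fwd
import Pool.Agent.Lib.MP_fe1391_co.Tame.G13
import Pool.Agent.Lib.MP_fe1391_co.Tame.G2
import Pool.Agent.Lib.MP_fe1391_co.Tame.Gamma
import Pool.Agent.Lib.MP_fe1391_co.Tame.GrLog
import Pool.Agent.Lib.MP_fe1391_co.Tame.Grad
import Pool.Agent.Lib.MP_fe1391_co.Tame.Htpy
import Pool.Agent.Lib.MP_fe1391_co.Tame.Main
import Pool.Agent.Lib.MP_fe1391_co.Tame.Minors
import Pool.Agent.Lib.MP_fe1391_co.Tame.Null
import Pool.Agent.Lib.MP_fe1391_co.Tame.Pair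
import Pool.Agent.Lib.MP_fe1391_co.Tame.Pivot
import Pool.Agent.Lib.MP_fe1391_co.Tame.Res
import Pool.Agent.Lib.MP_fe1391_co.Tame.Saito
import Pool.Agent.Lib.MP_fe1391_co.Tame.Start
import Pool.Agent.Lib.MP_fe1391_co.Tame.Step
import Pool.Agent.Lib.MP_fe1391_co.Tame.Syzygy
import Pool.Agent.Lib.MP_fe1391_co.Tame.Top
import Pool.Agent.Lib.MP_fe1391_co.Tame.Trans

/-!
# Tame arrangements: all modules put together
-/

set_option autoImplicit false

namespace Pool.Agent.Lib.MP_fe1391_co.Tame.Final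

universe u

theorem g2 : stG2.{u} := G2.thm Gamma.thm Pivot.thm Pivot.thm

theorem g1 : stG1.{u} := G13.thm1 Gamma.thm (DomReg.thm Pivot.thm) g2

theorem g3 : stG3.{u} := G13.thm3 Gamma.thm (DomReg.thm Pivot.thm) g2

theorem res : stRes.{u} := Res.thm Grad.thmS

theorem bc : stBC.{u} := BC.thm Grad.thmS Grad.thmR

theorem start : stStart.{u} := Start.thm bc BaseC.thm Ext.thm

theorem step : stStep.{u} :=
  Step.thm Grad.thmS Grad.thmR bc g1 Contr.thm ConSq.thm Htpy.thm BaseC.thm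

theorem cone : stCone.{u} := Cone.thm start step

theorem hilbS : stHilbS.{u} := Count.thmHilb Grad.thmS Count.thm Grad.thmHS

theorem dual : stDual.{u} := Dual.thm Null.thm g1 g3

theorem top : stTop.{u} := Top.thm dual Count.thm Grad.thmR Grad.thmR0 Contr.thm Ext.thm

theorem main : stMain.{u} := Main.thm res GrLog.thm cone hilbS top Ext.thm Pair.thm

theorem auto : stAuto.{u} := Auto.thm Syzygy.thm

theorem saito : stSaito.{u} := Saito.thm res GrLog.thm

theorem hilbP : stHilbP.{u} := Fwd.thm3 Minors.thm Grad.thmS Grad.thmHS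

theorem fwd : stFwd.{u} := Fwd.thm4 saito hilbP

/-- the theorem for tame arrangements -/
theorem thm (K : Type u) [Field K] (ℓ : ℕ) (A : Finset (Submodule K (Fin ℓ → K)))
    (hA : ∀ H ∈ A, ∃ a : Module.Dual K (Fin ℓ → K), a ≠ 0 ∧ LinearMap.ker a = H)
    (htame : ∀ p, 3 ≤ p → p < ℓ → CategoryTheory.HasProjectiveDimensionLE
      (ModuleCat.of (MvPolynomial (Fin ℓ) K) (MDer K A p)) (ℓ - p)) :
    List.TFAE [Module.Free (MvPolynomial (Fin ℓ) K) (Assemble.LDer K A),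
      ∃ f : Polynomial ℤ, f ≠ 0 ∧ f.reverse = f ∧ (f : PowerSeries ℤ) = Assemble.Psi K A,
      ∃ d : Fin ℓ → ℕ, Assemble.Psi K A =
        ∏ i, ∑ j ∈ Finset.range (d i + 1), PowerSeries.X ^ j] :=
  Assemble.assemble main auto fwd Fwd.thm5 Trans.thm2 K ℓ A hA htame

end Pool.Agent.Lib.MP_fe1391_co.Tame.Final
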