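import Mathlib

/-!
# Tame arrangements and palindromic Solomon-Terao polynomials: shared definitions
-/

set_option autoImplicit false

namespace Pool.Agent.Lib.MP_fe1391_co.Tame

open MvPolynomial

universe u

/-! ## Commutative algebra -/

/-- `N` has a resolution of length at most `k` by free modules. -/
def FR (A : Type u) [CommRing A] : ℕ → ∀ (N : Type u) [AddCommGroup N] [Module A N], Prop
  | 0, N, _, _ => Module.Free A N
  | k + 1, N, _, _ => ∃ (F : Type u) (_ : AddCommGroup F) (_ : Module A F)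
      (_ : Module.Free A F) (f : F →ₗ[A] N), Function.Surjective f ∧ FR A k (LinearMap.ker f)

/-- A sequence of matrices over `A` (a candidate for a complex of based free modules with a degree
attached to every basis element). The differential `d j` goes from level `j + 1` to level `j`. -/
structure Cx (A : Type u) [CommRing A] where
  ι : ℕ → Type
  fι : ∀ j, Fintype (ι j)
  dι : ∀ j, DecidableEq (ι j)
  deg : ∀ j, ι j → ℤ
  d : ∀ j, Matrix (ι j) (ι (j + 1)) A

attribute [instance] Cx.fι Cx.dι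

section Cx

variable {A : Type u} [CommRing A]

/-- exactness at all levels `j ≥ 1` -/
def Cx.Exact (T : Cx A) : Prop :=
  ∀ j (v : T.ι (j + 1) → A), (T.d j).mulVec v = 0 ↔ ∃ w, v = (T.d (j + 1)).mulVec w

/-- length at most `L` -/
def Cx.Len (T : Cx A) (L : ℕ) : Prop := ∀ j, L < j → IsEmpty (T.ι j)

/-- all entries lie in the ideal `m` -/
def Cx.Min (T : Cx A) (m : Ideal A) : Prop := ∀ j i i', T.d j i i' ∈ m

/-- all degrees are nonnegative -/
def Cx.Nonneg (T : Cx A) : Prop := ∀ j i, 0 ≤ T.deg j i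

/-- alternating number of basis elements of degree `c` on the levels `0, ..., L` -/
def Cx.cnt (T : Cx A) (L : ℕ) (c : ℤ) : ℤ :=
  ∑ j ∈ Finset.range (L + 1), (-1) ^ j * ((Finset.univ.filter fun i => T.deg j i = c).card : ℤ)

end Cx

section Graded

variable {K : Type u} [Field K] {A : Type u} [CommRing A] [Algebra K A]

/-- the matrices are homogeneous -/
def Cx.Hom (T : Cx A) (g : ℤ → Submodule K A) : Prop :=
  ∀ j i i', T.d j i i' ∈ g (T.deg (j + 1) i' - T.deg j i)

/-- A grading `g` of `A` by finite dimensional subspaces, in nonnegative degrees. -/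
structure GrAlg (g : ℤ → Submodule K A) : Prop where
  one : (1 : A) ∈ g 0
  mul : ∀ {m n : ℤ} {a b : A}, a ∈ g m → b ∈ g n → a * b ∈ g (m + n)
  fin : ∀ m, Module.Finite K (g m)
  neg : ∀ m, m < 0 → g m = ⊥
  proj : ∃ π : ℤ → A →ₗ[K] A, (∀ m a, π m a ∈ g m) ∧ (∀ m a, a ∈ g m → π m a = a) ∧
    (∀ m n a, a ∈ g m → n ≠ m → π n a = 0) ∧
    (∀ a, ∃ s : Finset ℤ, a = ∑ m ∈ s, π m a ∧ ∀ m, m ∉ s → π m a = 0)

/-- homogeneous vectors of degree `m` in the free module with basis degrees `deg` -/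
def Hm (g : ℤ → Submodule K A) {ι : Type*} (deg : ι → ℤ) (m : ℤ) : Submodule K (ι → A) where
  carrier := {v | ∀ i, v i ∈ g (m - deg i)}
  add_mem' := fun hv hw i => (g _).add_mem (hv i) (hw i)
  zero_mem' := fun _ => (g _).zero_mem
  smul_mem' := fun c _ hv i => (g _).smul_mem c (hv i)

/-- A submodule of a free module is graded (for the degrees `deg` of the basis) if every element
is a sum of homogeneous elements of the submodule. -/
def IsGr (g : ℤ → Submodule K A) {ι : Type*} (deg : ι → ℤ) (N : Submodule A (ι → A)) : Prop :=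
  ∀ v ∈ N, ∃ (s : Finset ℤ) (c : ℤ → ι → A), (∀ m ∈ s, c m ∈ N ∧ c m ∈ Hm g deg m) ∧
    v = ∑ m ∈ s, c m

/-- `(T, ε)` is a minimal graded free resolution of length at most `k` of the submodule `N` of
`κ → A`; the coordinates of `κ → A` have degree `s`. -/
structure IsGRes (g : ℤ → Submodule K A) (m : Ideal A) {κ : Type} (s : ℤ)
    (N : Submodule A (κ → A)) (k : ℕ) (T : Cx A) (ε : Matrix κ (T.ι 0) A) : Prop where
  exact : T.Exact
  len : T.Len k
  min : T.Min m
  nonneg : T.Nonneg
  hom : T.Hom g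
  eh : ∀ w i, ε w i ∈ g (T.deg 0 i - s)
  surj : ∀ v, v ∈ N ↔ ∃ t, v = ε.mulVec t
  ker : ∀ t, ε.mulVec t = 0 ↔ ∃ w, t = (T.d 0).mulVec w

end Graded

/-! ## The rings and modules of logarithmic forms -/

variable (K : Type u) [Field K] (ℓ : ℕ)

/-- the polynomial ring `S = K[x_1, ..., x_ℓ]` -/
abbrev S := MvPolynomial (Fin ℓ) K

variable {K ℓ}

/-- the linear form with coefficient vector `b` -/
noncomputable def lin (b : Fin ℓ → K) : S K ℓ := ∑ i, C (b i) * X i

/-- a finite set of pairwise non-proportional nonzero vectors -/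
structure Norm (B : Finset (Fin ℓ → K)) : Prop where
  ne : ∀ b ∈ B, b ≠ 0
  ind : ∀ a ∈ B, ∀ b ∈ B, a ≠ b → ∀ c : K, b ≠ c • a

/-- the product of the linear forms in `B` -/
noncomputable def Qof (B : Finset (Fin ℓ → K)) : S K ℓ := ∏ b ∈ B, lin b

/-- the index set of the variables `u_b` (`b ∈ B`) and `z_i` (`i = 1, ..., ℓ`) -/
abbrev Tau (B : Finset (Fin ℓ → K)) := ↥B ⊕ Fin ℓ

/-- the ring `R = S[u_b, z_i]` -/
abbrev R (B : Finset (Fin ℓ → K)) := MvPolynomial (Tau B) (S K ℓ)

/-- alternating arrays -/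
structure IsAlt {A : Type*} [Zero A] [Neg A] {p : ℕ} (a : (Fin p → Fin ℓ) → A) : Prop where
  nz : ∀ w, ¬ Function.Injective w → a w = 0
  sw : ∀ w (i j : Fin p), i ≠ j → a (w ∘ Equiv.swap i j) = - a w

/-- The logarithmic `p`-derivations with coefficients in `A`, given by their arrays of values
`θ(x_{w 0}, ..., x_{w (p-1)})`. -/
def LogA (A : Type u) [CommRing A] [Algebra (S K ℓ) A] (B : Finset (Fin ℓ → K)) (p : ℕ) :
    Submodule A ((Fin p → Fin ℓ) → A) where
  carrier := {a | IsAlt a ∧ ∀ b ∈ B, ∀ (w : Fin p → Fin ℓ) (j : Fin p),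
    algebraMap (S K ℓ) A (lin b) ∣
      ∑ i, algebraMap (S K ℓ) A (C (b i)) * a (Function.update w j i)}
  add_mem' := by
    rintro a a' ⟨⟨h1, h2⟩, h3⟩ ⟨⟨h1', h2'⟩, h3'⟩
    refine ⟨⟨fun w hw => ?_, fun w i j hij => ?_⟩, fun b hb w j => ?_⟩
    · rw [Pi.add_apply, h1 w hw, h1' w hw, add_zero]
    · rw [Pi.add_apply, Pi.add_apply, h2 w i j hij, h2' w i j hij, neg_add]
    · have := dvd_add (h3 b hb w j) (h3' b hb w j)
      simpa only [Pi.add_apply, mul_add, Finset.sum_add_distrib] using this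
  zero_mem' := by
    refine ⟨⟨fun w _ => rfl, fun w i j _ => ?_⟩, fun b _ w j => ?_⟩
    · simp
    · simp
  smul_mem' := by
    rintro c a ⟨⟨h1, h2⟩, h3⟩
    refine ⟨⟨fun w hw => ?_, fun w i j hij => ?_⟩, fun b hb w j => ?_⟩
    · rw [Pi.smul_apply, h1 w hw, smul_zero]
    · rw [Pi.smul_apply, Pi.smul_apply, h2 w i j hij, smul_neg]
    · have := Dvd.dvd.mul_left (h3 b hb w j) c
      simpa only [Pi.smul_apply, smul_eq_mul, Finset.mul_sum, mul_left_comm] using this

/-- contraction of an array with a covector in the first slot -/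
def con {A : Type*} [CommRing A] {p : ℕ} (v : Fin ℓ → A) :
    ((Fin (p + 1) → Fin ℓ) → A) →ₗ[A] ((Fin p → Fin ℓ) → A) where
  toFun a := fun w => ∑ i, v i * a (Fin.cons i w)
  map_add' a a' := by
    funext w
    simp [mul_add, Finset.sum_add_distrib]
  map_smul' c a := by
    funext w
    simp only [Pi.smul_apply, smul_eq_mul, RingHom.id_apply, Finset.mul_sum]
    exact Finset.sum_congr rfl fun i _ => by ring

open Classical in
/-- `Λ = Q λ`, where `λ = ∑ u_b dα_b/α_b + ∑ z_i dx_i` -/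
noncomputable def Lam (B : Finset (Fin ℓ → K)) : Fin ℓ → R B := fun i =>
  (∑ b : B, X (Sum.inl b) * C (Qof (B.erase b.1) * C (b.1 i))) + C (Qof B) * X (Sum.inr i)

/-- The ideal `I` of all values `⟨θ, λ⟩` (`θ` logarithmic). -/
noncomputable def IR (B : Finset (Fin ℓ → K)) : Ideal (R B) where
  carrier := {f | ∃ t : Fin ℓ → R B, (∀ b ∈ B, (C (lin b) : R B) ∣ ∑ i, C (C (b i)) * t i) ∧
    C (Qof B) * f = ∑ i, Lam B i * t i}
  add_mem' := by
    rintro f f' ⟨t, h1, h2⟩ ⟨t', h1', h2'⟩
    refine ⟨t + t', fun b hb => ?_, ?_⟩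
    · have := dvd_add (h1 b hb) (h1' b hb)
      simpa only [Pi.add_apply, mul_add, Finset.sum_add_distrib] using this
    · rw [mul_add, h2, h2', ← Finset.sum_add_distrib]
      exact Finset.sum_congr rfl fun i _ => by rw [Pi.add_apply, mul_add]
  zero_mem' := ⟨0, fun b _ => by simp, by simp⟩
  smul_mem' := by
    rintro c f ⟨t, h1, h2⟩
    refine ⟨c • t, fun b hb => ?_, ?_⟩
    · have := Dvd.dvd.mul_left (h1 b hb) c
      simpa only [Pi.smul_apply, smul_eq_mul, Finset.mul_sum, mul_left_comm] using this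
    · have : C (Qof B) * (c • f) = c * (C (Qof B) * f) := by rw [smul_eq_mul]; ring
      rw [this, h2, Finset.mul_sum]
      exact Finset.sum_congr rfl fun i _ => by rw [Pi.smul_apply, smul_eq_mul]; ring

/-! ## Gradings -/

/-- homogeneous polynomials of degree `m` (an integer) -/
noncomputable def grS (m : ℤ) : Submodule K (S K ℓ) :=
  if 0 ≤ m then homogeneousSubmodule (Fin ℓ) K m.toNat else ⊥

/-- weight of a monomial in the variables `u_b` (weight `2`) and `z_i` (weight `1`) -/
def wt {B : Finset (Fin ℓ → K)} (μ : Tau B →₀ ℕ) : ℤ :=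
  (∑ b : B, 2 * (μ (Sum.inl b) : ℤ)) + ∑ i : Fin ℓ, (μ (Sum.inr i) : ℤ)

/-- the grading of `R` with `deg x = 1`, `deg u = 2`, `deg z = 1` -/
noncomputable def grR (B : Finset (Fin ℓ → K)) (m : ℤ) : Submodule K (R B) where
  carrier := {f | ∀ μ, coeff μ f ∈ grS (K := K) (ℓ := ℓ) (m - wt μ)}
  add_mem' := fun hf hf' μ => by rw [coeff_add]; exact Submodule.add_mem _ (hf μ) (hf' μ)
  zero_mem' := fun μ => by rw [coeff_zero]; exact Submodule.zero_mem _
  smul_mem' := fun c f hf μ => by rw [coeff_smul]; exact Submodule.smul_mem _ c (hf μ)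

/-- the irrelevant ideal of `S` -/
noncomputable def mS (K : Type u) [Field K] (ℓ : ℕ) : Ideal (S K ℓ) :=
  RingHom.ker (constantCoeff : S K ℓ →+* K)

/-- the ideal `(u, z)` of `R` -/
noncomputable def uR (B : Finset (Fin ℓ → K)) : Ideal (R B) :=
  RingHom.ker (constantCoeff : R B →+* S K ℓ)

/-- the irrelevant ideal of `R` -/
noncomputable def mR (B : Finset (Fin ℓ → K)) : Ideal (R B) :=
  RingHom.ker ((constantCoeff : S K ℓ →+* K).comp (constantCoeff : R B →+* S K ℓ))

/-- base change of a complex from `S` to `R`, with all degrees raised by `s` -/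
noncomputable def Cx.bc (T : Cx (S K ℓ)) (B : Finset (Fin ℓ → K)) (s : ℤ) : Cx (R B) where
  ι := T.ι
  fι := T.fι
  dι := T.dι
  deg := fun j i => T.deg j i + s
  d := fun j => (T.d j).map C

/-- base change of a submodule of a free module -/
def NR {κ : Type} (B : Finset (Fin ℓ → K)) (N : Submodule (S K ℓ) (κ → S K ℓ)) :
    Submodule (R B) (κ → R B) where
  carrier := {v | ∀ μ : Tau B →₀ ℕ, (fun w => coeff μ (v w)) ∈ N}
  add_mem' := by
    intro v v' hv hv' μ
    have := N.add_mem (hv μ) (hv' μ)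
    convert this using 1
    funext w
    simp
  zero_mem' := by
    intro μ
    convert N.zero_mem using 1
    funext w
    simp
  smul_mem' := by
    classical
    intro c v hv μ
    have h : (fun w => coeff μ ((c • v) w)) =
        ∑ x ∈ Finset.HasAntidiagonal.antidiagonal μ, coeff x.1 c • (fun w => coeff x.2 (v w)) := by
      funext w
      rw [Pi.smul_apply, smul_eq_mul, coeff_mul, Finset.sum_apply]
      rfl
    rw [h]
    exact N.sum_mem fun x _ => N.smul_mem _ (hv _)

/-- `(T, ε)` is a minimal graded free resolution of length at most `L` of the cokernel `N_p` of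
`c : C_{p+1} → C_p`, with augmentation `ε` onto `C_p`. -/
structure IsNRes (B : Finset (Fin ℓ → K)) (p L : ℕ) (T : Cx (R B))
    (ε : Matrix (Fin p → Fin ℓ) (T.ι 0) (R B)) : Prop where
  exact : T.Exact
  len : T.Len L
  min : T.Min (mR B)
  nonneg : T.Nonneg
  hom : T.Hom (grR B)
  eh : ∀ w i, ε w i ∈ grR B (T.deg 0 i - p)
  surj : ∀ v, v ∈ LogA (R B) B p ↔ ∃ t, v = ε.mulVec t
  ker : ∀ t, (∃ θ ∈ LogA (R B) B (p + 1), con (Lam B) θ = (C (Qof B) : R B) • ε.mulVec t) ↔
    ∃ w, t = (T.d 0).mulVec w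

end Pool.Agent.Lib.MP_fe1391_co.Tame
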