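import Pool.Agent.Lib.MP_fe1391_co.Tame.Stmts

/-!
# E6: logarithmic forms in the extreme degrees
-/

set_option autoImplicit false

namespace Pool.Agent.Lib.MP_fe1391_co.Tame.Ext

open MvPolynomial

universe u

theorem lin_ne_zero {K : Type u} [Field K] {ℓ : ℕ} {b : Fin ℓ → K} (hb : b ≠ 0) :
    lin b ≠ 0 := by
  intro h
  apply hb
  funext j
  have h1 : coeff (Finsupp.single j 1) (lin b) = 0 := by rw [h, coeff_zero]
  rw [lin, coeff_sum] at h1
  rw [Finset.sum_eq_single j] at h1
  · rw [coeff_C_mul, coeff_X, if_pos rfl, mul_one] at h1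
    exact h1
  · intro i _ hij
    rw [coeff_C_mul, coeff_X, if_neg, mul_zero]
    intro h2
    exact hij ((Finsupp.single_left_inj one_ne_zero).1 h2)
  · intro h2
    exact absurd (Finset.mem_univ j) h2

theorem Qof_ne_zero {K : Type u} [Field K] {ℓ : ℕ} {B : Finset (Fin ℓ → K)} (hB : Norm B) :
    Qof B ≠ 0 := by
  rw [Qof]
  exact Finset.prod_ne_zero_iff.2 fun b hb => lin_ne_zero (hB.ne b hb)

/-- E6 (extreme degrees). -/
theorem thm : stExt.{u} := by
  intro K _ ℓ B hB
  refine ⟨?_, ?_, ?_⟩
  · rw [eq_top_iff]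
    intro a _
    refine ⟨⟨fun w hw => ?_, fun w i => i.elim0⟩, fun b _ w j => j.elim0⟩
    exact absurd (fun i => Fin.elim0 i) hw
  · rw [eq_bot_iff]
    intro a ha
    rw [Submodule.mem_bot]
    funext w
    refine ha.1.nz w fun hw => ?_
    have := Fintype.card_le_of_injective w hw
    simp at this
  · intro h
    have hmem : (fun w : Fin ℓ → Fin ℓ => Qof B *
        Matrix.det (Matrix.of fun i j => if w i = j then (1 : S K ℓ) else 0)) ∈
        LogA (S K ℓ) B ℓ := by
      refine ⟨⟨fun w hw => ?_, fun w i j hij => ?_⟩, fun b hb w j => ?_⟩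
      · rw [Function.Injective] at hw
        push Not at hw
        obtain ⟨i, j, h1, h2⟩ := hw
        rw [Matrix.det_zero_of_row_eq h2, mul_zero]
        funext k
        simp [h1]
      · have h1 := Matrix.det_permute (Equiv.swap i j)
          (Matrix.of fun i j => if w i = j then (1 : S K ℓ) else 0)
        rw [Equiv.Perm.sign_swap hij] at h1
        have h2 : (Matrix.of fun i' j' => if (w ∘ Equiv.swap i j) i' = j' then (1 : S K ℓ) else 0) =
            (Matrix.of fun i j => if w i = j then (1 : S K ℓ) else 0).submatrix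
              (Equiv.swap i j) id := by
          ext i' j'
          rfl
        rw [h2, h1]
        simp
      · have h1 : algebraMap (S K ℓ) (S K ℓ) (lin b) ∣ Qof B := Finset.dvd_prod_of_mem _ hb
        exact Finset.dvd_sum fun i _ => Dvd.dvd.mul_left (Dvd.dvd.mul_right h1 _) _
    rw [h, Submodule.mem_bot] at hmem
    have h1 := congrFun hmem id
    have h2 : (Matrix.of fun i j : Fin ℓ => if id i = j then (1 : S K ℓ) else 0) = 1 := by
      ext1 i j
      simp [Matrix.one_apply]
    simp only [h2, Matrix.det_one, mul_one, Pi.zero_apply] at h1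
    exact Qof_ne_zero hB h1

end Pool.Agent.Lib.MP_fe1391_co.Tame.Ext
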